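import Pool.Agent.N35.HL.Conv
import Pool.Agent.H141R2.NP10

/-!
# The base block
-/

set_option linter.unusedSectionVars false
set_option linter.unusedVariables false
set_option maxHeartbeats 1000000

namespace Pool.Agent.N35.HL

open Finset Filter Topology KLev

/-- restriction to a set of events -/
def restr {A R : Type} [Fintype A] {k P : ℕ} (S : Ev A R k P) (p : R → Prop) :
    Ev A {e : R // p e} k P where
  s := S.s
  t := S.t
  X := fun e => S.X e.1
  a := fun e => S.a e.1
  b := fun e => S.b e.1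
  tie := fun e => S.tie e.1
  hs := fun e => S.hs e.1
  hne := fun e => S.hne e.1
  hcard := fun e => S.hcard e.1
  hX := fun e f h => Subtype.ext (S.hX h)
  slot := fun e => S.slot e.1
  hslot := fun e f h1 h2 => Subtype.ext (S.hslot _ _ h1 h2)

lemma ev_ge (c : ℝ) : ∀ᶠ H : ℕ in atTop, c ≤ (H:ℝ) :=
  tendsto_natCast_atTop_atTop.eventually (eventually_ge_atTop c)

lemma ev_mul {x y : ℝ} (hx : 0 < x) : ∀ᶠ H : ℕ in atTop, y ≤ H * x := by
  filter_upwards [ev_ge (y / x)] with H h
  rwa [div_le_iff₀ hx] at h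

open scoped Classical in
theorem inn_of_ev {A R : Type} [Fintype A] [Finite R] [Nonempty R] {k P : ℕ} (S : Ev A R k P)
    (σ : A → ℕ) (hσ : ∀ α, S.s α = σ α) (Δ : ℕ) (hΔ : 1 ≤ Δ)
    (h1 : ∀ e, σ (S.b e) + Δ ≤ σ (S.a e)) (h2 : ∀ e, σ (S.a e) ≤ σ (S.b e) + 2 * Δ) :
    ∃ (I : Inn A R (Fin P)) (Rz Δ' U M : ℕ), I.Good k Rz Δ' U M := by
  obtain ⟨Z, hZ⟩ : ∃ Z : ℝ, ∀ r, S.X r < Z := by
    obtain ⟨Z, hZ⟩ := (Set.finite_range S.X).bddAbove
    exact ⟨Z + 1, fun r => by have := hZ ⟨r, rfl⟩; linarith⟩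
  set xs : A → Fin P → ℝ := fun α h =>
    if E : ∃ r, S.a r = α ∧ S.slot r = h then S.X E.choose else Z with hxs
  have hreal : ∀ r, xs (S.a r) (S.slot r) = S.X r := by
    intro r
    have E : ∃ r', S.a r' = S.a r ∧ S.slot r' = S.slot r := ⟨r, rfl, rfl⟩
    simp only [hxs]
    rw [dif_pos E]
    exact congrArg _ (S.hslot _ _ E.choose_spec.1 E.choose_spec.2)
  have hsepo : ∀ r α h, (α = S.a r ∨ α = S.b r) → ¬ (α = S.a r ∧ h = S.slot r) →
      0 < |S.X r - xs α h| := by
    intro r α h _ hne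
    rw [abs_pos, sub_ne_zero]
    simp only [hxs]
    by_cases E : ∃ r', S.a r' = α ∧ S.slot r' = h
    · rw [dif_pos E]
      intro h3
      have h4 := S.hX h3
      apply hne
      have h5 := E.choose_spec
      rw [← h4] at h5
      exact ⟨h5.1.symm, h5.2.symm⟩
    · rw [dif_neg E]
      exact (hZ r).ne
  -- heights
  set F : A → R → ℝ := fun α r => S.s α * S.X r + S.t α - (S.s (S.a r) * S.X r + S.t (S.a r))
    with hF
  have hF0 : ∀ r α, α ≠ S.a r → α ≠ S.b r → 0 < |F α r| := by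
    intro r α ha hb
    rw [abs_pos]
    exact sub_ne_zero.mpr (S.hne r α ha hb)
  -- scaling factor
  have hc : ∀ᶠ c : ℕ in atTop, ∀ r α h, α ≠ S.a r → α ≠ S.b r →
      |S.X r - xs α h| ≤ c * |F α r| := by
    rw [eventually_all]; intro r
    rw [eventually_all]; intro α
    rw [eventually_all]; intro h
    by_cases hab : α ≠ S.a r ∧ α ≠ S.b r
    · filter_upwards [ev_mul (y := |S.X r - xs α h|) (hF0 r α hab.1 hab.2)] with c hc _ _
      exact hc
    · exact Filter.Eventually.of_forall (fun _ ha hb => absurd ⟨ha, hb⟩ hab)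
  obtain ⟨c, hc, hc1⟩ := (hc.and (eventually_ge_atTop 1)).exists
  have hcr : (1:ℝ) ≤ c := by exact_mod_cast hc1
  have hc0 : (0:ℝ) < c := by linarith
  set I : Inn A R (Fin P) :=
    { σ := fun α => c * σ α
      t := fun α => c * S.t α
      x := S.X
      a := S.a
      b := S.b
      slot := S.slot
      act := fun _ => True
      xs := xs } with hI
  have hIF : ∀ α r, I.F α r = c * F α r := by
    intro α r
    unfold Inn.F Inn.y
    simp only [hI, hF]
    rw [hσ, hσ]
    push_cast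
    ring
  have hIFs : ∀ α r, (I.F α r < 0 ↔ F α r < 0) := by
    intro α r
    rw [hIF]
    constructor
    · intro h3
      by_contra h4
      push Not at h4
      have := mul_nonneg hc0.le h4
      linarith
    · intro h3; exact mul_neg_of_pos_of_neg hc0 h3
  -- sizes
  have hU : ∀ᶠ U : ℕ in atTop, (∀ r, |I.x r| ≤ U) ∧ (∀ r, |I.y r| ≤ U) ∧ (∀ α, |I.t α| ≤ U) ∧
      (∀ r α, |I.F α r| ≤ U) ∧ (∀ α h, |I.xs α h| ≤ U) ∧
      (∀ α h, |I.σ α * I.xs α h + I.t α| ≤ U) ∧ (∀ α, I.σ α ≤ U) := by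
    refine Filter.Eventually.and ?_ (Filter.Eventually.and ?_ (Filter.Eventually.and ?_
      (Filter.Eventually.and ?_ (Filter.Eventually.and ?_ (Filter.Eventually.and ?_ ?_)))))
    · rw [eventually_all]; intro r; exact ev_ge _
    · rw [eventually_all]; intro r; exact ev_ge _
    · rw [eventually_all]; intro r; exact ev_ge _
    · rw [eventually_all]; intro r; rw [eventually_all]; intro α; exact ev_ge _
    · rw [eventually_all]; intro r; rw [eventually_all]; intro α; exact ev_ge _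
    · rw [eventually_all]; intro r; rw [eventually_all]; intro α; exact ev_ge _
    · rw [eventually_all]; intro r; exact eventually_ge_atTop _
  obtain ⟨U, ⟨u1, u2, u3, u4, u5, u6, u7⟩, hU1⟩ := (hU.and (eventually_ge_atTop 1)).exists
  have hM : ∀ᶠ M : ℕ in atTop, (∀ r α, α ≠ I.a r → α ≠ I.b r → 1 ≤ M * |I.F α r|) ∧
      (∀ r r', r ≠ r' → 1 ≤ M * |I.x r - I.x r'|) ∧
      (∀ r α h, (α = I.a r ∨ α = I.b r) → ¬ (α = I.a r ∧ h = I.slot r) →
        1 ≤ M * |I.x r - I.xs α h|) := by
    refine Filter.Eventually.and ?_ (Filter.Eventually.and ?_ ?_)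
    · rw [eventually_all]; intro r
      rw [eventually_all]; intro α
      by_cases hab : α ≠ S.a r ∧ α ≠ S.b r
      · have h3 : 0 < |I.F α r| := by
          rw [hIF, abs_mul, abs_of_pos hc0]
          exact mul_pos hc0 (hF0 r α hab.1 hab.2)
        filter_upwards [ev_mul (y := 1) h3] with c hc _ _
        exact hc
      · exact Filter.Eventually.of_forall (fun _ ha hb => absurd ⟨ha, hb⟩ hab)
    · rw [eventually_all]; intro r
      rw [eventually_all]; intro r'
      by_cases hrr : r = r'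
      · exact Filter.Eventually.of_forall (fun _ h' => absurd hrr h')
      · have h3 : 0 < |I.x r - I.x r'| := by
          rw [abs_pos, sub_ne_zero]; exact fun h' => hrr (S.hX h')
        filter_upwards [ev_mul (y := 1) h3] with c hc _
        exact hc
    · rw [eventually_all]; intro r
      rw [eventually_all]; intro α
      rw [eventually_all]; intro h
      by_cases h3 : (α = S.a r ∨ α = S.b r) ∧ ¬ (α = S.a r ∧ h = S.slot r)
      · filter_upwards [ev_mul (y := 1) (hsepo r α h h3.1 h3.2)] with c hc _ _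
        exact hc
      · exact Filter.Eventually.of_forall (fun _ ha hb => absurd ⟨ha, hb⟩ h3)
  obtain ⟨M, ⟨m1, m2, m3⟩, hM1⟩ := (hM.and (eventually_ge_atTop 1)).exists
  obtain ⟨r₀⟩ := (inferInstance : Nonempty R)
  refine ⟨I, U, c * Δ, U, M,
    { hΔ := Nat.mul_pos hc1 hΔ
      hΔR := ?_
      hU := by exact_mod_cast hU1
      hM := by exact_mod_cast hM1
      hσ := u7
      tie := fun r => ?_
      D1 := fun r => ?_
      D2 := fun r => ?_
      mg := m1
      sep := m2
      sepo := m3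
      bx := u1
      bY := u2
      bt := u3
      bF := u4
      bxs := u5
      bys := u6
      real := hreal
      acta := fun _ => trivial
      actb := fun _ => trivial
      th := fun r α h h3 h4 _ => ?_
      level := fun r => ?_
      inj := fun r r' h3 h4 => S.hslot r r' h3 h4 }⟩
  · have h3 : c * Δ ≤ c * σ (S.a r₀) := Nat.mul_le_mul_left _ (by have := h1 r₀; omega)
    exact h3.trans (u7 (S.a r₀))
  · rw [hIF]
    have : F (S.b r) r = 0 := by
      simp only [hF]
      have := S.tie r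
      linarith
    change (c:ℝ) * F (S.b r) r = 0
    rw [this, mul_zero]
  · change c * σ (S.b r) + c * Δ ≤ c * σ (S.a r)
    rw [← Nat.mul_add]
    exact Nat.mul_le_mul_left _ (h1 r)
  · change c * σ (S.a r) ≤ c * σ (S.b r) + 2 * (c * Δ)
    have := Nat.mul_le_mul_left c (h2 r)
    calc c * σ (S.a r) ≤ c * (σ (S.b r) + 2 * Δ) := this
      _ = _ := by ring
  · rw [hIF, abs_mul, abs_of_pos hc0]
    exact hc r α h h3 h4
  · refine Eq.trans ?_ (S.hcard r)
    apply Finset.sum_congr rfl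
    intro α _
    apply if_congr _ rfl rfl
    rw [hIFs]
    simp only [hF]
    rw [sub_neg]

theorem base_of_ev {A R : Type} [Fintype A] [Fintype R] {k P : ℕ} (S : Ev A R k P)
    (σ : A → ℕ) (hσ : ∀ α, S.s α = σ α) (H : ℕ) (hH : ∀ α, σ α ≤ H) (hP : 1 ≤ P)
    (hE : 1 ≤ Fintype.card R) :
    ∃ E' Rz Δ U M, HasI (Fintype.card A) E' P Rz Δ U M ∧
      Fintype.card R ≤ E' * (Nat.log 2 H + 1) := by
  classical
  have hlt : ∀ e, σ (S.b e) < σ (S.a e) := by
    intro e
    have := S.hs e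
    rw [hσ, hσ] at this
    exact_mod_cast this
  set n : R → ℕ := fun e => σ (S.a e) - σ (S.b e) with hn
  have hn1 : ∀ e, 1 ≤ n e := by intro e; have := hlt e; simp only [hn]; omega
  have hn2 : ∀ e, n e ≤ H := by intro e; have := hH (S.a e); simp only [hn]; omega
  set J := Nat.log 2 H + 1 with hJ
  have hmaps : ∀ e ∈ (Finset.univ : Finset R), Nat.log 2 (n e) ∈ Finset.range J := by
    intro e _
    rw [Finset.mem_range, hJ]
    have := Nat.log_mono_right (b := 2) (hn2 e)
    omega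
  have hJ0 : 0 < J := by omega
  have hcard : Fintype.card R = ∑ j ∈ Finset.range J,
      (Finset.univ.filter (fun e : R => Nat.log 2 (n e) = j)).card := by
    rw [← Finset.card_univ]
    exact Finset.card_eq_sum_card_fiberwise hmaps
  obtain ⟨j, hj, hj2⟩ : ∃ j ∈ Finset.range J,
      Fintype.card R ≤ (Finset.univ.filter (fun e : R => Nat.log 2 (n e) = j)).card * J := by
    by_contra hcon
    push Not at hcon
    have h1 : ∑ j ∈ Finset.range J,
        (Finset.univ.filter (fun e : R => Nat.log 2 (n e) = j)).card * J <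
        ∑ _j ∈ Finset.range J, Fintype.card R :=
      Finset.sum_lt_sum_of_nonempty (Finset.nonempty_range_iff.mpr hJ0.ne') hcon
    rw [← Finset.sum_mul, ← hcard] at h1
    simp only [Finset.sum_const, Finset.card_range, smul_eq_mul] at h1
    rw [mul_comm] at h1
    exact lt_irrefl _ h1
  set p : R → Prop := fun e => Nat.log 2 (n e) = j with hp
  have hScard : Fintype.card {e : R // p e} =
      (Finset.univ.filter (fun e : R => Nat.log 2 (n e) = j)).card := Fintype.card_subtype p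
  have hpos : 1 ≤ (Finset.univ.filter (fun e : R => Nat.log 2 (n e) = j)).card := by
    by_contra h1
    have h2 : (Finset.univ.filter (fun e : R => Nat.log 2 (n e) = j)).card = 0 := by omega
    rw [h2, zero_mul] at hj2
    omega
  obtain ⟨e₀, he₀⟩ := Finset.card_pos.mp hpos
  have : Nonempty {e : R // p e} := ⟨⟨e₀, (Finset.mem_filter.mp he₀).2⟩⟩
  have hwin : ∀ e : {e : R // p e}, 2 ^ j ≤ n e.1 ∧ n e.1 ≤ 2 * 2 ^ j := by
    rintro ⟨e, he⟩
    have he' : Nat.log 2 (n e) = j := he
    constructor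
    · rw [← he']; exact Nat.pow_log_le_self 2 (by have := hn1 e; omega)
    · have h5 := Nat.lt_pow_succ_log_self (b := 2) (by norm_num) (n e)
      rw [he', pow_succ] at h5
      change n e ≤ 2 * 2 ^ j
      omega
  obtain ⟨I, Rz, Δ', U, M, hI⟩ := inn_of_ev (restr S p) σ hσ (2 ^ j) Nat.one_le_two_pow
    (fun e => by
      have h1 := (hwin e).1
      have h2 := hlt e.1
      change σ (S.b e.1) + 2 ^ j ≤ σ (S.a e.1)
      simp only [hn] at h1
      omega)
    (fun e => by
      have h1 := (hwin e).2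
      have h2 := hlt e.1
      change σ (S.a e.1) ≤ σ (S.b e.1) + 2 * 2 ^ j
      simp only [hn] at h1
      omega)
  refine ⟨Fintype.card {e : R // p e}, Rz, Δ', U, M, ⟨hP, by rw [hScard]; exact hpos, A,
    {e : R // p e}, Fin P, inferInstance, inferInstance, inferInstance, I, k, hI, rfl, rfl,
    by simp⟩, ?_⟩
  rw [hScard]
  exact hj2

/-- there is a base block with ratio above `2` -/
theorem base_block : ∃ g E P Rz Δ U M : ℕ, HasI g E P Rz Δ U M ∧
    (2:ℝ) * g * 5253 ≤ 2500 * E := by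
  obtain ⟨l₀, hl₀, hlev⟩ := NearPoly.level
    (fun _ _ _ _ _ _ _ _ _ _ h h2 hβ hb => NearPoly.HasO.step h h2 hβ hb) NearPoly.HasO.start
  have hth : (1:ℝ) < NearPoly.th0 := by unfold NearPoly.th0; norm_num
  have hla : (1:ℝ) ≤ NearPoly.la0 := by unfold NearPoly.la0; norm_num
  -- choice of the level
  obtain ⟨s, hs⟩ : ∃ s, 2 * ((NearPoly.ll l₀ s : ℝ) + 1) ≤
      NearPoly.la0 * NearPoly.th0 ^ NearPoly.mu s := by
    obtain ⟨A, hA1, hA2⟩ : ∃ A : ℕ, l₀ ≤ A ∧ 150000 ≤ A :=
      ⟨max l₀ 150000, le_max_left _ _, le_max_right _ _⟩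
    have hmu : Tendsto NearPoly.mu atTop atTop := by
      apply tendsto_atTop_mono (f := fun s => s)
      · intro s
        calc s ≤ 2 ^ s := Nat.lt_two_pow_self.le
          _ ≤ 2 ^ (3 * s ^ 2) := Nat.pow_le_pow_right (by norm_num) (by nlinarith)
          _ ≤ NearPoly.mu s := NearPoly.le_mu s
      · exact tendsto_id
    have h1 : ∀ᶠ n : ℕ in atTop, (n:ℝ) ^ 3 / NearPoly.th0 ^ n < 1 :=
      (tendsto_pow_const_div_const_pow_of_one_lt 3 hth).eventually (gt_mem_nhds zero_lt_one)
    obtain ⟨s, hs1, hs2, hs3⟩ := ((hmu.eventually h1).and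
      ((hmu.eventually (eventually_ge_atTop (2 * A + 2))).and (eventually_ge_atTop 2))).exists
    refine ⟨s, ?_⟩
    have h2 := NearPoly.ll_le (l₀ := l₀) (A := A) hA1 hA2 s
    set x := NearPoly.mu s with hx
    have h3 : 64 ^ s ≤ x := by
      calc 64 ^ s = 2 ^ (6 * s) := by rw [pow_mul]; norm_num
        _ ≤ 2 ^ (3 * s ^ 2) := Nat.pow_le_pow_right (by norm_num) (by nlinarith)
        _ ≤ x := NearPoly.le_mu s
    have h4 : NearPoly.ll l₀ s ≤ A * x * x :=
      h2.trans (Nat.mul_le_mul_right _ (Nat.mul_le_mul_left _ h3))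
    have h4r : (NearPoly.ll l₀ s : ℝ) ≤ A * x * x := by exact_mod_cast h4
    have h5 : (x:ℝ) ^ 3 < NearPoly.th0 ^ x := by
      rwa [div_lt_one (by positivity)] at hs1
    have h6 : (2:ℝ) * A + 2 ≤ x := by exact_mod_cast hs2
    have hA0 : (0:ℝ) ≤ A := by positivity
    have h7 : 2 * ((A:ℝ) * x * x + 1) ≤ x ^ 3 := by
      have h8 : (2 * (A:ℝ) + 2) * x ^ 2 ≤ x * x ^ 2 := mul_le_mul_of_nonneg_right h6 (by positivity)
      have h9 : (1:ℝ) ≤ x ^ 2 := by nlinarith
      nlinarith
    have h8 : 1 * NearPoly.th0 ^ x ≤ NearPoly.la0 * NearPoly.th0 ^ x :=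
      mul_le_mul_of_nonneg_right hla (by positivity)
    linarith
  obtain ⟨N, P, -, -, hN, hP, hH, E, hE, hr, A, R, _, _, k, S, σ, hI, hA, hR⟩ := hlev s
  obtain ⟨E', Rz, Δ, U, M, h1, h2⟩ := base_of_ev S σ hI.hσ (2 ^ NearPoly.ll l₀ s) hI.hH hP
    (by rw [hR]; exact hE)
  rw [Nat.log_pow (by norm_num)] at h2
  refine ⟨_, E', P, Rz, Δ, U, M, h1, ?_⟩
  rw [hR] at h2
  rw [hA]
  have h3 : (E:ℝ) ≤ E' * (NearPoly.ll l₀ s + 1) := by exact_mod_cast h2
  set l := (NearPoly.ll l₀ s : ℝ) + 1 with hl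
  have hl0 : 0 < l := by positivity
  have h4 : 2 * l * N * 5253 ≤ 2500 * (E' * l) := by
    have h5 : 2 * l * (N:ℝ) * 5253 ≤ (NearPoly.la0 * NearPoly.th0 ^ NearPoly.mu s) * N * 5253 := by
      apply mul_le_mul_of_nonneg_right _ (by norm_num)
      exact mul_le_mul_of_nonneg_right hs (by positivity)
    linarith
  have h5 : (2 * N * 5253) * l ≤ (2500 * E') * l := by linarith
  exact le_of_mul_le_mul_right h5 hl0

end Pool.Agent.N35.HL
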