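import Pool.Agent.N35.HL.Defs

/-!
# The composition of an outer and an inner block: definitions
-/

namespace Pool.Agent.N35.HL

open Finset

/-- parameters of a composition -/
structure Prm where
  Nx : ℕ
  V₁ : ℕ
  Rz : ℕ
  Δ : ℕ
  Rd : ℕ
  φ : ℝ
  lam : ℝ
  κ : ℝ
  ε : ℝ

/-- number of rows -/
def Prm.V (p : Prm) : ℕ := p.Rz * p.Nx + p.V₁

/-- vertical scale -/
noncomputable def Prm.δ (p : Prm) : ℝ := p.φ * p.lam / 2

/-- lines of the composition -/
abbrev Idx (A G H : Type) (Nx V : ℕ) : Type :=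
  A × ((Fin Nx × (G × Fin V)) ⊕ ((Fin Nx × (G × Fin V)) ⊕ ((H × Bool) × (G × Fin V))))

/-- rounding to a multiple of `1 / n` -/
noncomputable def rnd (n : ℕ) (x : ℝ) : ℝ := (round (x * n) : ℤ) / n

/-- signs of the two lines of a slot -/
def sg (b : Bool) : ℝ := if b then -1 else 1

section

variable {A R H G R₂ H₂ : Type} (O : Out A R H) (I : Inn G R₂ H₂) (p : Prm) (K : Finset G)

open scoped Classical in
/-- the event of a slot -/
noncomputable def Out.evt (c : A) (h : H) : Option R :=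
  if E : ∃ e, O.a e = c ∧ O.slot e = h then some E.choose else none

lemma Out.evt_spec {c : A} {h : H} {e : R} (E : O.evt c h = some e) :
    O.a e = c ∧ O.slot e = h := by
  unfold Out.evt at E
  split_ifs at E with E'
  simp only [Option.some.injEq] at E
  rw [← E]; exact E'.choose_spec

lemma Out.evt_self (inj : ∀ e f, O.a e = O.a f → O.slot e = O.slot f → e = f) (e : R) :
    O.evt (O.a e) (O.slot e) = some e := by
  unfold Out.evt
  have E : ∃ e', O.a e' = O.a e ∧ O.slot e' = O.slot e := ⟨e, rfl, rfl⟩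
  rw [dif_pos E]
  exact congrArg some (inj _ _ E.choose_spec.1 E.choose_spec.2)

/-- relative slope of the pool lines -/
noncomputable def psi (α : G) : ℝ :=
  (p.φ - p.δ * I.σ α / (1 + p.lam * I.σ α)) / (1 + p.φ)

open scoped Classical in
/-- half row offset -/
noncomputable def tau (α : G) : ℝ := if α ∈ K then -1/2 else 1/2

/-- absolute slope change of a slot line before rounding -/
noncomputable def muS (c : A) (h : H) (b : Bool) (α : G) : ℝ :=
  match O.evt c h with
  | some e => (if b then p.φ else psi I p α) * O.D e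
  | none => p.φ * O.d c h

/-- absolute slope change of a slot line -/
noncomputable def rhoS (c : A) (h : H) (b : Bool) (α : G) : ℝ := rnd p.Rd (muS O I p c h b α)

/-- offset of a slot line -/
noncomputable def omS (c : A) (h : H) (b : Bool) (α : G) (β : ℕ) : ℝ :=
  match O.evt c h with
  | some _ => if b then (p.Nx + 4 : ℝ) else
      psi I p α / 2 + p.δ * (β + p.κ * I.t α) / (1 + p.lam * I.σ α)
  | none => 0

/-- slopes of the composition -/
noncomputable def cs : Idx A G H p.Nx p.V → ℝ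
  | (c, Sum.inl _) => O.s c
  | (c, Sum.inr (Sum.inl _)) => O.s c
  | (c, Sum.inr (Sum.inr ((h, b), (α, _)))) => O.s c - sg b * rhoS O I p c h b α

/-- intercepts of the composition -/
noncomputable def ct : Idx A G H p.Nx p.V → ℝ
  | (c, Sum.inl (i, (α, β))) =>
      O.t c + p.ε * (-p.φ * (i:ℕ) - p.δ * (((I.σ α * (i:ℕ) + (β:ℕ) : ℕ) : ℝ) + tau K α))
  | (c, Sum.inr (Sum.inl (q, _))) => O.t c + p.ε * (1 + (q:ℕ))
  | (c, Sum.inr (Sum.inr ((h, b), (α, β)))) =>
      O.t c + sg b * rhoS O I p c h b α * O.xs c h + p.ε * omS O I p c h b α β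

/-- events of the composition -/
abbrev Ev' (R R₂ : Type) (Nx V₁ : ℕ) : Type := R × (Fin Nx × (Fin V₁ × R₂))

/-- row of an event -/
def row (e : Ev' R R₂ p.Nx p.V₁) : ℕ := p.Rz * p.Nx + (e.2.2.1 : ℕ)

lemma row_lt (e : Ev' R R₂ p.Nx p.V₁) : row p e < p.V := by
  unfold row Prm.V; have := e.2.2.1.2; omega

/-- pool line of an event and an inner line -/
noncomputable def pl (e : Ev' R R₂ p.Nx p.V₁) (α : G) : Idx A G H p.Nx p.V :=
  (O.a e.1, Sum.inr (Sum.inr ((O.slot e.1, false), (α, ⟨row p e - I.σ α * (e.2.1:ℕ),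
    lt_of_le_of_lt (Nat.sub_le _ _) (row_lt p e)⟩))))

/-- upper line of an event (larger slope) -/
noncomputable def ca (e : Ev' R R₂ p.Nx p.V₁) : Idx A G H p.Nx p.V := pl O I p e (I.a e.2.2.2)

/-- lower line of an event -/
noncomputable def cb (e : Ev' R R₂ p.Nx p.V₁) : Idx A G H p.Nx p.V := pl O I p e (I.b e.2.2.2)

/-- slot of an event -/
def csl (e : Ev' R R₂ p.Nx p.V₁) : Fin p.Nx × H₂ := (e.2.1, I.slot e.2.2.2)

/-- abscissa of an event -/
noncomputable def cX (e : Ev' R R₂ p.Nx p.V₁) : ℝ :=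
  (ct O I p K (cb O I p e) - ct O I p K (ca O I p e)) / (cs O I p (ca O I p e) - cs O I p (cb O I p e))

open scoped Classical in
/-- time coordinate of a slot position -/
noncomputable def xi0 (α : G) (β : ℕ) (i : ℕ) (h : H₂) : ℝ :=
  if I.act α then i + p.κ * I.xs α h +
    p.lam * ((β + I.σ α * i : ℝ) + p.κ * (I.σ α * I.xs α h + I.t α)) else -1/2

/-- ideal slot positions of the composition -/
noncomputable def cx0 : Idx A G H p.Nx p.V → Fin p.Nx × H₂ → ℝ
  | (_, Sum.inl _), _ => 0
  | (_, Sum.inr (Sum.inl _)), _ => 0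
  | (_, Sum.inr (Sum.inr ((_, true), _))), _ => 0
  | (c, Sum.inr (Sum.inr ((h, false), (α, β)))), (i, h₂) =>
    match O.evt c h with
    | some e => O.X e + p.ε * (1 / 2 + (1 + p.φ) * xi0 I p α β i h₂) / O.D e
    | none => 0

open scoped Classical in
/-- slot positions of the composition -/
noncomputable def cxs (l : Idx A G H p.Nx p.V) (h : Fin p.Nx × H₂) : ℝ :=
  if E : ∃ e : Ev' R R₂ p.Nx p.V₁, ca O I p e = l ∧ csl I p e = h then cX O I p K E.choose
  else cx0 O I p l h

open scoped Classical in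
/-- slot scales of the composition -/
noncomputable def cd : Idx A G H p.Nx p.V → Fin p.Nx × H₂ → ℝ
  | (_, Sum.inl _), _ => 0
  | (_, Sum.inr (Sum.inl _)), _ => 0
  | (_, Sum.inr (Sum.inr ((_, true), _))), _ => 0
  | (c, Sum.inr (Sum.inr ((h, false), (α, _)))), (i, _) =>
    match O.evt c h with
    | some e => if I.act α ∨ (i:ℕ) ≠ 0 then O.D e * (p.δ * p.Δ) else 0
    | none => 0

/-- the composition -/
noncomputable def comp : Out (Idx A G H p.Nx p.V) (Ev' R R₂ p.Nx p.V₁) (Fin p.Nx × H₂) where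
  s := cs O I p
  t := ct O I p K
  X := cX O I p K
  a := ca O I p
  b := cb O I p
  slot := csl I p
  xs := cxs O I p K
  d := cd O I p

end

end Pool.Agent.N35.HL
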