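import Pool.Agent.N35.HL.Up
import Pool.Agent.H131KL.Iter

/-!
# Blocks and certificates
-/

set_option linter.unusedSectionVars false
set_option linter.unusedVariables false
set_option maxHeartbeats 1000000

namespace Pool.Agent.N35.HL

open Finset

/-- an outer block is an arrangement with events -/
noncomputable def Out.ev {A R H : Type} [Fintype A] [Fintype H] {O : Out A R H} {k K Rd : ℕ}
    {φ q Dl L : ℝ} (hO : O.Good k K φ q Dl L Rd) {P : ℕ} (hH : Fintype.card H = P) :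
    KLev.Ev A R k P where
  s := O.s
  t := O.t
  X := O.X
  a := O.a
  b := O.b
  tie := fun e => by
    have := hO.tie e
    unfold Out.F Out.Y at this
    linarith
  hs := fun e => by
    have h1 := hO.hD e
    have := hO.hq
    have := hO.hqD
    unfold Out.D at h1
    linarith
  hne := fun e c h1 h2 => by
    have h3 := hO.g1 e c h1 h2
    have h4 : 0 < |O.F c e| := lt_of_lt_of_le hO.hq h3
    rw [abs_pos] at h4
    unfold Out.F Out.Y at h4
    exact sub_ne_zero.mp h4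
  hcard := fun e => by
    have h1 := hO.level e
    rw [← h1]
    apply Finset.sum_congr rfl
    intro c _
    apply if_congr _ rfl rfl
    unfold Out.F Out.Y
    rw [sub_neg]
  hX := fun e f h => by
    by_contra hne
    have h1 := hO.w e f hne
    rw [h, sub_self, abs_zero, mul_zero] at h1
    have := hO.hq
    linarith
  slot := fun e => Fintype.equivFinOfCardEq hH (O.slot e)
  hslot := fun e f h1 h2 => hO.inj e f h1 ((Fintype.equivFinOfCardEq hH).injective h2)

/-- an inner block is an arrangement with events -/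
noncomputable def Inn.ev {G R H : Type} [Fintype G] [Fintype H] {I : Inn G R H} {k Rz Δ : ℕ}
    {U M : ℝ} (hI : I.Good k Rz Δ U M) {P : ℕ} (hH : Fintype.card H = P) :
    KLev.Ev G R k P where
  s := fun α => I.σ α
  t := I.t
  X := I.x
  a := I.a
  b := I.b
  tie := fun r => by
    have := hI.tie r
    unfold Inn.F Inn.y at this
    linarith
  hs := fun r => by
    have h1 := hI.D1 r
    have h2 := hI.hΔ
    have h3 : I.σ (I.b r) < I.σ (I.a r) := by omega
    exact_mod_cast h3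
  hne := fun r c h1 h2 => by
    have h3 := hI.mg r c h1 h2
    intro h4
    have h5 : I.F c r = 0 := by unfold Inn.F Inn.y; linarith
    rw [h5, abs_zero, mul_zero] at h3
    linarith
  hcard := fun r => by
    have h1 := hI.level r
    rw [← h1]
    apply Finset.sum_congr rfl
    intro c _
    apply if_congr _ rfl rfl
    unfold Inn.F Inn.y
    rw [sub_neg]
  hX := fun r r' h => by
    by_contra hne
    have h1 := hI.sep r r' hne
    rw [h, sub_self, abs_zero, mul_zero] at h1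
    linarith
  slot := fun r => Fintype.equivFinOfCardEq hH (I.slot r)
  hslot := fun r r' h1 h2 => hI.inj r r' h1 ((Fintype.equivFinOfCardEq hH).injective h2)

theorem HasO.has {Δ N E P Q T L C : ℕ} (h : HasO Δ N E P Q T L C) : KLev.Has N E P := by
  obtain ⟨hP, hE, A, R, H, _, _, _, O, k, K, hO, hA, hR, hH⟩ := h
  obtain ⟨Ct, hC⟩ := NearPoly.ev_cert (Out.ev hO hH)
  have : Nonempty R := Fintype.card_pos_iff.mp (by omega)
  obtain ⟨r⟩ := this
  have hk := NearPoly.level_lt (Out.ev hO hH) r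
  refine ⟨A, R, inferInstance, inferInstance, k + 1, Ct, ?_, hA, hR, by omega, by omega⟩
  intro c
  obtain ⟨z, hz⟩ := hO.slopes c
  have hRd : (0:ℝ) < (T * C : ℕ) := by exact_mod_cast lt_of_lt_of_le Nat.one_pos hO.hRd
  refine ⟨(z : ℚ) / (T * C : ℕ), ?_⟩
  rw [hC]
  change O.s c = _
  push_cast at hz hRd ⊢
  rw [← hz, mul_div_assoc, div_self hRd.ne', mul_one]

theorem HasI.has2 {g E P Rz Δ U M : ℕ} (h : HasI g E P Rz Δ U M) : KLev.Has2 g E P Rz := by
  obtain ⟨hP, hE, G, R, H, _, _, _, I, k, hI, hG, hR, hH⟩ := h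
  obtain ⟨Ct, hC⟩ := NearPoly.ev_cert (Inn.ev hI hH)
  have : Nonempty R := Fintype.card_pos_iff.mp (by omega)
  obtain ⟨r⟩ := this
  have hk := NearPoly.level_lt (Inn.ev hI hH) r
  refine ⟨G, R, inferInstance, inferInstance, k + 1, Ct, I.σ, ?_, hI.hσ, hG, hR, by omega,
    by omega⟩
  intro α
  rw [hC]
  rfl

lemma HasO.N_pos {Δ N E P Q T L C : ℕ} (h : HasO Δ N E P Q T L C) : 1 ≤ N := by
  obtain ⟨hP, hE, A, R, H, _, _, _, O, k, K, hO, hA, hR, hH⟩ := h
  have : Nonempty R := Fintype.card_pos_iff.mp (by omega)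
  obtain ⟨r⟩ := this
  have : Nonempty A := ⟨O.a r⟩
  rw [← hA]
  exact Fintype.card_pos

lemma HasI.g_pos {g E P Rz Δ U M : ℕ} (h : HasI g E P Rz Δ U M) : 1 ≤ g := by
  obtain ⟨hP, hE, G, R, H, _, _, _, I, k, hI, hG, hR, hH⟩ := h
  have : Nonempty R := Fintype.card_pos_iff.mp (by omega)
  obtain ⟨r⟩ := this
  have : Nonempty G := ⟨I.a r⟩
  rw [← hG]
  exact Fintype.card_pos

lemma HasI.Rz_pos {g E P Rz Δ U M : ℕ} (h : HasI g E P Rz Δ U M) : 1 ≤ Rz := by
  obtain ⟨hP, hE, G, R, H, _, _, _, I, k, hI, hG, hR, hH⟩ := h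
  exact hI.hΔ.trans hI.hΔR

lemma HasI.Δ_pos {g E P Rz Δ U M : ℕ} (h : HasI g E P Rz Δ U M) : 1 ≤ Δ := by
  obtain ⟨hP, hE, G, R, H, _, _, _, I, k, hI, hG, hR, hH⟩ := h
  exact hI.hΔ

lemma HasI.Δ_le {g E P Rz Δ U M : ℕ} (h : HasI g E P Rz Δ U M) : Δ ≤ Rz := by
  obtain ⟨hP, hE, G, R, H, _, _, _, I, k, hI, hG, hR, hH⟩ := h
  exact hI.hΔR

lemma HasI.U_pos {g E P Rz Δ U M : ℕ} (h : HasI g E P Rz Δ U M) : 1 ≤ U := by
  obtain ⟨hP, hE, G, R, H, _, _, _, I, k, hI, hG, hR, hH⟩ := h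
  exact_mod_cast hI.hU

lemma HasI.M_pos {g E P Rz Δ U M : ℕ} (h : HasI g E P Rz Δ U M) : 1 ≤ M := by
  obtain ⟨hP, hE, G, R, H, _, _, _, I, k, hI, hG, hR, hH⟩ := h
  exact_mod_cast hI.hM

theorem HasO.hasR {Δ N E P Q T L C : ℕ} {β : ℝ} (h : HasO Δ N E P Q T L C)
    (hβ : β * N * 5253 ≤ 2500 * E) : KLev.HasR N P β :=
  ⟨h.N_pos, h.1, E, h.2.1, h.has, hβ⟩

theorem HasI.hasS {g E P Rz Δ U M : ℕ} {β : ℝ} (h : HasI g E P Rz Δ U M)
    (hβ : β * g * 5253 ≤ 2500 * E) : KLev.HasS g P Rz β :=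
  ⟨h.g_pos, h.1, h.Rz_pos, E, h.2.1, h.has2, hβ⟩

end Pool.Agent.N35.HL
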