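import Pool.Agent.N35.HL.Par

/-!
# Coordinates of the events of a composition
-/

set_option linter.unusedSectionVars false
set_option linter.unusedVariables false
set_option maxHeartbeats 1000000

namespace Pool.Agent.N35.HL

open Finset

section

variable {p : Prm} {φ' q Dl U M : ℝ} (h : p.OK φ' q Dl U M)

include h

/-- the crossing of two rounded pool lines -/
lemma Prm.OK.coord_real {ψa ψb oa ob ηa ηb P0 W0 B η₀ : ℝ}
    (hB : 0 < B) (hB1 : B ≤ 1)
    (h1 : 4 / 5 * p.δ ≤ ψb - ψa)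
    (ha : oa = ψa * (1 / 2 + (1 + p.φ) * (P0 + p.lam * W0)) + (-p.φ * P0 - p.δ * W0))
    (hb : ob = ψb * (1 / 2 + (1 + p.φ) * (P0 + p.lam * W0)) + (-p.φ * P0 - p.δ * W0))
    (h3 : |p.φ / (1 + p.φ) - ψa| ≤ p.δ * p.Rz)
    (hηa : |ηa| ≤ η₀) (hηb : |ηb| ≤ η₀) (hη : 400 * (η₀ * (p.Nx + 2)) ≤ p.δ * B)
    (hu0 : |1 / 2 + (1 + p.φ) * (P0 + p.lam * W0)| ≤ p.Nx + 1) :
    ∃ P W : ℝ, (ob - oa) / ((ψb + ηb) - (ψa + ηa)) = 1 / 2 + (1 + p.φ) * (P + p.lam * W) ∧
      oa - (ψa + ηa) * (1 / 2 + (1 + p.φ) * (P + p.lam * W)) = -p.φ * P - p.δ * W ∧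
      |P - P0| ≤ B / 100 ∧ |W - W0| ≤ B * p.Rz / 100 := by
  have hδ := h.δ0
  have hφ := h.hφ0
  have hl := h.hl0
  have hδφ := h.δφ
  have hNx := h.Nx1
  have hRz := h.Rz1
  have hlR := h.lR
  have hη0 : 0 ≤ η₀ := (abs_nonneg _).trans hηa
  have hη1 : η₀ * 1200 ≤ p.δ := by
    have a1 : η₀ * 3 ≤ η₀ * (p.Nx + 2) := mul_le_mul_of_nonneg_left (by linarith) hη0
    have a2 : p.δ * B ≤ p.δ * 1 := mul_le_mul_of_nonneg_left hB1 hδ.le
    linarith
  have hηa' := abs_le.mp hηa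
  have hηb' := abs_le.mp hηb
  set u0 : ℝ := 1 / 2 + (1 + p.φ) * (P0 + p.lam * W0) with hu0def
  set den : ℝ := (ψb + ηb) - (ψa + ηa) with hden
  have hden1 : 79 / 100 * p.δ ≤ den := by rw [hden]; linarith [hηa'.2, hηb'.1]
  have hden0 : 0 < den := lt_of_lt_of_le (by positivity) hden1
  set u : ℝ := (ob - oa) / den with hu
  have hue : u * den = ob - oa := div_mul_cancel₀ _ hden0.ne'
  have hoo : ob - oa = (ψb - ψa) * u0 := by rw [ha, hb]; ring
  have hdiff : (u - u0) * den = u0 * (ηa - ηb) := by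
    rw [sub_mul, hue, hoo, hden]; ring
  have hab : |ηa - ηb| ≤ 2 * η₀ := by rw [abs_le]; constructor <;> linarith [hηa'.1, hηa'.2, hηb'.1, hηb'.2]
  have hd1 : |u - u0| ≤ B / 158 := by
    have h4 : |u - u0| * den ≤ (p.Nx + 1) * (2 * η₀) := by
      rw [← abs_of_pos hden0, ← abs_mul, hdiff, abs_mul]
      exact mul_le_mul hu0 hab (abs_nonneg _) (by positivity)
    have h5 : |u - u0| * (79 / 100 * p.δ) ≤ |u - u0| * den :=
      mul_le_mul_of_nonneg_left hden1 (abs_nonneg _)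
    have h6 : |u - u0| * (79 / 100 * p.δ) ≤ B / 158 * (79 / 100 * p.δ) := by
      have e3 : ((p.Nx:ℝ) + 1) * (2 * η₀) = 2 * (η₀ * (p.Nx + 2)) - 2 * η₀ := by ring
      have e4 : B / 158 * (79 / 100 * p.δ) = p.δ * B / 200 := by ring
      rw [e4]
      linarith
    exact le_of_mul_le_mul_right h6 (by positivity)
  set ξ : ℝ := (u - 1 / 2) / (1 + p.φ) with hξ
  have hξe : ξ * (1 + p.φ) = u - 1 / 2 := div_mul_cancel₀ _ (by positivity)
  set v : ℝ := oa - (ψa + ηa) * u with hv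
  set W : ℝ := (v + p.φ * ξ) / p.δ with hW
  have hWe : W * p.δ = v + p.φ * ξ := div_mul_cancel₀ _ hδ.ne'
  have hPu : u = 1 / 2 + (1 + p.φ) * ((ξ - p.lam * W) + p.lam * W) := by
    rw [sub_add_cancel]; linarith
  have hu' : |u| ≤ p.Nx + 2 := by
    have : |u| ≤ |u0| + |u - u0| := by
      calc |u| = |u0 + (u - u0)| := by ring_nf
        _ ≤ _ := abs_add_le _ _
    linarith
  -- the vertical error
  have hW1 : (W - W0) * p.δ = (p.φ / (1 + p.φ) - ψa) * (u - u0) - ηa * u := by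
    have h7 : p.φ * ξ = p.φ / (1 + p.φ) * (u - 1 / 2) := by rw [hξ]; ring
    rw [sub_mul, hWe, hv, ha, h7]
    have h8 : p.φ / (1 + p.φ) * (u0 - 1 / 2) = p.φ * (P0 + p.lam * W0) := by
      rw [hu0def]; field_simp; ring
    have h9 : p.φ * (P0 + p.lam * W0) = p.φ * P0 + 2 * (p.δ * W0) := by
      rw [mul_add, ← mul_assoc, hδφ]; ring
    have h10 : p.φ / (1 + p.φ) * (u - 1 / 2) = p.φ / (1 + p.φ) * (u - u0) +
        p.φ / (1 + p.φ) * (u0 - 1 / 2) := by ring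
    rw [h10, h8, h9]
    ring
  have hW2 : |W - W0| * p.δ ≤ (B * p.Rz / 100) * p.δ := by
    rw [← abs_of_pos hδ, ← abs_mul, abs_of_pos hδ, hW1]
    calc |(p.φ / (1 + p.φ) - ψa) * (u - u0) - ηa * u|
        ≤ |(p.φ / (1 + p.φ) - ψa) * (u - u0)| + |ηa * u| := abs_sub _ _
      _ ≤ p.δ * p.Rz * (B / 158) + η₀ * (p.Nx + 2) := by
          rw [abs_mul, abs_mul]
          apply add_le_add
          · exact mul_le_mul h3 hd1 (abs_nonneg _) (by positivity)
          · exact mul_le_mul hηa hu' (abs_nonneg _) hη0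
      _ ≤ (B * p.Rz / 100) * p.δ := by
          have h11 : η₀ * (p.Nx + 2) ≤ p.δ * B / 400 := by linarith
          have h12 : p.δ * B * 1 ≤ p.δ * B * p.Rz :=
            mul_le_mul_of_nonneg_left hRz (by positivity)
          have h13 : 0 < p.δ * B * p.Rz := by positivity
          have h14 : p.δ * p.Rz * (B / 158) = p.δ * B * p.Rz / 158 := by ring
          have h15 : (B * p.Rz / 100) * p.δ = p.δ * B * p.Rz / 100 := by ring
          rw [h14, h15]
          linarith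
  have hW3 : |W - W0| ≤ B * p.Rz / 100 := le_of_mul_le_mul_right hW2 hδ
  have hP1 : (ξ - p.lam * W) - P0 = (u - u0) / (1 + p.φ) - p.lam * (W - W0) := by
    rw [hξ, hu0def]; field_simp; ring
  refine ⟨ξ - p.lam * W, W, hPu, ?_, ?_, hW3⟩
  · rw [← hPu]
    change v = _
    have : p.φ * (ξ - p.lam * W) = p.φ * ξ - 2 * (W * p.δ) := by
      rw [mul_sub, ← mul_assoc, hδφ]; ring
    linarith
  · rw [hP1]
    calc |(u - u0) / (1 + p.φ) - p.lam * (W - W0)|
        ≤ |(u - u0) / (1 + p.φ)| + |p.lam * (W - W0)| := abs_sub _ _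
      _ ≤ B / 158 + p.lam * (B * p.Rz / 100) := by
          rw [abs_div, abs_mul, abs_of_pos hl, abs_of_pos (by positivity : 0 < 1 + p.φ)]
          apply add_le_add
          · exact (div_le_self (abs_nonneg _) (by linarith)).trans hd1
          · exact mul_le_mul_of_nonneg_left hW3 hl.le
      _ ≤ B / 100 := by
          have h16 : B * (p.lam * p.Rz) ≤ B * (1 / 16) := mul_le_mul_of_nonneg_left hlR hB.le
          have h17 : p.lam * (B * p.Rz / 100) = B * (p.lam * p.Rz) / 100 := by ring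
          rw [h17]
          linarith

end

section

variable {A R H G R₂ H₂ : Type} [Fintype A] [Fintype H] [Fintype G]
  {O : Out A R H} {I : Inn G R₂ H₂} {p : Prm} {K : Finset G}
  {k₁ K₁ k₂ Rd₀ : ℕ} {φ' q Dl U M L : ℝ}
  (hO : O.Good k₁ K₁ p.φ q Dl L Rd₀) (hI : I.Good k₂ p.Rz p.Δ U M) (h : p.OK φ' q Dl U M)

/-- row number of an event as a sum -/
lemma sub_row (hI : I.Good k₂ p.Rz p.Δ U M) (e : Ev' R R₂ p.Nx p.V₁) (α : G) :
    I.σ α * (e.2.1:ℕ) ≤ row p e := by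
  have h1 : I.σ α * (e.2.1:ℕ) ≤ p.Rz * p.Nx := Nat.mul_le_mul (hI.hσ α) e.2.1.2.le
  unfold row; omega

/-- identity for the pool lines -/
lemma idA (h : p.OK φ' q Dl U M) (α : G) (β P W : ℝ) :
    psi I p α / 2 + p.δ * (β + p.κ * I.t α) / (1 + p.lam * I.σ α) -
      psi I p α * (1 / 2 + (1 + p.φ) * (P + p.lam * W)) + p.φ * P + p.δ * W =
    p.δ / (1 + p.lam * I.σ α) * (I.σ α * P + β + p.κ * I.t α - W) := by
  have h2 := h.hl0
  have h5 := h.hφ0
  have h6 : (0:ℝ) < 1 + p.lam * I.σ α := by positivity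
  have h8 : (0:ℝ) < 1 + p.φ := by positivity
  unfold psi Prm.δ
  field_simp
  ring

/-- the relative slope after rounding -/
noncomputable def tp (O : Out A R H) (I : Inn G R₂ H₂) (p : Prm) (e : R) (α : G) : ℝ :=
  rnd p.Rd (psi I p α * O.D e) / O.D e

include hO h

lemma Dpos (e : R) : 0 < O.D e := by
  have := hO.hD e
  have := h.hq
  have := h.hqD
  linarith

lemma tp_mul (e : R) (α : G) :
    tp O I p e α * O.D e = rnd p.Rd (psi I p α * O.D e) :=
  div_mul_cancel₀ _ (Dpos hO h e).ne'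

lemma tp_err (e : R) (α : G) : |tp O I p e α - psi I p α| ≤ 1 / (2 * (p.Rd * Dl)) := by
  have hD := Dpos hO h e
  have h1 := rnd_err p.Rd h.hRd (psi I p α * O.D e)
  have e1 : tp O I p e α - psi I p α = (rnd p.Rd (psi I p α * O.D e) - psi I p α * O.D e) / O.D e := by
    unfold tp; field_simp
  have hRd : (1:ℝ) ≤ p.Rd := by exact_mod_cast h.hRd
  have hDl : 0 < Dl := lt_of_lt_of_le h.hq h.hqD
  rw [e1, abs_div, abs_of_pos hD, div_le_iff₀ hD]
  refine h1.trans ?_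
  have h2 := hO.hD e
  rw [div_mul_eq_mul_div, div_le_div_iff₀ (by positivity) (by positivity)]
  nlinarith

lemma rho_own (e : R) (α : G) :
    rhoS O I p (O.a e) (O.slot e) false α = tp O I p e α * O.D e := by
  rw [tp_mul hO h]
  unfold rhoS muS
  rw [O.evt_self hO.inj e]
  simp

lemma om_own (e : R) (α : G) (β : ℕ) :
    omS O I p (O.a e) (O.slot e) false α β =
      psi I p α / 2 + p.δ * (β + p.κ * I.t α) / (1 + p.lam * I.σ α) := by
  unfold omS
  rw [O.evt_self hO.inj e]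
  simp

omit hO

/-- bounds on the ideal coordinates of an event -/
lemma P0_bd (hI : I.Good k₂ p.Rz p.Δ U M) (e : Ev' R R₂ p.Nx p.V₁) :
    |p.κ * I.x e.2.2.2| ≤ p.lam / 64 ∧ |p.κ * I.y e.2.2.2| ≤ p.lam / 64 := by
  have h1 := h.hκ0
  have h2 := h.hκ1
  have h3 := hI.bx e.2.2.2
  have h4 := hI.bY e.2.2.2
  constructor
  · rw [abs_mul, abs_of_pos h1]; nlinarith
  · rw [abs_mul, abs_of_pos h1]; nlinarith

lemma u0_bd (hI : I.Good k₂ p.Rz p.Δ U M) (e : Ev' R R₂ p.Nx p.V₁) :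
    |1 / 2 + (1 + p.φ) * (((e.2.1:ℕ) + p.κ * I.x e.2.2.2) + p.lam * (row p e + p.κ * I.y e.2.2.2))|
      ≤ p.Nx + 1 := by
  obtain ⟨h1, h2⟩ := P0_bd h hI e
  have hi : ((e.2.1:ℕ):ℝ) + 1 ≤ p.Nx := by exact_mod_cast e.2.1.2
  have hi0 : (0:ℝ) ≤ ((e.2.1:ℕ):ℝ) := by positivity
  have hj : (row p e : ℝ) + 1 ≤ p.V := by exact_mod_cast row_lt p e
  have hj0 : (0:ℝ) ≤ (row p e : ℝ) := by positivity
  have hl := h.hl0
  have hl1 := h.hl1
  have hl2 := h.lle
  have hφ0 := h.hφ0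
  have hφ1 := h.hφ1
  have hφ2 := h.φle
  have h3 := abs_le.mp h1
  have h4 := abs_le.mp h2
  have h5 : p.lam * (row p e) ≤ 1 / 8 := by
    have : (0:ℝ) ≤ p.Rz * p.Nx := by positivity
    nlinarith
  have h6 : 0 ≤ p.lam * (row p e) := by positivity
  have h7 : |p.lam * (p.κ * I.y e.2.2.2)| ≤ 1 / 64 := by
    rw [abs_mul, abs_of_pos hl]; nlinarith [abs_nonneg (p.κ * I.y e.2.2.2)]
  have h8 := abs_le.mp h7
  set z := (((e.2.1:ℕ):ℝ) + p.κ * I.x e.2.2.2) + p.lam * (row p e + p.κ * I.y e.2.2.2) with hz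
  have hz1 : z ≤ p.Nx - 3 / 4 := by rw [hz, mul_add]; linarith [h3.2, h8.2]
  have hz2 : -(1 / 4) ≤ z := by rw [hz, mul_add]; linarith [h3.1, h8.1]
  rw [abs_le]
  constructor
  · nlinarith
  · nlinarith

end

section

variable {A R H G R₂ H₂ : Type} [Fintype A] [Fintype H] [Fintype G]
  {O : Out A R H} {I : Inn G R₂ H₂} {p : Prm} (K : Finset G)
  {k₁ K₁ k₂ Rd₀ : ℕ} {φ' q Dl U M L : ℝ}
  (hO : O.Good k₁ K₁ p.φ q Dl L Rd₀) (hI : I.Good k₂ p.Rz p.Δ U M) (h : p.OK φ' q Dl U M)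

include hO hI h

/-- all we need to know about the position of an event -/
theorem coord (e : Ev' R R₂ p.Nx p.V₁) : ∃ P W : ℝ,
    cX O I p K e = O.X e.1 + p.ε * (1 / 2 + (1 + p.φ) * (P + p.lam * W)) / O.D e.1 ∧
    (comp O I p K).Y e = O.Y e.1 + p.ε * (O.s (O.a e.1) * (1 / 2 + (1 + p.φ) * (P + p.lam * W)) /
      O.D e.1 + (-p.φ * P - p.δ * W)) ∧
    |P - ((e.2.1:ℕ) + p.κ * I.x e.2.2.2)| ≤ p.κ / (M * p.Rz) / 100 ∧
    |W - (row p e + p.κ * I.y e.2.2.2)| ≤ p.κ / M / 100 := by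
  obtain ⟨e₁, i, j₁, r⟩ := e
  set e : Ev' R R₂ p.Nx p.V₁ := (e₁, i, j₁, r) with he
  have hD := Dpos hO h e₁
  have hM : 0 < M := by linarith [h.hM]
  have hRz : (0:ℝ) < p.Rz := by linarith [h.Rz1]
  have hκ := h.hκ0
  have hδ := h.δ0
  have hΔ := h.Δ1
  set B : ℝ := p.κ / (M * p.Rz) with hB
  have hB0 : 0 < B := by positivity
  have hBR : B * p.Rz = p.κ / M := by rw [hB]; field_simp
  have hB1 : B ≤ 1 := by
    rw [hB, div_le_one (by positivity)]
    have := h.κle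
    have := h.lle
    have := h.hM
    have := h.Rz1
    nlinarith
  have hrow : ∀ α, (((row p e - I.σ α * (i:ℕ) : ℕ) : ℕ) : ℝ) = row p e - I.σ α * (i:ℕ) := by
    intro α
    have h1 : I.σ α * (i:ℕ) ≤ row p e := sub_row hI e α
    rw [Nat.cast_sub h1, Nat.cast_mul]
  -- the two lines
  have hsσ : (I.σ (I.b r) : ℝ) + p.Δ ≤ I.σ (I.a r) := by exact_mod_cast hI.D1 r
  set η₀ : ℝ := 1 / (2 * (p.Rd * Dl)) with hη₀
  set P0 : ℝ := (i:ℕ) + p.κ * I.x r with hP0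
  set W0 : ℝ := row p e + p.κ * I.y r with hW0
  have hoff : ∀ α, I.F α r = 0 → psi I p α / 2 +
      p.δ * (((row p e - I.σ α * (i:ℕ) : ℕ) : ℕ) + p.κ * I.t α) / (1 + p.lam * I.σ α) =
      psi I p α * (1 / 2 + (1 + p.φ) * (P0 + p.lam * W0)) + (-p.φ * P0 - p.δ * W0) := by
    intro α hα
    have h1 := idA (I := I) h α ((row p e - I.σ α * (i:ℕ) : ℕ) : ℕ) P0 W0
    have h2 : I.σ α * P0 + (((row p e - I.σ α * (i:ℕ) : ℕ) : ℕ) : ℝ) + p.κ * I.t α - W0 = 0 := by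
      rw [hrow, hP0, hW0]
      unfold Inn.F at hα
      linear_combination p.κ * hα
    rw [h2, mul_zero] at h1
    linarith
  have hη : 400 * (η₀ * (p.Nx + 2)) ≤ p.δ * B := by
    have h1 := h.eta
    have h2 : 0 < M * p.Rz := by positivity
    rw [hB, ← mul_div_assoc, le_div_iff₀ h2]
    calc 400 * (η₀ * (p.Nx + 2)) * (M * p.Rz) = η₀ * (400 * (M * p.Rz * (p.Nx + 2))) := by ring
      _ ≤ _ := h1
  obtain ⟨P, W, c1, c2, c3, c4⟩ := h.coord_real (ψa := psi I p (I.a r)) (ψb := psi I p (I.b r))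
    (oa := omS O I p (O.a e₁) (O.slot e₁) false (I.a r) (row p e - I.σ (I.a r) * (i:ℕ)))
    (ob := omS O I p (O.a e₁) (O.slot e₁) false (I.b r) (row p e - I.σ (I.b r) * (i:ℕ)))
    (ηa := tp O I p e₁ (I.a r) - psi I p (I.a r)) (ηb := tp O I p e₁ (I.b r) - psi I p (I.b r))
    (P0 := P0) (W0 := W0) (η₀ := η₀) hB0 hB1
    (by
      have h1 := h.psi_diff_ge I (I.a r) (I.b r) (hI.hσ _) (hI.hσ _)
        (by have := hI.D1 r; omega)
      have h2 : p.δ * 1 ≤ p.δ * ((I.σ (I.a r) : ℝ) - I.σ (I.b r)) :=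
        mul_le_mul_of_nonneg_left (by linarith) hδ.le
      linarith)
    (by rw [om_own hO h]; exact hoff _ (I.Fa r))
    (by rw [om_own hO h]; exact hoff _ (hI.tie r))
    (by
      have e1 : p.φ / (1 + p.φ) - psi I p (I.a r) =
          p.δ * I.σ (I.a r) / ((1 + p.lam * I.σ (I.a r)) * (1 + p.φ)) := by
        have h2 := h.hl0
        have h5 := h.hφ0
        have h6 : (0:ℝ) < 1 + p.lam * I.σ (I.a r) := by positivity
        unfold psi
        field_simp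
        ring
      have h2 := h.hl0
      have h5 := h.hφ0
      have h6 : (0:ℝ) ≤ p.lam * I.σ (I.a r) := by positivity
      have h7 : (I.σ (I.a r) : ℝ) ≤ p.Rz := by exact_mod_cast hI.hσ _
      rw [e1, abs_of_nonneg (by positivity), div_le_iff₀ (by positivity)]
      have h8 : p.δ * I.σ (I.a r) ≤ p.δ * p.Rz := mul_le_mul_of_nonneg_left h7 hδ.le
      have h9 : (1:ℝ) ≤ (1 + p.lam * I.σ (I.a r)) * (1 + p.φ) := by nlinarith
      have h10 : 0 ≤ p.δ * p.Rz := by positivity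
      nlinarith)
    (tp_err hO h e₁ _) (tp_err hO h e₁ _) hη (u0_bd h hI e)
  rw [hBR] at c4
  -- the crossing
  set oa := omS O I p (O.a e₁) (O.slot e₁) false (I.a r) (row p e - I.σ (I.a r) * (i:ℕ)) with hoa
  set ob := omS O I p (O.a e₁) (O.slot e₁) false (I.b r) (row p e - I.σ (I.b r) * (i:ℕ)) with hob
  have e1 : ∀ x y : ℝ, x + (y - x) = y := by intro x y; ring
  rw [e1, e1] at c1
  rw [e1] at c2
  have hsa : cs O I p (ca O I p e) = O.s (O.a e₁) - tp O I p e₁ (I.a r) * O.D e₁ := by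
    simp only [ca, pl, cs, he]
    rw [rho_own hO h]
    simp [sg]
  have hsb : cs O I p (cb O I p e) = O.s (O.a e₁) - tp O I p e₁ (I.b r) * O.D e₁ := by
    simp only [cb, pl, cs, he]
    rw [rho_own hO h]
    simp [sg]
  have hta : ct O I p K (ca O I p e) = O.t (O.a e₁) + tp O I p e₁ (I.a r) * O.D e₁ * O.X e₁ +
      p.ε * oa := by
    simp only [ca, pl, ct, he]
    rw [rho_own hO h, hO.real e₁]
    simp only [sg, hoa, he]
    simp
  have htb : ct O I p K (cb O I p e) = O.t (O.a e₁) + tp O I p e₁ (I.b r) * O.D e₁ * O.X e₁ +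
      p.ε * ob := by
    simp only [cb, pl, ct, he]
    rw [rho_own hO h, hO.real e₁]
    simp only [sg, hob, he]
    simp
  have hden : 0 < tp O I p e₁ (I.b r) - tp O I p e₁ (I.a r) := by
    have h1 := h.psi_diff_ge I (I.a r) (I.b r) (hI.hσ _) (hI.hσ _)
      (by have := hI.D1 r; omega)
    have h2 : p.δ * 1 ≤ p.δ * ((I.σ (I.a r) : ℝ) - I.σ (I.b r)) :=
      mul_le_mul_of_nonneg_left (by linarith) hδ.le
    have h3 := abs_le.mp (tp_err (I := I) hO h e₁ (I.a r))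
    have h4 := abs_le.mp (tp_err (I := I) hO h e₁ (I.b r))
    have h5 : η₀ * 1200 ≤ p.δ := by
      have : (1:ℝ) ≤ p.Nx := h.Nx1
      have h6 : 0 ≤ η₀ := (abs_nonneg _).trans (tp_err (I := I) hO h e₁ (I.b r))
      nlinarith
    linarith [h3.2, h4.1]
  have hX : cX O I p K e = O.X e₁ + p.ε * (1 / 2 + (1 + p.φ) * (P + p.lam * W)) / O.D e₁ := by
    rw [← c1]
    unfold cX
    rw [hsa, hsb, hta, htb]
    have hne : tp O I p e₁ (I.b r) - tp O I p e₁ (I.a r) ≠ 0 := hden.ne'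
    have hne2 : O.s (O.a e₁) - tp O I p e₁ (I.a r) * O.D e₁ -
        (O.s (O.a e₁) - tp O I p e₁ (I.b r) * O.D e₁) ≠ 0 := by
      have : O.s (O.a e₁) - tp O I p e₁ (I.a r) * O.D e₁ -
        (O.s (O.a e₁) - tp O I p e₁ (I.b r) * O.D e₁) =
        (tp O I p e₁ (I.b r) - tp O I p e₁ (I.a r)) * O.D e₁ := by ring
      rw [this]; positivity
    rw [div_eq_iff hne2]
    field_simp
    ring
  refine ⟨P, W, hX, ?_, c3, c4⟩
  have hY : (comp O I p K).Y e = cs O I p (ca O I p e) * cX O I p K e + ct O I p K (ca O I p e) := rfl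
  change (comp O I p K).Y e = O.Y e₁ + p.ε * (O.s (O.a e₁) *
    (1 / 2 + (1 + p.φ) * (P + p.lam * W)) / O.D e₁ + (-p.φ * P - p.δ * W))
  rw [hY, hX, hsa, hta]
  have hYe : O.Y e₁ = O.s (O.a e₁) * O.X e₁ + O.t (O.a e₁) := rfl
  rw [hYe]
  have hD' : O.D e₁ ≠ 0 := hD.ne'
  have c2' : oa = tp O I p e₁ (I.a r) * (1 / 2 + (1 + p.φ) * (P + p.lam * W)) +
      (-p.φ * P - p.δ * W) := by linarith
  rw [c2']
  field_simp
  ring

end

end Pool.Agent.N35.HL
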