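import Pool.Agent.N35.HL.Dich2

/-!
# The number of slot lines below the events of a composition
-/

set_option linter.unusedSectionVars false
set_option linter.unusedVariables false
set_option maxHeartbeats 1000000

namespace Pool.Agent.N35.HL

open Finset

section

variable {A R H : Type} (O : Out A R H)

open scoped Classical in
lemma pr_d0 {φ : ℝ} {c : A} {g : H} {e : R} (hd : O.d c g = 0) :
    O.pr φ c g e = 2 * (if O.F c e < 0 then 1 else 0) := by
  unfold Out.pr
  rw [hd, zero_mul, mul_zero, sub_zero, add_zero]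
  ring

open scoped Classical in
lemma pr_ns {φ : ℝ} {c : A} {g : H} {e : R} (hφ : 0 ≤ φ) (hd : 0 ≤ O.d c g)
    (hF : 0 < |O.F c e|)
    (hns : 16 * (φ * (O.d c g * |O.X e - O.xs c g|)) ≤ |O.F c e|) :
    O.pr φ c g e = 2 * (if O.F c e < 0 then 1 else 0) := by
  have h1 : |φ * (O.d c g * (O.X e - O.xs c g))| = φ * (O.d c g * |O.X e - O.xs c g|) := by
    rw [abs_mul, abs_mul, abs_of_nonneg hφ, abs_of_nonneg hd]
  have h2 := abs_le.mp (le_of_eq h1)
  have h0 : 0 ≤ φ * (O.d c g * |O.X e - O.xs c g|) := by positivity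
  unfold Out.pr
  rcases le_or_gt 0 (O.F c e) with h3 | h3
  · rw [abs_of_nonneg h3] at hF hns
    rw [if_neg (by linarith [h2.2]), if_neg (by linarith [h2.1]), if_neg (by linarith)]
  · rw [abs_of_neg h3] at hF hns
    rw [if_pos (by linarith [h2.1]), if_pos (by linarith [h2.2]), if_pos h3]

open scoped Classical in
lemma pr_st {φ : ℝ} {c : A} {g : H} {e : R} (hφ : 0 ≤ φ) (hd : 0 ≤ O.d c g)
    (hpos : 0 < φ * (O.d c g * |O.X e - O.xs c g|))
    (hst : 16 * |O.F c e| ≤ φ * (O.d c g * |O.X e - O.xs c g|)) :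
    O.pr φ c g e = 1 := by
  have h1 : |φ * (O.d c g * (O.X e - O.xs c g))| = φ * (O.d c g * |O.X e - O.xs c g|) := by
    rw [abs_mul, abs_mul, abs_of_nonneg hφ, abs_of_nonneg hd]
  have h2 := abs_le.mp (le_refl |O.F c e|)
  unfold Out.pr
  rcases le_or_gt 0 (φ * (O.d c g * (O.X e - O.xs c g))) with h3 | h3
  · rw [abs_of_nonneg h3] at h1
    rw [if_pos (by linarith [h2.2]), if_neg (by linarith [h2.1])]
  · rw [abs_of_neg h3] at h1
    rw [if_neg (by linarith [h2.1]), if_pos (by linarith [h2.2])]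

end

open scoped Classical in
lemma sum_col {n : ℕ} {H₂ : Type} [Fintype H₂] (i₀ : Fin n) (v : ℕ) :
    ∑ x : Fin n × H₂, (if x.1 = i₀ then v else 1) =
      (n - 1) * Fintype.card H₂ + Fintype.card H₂ * v := by
  rw [Fintype.sum_prod_type]
  have h1 : ∀ i : Fin n, ∑ _x : H₂, (if i = i₀ then v else 1) =
      Fintype.card H₂ * (if i = i₀ then v else 1) := by
    intro i; simp
  rw [Finset.sum_congr rfl (fun i _ => h1 i), ← Finset.mul_sum]
  have h2 : ∑ i : Fin n, (if i = i₀ then v else 1) = (n - 1) + v := by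
    have h3 : ∑ i : Fin n, (if i = i₀ then v else 1) =
        v + ∑ i ∈ Finset.univ.erase i₀, (if i = i₀ then v else 1) := by
      rw [← Finset.add_sum_erase _ _ (Finset.mem_univ i₀), if_pos rfl]
    rw [h3]
    have h4 : ∑ i ∈ Finset.univ.erase i₀, (if i = i₀ then v else 1) =
        ∑ i ∈ Finset.univ.erase i₀, 1 := by
      apply Finset.sum_congr rfl
      intro i hi
      rw [if_neg (Finset.ne_of_mem_erase hi)]
    rw [h4]
    simp [Finset.card_erase_of_mem]
    ring
  rw [h2]; ring

section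

variable {A R H G R₂ H₂ : Type} [Fintype A] [Fintype H] [Fintype G] [Fintype H₂]
  {O : Out A R H} {I : Inn G R₂ H₂} {p : Prm} {K : Finset G}
  {k₁ K₁ k₂ Rd₀ : ℕ} {φ' q Dl U M L : ℝ}
  (hO : O.Good k₁ K₁ p.φ q Dl L Rd₀) (hI : I.Good k₂ p.Rz p.Δ U M) (h : p.OK φ' q Dl U M)

/-- a pool line in the row of the event -/
lemma eq_pl {e : Ev' R R₂ p.Nx p.V₁} {α : G} {β : Fin p.V}
    (hn : I.σ α * (e.2.1:ℕ) + (β:ℕ) = row p e) :
    ((O.a e.1, Sum.inr (Sum.inr ((O.slot e.1, false), (α, β)))) : Idx A G H p.Nx p.V) =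
      pl O I p e α := by
  unfold pl
  have : β = ⟨row p e - I.σ α * (e.2.1:ℕ), lt_of_le_of_lt (Nat.sub_le _ _) (row_lt p e)⟩ := by
    rw [Fin.ext_iff]; simp only []; omega
  rw [this]

lemma pl_inj (e : Ev' R R₂ p.Nx p.V₁) {α α' : G} (h1 : pl O I p e α = pl O I p e α') :
    α = α' := by
  unfold pl at h1
  simp only [Prod.mk.injEq, Sum.inr.injEq] at h1
  exact h1.2.2.1

lemma pl_row (hI : I.Good k₂ p.Rz p.Δ U M) (e : Ev' R R₂ p.Nx p.V₁) (α : G) :
    I.σ α * (e.2.1:ℕ) + (row p e - I.σ α * (e.2.1:ℕ)) = row p e := by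
  have := sub_row hI e α
  omega

/-- scale of an active slot line -/
lemma cd_some {l : A} {g : H} {e₁ : R} (hev : O.evt l g = some e₁) {α : G} {β : Fin p.V}
    {x : Fin p.Nx × H₂} (ha : I.act α ∨ (x.1:ℕ) ≠ 0) :
    (comp O I p K).d (l, Sum.inr (Sum.inr ((g, false), (α, β)))) x = O.D e₁ * (p.δ * p.Δ) := by
  obtain ⟨i, h₂⟩ := x
  change cd O I p (l, Sum.inr (Sum.inr ((g, false), (α, β)))) (i, h₂) = _
  simp only [cd, hev]
  rw [if_pos ha]

lemma cd_some0 {l : A} {g : H} {e₁ : R} (hev : O.evt l g = some e₁) {α : G} {β : Fin p.V}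
    {x : Fin p.Nx × H₂} (ha : ¬ (I.act α ∨ (x.1:ℕ) ≠ 0)) :
    (comp O I p K).d (l, Sum.inr (Sum.inr ((g, false), (α, β)))) x = 0 := by
  obtain ⟨i, h₂⟩ := x
  change cd O I p (l, Sum.inr (Sum.inr ((g, false), (α, β)))) (i, h₂) = _
  simp only [cd, hev]
  rw [if_neg ha]

lemma cd_none {l : A} {g : H} (hev : O.evt l g = none) {α : G} {β : Fin p.V}
    {x : Fin p.Nx × H₂} :
    (comp O I p K).d (l, Sum.inr (Sum.inr ((g, false), (α, β)))) x = 0 := by
  obtain ⟨i, h₂⟩ := x
  change cd O I p (l, Sum.inr (Sum.inr ((g, false), (α, β)))) (i, h₂) = _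
  simp only [cd, hev]

include hO hI h

variable {e : Ev' R R₂ p.Nx p.V₁} {P W : ℝ} (c : Pos O I p K M e P W)

include c

open scoped Classical in
/-- lines outside the row of the event -/
lemma pr_out (l : Idx A G H p.Nx p.V) (hl : ∀ α, l ≠ pl O I p e α) (x : Fin p.Nx × H₂) :
    (comp O I p K).pr φ' l x e = 2 * (if (comp O I p K).F l e < 0 then 1 else 0) := by
  have hφ' := h.hφ'
  have hD := Dpos hO h e.1
  have hφq : 0 < 7 / 32 * (p.φ * q) := by
    have := mul_pos h.hφ0 h.hq; positivity
  obtain ⟨l, l' | l' | ⟨⟨g, b⟩, ⟨α, β⟩⟩⟩ := l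
  · exact pr_d0 _ rfl
  · exact pr_d0 _ rfl
  · cases b
    swap
    · exact pr_d0 _ rfl
    rcases hev : O.evt l g with _ | e₁
    · exact pr_d0 _ (cd_none hev)
    · by_cases ha : I.act α ∨ (x.1:ℕ) ≠ 0
      swap
      · exact pr_d0 _ (cd_some0 hev ha)
      have hd := cd_some (K := K) (β := β) hev ha
      have hδΔ : 0 < p.δ * p.Δ := mul_pos h.δ0 (by linarith [h.Δ1])
      have hd0 : 0 ≤ (comp O I p K).d (l, Sum.inr (Sum.inr ((g, false), (α, β)))) x := by
        rw [hd]; exact mul_nonneg (Dpos hO h e₁).le hδΔ.le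
      by_cases hne : e₁ = e.1
      · subst hne
        obtain ⟨s1, s2⟩ := O.evt_spec hev
        subst s1 s2
        have hn : I.σ α * (e.2.1:ℕ) + (β:ℕ) ≠ row p e := by
          intro hn
          exact hl α (eq_pl hn)
        obtain ⟨o1, o2⟩ := ownpool_ne hO hI h c α β hn x
        apply pr_ns _ hφ'.le hd0
        · exact lt_of_lt_of_le (mul_pos h.hε0 (by have := h.δ0; positivity)) o2
        · rw [hd]; exact o1
      · have hnot : ¬ (l = O.a e.1 ∧ g = O.slot e.1) := by
          rintro ⟨rfl, rfl⟩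
          rw [O.evt_self hO.inj] at hev
          exact hne (Option.some.inj hev).symm
        obtain ⟨-, -, -, o4, -⟩ := off_S hO hI h c hnot false α β
        obtain ⟨o1, -⟩ := farpool hO hI h c hev hne α β x
        apply pr_ns _ hφ'.le hd0
        · exact lt_of_lt_of_le hφq o4
        · rw [hd]; exact o1

open scoped Classical in
/-- slot lines of the lines of a pool in the row of the event -/
lemma sum_pl (α : G) :
    (∑ x : Fin p.Nx × H₂, (if pl O I p e α = ca O I p e ∧ x = csl I p e then 0 else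
      (comp O I p K).pr φ' (pl O I p e α) x e)) + (if α = I.a e.2.2.2 then 1 else 0) =
    (p.Nx - 1) * Fintype.card H₂ + 2 * Fintype.card H₂ * (if I.F α e.2.2.2 < 0 then 1 else 0) +
      Fintype.card H₂ * ((if α = I.a e.2.2.2 then 1 else 0) +
        (if α = I.b e.2.2.2 then 1 else 0)) := by
  have hφ' := h.hφ'
  have hD := Dpos hO h e.1
  have hδ := h.δ0
  have hδΔ : 0 < p.δ * p.Δ := mul_pos h.δ0 (by linarith [h.Δ1])
  have hqs := h.qs0
  have hev := O.evt_self hO.inj e.1
  have hNx := h.hNx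
  set P₂ := Fintype.card H₂ with hP₂
  have hrow : I.σ α * (e.2.1:ℕ) + ((⟨row p e - I.σ α * (e.2.1:ℕ),
      lt_of_le_of_lt (Nat.sub_le _ _) (row_lt p e)⟩ : Fin p.V) : ℕ) = row p e := pl_row hI e α
  have hca : pl O I p e α = ca O I p e ↔ α = I.a e.2.2.2 := by
    constructor
    · intro h1; exact pl_inj e h1
    · intro h1; rw [h1]; rfl
  have hab : I.a e.2.2.2 ≠ I.b e.2.2.2 := by
    intro h1
    have h2 := hI.D1 e.2.2.2
    rw [h1] at h2
    have := hI.hΔ
    omega
  have hNP : (p.Nx - 1) * P₂ + P₂ = p.Nx * P₂ := by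
    obtain ⟨n, hn⟩ : ∃ n, p.Nx = n + 1 := ⟨p.Nx - 1, by omega⟩
    rw [hn]; simp; ring
  -- zero height of the two lines of the event
  have hzero : (α = I.a e.2.2.2 ∨ α = I.b e.2.2.2) →
      (comp O I p K).F (pl O I p e α) e = 0 ∧ I.F α e.2.2.2 = 0 := by
    rintro (h1 | h1)
    · subst h1
      exact ⟨(comp O I p K).Fa e, I.Fa _⟩
    · subst h1
      exact ⟨cb_zero hO hI h e, hI.tie _⟩
  have hone : (α = I.a e.2.2.2 ∨ α = I.b e.2.2.2) → ∀ x : Fin p.Nx × H₂,
      ¬ (α = I.a e.2.2.2 ∧ x = csl I p e) → (comp O I p K).pr φ' (pl O I p e α) x e = 1 := by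
    intro h1 x hx
    obtain ⟨i, h₂⟩ := x
    have hact : I.act α := by
      rcases h1 with h2 | h2
      · rw [h2]; exact hI.acta _
      · rw [h2]; exact hI.actb _
    have hd := cd_some (K := K) (x := (i, h₂)) (β := ⟨row p e - I.σ α * (e.2.1:ℕ),
      lt_of_le_of_lt (Nat.sub_le _ _) (row_lt p e)⟩) hev (Or.inl hact)
    obtain ⟨o1, -⟩ := ownpool_own hO hI h c α _ hrow i h₂ h1 hx
    have hpos : 0 < O.D e.1 * (p.δ * p.Δ) * |cX O I p K e - cxs O I p K
        (pl O I p e α) (i, h₂)| := by
      have : 0 < p.qs M * p.δ / 4 := by positivity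
      exact lt_of_lt_of_le this o1
    have hpos' : 0 < φ' * ((comp O I p K).d (pl O I p e α) (i, h₂) *
        |(comp O I p K).X e - (comp O I p K).xs (pl O I p e α) (i, h₂)|) := by
      have hd' : (comp O I p K).d (pl O I p e α) (i, h₂) = O.D e.1 * (p.δ * p.Δ) := hd
      rw [hd']
      exact mul_pos hφ' hpos
    apply pr_st _ hφ'.le _ hpos'
    · rw [(hzero h1).1, abs_zero, mul_zero]; exact hpos'.le
    · have hd' : (comp O I p K).d (pl O I p e α) (i, h₂) = O.D e.1 * (p.δ * p.Δ) := hd
      rw [hd']; positivity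
  by_cases ha : α = I.a e.2.2.2
  · rw [if_pos ha, (hzero (Or.inl ha)).2, if_neg (lt_irrefl _), mul_zero, add_zero,
      if_neg (by rw [ha]; exact hab), add_zero, mul_one, hNP]
    have h1 : ∀ x : Fin p.Nx × H₂, (if pl O I p e α = ca O I p e ∧ x = csl I p e then 0 else
        (comp O I p K).pr φ' (pl O I p e α) x e) + (if x = csl I p e then 1 else 0) = 1 := by
      intro x
      by_cases hx : x = csl I p e
      · rw [if_pos ⟨hca.mpr ha, hx⟩, if_pos hx]
      · rw [if_neg (fun h2 => hx h2.2), if_neg hx, hone (Or.inl ha) x (fun h2 => hx h2.2)]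
    have h2 := Finset.sum_congr (rfl : (Finset.univ : Finset (Fin p.Nx × H₂)) = Finset.univ)
      (fun x _ => h1 x)
    rw [Finset.sum_add_distrib, Finset.sum_ite_eq'] at h2
    simp only [Finset.mem_univ, if_true, Finset.sum_const, Finset.card_univ, Fintype.card_prod,
      Fintype.card_fin, smul_eq_mul, mul_one] at h2
    exact h2
  · rw [if_neg ha, add_zero, zero_add]
    have h0 : ∀ x : Fin p.Nx × H₂, (if pl O I p e α = ca O I p e ∧ x = csl I p e then 0 else
        (comp O I p K).pr φ' (pl O I p e α) x e) = (comp O I p K).pr φ' (pl O I p e α) x e := by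
      intro x
      rw [if_neg (fun h2 => ha (hca.mp h2.1))]
    rw [Finset.sum_congr rfl (fun x _ => h0 x)]
    by_cases hb : α = I.b e.2.2.2
    · rw [if_pos hb, (hzero (Or.inr hb)).2, if_neg (lt_irrefl _), mul_zero, add_zero, mul_one, hNP]
      rw [Finset.sum_congr rfl (fun x _ => hone (Or.inr hb) x (fun h2 => ha h2.1))]
      simp only [Finset.sum_const, Finset.card_univ, Fintype.card_prod,
        Fintype.card_fin, smul_eq_mul, mul_one]
      rw [hP₂]
    · rw [if_neg hb, mul_zero, add_zero]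
      have hsign : ((comp O I p K).F (pl O I p e α) e < 0 ↔ I.F α e.2.2.2 < 0) := by
        have h1 := pool_sign hO hI h c α ⟨row p e - I.σ α * (e.2.1:ℕ),
          lt_of_le_of_lt (Nat.sub_le _ _) (row_lt p e)⟩
        rw [hrow] at h1
        have h2 : ((comp O I p K).F (pl O I p e α) e < 0 ↔ _) := h1
        rw [h2]
        simp
      have hmg := hI.mg e.2.2.2 α ha hb
      -- the special column
      by_cases hact : I.act α
      · have h1 : ∀ x : Fin p.Nx × H₂, (comp O I p K).pr φ' (pl O I p e α) x e =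
            (if x.1 = e.2.1 then 2 * (if I.F α e.2.2.2 < 0 then 1 else 0) else 1) := by
          rintro ⟨i, h₂⟩
          have hd : (comp O I p K).d (pl O I p e α) (i, h₂) = O.D e.1 * (p.δ * p.Δ) :=
            cd_some (K := K) (x := (i, h₂)) (β := ⟨row p e - I.σ α * (e.2.1:ℕ),
              lt_of_le_of_lt (Nat.sub_le _ _) (row_lt p e)⟩) hev (Or.inl hact)
          by_cases hi : i = e.2.1
          · rw [if_pos hi]
            have o1 := ownpool_ns hO hI h c α _ hrow i h₂ hact (by rw [hi]) ha hb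
            rw [← if_congr hsign rfl rfl]
            apply pr_ns _ hφ'.le (by rw [hd]; positivity)
            · -- the height is nonzero
              obtain ⟨er, her, hF⟩ := pool hO hI h c α ⟨row p e - I.σ α * (e.2.1:ℕ),
                lt_of_le_of_lt (Nat.sub_le _ _) (row_lt p e)⟩
              rw [abs_pos]
              intro h2
              have h3 : (comp O I p K).F (pl O I p e α) e = _ := hF
              rw [h2] at h3
              have hσ : (I.σ α:ℝ) ≤ p.Rz := by exact_mod_cast hI.hσ α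
              obtain ⟨ls1, ls2⟩ := h.σ1 (σ := I.σ α) (by positivity) hσ
              have hκU : p.κ * (U + 1) ≤ 1 / 1024 := by
                have := h.hκ1; have := h.lle; linarith
              have hn0 : I.σ α * ((e.2.1:ℕ):ℝ) + ((⟨row p e - I.σ α * (e.2.1:ℕ),
                lt_of_le_of_lt (Nat.sub_le _ _) (row_lt p e)⟩ : Fin p.V) : ℕ) - row p e = 0 := by
                have : (I.σ α : ℝ) * (e.2.1:ℕ) + ((⟨row p e - I.σ α * (e.2.1:ℕ),
                lt_of_le_of_lt (Nat.sub_le _ _) (row_lt p e)⟩ : Fin p.V) : ℕ) = row p e := by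
                  exact_mod_cast hrow
                linarith
              obtain ⟨-, -, -, a4⟩ := pool_real (n := I.σ α * ((e.2.1:ℕ):ℝ) +
                ((⟨row p e - I.σ α * (e.2.1:ℕ), lt_of_le_of_lt (Nat.sub_le _ _) (row_lt p e)⟩ :
                  Fin p.V) : ℕ) - row p e) h.δ0 h.hκ0
                ls1 ls2 h.hU h.hM hκU (hI.bF e.2.2.2 α) her rfl
              obtain ⟨b2, -⟩ := a4 hn0 hmg
              rcases mul_eq_zero.mp h3.symm with h4 | h4
              · exact absurd h4 h.hε0.ne'
              · rw [h4, abs_zero] at b2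
                have hf : 0 < |I.F α e.2.2.2| := by
                  by_contra h6
                  push Not at h6
                  have : M * |I.F α e.2.2.2| ≤ 0 :=
                    mul_nonpos_of_nonneg_of_nonpos (by linarith [h.hM]) h6
                  linarith
                have : 0 < 4 / 5 * (p.δ * (p.κ * |I.F α e.2.2.2|)) := by
                  have := h.hκ0; positivity
                linarith
            · rw [hd]; exact o1
          · rw [if_neg hi]
            have hi' : (i:ℕ) ≠ (e.2.1:ℕ) := fun h2 => hi (Fin.ext h2)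
            obtain ⟨o1, -, o3⟩ := ownpool_st hO hI h c α _ hrow i h₂ (Or.inr hi') ha hb
            apply pr_st _ hφ'.le (by rw [hd]; positivity)
            · rw [hd]; exact mul_pos hφ' (mul_pos (by positivity) o3)
            · rw [hd]; exact o1
        rw [Finset.sum_congr rfl (fun x _ => h1 x), sum_col]
        ring
      · set i₀ : Fin p.Nx := ⟨0, by omega⟩ with hi₀
        have h1 : ∀ x : Fin p.Nx × H₂, (comp O I p K).pr φ' (pl O I p e α) x e =
            (if x.1 = i₀ then 2 * (if I.F α e.2.2.2 < 0 then 1 else 0) else 1) := by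
          rintro ⟨i, h₂⟩
          by_cases hi : i = i₀
          · rw [if_pos hi]
            have hd : (comp O I p K).d (pl O I p e α) (i, h₂) = 0 :=
              cd_some0 (K := K) (x := (i, h₂)) (β := ⟨row p e - I.σ α * (e.2.1:ℕ),
                lt_of_le_of_lt (Nat.sub_le _ _) (row_lt p e)⟩) hev (by
                  rintro (h2 | h2)
                  · exact hact h2
                  · apply h2; rw [hi])
            rw [← if_congr hsign rfl rfl]
            exact pr_d0 _ hd
          · rw [if_neg hi]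
            have hi' : (i:ℕ) ≠ 0 := fun h2 => hi (Fin.ext h2)
            have hd : (comp O I p K).d (pl O I p e α) (i, h₂) = O.D e.1 * (p.δ * p.Δ) :=
              cd_some (K := K) (x := (i, h₂)) (β := ⟨row p e - I.σ α * (e.2.1:ℕ),
                lt_of_le_of_lt (Nat.sub_le _ _) (row_lt p e)⟩) hev (Or.inr hi')
            obtain ⟨o1, -, o3⟩ := ownpool_st hO hI h c α _ hrow i h₂ (Or.inl hact) ha hb
            apply pr_st _ hφ'.le (by rw [hd]; positivity)
            · rw [hd]; exact mul_pos hφ' (mul_pos (by positivity) o3)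
            · rw [hd]; exact o1
        rw [Finset.sum_congr rfl (fun x _ => h1 x), sum_col]
        ring

open scoped Classical in
/-- the number of slot lines below an event is constant -/
theorem slots_comp (hK : K.card = k₂) :
    (∑ l, ∑ x : Fin p.Nx × H₂, (if l = (comp O I p K).a e ∧ x = (comp O I p K).slot e then 0 else
      (comp O I p K).pr φ' l x e)) + 2 * (p.Nx * Fintype.card H₂) * k₂ + 1 =
    2 * (p.Nx * Fintype.card H₂) *
      (2 * p.Nx * (Fintype.card G * p.V) * (k₁ + 1) + (Fintype.card G * p.V) * K₁) +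
    Fintype.card G * ((p.Nx - 1) * Fintype.card H₂) + 2 * Fintype.card H₂ * k₂ +
      2 * Fintype.card H₂ := by
  set P₂ := Fintype.card H₂ with hP₂
  set S : Idx A G H p.Nx p.V → ℕ := fun l => ∑ x : Fin p.Nx × H₂,
    (if l = (comp O I p K).a e ∧ x = (comp O I p K).slot e then 0 else
      (comp O I p K).pr φ' l x e) with hS
  have hca : (comp O I p K).a e = ca O I p e := rfl
  have hcsl : (comp O I p K).slot e = csl I p e := rfl
  -- the correction terms
  set Y : G → ℕ := fun α => 2 * (p.Nx * P₂) * (if I.F α e.2.2.2 < 0 then 1 else 0) +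
    (if α = I.a e.2.2.2 then 1 else 0) with hY
  set Z : G → ℕ := fun α => (p.Nx - 1) * P₂ + 2 * P₂ * (if I.F α e.2.2.2 < 0 then 1 else 0) +
      P₂ * ((if α = I.a e.2.2.2 then 1 else 0) + (if α = I.b e.2.2.2 then 1 else 0)) with hZ
  have key : ∀ l, S l + ∑ α, (if pl O I p e α = l then Y α else 0) =
      2 * (p.Nx * P₂) * (if (comp O I p K).F l e < 0 then 1 else 0) +
        ∑ α, (if pl O I p e α = l then Z α else 0) := by
    intro l
    by_cases hl : ∃ α, pl O I p e α = l
    · obtain ⟨α, rfl⟩ := hl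
      have h1 : ∀ X : G → ℕ, ∑ α', (if pl O I p e α' = pl O I p e α then X α' else 0) = X α := by
        intro X
        have h2 : ∀ α', (if pl O I p e α' = pl O I p e α then X α' else 0) =
            (if α' = α then X α' else 0) := by
          intro α'
          by_cases h3 : α' = α
          · rw [h3]; simp
          · rw [if_neg h3, if_neg (fun h4 => h3 (pl_inj e h4))]
        rw [Finset.sum_congr rfl (fun α' _ => h2 α'), Finset.sum_ite_eq']
        simp
      rw [h1, h1]
      have h2 := sum_pl hO hI h c α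
      have h3 : S (pl O I p e α) = ∑ x : Fin p.Nx × H₂,
        (if pl O I p e α = ca O I p e ∧ x = csl I p e then 0 else
          (comp O I p K).pr φ' (pl O I p e α) x e) := rfl
      have hsign : ((comp O I p K).F (pl O I p e α) e < 0 ↔ I.F α e.2.2.2 < 0) := by
        have h1 := pool_sign hO hI h c α ⟨row p e - I.σ α * (e.2.1:ℕ),
          lt_of_le_of_lt (Nat.sub_le _ _) (row_lt p e)⟩
        have hrow : I.σ α * (e.2.1:ℕ) + ((⟨row p e - I.σ α * (e.2.1:ℕ),
          lt_of_le_of_lt (Nat.sub_le _ _) (row_lt p e)⟩ : Fin p.V) : ℕ) = row p e := pl_row hI e α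
        rw [hrow] at h1
        have h2 : ((comp O I p K).F (pl O I p e α) e < 0 ↔ _) := h1
        rw [h2]
        simp
      rw [if_congr hsign rfl rfl, h3]
      rw [← hP₂] at h2
      simp only [hY, hZ]
      omega
    · push Not at hl
      have h1 : ∀ X : G → ℕ, ∑ α', (if pl O I p e α' = l then X α' else 0) = 0 := by
        intro X
        apply Finset.sum_eq_zero
        intro α' _
        rw [if_neg (hl α')]
      rw [h1, h1, add_zero, add_zero]
      have h2 : ∀ x : Fin p.Nx × H₂, (if l = (comp O I p K).a e ∧ x = (comp O I p K).slot e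
          then 0 else (comp O I p K).pr φ' l x e) =
          2 * (if (comp O I p K).F l e < 0 then 1 else 0) := by
        intro x
        rw [if_neg (fun h3 => hl (I.a e.2.2.2) h3.1.symm)]
        exact pr_out hO hI h c l (fun α h3 => hl α h3.symm) x
      have h3 : S l = ∑ x : Fin p.Nx × H₂, 2 * (if (comp O I p K).F l e < 0 then 1 else 0) :=
        Finset.sum_congr rfl (fun x _ => h2 x)
      rw [h3]
      simp only [Finset.sum_const, Finset.card_univ, Fintype.card_prod, Fintype.card_fin,
        smul_eq_mul]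
      rw [hP₂]; ring
  have htot := Finset.sum_congr (rfl : (Finset.univ : Finset (Idx A G H p.Nx p.V)) = Finset.univ)
    (fun l _ => key l)
  rw [Finset.sum_add_distrib, Finset.sum_add_distrib, ← Finset.mul_sum,
    level_comp hO hI h c hK] at htot
  have hswap : ∀ X : G → ℕ, ∑ l : Idx A G H p.Nx p.V,
      ∑ α, (if pl O I p e α = l then X α else 0) = ∑ α, X α := by
    intro X
    rw [Finset.sum_comm]
    apply Finset.sum_congr rfl
    intro α _
    rw [Finset.sum_eq_single (pl O I p e α)]
    · rw [if_pos rfl]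
    · intro l _ hl
      rw [if_neg (Ne.symm hl)]
    · intro h1; exact absurd (Finset.mem_univ _) h1
  rw [hswap, hswap] at htot
  have hYs : ∑ α, Y α = 2 * (p.Nx * P₂) * k₂ + 1 := by
    simp only [hY]
    rw [Finset.sum_add_distrib, ← Finset.mul_sum, hI.level e.2.2.2, Finset.sum_ite_eq']
    simp
  have hZs : ∑ α, Z α = Fintype.card G * ((p.Nx - 1) * P₂) + 2 * P₂ * k₂ + 2 * P₂ := by
    simp only [hZ]
    have z1 : ∑ α : G, 2 * P₂ * (if I.F α e.2.2.2 < 0 then 1 else 0) = 2 * P₂ * k₂ := by
      rw [← Finset.mul_sum, hI.level e.2.2.2]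
    have z2 : ∑ α : G, P₂ * ((if α = I.a e.2.2.2 then 1 else 0) +
        (if α = I.b e.2.2.2 then 1 else 0)) = 2 * P₂ := by
      rw [← Finset.mul_sum, Finset.sum_add_distrib, Finset.sum_ite_eq', Finset.sum_ite_eq']
      simp
      ring
    rw [Finset.sum_add_distrib, Finset.sum_add_distrib, z1, z2]
    simp
  rw [hYs, hZs] at htot
  have hgoal : (∑ l, ∑ x : Fin p.Nx × H₂, (if l = (comp O I p K).a e ∧
      x = (comp O I p K).slot e then 0 else (comp O I p K).pr φ' l x e)) = ∑ l, S l := rfl
  rw [hgoal]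
  omega

end

end Pool.Agent.N35.HL
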