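import Mathlib

/-!
# Outer and inner blocks

An outer block is a line arrangement with marked crossings (events) at one level.  Every line
carries a family of slots: a position `xs` and a slope scale `d`.  At the event whose marked line
and slot these are, the position is the abscissa of the event and the scale is comparable to the
slope difference of the event.  An inner block has natural slopes.
-/

namespace Pool.Agent.N35.HL

open Finset

/-- outer block -/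
structure Out (A R H : Type) where
  s : A → ℝ
  t : A → ℝ
  X : R → ℝ
  a : R → A
  b : R → A
  slot : R → H
  xs : A → H → ℝ
  d : A → H → ℝ

namespace Out

variable {A R H : Type} (O : Out A R H)

/-- ordinate of an event -/
noncomputable def Y (e : R) : ℝ := O.s (O.a e) * O.X e + O.t (O.a e)

/-- height of a line above an event -/
noncomputable def F (c : A) (e : R) : ℝ := O.s c * O.X e + O.t c - O.Y e

/-- slope difference of an event -/
noncomputable def D (e : R) : ℝ := O.s (O.a e) - O.s (O.b e)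

open scoped Classical in
/-- number of slot lines of a slot below an event -/
noncomputable def pr (φ : ℝ) (c : A) (h : H) (e : R) : ℕ :=
  (if O.F c e - φ * (O.d c h * (O.X e - O.xs c h)) < 0 then 1 else 0) +
  (if O.F c e + φ * (O.d c h * (O.X e - O.xs c h)) < 0 then 1 else 0)

open scoped Classical in
/-- the conditions on an outer block -/
structure Good [Fintype A] [Fintype H] (k K : ℕ) (φ q Dl L : ℝ) (Rd : ℕ) : Prop where
  hq : 0 < q
  hqD : q ≤ Dl
  hL : 1 ≤ L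
  hRd : 1 ≤ Rd
  tie : ∀ e, O.F (O.b e) e = 0
  hD : ∀ e, Dl ≤ O.D e
  slopes : ∀ c, ∃ z : ℤ, O.s c * Rd = z
  bs : ∀ c, |O.s c| ≤ L
  bt : ∀ c, |O.t c| ≤ L
  bX : ∀ e, |O.X e| ≤ L
  bxs : ∀ c h, |O.xs c h| ≤ L
  g1 : ∀ e c, c ≠ O.a e → c ≠ O.b e → q ≤ |O.F c e|
  g2 : ∀ e c, c ≠ O.a e → c ≠ O.b e → q * |O.s c - O.s (O.a e)| ≤ |O.F c e| * O.D e
  w : ∀ e f, e ≠ f → q ≤ O.D e * |O.X e - O.X f|
  level : ∀ e, ∑ c, (if O.F c e < 0 then 1 else 0) = k
  real : ∀ e, O.xs (O.a e) (O.slot e) = O.X e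
  rd1 : ∀ e, O.d (O.a e) (O.slot e) ≤ 2 * O.D e
  rd2 : ∀ e, O.D e ≤ 3 * O.d (O.a e) (O.slot e)
  inj : ∀ e f, O.a e = O.a f → O.slot e = O.slot f → e = f
  dd : ∀ c h, O.d c h = 0 ∨ (Dl ≤ O.d c h ∧ O.d c h ≤ 4)
  own : ∀ e c h, (c = O.a e ∨ c = O.b e) → ¬ (c = O.a e ∧ h = O.slot e) →
    0 < O.d c h ∧ q ≤ O.d c h * |O.X e - O.xs c h| ∧ q ≤ O.D e * |O.X e - O.xs c h|
  far : ∀ e c h, c ≠ O.a e → c ≠ O.b e → 0 < O.d c h →
    q ≤ O.D e * |O.X e - O.xs c h| ∨ O.d c h ≤ 2 * O.D e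
  dich : ∀ e c h, c ≠ O.a e → c ≠ O.b e →
    16 * (φ * (O.d c h * |O.X e - O.xs c h|)) ≤ |O.F c e| ∨
      16 * |O.F c e| ≤ φ * (O.d c h * |O.X e - O.xs c h|)
  th : ∀ e c h, c ≠ O.a e → c ≠ O.b e → 0 < O.d c h →
    |O.X e - O.xs c h| ≤ Rd * |O.F c e|
  slots : ∀ e, ∑ c, ∑ h, (if c = O.a e ∧ h = O.slot e then 0 else O.pr φ c h e) = K

lemma Fa (e : R) : O.F (O.a e) e = 0 := by unfold F Y; ring

end Out

/-- inner block -/
structure Inn (G R H : Type) where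
  σ : G → ℕ
  t : G → ℝ
  x : R → ℝ
  a : R → G
  b : R → G
  slot : R → H
  act : G → Prop
  xs : G → H → ℝ

namespace Inn

variable {G R H : Type} (I : Inn G R H)

/-- ordinate of an event -/
noncomputable def y (r : R) : ℝ := I.σ (I.a r) * I.x r + I.t (I.a r)

/-- height of a line above an event -/
noncomputable def F (α : G) (r : R) : ℝ := I.σ α * I.x r + I.t α - I.y r

lemma Fa (r : R) : I.F (I.a r) r = 0 := by unfold F y; ring

open scoped Classical in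
/-- the conditions on an inner block -/
structure Good [Fintype G] (k Rz Δ : ℕ) (U M : ℝ) : Prop where
  hΔ : 1 ≤ Δ
  hΔR : Δ ≤ Rz
  hU : 1 ≤ U
  hM : 1 ≤ M
  hσ : ∀ α, I.σ α ≤ Rz
  tie : ∀ r, I.F (I.b r) r = 0
  D1 : ∀ r, I.σ (I.b r) + Δ ≤ I.σ (I.a r)
  D2 : ∀ r, I.σ (I.a r) ≤ I.σ (I.b r) + 2 * Δ
  mg : ∀ r α, α ≠ I.a r → α ≠ I.b r → 1 ≤ M * |I.F α r|
  sep : ∀ r r', r ≠ r' → 1 ≤ M * |I.x r - I.x r'|
  sepo : ∀ r α h, (α = I.a r ∨ α = I.b r) → ¬ (α = I.a r ∧ h = I.slot r) →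
    1 ≤ M * |I.x r - I.xs α h|
  bx : ∀ r, |I.x r| ≤ U
  bY : ∀ r, |I.y r| ≤ U
  bt : ∀ α, |I.t α| ≤ U
  bF : ∀ r α, |I.F α r| ≤ U
  bxs : ∀ α h, |I.xs α h| ≤ U
  bys : ∀ α h, |I.σ α * I.xs α h + I.t α| ≤ U
  real : ∀ r, I.xs (I.a r) (I.slot r) = I.x r
  acta : ∀ r, I.act (I.a r)
  actb : ∀ r, I.act (I.b r)
  th : ∀ r α h, α ≠ I.a r → α ≠ I.b r → I.act α → |I.x r - I.xs α h| ≤ |I.F α r|
  level : ∀ r, ∑ α, (if I.F α r < 0 then 1 else 0) = k
  inj : ∀ r r', I.a r = I.a r' → I.slot r = I.slot r' → r = r'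

end Inn

open scoped Classical in
lemma Inn.Good.mono {G R H : Type} [Fintype G] {I : Inn G R H} {k Rz Δ : ℕ} {U M : ℝ}
    (hI : I.Good k Rz Δ U M) (r r' : R) (h : I.x r < I.x r') : I.y r ≤ I.y r' := by
  by_contra hy
  push Not at hy
  -- every line below or through the event `r'` is strictly below the event `r`
  have key : ∀ α, I.F α r' ≤ 0 → I.F α r < 0 := by
    intro α hα
    have h1 : (0:ℝ) ≤ I.σ α := by positivity
    have h2 : (I.σ α : ℝ) * I.x r ≤ I.σ α * I.x r' := mul_le_mul_of_nonneg_left h.le h1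
    unfold Inn.F at hα ⊢
    linarith
  have h1 := hI.level r
  have h2 := hI.level r'
  have h3 : ∑ α, (if I.F α r' < 0 then 1 else 0) < ∑ α, (if I.F α r < 0 then 1 else 0) := by
    apply Finset.sum_lt_sum
    · intro α _
      by_cases h4 : I.F α r' < 0
      · rw [if_pos h4, if_pos (key α h4.le)]
      · rw [if_neg h4]; exact Nat.zero_le _
    · refine ⟨I.a r', Finset.mem_univ _, ?_⟩
      have h5 := I.Fa r'
      rw [if_neg (by rw [h5]; exact lt_irrefl _), if_pos (key _ h5.le)]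
      exact Nat.one_pos
  rw [h1, h2] at h3
  exact lt_irrefl _ h3

end Pool.Agent.N35.HL
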