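import Pool.Agent.N35.HL.Slots

/-!
# The dichotomy for the slots of a composition
-/

set_option linter.unusedSectionVars false
set_option linter.unusedVariables false
set_option maxHeartbeats 1000000

namespace Pool.Agent.N35.HL

open Finset

section

variable {A R H G R₂ H₂ : Type} [Fintype A] [Fintype H] [Fintype G]
  {O : Out A R H} {I : Inn G R₂ H₂} {p : Prm} {K : Finset G}
  {k₁ K₁ k₂ Rd₀ : ℕ} {φ' q Dl U M L : ℝ}
  (hO : O.Good k₁ K₁ p.φ q Dl L Rd₀) (hI : I.Good k₂ p.Rz p.Δ U M) (h : p.OK φ' q Dl U M)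

include h

/-- bounds on the time coordinates of slot positions -/
lemma xi0_bd (hI : I.Good k₂ p.Rz p.Δ U M) (α : G) (β : Fin p.V) (i : Fin p.Nx) (h₂ : H₂) :
    -(1 / 2) ≤ xi0 I p α (β:ℕ) (i:ℕ) h₂ ∧ xi0 I p α (β:ℕ) (i:ℕ) h₂ ≤ p.Nx := by
  have hi : ((i:ℕ):ℝ) + 1 ≤ p.Nx := by exact_mod_cast i.2
  have hi0 : (0:ℝ) ≤ ((i:ℕ):ℝ) := by positivity
  have hNx := h.Nx1
  unfold xi0
  split_ifs
  · have hκ := h.hκ0
    have hκ1 := h.hκ1
    have hl := h.hl0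
    have hl1 := h.hl1
    have hlle := h.lle
    have h1 : |p.κ * I.xs α h₂| ≤ p.lam / 64 := by
      rw [abs_mul, abs_of_pos hκ]
      have := mul_le_mul_of_nonneg_left (hI.bxs α h₂) hκ.le
      linarith
    have h2 : |p.κ * (I.σ α * I.xs α h₂ + I.t α)| ≤ p.lam / 64 := by
      rw [abs_mul, abs_of_pos hκ]
      have := mul_le_mul_of_nonneg_left (hI.bys α h₂) hκ.le
      linarith
    have h3 : |p.lam * (p.κ * (I.σ α * I.xs α h₂ + I.t α))| ≤ p.lam / 64 := by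
      rw [abs_mul, abs_of_pos hl]
      have := mul_le_mul_of_nonneg_left h2 hl.le
      have h4 : p.lam * (p.lam / 64) ≤ 1 * (p.lam / 64) :=
        mul_le_mul_of_nonneg_right (by linarith) (by positivity)
      linarith
    have h4 : ((β:ℕ):ℝ) + I.σ α * (i:ℕ) ≤ p.Rz * p.Nx + p.V := by
      have : (β:ℕ) + I.σ α * (i:ℕ) ≤ p.Rz * p.Nx + p.V := by
        have h5 : I.σ α * (i:ℕ) ≤ p.Rz * p.Nx := Nat.mul_le_mul (hI.hσ α) i.2.le
        have h6 := β.2.le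
        omega
      exact_mod_cast this
    have h5 : 0 ≤ p.lam * (((β:ℕ):ℝ) + I.σ α * (i:ℕ)) := by positivity
    have h6 : p.lam * (((β:ℕ):ℝ) + I.σ α * (i:ℕ)) ≤ 1 / 8 := by
      have := mul_le_mul_of_nonneg_left h4 hl.le
      linarith
    have a1 := abs_le.mp h1
    have a3 := abs_le.mp h3
    rw [mul_add p.lam]
    constructor <;> linarith [a1.1, a1.2, a3.1, a3.2]
  · constructor <;> linarith

lemma Cl.PW {P W : ℝ} {i j : ℕ} (c : Cl p P W i j) :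
    -(1 / 8) ≤ P + p.lam * W ∧ P + p.lam * W ≤ p.Nx - 1 / 2 := by
  obtain ⟨a1, a2, a3, a4, b1, b2, b3, b4⟩ := c.bds h
  obtain ⟨c1, c2, c3, c4, c5, c6, c7⟩ := c.prods h
  have hl := h.hl0
  have hlle := h.lle
  have d5 := abs_le.mp c5
  have e1 : P + p.lam * W = i + (P - i) + p.lam * (W - j) + p.lam * j := by ring
  rw [e1]
  constructor <;> linarith [d5.1, d5.2]

/-- upper bound for the scaled distance -/
lemma z_le {P W : ℝ} {i j : ℕ} (c : Cl p P W i j) {ξ er : ℝ} (h1 : -(1 / 2) ≤ ξ)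
    (h2 : ξ ≤ p.Nx) (her : |er| ≤ p.κ / (40 * M)) :
    |(1 + p.φ) * (P + p.lam * W - ξ) - er| ≤ 2 * (p.Nx + 1) := by
  obtain ⟨a1, a2⟩ := Cl.PW h c
  have hφ := h.hφ0
  have hφ1 := h.φle
  have hNx := h.Nx1
  have h3 : |P + p.lam * W - ξ| ≤ p.Nx + 1 / 2 := by rw [abs_le]; constructor <;> linarith
  have h4 : p.κ / (40 * M) ≤ 1 := by
    have := h.κle; have := h.lle; have := h.hM; have := h.hκ0
    rw [div_le_one (by positivity)]
    linarith
  calc |(1 + p.φ) * (P + p.lam * W - ξ) - er| ≤ |(1 + p.φ) * (P + p.lam * W - ξ)| + |er| :=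
        abs_sub _ _
    _ ≤ 17 / 16 * (p.Nx + 1 / 2) + 1 := by
        apply add_le_add _ (her.trans h4)
        rw [abs_mul, abs_of_pos (by positivity : 0 < 1 + p.φ)]
        exact mul_le_mul (by linarith) h3 (abs_nonneg _) (by norm_num)
    _ ≤ 2 * (p.Nx + 1) := by linarith

/-- distance from a lower bound for the difference of times -/
lemma z_ge {ζ er m : ℝ} (hm : m ≤ |ζ|) (her : |er| ≤ p.κ / (40 * M)) :
    m - p.κ / (40 * M) ≤ |(1 + p.φ) * ζ - er| := by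
  have hφ := h.hφ0
  have h1 : |ζ| ≤ |(1 + p.φ) * ζ| := by
    rw [abs_mul, abs_of_pos (by positivity : 0 < 1 + p.φ)]
    nlinarith [abs_nonneg ζ]
  have h2 := abs_sub_abs_le_abs_sub ((1 + p.φ) * ζ) er
  linarith

include hO hI

variable {e : Ev' R R₂ p.Nx p.V₁} {P W : ℝ} (c : Pos O I p K M e P W)

include c

/-- scaled distance from a slot position in the pool of the event -/
lemma own_z (α : G) (β : Fin p.V) (i : Fin p.Nx) (h₂ : H₂) : ∃ er : ℝ, |er| ≤ p.κ / (40 * M) ∧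
    cX O I p K e - cxs O I p K (O.a e.1, Sum.inr (Sum.inr ((O.slot e.1, false), (α, β)))) (i, h₂) =
      p.ε * ((1 + p.φ) * (P + p.lam * W - xi0 I p α (β:ℕ) (i:ℕ) h₂) - er) / O.D e.1 := by
  obtain ⟨er, her, h1⟩ := cxs_pos hO hI h (K := K) (O.evt_self hO.inj e.1) α β i h₂
  refine ⟨er, her, ?_⟩
  rw [h1, c.X]
  ring

/-- equal rows, different columns -/
lemma z_col {α : G} {β : Fin p.V} {i : Fin p.Nx} {h₂ : H₂} (hact : I.act α)
    (hrow : I.σ α * (e.2.1:ℕ) + (β:ℕ) = row p e) (hi : (i:ℕ) ≠ (e.2.1:ℕ)) :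
    3 / 4 ≤ |P + p.lam * W - xi0 I p α (β:ℕ) (i:ℕ) h₂| := by
  have cl := c.cl h hI
  obtain ⟨a1, a2, a3, a4, b1, b2, b3, b4⟩ := cl.bds h
  obtain ⟨c1, c2, c3, c4, c5, c6, c7⟩ := cl.prods h
  have hl := h.hl0
  have hlle := h.lle
  have hκ := h.hκ0
  have hκ1 := h.hκ1
  have d5 := abs_le.mp c5
  have h1 : |p.κ * I.xs α h₂| ≤ p.lam / 64 := by
    rw [abs_mul, abs_of_pos hκ]
    have := mul_le_mul_of_nonneg_left (hI.bxs α h₂) hκ.le
    linarith
  have h2 : |p.κ * (I.σ α * I.xs α h₂ + I.t α)| ≤ p.lam / 64 := by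
    rw [abs_mul, abs_of_pos hκ]
    have := mul_le_mul_of_nonneg_left (hI.bys α h₂) hκ.le
    linarith
  have h3 : |p.lam * (p.κ * (I.σ α * I.xs α h₂ + I.t α))| ≤ p.lam / 64 := by
    rw [abs_mul, abs_of_pos hl]
    have := mul_le_mul_of_nonneg_left h2 hl.le
    have h4 : p.lam * (p.lam / 64) ≤ 1 * (p.lam / 64) :=
      mul_le_mul_of_nonneg_right (by linarith) (by positivity)
    linarith
  have d1 := abs_le.mp h1
  have d3 := abs_le.mp h3
  have hr : (I.σ α : ℝ) * (e.2.1:ℕ) + (β:ℕ) = row p e := by exact_mod_cast hrow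
  have e1 : P + p.lam * W - xi0 I p α (β:ℕ) (i:ℕ) h₂ = (((e.2.1:ℕ):ℝ) - (i:ℕ)) +
      p.lam * (I.σ α * (((e.2.1:ℕ):ℝ) - (i:ℕ))) + (P - (e.2.1:ℕ)) + p.lam * (W - row p e) -
      p.κ * I.xs α h₂ - p.lam * (p.κ * (I.σ α * I.xs α h₂ + I.t α)) := by
    unfold xi0
    rw [if_pos hact, ← hr]
    ring
  rw [e1]
  have hσ : (0:ℝ) ≤ I.σ α := by positivity
  rcases lt_or_gt_of_ne hi with h4 | h4
  · have h5 : ((i:ℕ):ℝ) + 1 ≤ (e.2.1:ℕ) := by exact_mod_cast h4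
    have h6 : 0 ≤ p.lam * (I.σ α * (((e.2.1:ℕ):ℝ) - (i:ℕ))) :=
      mul_nonneg hl.le (mul_nonneg hσ (by linarith))
    rw [abs_of_pos (by linarith [d5.1, d1.2, d3.2])]
    linarith [d5.1, d1.2, d3.2]
  · have h5 : ((e.2.1:ℕ):ℝ) + 1 ≤ (i:ℕ) := by exact_mod_cast h4
    have h6 : p.lam * (I.σ α * (((e.2.1:ℕ):ℝ) - (i:ℕ))) ≤ 0 :=
      mul_nonpos_of_nonneg_of_nonpos hl.le (mul_nonpos_of_nonneg_of_nonpos hσ (by linarith))
    rw [abs_of_neg (by linarith [d5.2, d1.1, d3.1])]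
    linarith [d5.2, d1.1, d3.1]

/-- inactive lines -/
lemma z_inert {α : G} {β : ℕ} {i : ℕ} {h₂ : H₂} (hact : ¬ I.act α) :
    3 / 8 ≤ |P + p.lam * W - xi0 I p α β i h₂| := by
  have cl := c.cl h hI
  obtain ⟨a1, a2⟩ := Cl.PW h cl
  unfold xi0
  rw [if_neg hact, abs_of_pos (by linarith)]
  linarith

/-- equal rows, equal columns -/
lemma z_same {α : G} {β : Fin p.V} {i : Fin p.Nx} {h₂ : H₂} (hact : I.act α)
    (hrow : I.σ α * (e.2.1:ℕ) + (β:ℕ) = row p e) (hi : (i:ℕ) = (e.2.1:ℕ)) :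
    ∃ er : ℝ, |er| ≤ p.κ / (80 * M) ∧ P + p.lam * W - xi0 I p α (β:ℕ) (i:ℕ) h₂ =
      p.κ * ((1 + p.lam * I.σ α) * (I.x e.2.2.2 - I.xs α h₂)) -
        p.κ * (p.lam * I.F α e.2.2.2) + er := by
  have hκ := h.hκ0
  have hM : 0 < M := by linarith [h.hM]
  have hl := h.hl0
  have hlle := h.lle
  have hRz := h.Rz1
  have hr : (I.σ α : ℝ) * (e.2.1:ℕ) + (β:ℕ) = row p e := by exact_mod_cast hrow
  refine ⟨(P - ((e.2.1:ℕ) + p.κ * I.x e.2.2.2)) + p.lam * (W - (row p e + p.κ * I.y e.2.2.2)),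
    ?_, ?_⟩
  · have h4 : p.κ / (M * p.Rz) ≤ p.κ / M := by
      rw [div_mul_eq_div_div]; exact div_le_self (by positivity) hRz
    have h5 : |p.lam * (W - (row p e + p.κ * I.y e.2.2.2))| ≤ 1 / 16 * (p.κ / M / 100) := by
      rw [abs_mul, abs_of_pos hl]
      exact mul_le_mul hlle c.hW (abs_nonneg _) (by norm_num)
    have h6 := c.hP
    have h7 : 0 < p.κ / M := by positivity
    have h8 : p.κ / (80 * M) = p.κ / M / 80 := by field_simp
    rw [h8]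
    refine (abs_add_le _ _).trans ?_
    linarith
  · unfold xi0
    rw [if_pos hact, ← hr, hi]
    unfold Inn.F
    ring

end

end Pool.Agent.N35.HL
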