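import Pool.Agent.N35.HL.Dich

/-!
# The dichotomy for the slots of a composition, continued
-/

set_option linter.unusedSectionVars false
set_option linter.unusedVariables false
set_option maxHeartbeats 1000000

namespace Pool.Agent.N35.HL

open Finset

section

variable {A R H G R₂ H₂ : Type} [Fintype A] [Fintype H] [Fintype G]
  {O : Out A R H} {I : Inn G R₂ H₂} {p : Prm} {K : Finset G}
  {k₁ K₁ k₂ Rd₀ : ℕ} {φ' q Dl U M L : ℝ}
  (hO : O.Good k₁ K₁ p.φ q Dl L Rd₀) (hI : I.Good k₂ p.Rz p.Δ U M) (h : p.OK φ' q Dl U M)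

include hO hI h

variable {e : Ev' R R₂ p.Nx p.V₁} {P W : ℝ} (c : Pos O I p K M e P W)

include c

/-- distance between a point near one event and a point near another event -/
lemma far_dist {e₁ : R} (hne : e₁ ≠ e.1) {u' : ℝ} (hu' : |u'| ≤ p.Nx + 2) :
    |cX O I p K e - (O.X e₁ + p.ε * u' / O.D e₁)| ≤ 101 / 100 * |O.X e.1 - O.X e₁| ∧
    99 / 100 * |O.X e.1 - O.X e₁| ≤ |cX O I p K e - (O.X e₁ + p.ε * u' / O.D e₁)| := by
  have hD := Dpos hO h e.1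
  have hD1 := Dpos hO h e₁
  have hq := h.hq
  have hε := h.hε0
  have hε1 := h.hε1
  have hφ := h.hφ0
  have hφ1 := h.φle
  have cl := c.cl h hI
  obtain ⟨u1, -⟩ := cl.uv h
  have w1 := hO.w e.1 e₁ (Ne.symm hne)
  have w2 := hO.w e₁ e.1 hne
  rw [abs_sub_comm] at w2
  set dx := |O.X e.1 - O.X e₁| with hdx
  have hdx0 : 0 ≤ dx := abs_nonneg _
  have key : ∀ (u D : ℝ), 0 < D → |u| ≤ p.Nx + 2 → q ≤ D * dx → |p.ε * u / D| ≤ dx / 200 := by
    intro u D hD hu hw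
    rw [abs_div, abs_mul, abs_of_pos hε, abs_of_pos hD, div_le_iff₀ hD]
    have h1 : p.ε * |u| ≤ p.ε * (p.Nx + 6) := mul_le_mul_of_nonneg_left (by linarith) hε.le
    have h2 : p.φ * q ≤ 1 / 16 * q := mul_le_mul_of_nonneg_right hφ1 hq.le
    nlinarith
  have k1 := key _ _ hD (u1.trans (by linarith)) w1
  have k2 := key _ _ hD1 hu' w2
  rw [c.X]
  set A := p.ε * (1 / 2 + (1 + p.φ) * (P + p.lam * W)) / O.D e.1 with hA
  set B := p.ε * u' / O.D e₁ with hB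
  have e1 : O.X e.1 + A - (O.X e₁ + B) = (O.X e.1 - O.X e₁) + (A - B) := by ring
  have h3 : |A - B| ≤ dx / 100 := by
    refine (abs_sub _ _).trans ?_
    linarith
  rw [e1]
  constructor
  · refine (abs_add_le _ _).trans ?_
    linarith
  · have h4 := abs_sub_abs_le_abs_sub (O.X e.1 - O.X e₁) (-(A - B))
    rw [abs_neg, sub_neg_eq_add] at h4
    linarith

/-- slots of other pools -/
lemma farpool {l : A} {g : H} {e₁ : R} (hev : O.evt l g = some e₁) (hne : e₁ ≠ e.1) (α : G)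
    (β : Fin p.V) (x : Fin p.Nx × H₂) :
    16 * (φ' * (O.D e₁ * (p.δ * p.Δ) * |cX O I p K e -
        cxs O I p K (l, Sum.inr (Sum.inr ((g, false), (α, β)))) x|)) ≤
      |(comp O I p K).F (l, Sum.inr (Sum.inr ((g, false), (α, β)))) e| ∧
    p.qs M * p.δ / 4 ≤ (comp O I p K).D e * |cX O I p K e -
        cxs O I p K (l, Sum.inr (Sum.inr ((g, false), (α, β)))) x| := by
  obtain ⟨i, h₂⟩ := x
  have hD := Dpos hO h e.1
  have hD1 := Dpos hO h e₁
  have hq := h.hq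
  have hφ := h.hφ0
  have hφ' := h.hφ'
  have hφ1 := h.φle
  have hδ := h.δ0
  have hδφ := h.δφ
  have hlle := h.lle
  have hΔ := h.Δ1
  have hκ := h.hκ0
  have hM : 0 < M := by linarith [h.hM]
  obtain ⟨s1, s2⟩ := O.evt_spec hev
  obtain ⟨er, her, hpos⟩ := cxs_pos hO hI h (K := K) hev α β i h₂
  obtain ⟨x1, x2⟩ := xi0_bd h hI α β i h₂
  have hu' : |(1 / 2 + (1 + p.φ) * xi0 I p α (β:ℕ) (i:ℕ) h₂) + er| ≤ p.Nx + 2 := by
    have h4 : p.κ / (40 * M) ≤ 1 / 4 := by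
      have := h.κle; have := h.lle; have := h.hM
      rw [div_le_iff₀ (by positivity)]
      linarith
    have h5 := abs_le.mp (her.trans h4)
    have hNx := h.Nx1
    have h6 : p.φ * xi0 I p α (β:ℕ) (i:ℕ) h₂ ≤ p.φ * (p.Nx + 1) :=
      mul_le_mul_of_nonneg_left (by linarith) hφ.le
    have h7 : p.φ * (-(1 / 2)) ≤ p.φ * xi0 I p α (β:ℕ) (i:ℕ) h₂ :=
      mul_le_mul_of_nonneg_left x1 hφ.le
    have h8 := h.hφ1
    rw [abs_le]
    constructor <;> linarith [h5.1, h5.2]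
  obtain ⟨f1, f2⟩ := far_dist hO hI h c hne hu'
  rw [← hpos] at f1 f2
  have hnot : ¬ (l = O.a e.1 ∧ g = O.slot e.1) := by
    rintro ⟨rfl, rfl⟩
    rw [O.evt_self hO.inj] at hev
    exact hne (Option.some.inj hev).symm
  obtain ⟨-, -, o3, -, -⟩ := off_S hO hI h c hnot false α β
  have hxs : O.xs l g = O.X e₁ := by rw [← s1, ← s2]; exact hO.real e₁
  rw [hxs] at o3
  have hd : O.D e₁ ≤ 3 * O.d l g := by rw [← s1, ← s2]; exact hO.rd2 e₁
  set dx := |O.X e.1 - O.X e₁| with hdx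
  have hdx0 : 0 ≤ dx := abs_nonneg _
  set F' := |(comp O I p K).F (l, Sum.inr (Sum.inr ((g, false), (α, β)))) e| with hF'
  set Z := |cX O I p K e - cxs O I p K (l, Sum.inr (Sum.inr ((g, false), (α, β)))) (i, h₂)| with hZ
  constructor
  · refine le_trans ?_ o3
    have h1 : O.D e₁ * Z ≤ (3 * O.d l g) * (101 / 100 * dx) :=
      mul_le_mul hd f1 (abs_nonneg _) (by linarith)
    have h2 : φ' * p.Δ * p.δ ≤ 1 / 2048 * (p.φ / 32) := by
      apply mul_le_mul h.φΔ _ hδ.le (by norm_num)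
      have : p.φ * p.lam ≤ p.φ * (1 / 16) := mul_le_mul_of_nonneg_left hlle hφ.le
      linarith
    have h3 : 16 * (φ' * (O.D e₁ * (p.δ * p.Δ) * Z)) = 16 * (φ' * p.Δ * p.δ) * (O.D e₁ * Z) := by
      ring
    rw [h3]
    have h4 : 0 ≤ O.D e₁ * Z := mul_nonneg hD1.le (abs_nonneg _)
    have h5 : 0 ≤ O.d l g * dx := mul_nonneg (by linarith) hdx0
    calc 16 * (φ' * p.Δ * p.δ) * (O.D e₁ * Z)
        ≤ 16 * (1 / 2048 * (p.φ / 32)) * ((3 * O.d l g) * (101 / 100 * dx)) := by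
          apply mul_le_mul _ h1 h4 (by positivity)
          linarith
      _ = p.φ * (O.d l g * dx) * (16 / 2048 / 32 * 3 * 101 / 100) := by ring
      _ ≤ p.φ * (O.d l g * dx) * (7 / 32) := by
          apply mul_le_mul_of_nonneg_left (by norm_num)
          exact mul_nonneg hφ.le h5
      _ = _ := by ring
  · obtain ⟨d1, -⟩ := comp_D hO hI h (K := K) e
    have w1 := hO.w e.1 e₁ (Ne.symm hne)
    have h1 : 7 / 10 * (p.δ * p.Δ) * O.D e.1 * (99 / 100 * dx) ≤ (comp O I p K).D e * Z :=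
      mul_le_mul d1 f2 (by positivity) (le_trans (by positivity) d1)
    refine le_trans ?_ h1
    have h2 : p.δ * 1 ≤ p.δ * p.Δ := mul_le_mul_of_nonneg_left hΔ hδ.le
    have h3 : 7 / 10 * (p.δ * p.Δ) * O.D e.1 * (99 / 100 * dx) =
      693 / 1000 * (p.δ * p.Δ) * (O.D e.1 * dx) := by ring
    rw [h3]
    have h4 : 693 / 1000 * p.δ * q ≤ 693 / 1000 * (p.δ * p.Δ) * (O.D e.1 * dx) :=
      mul_le_mul (by linarith) w1 hq.le (by positivity)
    refine le_trans ?_ h4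
    have h5 := h.qs2
    have h6 : p.φ * q ≤ 1 / 16 * q := mul_le_mul_of_nonneg_right hφ1 hq.le
    have h7 : p.qs M ≤ q := by linarith
    have h8 : p.qs M * p.δ ≤ q * p.δ := mul_le_mul_of_nonneg_right h7 hδ.le
    have h9 : 0 < q * p.δ := by positivity
    linarith

/-- scaled form of the distances in the own pool -/
lemma own_abs (α : G) (β : Fin p.V) (i : Fin p.Nx) (h₂ : H₂) : ∃ er : ℝ, |er| ≤ p.κ / (40 * M) ∧
    |cX O I p K e - cxs O I p K (O.a e.1, Sum.inr (Sum.inr ((O.slot e.1, false), (α, β)))) (i, h₂)|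
      * O.D e.1 =
      p.ε * |(1 + p.φ) * (P + p.lam * W - xi0 I p α (β:ℕ) (i:ℕ) h₂) - er| := by
  have hD := Dpos hO h e.1
  obtain ⟨er, her, h1⟩ := own_z hO hI h c α β i h₂
  refine ⟨er, her, ?_⟩
  rw [h1, abs_div, abs_mul, abs_of_pos h.hε0, abs_of_pos hD, div_mul_cancel₀ _ hD.ne']

/-- own pool, different row -/
lemma ownpool_ne (α : G) (β : Fin p.V) (hn : I.σ α * (e.2.1:ℕ) + (β:ℕ) ≠ row p e)
    (x : Fin p.Nx × H₂) :
    16 * (φ' * (O.D e.1 * (p.δ * p.Δ) * |cX O I p K e - cxs O I p K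
      (O.a e.1, Sum.inr (Sum.inr ((O.slot e.1, false), (α, β)))) x|)) ≤
    |(comp O I p K).F (O.a e.1, Sum.inr (Sum.inr ((O.slot e.1, false), (α, β)))) e| ∧
    p.ε * (p.δ / 2) ≤
      |(comp O I p K).F (O.a e.1, Sum.inr (Sum.inr ((O.slot e.1, false), (α, β)))) e| := by
  obtain ⟨i, h₂⟩ := x
  have hδ := h.δ0
  have hε := h.hε0
  have hφ' := h.hφ'
  have hΔ := h.Δ1
  obtain ⟨er, her, hF⟩ := pool hO hI h c α β
  have hσ : (I.σ α:ℝ) ≤ p.Rz := by exact_mod_cast hI.hσ α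
  obtain ⟨ls1, ls2⟩ := h.σ1 (σ := I.σ α) (by positivity) hσ
  have hκU : p.κ * (U + 1) ≤ 1 / 1024 := by
    have := h.hκ1; have := h.lle; linarith
  obtain ⟨a1, a2, a3, a4⟩ := pool_real (n := I.σ α * ((e.2.1:ℕ):ℝ) + (β:ℕ) - row p e) h.δ0 h.hκ0
    ls1 ls2 h.hU h.hM hκU (hI.bF e.2.2.2 α) her rfl
  have hF2 : p.ε * (p.δ / 2) ≤
      |(comp O I p K).F (O.a e.1, Sum.inr (Sum.inr ((O.slot e.1, false), (α, β)))) e| := by
    rw [hF, abs_mul, abs_of_pos hε]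
    apply mul_le_mul_of_nonneg_left _ hε.le
    rcases lt_or_gt_of_ne hn with h1 | h1
    · have h2 : (I.σ α * ((e.2.1:ℕ):ℝ) + (β:ℕ)) + 1 ≤ row p e := by exact_mod_cast h1
      have h3 := a2 (by linarith)
      rw [abs_of_neg (by linarith)]; linarith
    · have h2 : (row p e : ℝ) + 1 ≤ (I.σ α * ((e.2.1:ℕ):ℝ) + (β:ℕ)) := by exact_mod_cast h1
      have h3 := a1 (by linarith)
      rw [abs_of_pos (by linarith)]; linarith
  refine ⟨?_, hF2⟩
  obtain ⟨er', her', hz⟩ := own_abs hO hI h c α β i h₂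
  obtain ⟨x1, x2⟩ := xi0_bd h hI α β i h₂
  have hz2 := z_le h (c.cl h hI) x1 x2 her'
  set z := |(1 + p.φ) * (P + p.lam * W - xi0 I p α (β:ℕ) (i:ℕ) h₂) - er'| with hzd
  set Z := |cX O I p K e - cxs O I p K
    (O.a e.1, Sum.inr (Sum.inr ((O.slot e.1, false), (α, β)))) (i, h₂)| with hZ
  have h1 : 16 * (φ' * (O.D e.1 * (p.δ * p.Δ) * Z)) = 16 * (φ' * p.Δ) * p.δ * (Z * O.D e.1) := by
    ring
  rw [h1, hz]
  have h2 := h.hφ'1
  have h3 : 16 * (φ' * p.Δ) * p.δ * (p.ε * z) ≤ 16 * (φ' * p.Δ) * p.δ * (p.ε * (2 * (p.Nx + 1))) := by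
    apply mul_le_mul_of_nonneg_left _ (by positivity)
    exact mul_le_mul_of_nonneg_left hz2 hε.le
  have h4 : 16 * (φ' * p.Δ) * p.δ * (p.ε * (2 * (p.Nx + 1))) =
    (1024 * (φ' * p.Δ) * (p.Nx + 1)) * (p.ε * p.δ) / 32 := by ring
  have h5 : (1024 * (φ' * p.Δ) * (p.Nx + 1)) * (p.ε * p.δ) ≤ 1 * (p.ε * p.δ) :=
    mul_le_mul_of_nonneg_right h2 (by positivity)
  have h6 : 0 < p.ε * p.δ := by positivity
  linarith

/-- own pool, same row, different column or inactive line -/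
lemma ownpool_st (α : G) (β : Fin p.V) (hn : I.σ α * (e.2.1:ℕ) + (β:ℕ) = row p e)
    (i : Fin p.Nx) (h₂ : H₂) (hc : ¬ I.act α ∨ (i:ℕ) ≠ (e.2.1:ℕ)) (ha : α ≠ I.a e.2.2.2)
    (hb : α ≠ I.b e.2.2.2) :
    16 * |(comp O I p K).F (O.a e.1, Sum.inr (Sum.inr ((O.slot e.1, false), (α, β)))) e| ≤
      φ' * (O.D e.1 * (p.δ * p.Δ) * |cX O I p K e - cxs O I p K
      (O.a e.1, Sum.inr (Sum.inr ((O.slot e.1, false), (α, β)))) (i, h₂)|) ∧
    |cX O I p K e - cxs O I p K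
      (O.a e.1, Sum.inr (Sum.inr ((O.slot e.1, false), (α, β)))) (i, h₂)| ≤ p.Rd *
    |(comp O I p K).F (O.a e.1, Sum.inr (Sum.inr ((O.slot e.1, false), (α, β)))) e| ∧
    0 < |cX O I p K e - cxs O I p K
      (O.a e.1, Sum.inr (Sum.inr ((O.slot e.1, false), (α, β)))) (i, h₂)| := by
  have hD := Dpos hO h e.1
  have hδ := h.δ0
  have hε := h.hε0
  have hκ := h.hκ0
  have hφ' := h.hφ'
  have hΔ := h.Δ1
  have hM : 0 < M := by linarith [h.hM]
  have hU := h.hU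
  obtain ⟨er, her, hF⟩ := pool hO hI h c α β
  have hσ : (I.σ α:ℝ) ≤ p.Rz := by exact_mod_cast hI.hσ α
  obtain ⟨ls1, ls2⟩ := h.σ1 (σ := I.σ α) (by positivity) hσ
  have hκU : p.κ * (U + 1) ≤ 1 / 1024 := by
    have := h.hκ1; have := h.lle; linarith
  obtain ⟨a1, a2, a3, a4⟩ := pool_real (n := I.σ α * ((e.2.1:ℕ):ℝ) + (β:ℕ) - row p e) h.δ0 h.hκ0
    ls1 ls2 h.hU h.hM hκU (hI.bF e.2.2.2 α) her rfl
  have hr : (I.σ α : ℝ) * (e.2.1:ℕ) + (β:ℕ) = row p e := by exact_mod_cast hn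
  have hn0 : I.σ α * ((e.2.1:ℕ):ℝ) + (β:ℕ) - row p e = 0 := by linarith
  have hmg := hI.mg e.2.2.2 α ha hb
  have b1 := a3 hn0
  obtain ⟨b2, -⟩ := a4 hn0 hmg
  obtain ⟨er', her', hz⟩ := own_abs hO hI h c α β i h₂
  obtain ⟨x1, x2⟩ := xi0_bd h hI α β i h₂
  have hz2 := z_le h (c.cl h hI) x1 x2 her'
  have hz3 : 1 / 4 ≤ |(1 + p.φ) * (P + p.lam * W - xi0 I p α (β:ℕ) (i:ℕ) h₂) - er'| := by
    have h1 : 3 / 8 ≤ |P + p.lam * W - xi0 I p α (β:ℕ) (i:ℕ) h₂| := by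
      rcases hc with hc | hc
      · exact z_inert hO hI h c hc
      · by_cases hact : I.act α
        · linarith [z_col hO hI h c (h₂ := h₂) hact hn hc]
        · exact z_inert hO hI h c hact
    have h2 := z_ge h h1 her'
    have h3 : p.κ / (40 * M) ≤ 1 / 8 := by
      have := h.κle; have := h.lle; have := h.hM
      rw [div_le_iff₀ (by positivity)]
      linarith
    linarith
  set z := |(1 + p.φ) * (P + p.lam * W - xi0 I p α (β:ℕ) (i:ℕ) h₂) - er'| with hzd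
  set Z := |cX O I p K e - cxs O I p K
    (O.a e.1, Sum.inr (Sum.inr ((O.slot e.1, false), (α, β)))) (i, h₂)| with hZ
  have hFa : |(comp O I p K).F (O.a e.1, Sum.inr (Sum.inr ((O.slot e.1, false), (α, β)))) e| =
    p.ε * |p.δ / (1 + p.lam * (I.σ α:ℝ)) * (I.σ α * ((e.2.1:ℕ):ℝ) + (β:ℕ) - row p e +
    p.κ * (I.F α e.2.2.2 + er))| := by rw [hF, abs_mul, abs_of_pos hε]
  rw [hFa]
  set B := |p.δ / (1 + p.lam * (I.σ α:ℝ)) * (I.σ α * ((e.2.1:ℕ):ℝ) + (β:ℕ) - row p e +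
    p.κ * (I.F α e.2.2.2 + er))| with hB
  refine ⟨?_, ?_, ?_⟩
  · have h1 : φ' * (O.D e.1 * (p.δ * p.Δ) * Z) = (φ' * p.Δ) * p.δ * (Z * O.D e.1) := by ring
    rw [h1, hz]
    have h2 := h.hκ2
    have h3 : p.δ * (128 * (p.κ * (U + 1))) ≤ p.δ * (φ' * p.Δ) :=
      mul_le_mul_of_nonneg_left h2 hδ.le
    have h4 : 16 * B ≤ (φ' * p.Δ) * p.δ / 4 := by linarith
    have h5 : (φ' * p.Δ) * p.δ * (1 / 4) ≤ (φ' * p.Δ) * p.δ * z :=
      mul_le_mul_of_nonneg_left hz3 (by positivity)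
    have h6 := mul_le_mul_of_nonneg_left (show 16 * B ≤ (φ' * p.Δ) * p.δ * z by linarith) hε.le
    linarith
  · -- `Z = ε z / D`, `|F'| ≥ 4/5 ε δ κ / M`
    have h1 : 4 / 5 * (p.δ * p.κ) / M ≤ B := by
      refine le_trans ?_ b2
      rw [div_le_iff₀ hM]
      have h2 : p.δ * p.κ * 1 ≤ p.δ * p.κ * (M * |I.F α e.2.2.2|) :=
        mul_le_mul_of_nonneg_left hmg (by positivity)
      linarith
    have h2 : Z * O.D e.1 ≤ p.Rd * (p.ε * B) * O.D e.1 := by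
      rw [hz]
      have h3 := hO.hD e.1
      have h4 := h.hrd
      have hRd : (0:ℝ) < p.Rd := by
        have : (1:ℝ) ≤ p.Rd := by exact_mod_cast h.hRd
        linarith
      have hRz := h.Rz1
      have hNx := h.Nx1
      have h5 : 200 * (p.Rz * (p.Nx + 2)) ≤ p.Rd * O.D e.1 * (p.δ * p.κ / M) := by
        have h6 : p.Rd * Dl * (p.δ * p.κ / M) ≤ p.Rd * O.D e.1 * (p.δ * p.κ / M) := by
          apply mul_le_mul_of_nonneg_right _ (by positivity)
          exact mul_le_mul_of_nonneg_left h3 hRd.le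
        refine le_trans ?_ h6
        rw [mul_div_assoc', le_div_iff₀ hM]
        linarith
      have h7 : z ≤ 2 * (p.Rz * (p.Nx + 2)) := by
        have : (1:ℝ) * (p.Nx + 2) ≤ p.Rz * (p.Nx + 2) :=
          mul_le_mul_of_nonneg_right hRz (by linarith)
        linarith
      have h8 : p.Rd * O.D e.1 * (4 / 5 * (p.δ * p.κ) / M) ≤ p.Rd * O.D e.1 * B :=
        mul_le_mul_of_nonneg_left h1 (by positivity)
      have h9 : p.Rd * O.D e.1 * (4 / 5 * (p.δ * p.κ) / M) =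
        4 / 5 * (p.Rd * O.D e.1 * (p.δ * p.κ / M)) := by ring
      have h10 : 0 ≤ (p.Rz:ℝ) * (p.Nx + 2) := by positivity
      have h11 : z ≤ p.Rd * O.D e.1 * B := by linarith
      have h12 := mul_le_mul_of_nonneg_left h11 hε.le
      linarith
    exact le_of_mul_le_mul_right h2 hD
  · by_contra h1
    push Not at h1
    have h2 : Z * O.D e.1 ≤ 0 := mul_nonpos_of_nonpos_of_nonneg h1 hD.le
    rw [hz] at h2
    have h3 : 0 < p.ε * z := mul_pos hε (by linarith)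
    linarith

/-- own pool, same row, same column, active line not through the event -/
lemma ownpool_ns (α : G) (β : Fin p.V) (hn : I.σ α * (e.2.1:ℕ) + (β:ℕ) = row p e)
    (i : Fin p.Nx) (h₂ : H₂) (hact : I.act α) (hi : (i:ℕ) = (e.2.1:ℕ)) (ha : α ≠ I.a e.2.2.2)
    (hb : α ≠ I.b e.2.2.2) :
    16 * (φ' * (O.D e.1 * (p.δ * p.Δ) * |cX O I p K e - cxs O I p K
      (O.a e.1, Sum.inr (Sum.inr ((O.slot e.1, false), (α, β)))) (i, h₂)|)) ≤
    |(comp O I p K).F (O.a e.1, Sum.inr (Sum.inr ((O.slot e.1, false), (α, β)))) e| := by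
  have hD := Dpos hO h e.1
  have hδ := h.δ0
  have hε := h.hε0
  have hκ := h.hκ0
  have hφ' := h.hφ'
  have hφ := h.hφ0
  have hφ1 := h.φle
  have hΔ := h.Δ1
  have hl := h.hl0
  have hlle := h.lle
  have hM : 0 < M := by linarith [h.hM]
  obtain ⟨er, her, hF⟩ := pool hO hI h c α β
  have hσ : (I.σ α:ℝ) ≤ p.Rz := by exact_mod_cast hI.hσ α
  obtain ⟨ls1, ls2⟩ := h.σ1 (σ := I.σ α) (by positivity) hσ
  have hκU : p.κ * (U + 1) ≤ 1 / 1024 := by
    have := h.hκ1; have := h.lle; linarith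
  obtain ⟨a1, a2, a3, a4⟩ := pool_real (n := I.σ α * ((e.2.1:ℕ):ℝ) + (β:ℕ) - row p e) h.δ0 h.hκ0
    ls1 ls2 h.hU h.hM hκU (hI.bF e.2.2.2 α) her rfl
  have hr : (I.σ α : ℝ) * (e.2.1:ℕ) + (β:ℕ) = row p e := by exact_mod_cast hn
  have hn0 : I.σ α * ((e.2.1:ℕ):ℝ) + (β:ℕ) - row p e = 0 := by linarith
  have hmg := hI.mg e.2.2.2 α ha hb
  obtain ⟨b2, -⟩ := a4 hn0 hmg
  obtain ⟨er', her', hz⟩ := own_abs hO hI h c α β i h₂
  obtain ⟨er2, her2, hs⟩ := z_same hO hI h c (h₂ := h₂) hact hn hi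
  have hth := hI.th e.2.2.2 α h₂ ha hb hact
  set f := |I.F α e.2.2.2| with hf
  have hfM : 1 / M ≤ f := by rw [div_le_iff₀ hM]; linarith
  have hf0 : 0 < f := lt_of_lt_of_le (by positivity) hfM
  have hκf : p.κ / M ≤ p.κ * f := by
    have := mul_le_mul_of_nonneg_left hfM hκ.le
    calc p.κ / M = p.κ * (1 / M) := by ring
      _ ≤ _ := this
  have h1 : |P + p.lam * W - xi0 I p α (β:ℕ) (i:ℕ) h₂| ≤ 5 / 4 * (p.κ * f) := by
    rw [hs]
    have h2 : |p.κ * ((1 + p.lam * I.σ α) * (I.x e.2.2.2 - I.xs α h₂))| ≤ p.κ * (17 / 16 * f) := by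
      rw [abs_mul, abs_of_pos hκ, abs_mul, abs_of_pos (by linarith : 0 < 1 + p.lam * (I.σ α:ℝ))]
      apply mul_le_mul_of_nonneg_left _ hκ.le
      exact mul_le_mul ls2 hth (abs_nonneg _) (by norm_num)
    have h3 : |p.κ * (p.lam * I.F α e.2.2.2)| ≤ p.κ * (1 / 16 * f) := by
      rw [abs_mul, abs_of_pos hκ, abs_mul, abs_of_pos hl]
      apply mul_le_mul_of_nonneg_left _ hκ.le
      exact mul_le_mul_of_nonneg_right hlle hf0.le
    have h4 : p.κ / (80 * M) = p.κ / M / 80 := by field_simp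
    have h6 := abs_sub (p.κ * ((1 + p.lam * I.σ α) * (I.x e.2.2.2 - I.xs α h₂)))
      (p.κ * (p.lam * I.F α e.2.2.2))
    calc |p.κ * ((1 + p.lam * I.σ α) * (I.x e.2.2.2 - I.xs α h₂)) -
          p.κ * (p.lam * I.F α e.2.2.2) + er2|
        ≤ |p.κ * ((1 + p.lam * I.σ α) * (I.x e.2.2.2 - I.xs α h₂)) -
          p.κ * (p.lam * I.F α e.2.2.2)| + |er2| := abs_add_le _ _
      _ ≤ (|p.κ * ((1 + p.lam * I.σ α) * (I.x e.2.2.2 - I.xs α h₂))| +
          |p.κ * (p.lam * I.F α e.2.2.2)|) + |er2| := by linarith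
      _ ≤ 5 / 4 * (p.κ * f) := by
          rw [h4] at her2
          have : 0 < p.κ * f := by positivity
          linarith
  have hz2 : |(1 + p.φ) * (P + p.lam * W - xi0 I p α (β:ℕ) (i:ℕ) h₂) - er'| ≤ 2 * (p.κ * f) := by
    have h4 : p.κ / (40 * M) = p.κ / M / 40 := by field_simp
    rw [h4] at her'
    calc _ ≤ |(1 + p.φ) * (P + p.lam * W - xi0 I p α (β:ℕ) (i:ℕ) h₂)| + |er'| := abs_sub _ _
      _ ≤ 17 / 16 * (5 / 4 * (p.κ * f)) + p.κ / M / 40 := by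
          apply add_le_add _ her'
          rw [abs_mul, abs_of_pos (by positivity : 0 < 1 + p.φ)]
          exact mul_le_mul (by linarith) h1 (abs_nonneg _) (by norm_num)
      _ ≤ 2 * (p.κ * f) := by
          have : 0 < p.κ * f := by positivity
          linarith
  set z := |(1 + p.φ) * (P + p.lam * W - xi0 I p α (β:ℕ) (i:ℕ) h₂) - er'| with hzd
  set Z := |cX O I p K e - cxs O I p K
    (O.a e.1, Sum.inr (Sum.inr ((O.slot e.1, false), (α, β)))) (i, h₂)| with hZ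
  rw [hF, abs_mul, abs_of_pos hε]
  have h5 : 16 * (φ' * (O.D e.1 * (p.δ * p.Δ) * Z)) = 16 * (φ' * p.Δ) * p.δ * (Z * O.D e.1) := by
    ring
  rw [h5, hz]
  have h6 : 16 * (φ' * p.Δ) * p.δ * z ≤ 16 * (1 / 2048) * p.δ * (2 * (p.κ * f)) := by
    apply mul_le_mul _ hz2 (abs_nonneg _) (by positivity)
    apply mul_le_mul_of_nonneg_right _ hδ.le
    linarith [h.φΔ]
  have h7 : 0 < p.δ * (p.κ * f) := by positivity
  have h8 : 16 * (φ' * p.Δ) * p.δ * z ≤ 4 / 5 * (p.δ * (p.κ * f)) := by linarith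
  have h9 := mul_le_mul_of_nonneg_left (h8.trans b2) hε.le
  linarith

/-- own pool, the two lines of the event -/
lemma ownpool_own (α : G) (β : Fin p.V) (hn : I.σ α * (e.2.1:ℕ) + (β:ℕ) = row p e)
    (i : Fin p.Nx) (h₂ : H₂) (hab : α = I.a e.2.2.2 ∨ α = I.b e.2.2.2)
    (hne : ¬ (α = I.a e.2.2.2 ∧ (i, h₂) = csl I p e)) :
    p.qs M * p.δ / 4 ≤ O.D e.1 * (p.δ * p.Δ) * |cX O I p K e - cxs O I p K
      (O.a e.1, Sum.inr (Sum.inr ((O.slot e.1, false), (α, β)))) (i, h₂)| ∧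
    p.qs M * p.δ / 4 ≤ (comp O I p K).D e * |cX O I p K e - cxs O I p K
      (O.a e.1, Sum.inr (Sum.inr ((O.slot e.1, false), (α, β)))) (i, h₂)| := by
  have hD := Dpos hO h e.1
  have hδ := h.δ0
  have hε := h.hε0
  have hκ := h.hκ0
  have hφ := h.hφ0
  have hΔ := h.Δ1
  have hl := h.hl0
  have hM : 0 < M := by linarith [h.hM]
  have hM1 := h.hM
  have hσ : (I.σ α:ℝ) ≤ p.Rz := by exact_mod_cast hI.hσ α
  obtain ⟨ls1, ls2⟩ := h.σ1 (σ := I.σ α) (by positivity) hσ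
  have hact : I.act α := by
    rcases hab with h1 | h1
    · rw [h1]; exact hI.acta _
    · rw [h1]; exact hI.actb _
  have hf : I.F α e.2.2.2 = 0 := by
    rcases hab with h1 | h1
    · rw [h1]; exact I.Fa _
    · rw [h1]; exact hI.tie _
  obtain ⟨er', her', hz⟩ := own_abs hO hI h c α β i h₂
  have e40 : p.κ / (40 * M) = p.κ / M / 40 := by field_simp
  have e80 : p.κ / (80 * M) = p.κ / M / 80 := by field_simp
  have hκM : 0 < p.κ / M := by positivity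
  have hκM1 : p.κ / M ≤ 1 / 2048 := by
    have h1 : p.κ / M ≤ p.κ := div_le_self hκ.le hM1
    have := h.κle; have := h.lle; linarith
  have hz3 : p.κ / M / 2 ≤
      |(1 + p.φ) * (P + p.lam * W - xi0 I p α (β:ℕ) (i:ℕ) h₂) - er'| := by
    by_cases hi : (i:ℕ) = (e.2.1:ℕ)
    · obtain ⟨er2, her2, hs⟩ := z_same hO hI h c (h₂ := h₂) hact hn hi
      have hi' : i = e.2.1 := Fin.ext hi
      have hsep : 1 ≤ M * |I.x e.2.2.2 - I.xs α h₂| := by
        apply hI.sepo e.2.2.2 α h₂ hab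
        rintro ⟨h1, h2⟩
        apply hne
        refine ⟨h1, ?_⟩
        unfold csl
        rw [hi', h2]
      have h1 : p.κ / M - p.κ / M / 80 ≤ |P + p.lam * W - xi0 I p α (β:ℕ) (i:ℕ) h₂| := by
        rw [hs, hf, mul_zero, mul_zero, sub_zero]
        have h2 : p.κ / M ≤ |p.κ * ((1 + p.lam * I.σ α) * (I.x e.2.2.2 - I.xs α h₂))| := by
          rw [abs_mul, abs_of_pos hκ, abs_mul, abs_of_pos (by linarith : 0 < 1 + p.lam * (I.σ α:ℝ))]
          rw [div_le_iff₀ hM]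
          have h3 : 1 * |I.x e.2.2.2 - I.xs α h₂| ≤
              (1 + p.lam * I.σ α) * |I.x e.2.2.2 - I.xs α h₂| :=
            mul_le_mul_of_nonneg_right ls1 (abs_nonneg _)
          have h4 : p.κ * 1 ≤ p.κ * (M * |I.x e.2.2.2 - I.xs α h₂|) :=
            mul_le_mul_of_nonneg_left hsep hκ.le
          have h5 : p.κ * M * (1 * |I.x e.2.2.2 - I.xs α h₂|) ≤
              p.κ * M * ((1 + p.lam * I.σ α) * |I.x e.2.2.2 - I.xs α h₂|) :=
            mul_le_mul_of_nonneg_left h3 (by positivity)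
          linarith
        have h3 := abs_sub_abs_le_abs_sub
          (p.κ * ((1 + p.lam * I.σ α) * (I.x e.2.2.2 - I.xs α h₂))) (-er2)
        rw [abs_neg, sub_neg_eq_add] at h3
        rw [e80] at her2
        linarith
      have h2 := z_ge h h1 her'
      rw [e40] at h2
      linarith
    · have h1 := z_col hO hI h c (h₂ := h₂) hact hn hi
      have h2 := z_ge h h1 her'
      rw [e40] at h2
      linarith
  set z := |(1 + p.φ) * (P + p.lam * W - xi0 I p α (β:ℕ) (i:ℕ) h₂) - er'| with hzd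
  set Z := |cX O I p K e - cxs O I p K
    (O.a e.1, Sum.inr (Sum.inr ((O.slot e.1, false), (α, β)))) (i, h₂)| with hZ
  have hZ0 : 0 ≤ Z := abs_nonneg _
  have hqs : p.qs M ≤ p.ε * (p.κ / M) / 4 := by
    have hRz := h.Rz1
    unfold Prm.qs
    have e1 : p.ε * p.κ / (4 * M * p.Rz) = p.ε * (p.κ / M) / 4 / p.Rz := by field_simp
    rw [e1]
    exact div_le_self (by positivity) hRz
  have h1 : p.ε * (p.κ / M / 2) ≤ Z * O.D e.1 := by
    rw [hz]; exact mul_le_mul_of_nonneg_left hz3 hε.le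
  have h2 : p.δ * 1 ≤ p.δ * p.Δ := mul_le_mul_of_nonneg_left hΔ hδ.le
  have h3 : p.δ * (p.ε * (p.κ / M / 2)) ≤ (p.δ * p.Δ) * (Z * O.D e.1) :=
    mul_le_mul (by linarith) h1 (by positivity) (by positivity)
  have h4 : p.qs M * p.δ ≤ (p.ε * (p.κ / M) / 4) * p.δ := mul_le_mul_of_nonneg_right hqs hδ.le
  have h5 : 0 < p.ε * (p.κ / M) * p.δ := by positivity
  constructor
  · linarith
  · obtain ⟨d1, -⟩ := comp_D hO hI h (K := K) e
    have h6 : 7 / 10 * (p.δ * p.Δ) * O.D e.1 * Z ≤ (comp O I p K).D e * Z :=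
      mul_le_mul_of_nonneg_right d1 hZ0
    linarith

end

end Pool.Agent.N35.HL
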