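import Pool.Agent.N35.HL.Seq

/-!
# The final estimate

For every constant `C` and all large `m` there is an arrangement certificate `KLev.Has N E P` with
`N ≤ m` lines whose number `E` of changes is at least `C * x ^ (1 + 1 / (log log x) ^ 4)` for
all `x ∈ [m, 8 m]`.
-/

set_option linter.unusedSectionVars false
set_option linter.unusedVariables false
set_option maxHeartbeats 1000000

namespace Pool.Agent.N35.HL

open Finset Filter Topology

/-- filling up to `m` lines -/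
theorem Lv.fill {t r w b : ℕ} {β : ℝ} (h : Lv t r w b β) (hβ : 0 ≤ β) (q m : ℕ)
    (hm : 2 ^ ((q + 1) * (20 + t + r) + b * (q + 1) ^ 2) ≤ m) :
    ∃ N E P, KLev.Has N E P ∧ N ≤ m ∧ 2500 / 10506 * β ^ (q + 1) * m ≤ E := by
  obtain ⟨g, E₂, P₂, Rz, Δ, U, M, hI, hg, hR, hUM, hP, hr⟩ := h
  obtain ⟨N, E, Q, T, h1, h2, h3, h4, h5, h6, h7⟩ := iterO hI hβ hr q
  have hHR := h1.hasR h2
  have hHS := hI.hasS hr
  obtain ⟨N', E', P', h8, h9, h10⟩ := hHR.fill hHS (by positivity) hβ m (by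
    refine le_trans ?_ hm
    have e1 : N ≤ 2 * (2 ^ 18 * (2 ^ t * 2 ^ r)) ^ q * (2 ^ b) ^ (q ^ 2) :=
      h5.trans (Nat.mul_le_mul (Nat.mul_le_mul_left _ (Nat.pow_le_pow_left
        (Nat.mul_le_mul_left _ (Nat.mul_le_mul hg hR)) _)) (Nat.pow_le_pow_left hP _))
    have e2 : g * Rz * 262650 ≤ 2 ^ t * 2 ^ r * 2 ^ 19 :=
      Nat.mul_le_mul (Nat.mul_le_mul hg hR) (by norm_num)
    have e3 : ((50 * P₂) ^ q) ^ 2 ≤ ((2 ^ b) ^ q) ^ 2 :=
      Nat.pow_le_pow_left (Nat.pow_le_pow_left hP _) _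
    calc N * (g * Rz * 262650) * ((50 * P₂) ^ q) ^ 2
        ≤ (2 * (2 ^ 18 * (2 ^ t * 2 ^ r)) ^ q * (2 ^ b) ^ (q ^ 2)) * (2 ^ t * 2 ^ r * 2 ^ 19) *
          ((2 ^ b) ^ q) ^ 2 := Nat.mul_le_mul (Nat.mul_le_mul e1 e2) e3
      _ = 2 ^ (1 + (18 + t + r) * q + b * q ^ 2 + (t + r + 19) + b * q * 2) := by
          rw [← pow_add, ← pow_add, ← pow_mul, ← pow_mul, ← pow_mul, ← pow_mul, ← pow_add,
            show (2:ℕ) * 2 ^ ((18 + (t + r)) * q) = 2 ^ (1 + (18 + (t + r)) * q) by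
              rw [pow_add, pow_one], ← pow_add, ← pow_add, ← pow_add]
          congr 1
          ring
      _ ≤ 2 ^ ((q + 1) * (20 + t + r) + b * (q + 1) ^ 2) := by
          apply Nat.pow_le_pow_right (by norm_num)
          have e4 : (q + 1) * (20 + t + r) + b * (q + 1) ^ 2 =
            (1 + (18 + t + r) * q + b * q ^ 2 + (t + r + 19) + b * q * 2) + (2 * q + b) := by ring
          rw [e4]
          exact Nat.le_add_right _ _)
  refine ⟨N', E', P', h8, h9, le_trans (le_of_eq ?_) h10⟩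
  rw [pow_succ]
  ring

/-- choice of the level and of the number of compositions -/
lemma select {A ω Bh : ℕ} (hA : 41 ≤ A) (hB : 1 ≤ Bh) (hω : 1 ≤ ω) (l : ℕ) (hl : ω + Bh ≤ l) :
    ∃ s q : ℕ, Mu A s * (ω * (s + 1) ^ 4 * (q + 1) + Bh * (q + 1) ^ 2) ≤ l ∧
      l ≤ 4 * (ω + Bh * (A * (ω + Bh))) * (s + 2) ^ 4 * (Mu A s * (q + 1)) := by
  set G : ℕ → ℕ → ℕ := fun s Q => Mu A s * (ω * (s + 1) ^ 4 * Q + Bh * Q ^ 2) with hG
  have hμ : ∀ s, 1 ≤ Mu A s := fun s => Mu_pos (by omega) s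
  have hG1 : ∀ s, G s 1 ≤ l → s + 2 ≤ l := by
    intro s hs
    have h1 := Mu_ge (A := A) (by omega) s
    have h2 : Mu A s * 2 ≤ G s 1 := by
      apply Nat.mul_le_mul_left
      have h3 : 1 ≤ (s + 1) ^ 4 := Nat.one_le_pow _ _ (by omega)
      have h4 : 1 * 1 ≤ ω * (s + 1) ^ 4 := Nat.mul_le_mul hω h3
      omega
    omega
  have hG2 : ∀ s Q, G s Q ≤ l → Q ≤ l := by
    intro s Q hs
    refine le_trans ?_ hs
    calc Q ≤ Q ^ 2 := Nat.le_self_pow (by norm_num) Q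
      _ = 1 * (0 + 1 * Q ^ 2) := by ring
      _ ≤ G s Q := Nat.mul_le_mul (hμ s) (Nat.add_le_add (Nat.zero_le _)
          (Nat.mul_le_mul_right _ hB))
  -- the level
  obtain ⟨s, hs1, hs2⟩ : ∃ s, G s 1 ≤ l ∧ l < G (s + 1) 1 := by
    have h0 : G 0 1 ≤ l := by
      have : G 0 1 = ω + Bh := by simp [hG, Mu]
      omega
    refine ⟨Nat.findGreatest (fun s => G s 1 ≤ l) l,
      Nat.findGreatest_spec (P := fun s => G s 1 ≤ l) (Nat.zero_le l) h0, ?_⟩
    by_contra hcon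
    push Not at hcon
    have h1 := hG1 _ hcon
    exact Nat.findGreatest_is_greatest (P := fun s => G s 1 ≤ l) (Nat.lt_succ_self _)
      (by omega) hcon
  -- the number of compositions
  obtain ⟨Q, hQ0, hQ1, hQ2⟩ : ∃ Q, 1 ≤ Q ∧ G s Q ≤ l ∧ l < G s (Q + 1) := by
    have h1l : 1 ≤ l := by omega
    refine ⟨Nat.findGreatest (fun Q => G s Q ≤ l) l,
      Nat.le_findGreatest (P := fun Q => G s Q ≤ l) h1l hs1,
      Nat.findGreatest_spec (P := fun Q => G s Q ≤ l) h1l hs1, ?_⟩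
    by_contra hcon
    push Not at hcon
    exact Nat.findGreatest_is_greatest (P := fun Q => G s Q ≤ l) (Nat.lt_succ_self _)
      (hG2 _ _ hcon) hcon
  obtain ⟨q, rfl⟩ : ∃ q, Q = q + 1 := ⟨Q - 1, by omega⟩
  refine ⟨s, q, hQ1, ?_⟩
  set μ := Mu A s with hμs
  have hμ1 : 1 ≤ μ := hμ s
  obtain ⟨n, hn⟩ : ∃ n, n = s + 1 := ⟨_, rfl⟩
  have hn1 : 1 ≤ n := by omega
  set Q := q + 1 with hQ
  -- the number of compositions is bounded
  have hMu : Mu A (s + 1) = A * (s + 1) ^ 2 * Mu A s := rfl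
  have h1 : Q ≤ A * (ω + Bh) * (n + 1) ^ 3 := by
    have h2 : μ * (Bh * Q ^ 2) < μ * (A * n ^ 2 * (ω * (n + 1) ^ 4 + Bh)) := by
      calc μ * (Bh * Q ^ 2) ≤ G s Q := by
            apply Nat.mul_le_mul_left
            omega
        _ ≤ l := hQ1
        _ < G (s + 1) 1 := hs2
        _ = μ * (A * n ^ 2 * (ω * (n + 1) ^ 4 + Bh)) := by
            simp only [hG, hMu, hn]
            rw [← hμs]
            ring
    have h3 : Bh * Q ^ 2 < A * n ^ 2 * (ω * (n + 1) ^ 4 + Bh) := Nat.lt_of_mul_lt_mul_left h2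
    have h4 : Q ^ 2 ≤ (A * (ω + Bh) * (n + 1) ^ 3) ^ 2 := by
      calc Q ^ 2 = 1 * Q ^ 2 := (one_mul _).symm
        _ ≤ Bh * Q ^ 2 := Nat.mul_le_mul_right _ hB
        _ ≤ A * n ^ 2 * (ω * (n + 1) ^ 4 + Bh) := h3.le
        _ ≤ A * (n + 1) ^ 2 * (ω * (n + 1) ^ 4 + Bh * (n + 1) ^ 4) := by
            apply Nat.mul_le_mul (Nat.mul_le_mul_left _ (Nat.pow_le_pow_left (by omega) 2))
            apply Nat.add_le_add_left
            exact Nat.le_mul_of_pos_right _ (by positivity)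
        _ = A * (ω + Bh) * (n + 1) ^ 6 := by ring
        _ ≤ (A * (ω + Bh)) ^ 2 * (n + 1) ^ 6 := by
            apply Nat.mul_le_mul_right
            exact Nat.le_self_pow (by norm_num) _
        _ = (A * (ω + Bh) * (n + 1) ^ 3) ^ 2 := by ring
    exact (Nat.pow_le_pow_iff_left (by norm_num)).mp h4
  have h5 : (Q + 1) ≤ 2 * Q := by omega
  calc l ≤ G s (Q + 1) := hQ2.le
    _ ≤ μ * (ω * n ^ 4 * (2 * Q) + Bh * (2 * Q) ^ 2) := by
        rw [hn]
        apply Nat.mul_le_mul_left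
        exact Nat.add_le_add (Nat.mul_le_mul_left _ h5)
          (Nat.mul_le_mul_left _ (Nat.pow_le_pow_left h5 2))
    _ = 2 * (ω * n ^ 4) * (μ * Q) + 4 * (Bh * Q) * (μ * Q) := by ring
    _ ≤ 4 * (ω * (n + 1) ^ 4) * (μ * Q) + 4 * (Bh * (A * (ω + Bh)) * (n + 1) ^ 4) * (μ * Q) := by
        apply Nat.add_le_add
        · apply Nat.mul_le_mul_right
          apply Nat.mul_le_mul (by norm_num)
          exact Nat.mul_le_mul_left _ (Nat.pow_le_pow_left (by omega) 4)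
        · apply Nat.mul_le_mul_right
          apply Nat.mul_le_mul_left
          calc Bh * Q ≤ Bh * (A * (ω + Bh) * (n + 1) ^ 3) := Nat.mul_le_mul_left _ h1
            _ ≤ Bh * (A * (ω + Bh) * (n + 1) ^ 4) := by
                apply Nat.mul_le_mul_left
                apply Nat.mul_le_mul_left
                exact Nat.pow_le_pow_right (by omega) (by norm_num)
            _ = Bh * (A * (ω + Bh)) * (n + 1) ^ 4 := by ring
    _ = 4 * (ω + Bh * (A * (ω + Bh))) * (s + 2) ^ 4 * (μ * Q) := by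
        rw [hn]; ring

lemma factorial_le_Mu {A : ℕ} (hA : 1 ≤ A) (s : ℕ) : s.factorial ≤ Mu A s := by
  induction s with
  | zero => exact le_rfl
  | succ s ih =>
    rw [Nat.factorial_succ]
    apply Nat.mul_le_mul _ ih
    calc s + 1 ≤ (s + 1) ^ 2 := Nat.le_self_pow (by norm_num) _
      _ = 1 * (s + 1) ^ 2 := (one_mul _).symm
      _ ≤ A * (s + 1) ^ 2 := Nat.mul_le_mul_right _ hA

/-- few levels are needed -/
lemma few_levels {A : ℕ} (hA : 1 ≤ A) {κ : ℝ} (hκ : 0 < κ) :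
    ∀ᶠ l : ℕ in atTop, ∀ s, Mu A s ≤ l → κ * ((s:ℝ) + 2) ≤ 2 * Real.log l := by
  have h1 : Tendsto (fun n : ℕ => Real.exp κ ^ n / n.factorial) atTop (𝓝 0) :=
    FloorSemiring.tendsto_pow_div_factorial_atTop _
  obtain ⟨C, hC⟩ := h1.bddAbove_range
  have hC' : ∀ n : ℕ, Real.exp κ ^ n / n.factorial ≤ C := fun n => hC ⟨n, rfl⟩
  have hC1 : 1 ≤ C := by simpa using hC' 0
  filter_upwards [eventually_ge_atTop (⌈Real.exp κ ^ 2 * C⌉₊)] with l hl s hs
  have hl0 : Real.exp κ ^ 2 * C ≤ l := (Nat.le_ceil _).trans (by exact_mod_cast hl)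
  have hpos : 0 < Real.exp κ ^ 2 * C := by positivity
  have hl1 : (0:ℝ) < l := hpos.trans_le hl0
  have h2 := hC' s
  have hf : (0:ℝ) < s.factorial := by exact_mod_cast s.factorial_pos
  rw [div_le_iff₀ hf] at h2
  have h3 : (s.factorial : ℝ) ≤ l := by exact_mod_cast (factorial_le_Mu hA s).trans hs
  have h4 : Real.exp (κ * (s + 2)) ≤ l * l := by
    calc Real.exp (κ * (s + 2)) = Real.exp κ ^ 2 * Real.exp κ ^ s := by
          rw [← pow_add, ← Real.exp_nat_mul]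
          congr 1
          push_cast; ring
      _ ≤ Real.exp κ ^ 2 * (C * s.factorial) := mul_le_mul_of_nonneg_left h2 (by positivity)
      _ = (Real.exp κ ^ 2 * C) * s.factorial := by ring
      _ ≤ l * l := mul_le_mul hl0 h3 hf.le hl1.le
  have h5 := Real.log_le_log (Real.exp_pos _) h4
  rw [Real.log_exp, Real.log_mul hl1.ne' hl1.ne'] at h5
  linarith

lemma log_bounds {m l : ℕ} {x : ℝ} (h1 : 2 ^ l ≤ m) (h2 : m < 2 ^ (l + 1)) (hl : 10 ≤ l)
    (hx1 : (m:ℝ) ≤ x) (hx2 : x ≤ 8 * m) :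
    Real.log x / (Real.log (Real.log x)) ^ 4 ≤ 16 * (l / (Real.log l) ^ 4) := by
  have hl0 : (10:ℝ) ≤ l := by exact_mod_cast hl
  have e1 : (2:ℝ) ^ l ≤ m := by exact_mod_cast h1
  have e2 : (m:ℝ) ≤ 2 ^ (l + 1) := by exact_mod_cast h2.le
  have hp : (0:ℝ) < 2 ^ l := by positivity
  have hx : 0 < x := by linarith
  have l2a := Real.log_two_gt_d9
  have l2b := Real.log_two_lt_d9
  have h3 : Real.log x ≤ l := by
    have h4 : x ≤ 2 ^ (l + 4) := by
      have : (2:ℝ) ^ (l + 4) = 8 * 2 ^ (l + 1) := by ring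
      linarith
    have h5 := Real.log_le_log hx h4
    rw [Real.log_pow] at h5
    push_cast at h5
    nlinarith
  have h4 : 0.69 * (l:ℝ) ≤ Real.log x := by
    have h5 := Real.log_le_log hp (e1.trans hx1)
    rw [Real.log_pow] at h5
    nlinarith
  have h5 : √(l:ℝ) ≤ Real.log x := by
    refine le_trans ?_ h4
    rw [Real.sqrt_le_left (by positivity)]
    nlinarith
  have h6 : Real.log l / 2 ≤ Real.log (Real.log x) := by
    rw [← Real.log_sqrt (by positivity)]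
    exact Real.log_le_log (Real.sqrt_pos.mpr (by linarith)) h5
  have h7 : 0 < Real.log l := Real.log_pos (by linarith)
  have h8 : 0 < (Real.log l / 2) ^ 4 := by positivity
  calc Real.log x / (Real.log (Real.log x)) ^ 4 ≤ l / (Real.log l / 2) ^ 4 :=
        div_le_div₀ (by positivity) h3 h8 (pow_le_pow_left₀ (by positivity) h6 4)
    _ = 16 * (l / (Real.log l) ^ 4) := by
        field_simp
        ring

/-- `l / (log l) ^ 4` tends to infinity -/
lemma big (c : ℝ) : ∀ᶠ l : ℕ in atTop, c ≤ l / (Real.log l) ^ 4 := by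
  have h1 := (Real.isLittleO_pow_log_id_atTop (n := 4)).bound
    (c := 1 / (|c| + 1)) (by positivity)
  have h2 := tendsto_natCast_atTop_atTop (R := ℝ) |>.eventually h1
  filter_upwards [h2, eventually_ge_atTop 2] with l hl hl2
  have hl0 : (2:ℝ) ≤ l := by exact_mod_cast hl2
  have h7 : 0 < Real.log l := Real.log_pos (by linarith)
  simp only [id, Real.norm_eq_abs] at hl
  rw [abs_of_nonneg (by positivity), abs_of_nonneg (by positivity : (0:ℝ) ≤ l)] at hl
  rw [le_div_iff₀ (by positivity)]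
  have h8 : 0 < |c| + 1 := by positivity
  have h9 : (|c| + 1) * Real.log l ^ 4 ≤ l := by
    calc (|c| + 1) * Real.log l ^ 4 ≤ (|c| + 1) * (1 / (|c| + 1) * l) :=
          mul_le_mul_of_nonneg_left hl h8.le
      _ = l := by field_simp
  have h10 : c * Real.log l ^ 4 ≤ (|c| + 1) * Real.log l ^ 4 :=
    mul_le_mul_of_nonneg_right (by linarith [le_abs_self c]) (by positivity)
  linarith

theorem finalE (C : ℝ) : ∀ᶠ m : ℕ in atTop, ∃ N E P, KLev.Has N E P ∧ N ≤ m ∧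
    ∀ x : ℝ, (m:ℝ) ≤ x → x ≤ 8 * m →
      C * m * Real.exp (Real.log x / (Real.log (Real.log x)) ^ 4) ≤ E := by
  obtain ⟨A, ρ, τ, Bh, hA, hBh, hlev⟩ := levels
  set ω := 20 + τ + ρ with hω
  set C₁ : ℕ := ω + Bh * (A * (ω + Bh)) with hC₁
  have hC1 : 1 ≤ C₁ := by omega
  have hC1' : (1:ℝ) ≤ C₁ := by exact_mod_cast hC1
  set κ : ℝ := 3264 * C₁ with hκ
  have hκ1 : 1 ≤ κ := by linarith
  have hlog : Tendsto (fun m : ℕ => Nat.log 2 m) atTop atTop := by
    rw [tendsto_atTop]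
    intro b
    filter_upwards [eventually_ge_atTop (2 ^ b)] with m hm
    exact Nat.le_log_of_pow_le (by norm_num) hm
  have hev := hlog.eventually ((few_levels (A := A) (by omega) (lt_of_lt_of_le one_pos hκ1)).and
    ((big (Real.log (10506 / 2500 * (|C| + 1)))).and (eventually_ge_atTop (ω + Bh + 10))))
  filter_upwards [hev, eventually_ge_atTop 1] with m hm hm1
  obtain ⟨hfew, hbig, hl⟩ := hm
  set l := Nat.log 2 m with hldef
  have hlm : 2 ^ l ≤ m := Nat.pow_log_le_self 2 (by omega)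
  have hlm2 : m < 2 ^ (l + 1) := Nat.lt_pow_succ_log_self (by norm_num) m
  obtain ⟨s, q, hs1, hs2⟩ := select hA hBh (by omega : 1 ≤ ω) l (by omega)
  have hμ := Mu_pos (A := A) (by omega) s
  have hle : Mu A s ≤ l := by
    refine le_trans ?_ hs1
    apply Nat.le_mul_of_pos_right
    have : 0 < Bh * (q + 1) ^ 2 := Nat.mul_pos hBh (by positivity)
    omega
  have h1 := hfew s hle
  have hl0 : (10:ℝ) ≤ l := by exact_mod_cast (by omega : 10 ≤ l)
  have hL : 0 < Real.log l := Real.log_pos (by linarith)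
  obtain ⟨N, E, P, h2, h3, h4⟩ := (hlev s).fill (Real.exp_nonneg _) q m (by
    refine le_trans (Nat.pow_le_pow_right (by norm_num) (le_trans ?_ hs1)) hlm
    have e1 : (Bh * Mu A s - 1) * (q + 1) ^ 2 ≤ Mu A s * (Bh * (q + 1) ^ 2) := by
      calc (Bh * Mu A s - 1) * (q + 1) ^ 2 ≤ (Bh * Mu A s) * (q + 1) ^ 2 :=
            Nat.mul_le_mul_right _ (Nat.sub_le _ _)
        _ = Mu A s * (Bh * (q + 1) ^ 2) := by ring
    have e2 : (q + 1) * (20 + τ * (s + 1) ^ 4 * Mu A s + ρ * (s + 1) ^ 3 * Mu A s) ≤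
        Mu A s * (ω * (s + 1) ^ 4 * (q + 1)) := by
      have e3 : 1 ≤ (s + 1) ^ 4 := Nat.one_le_pow _ _ (by omega)
      have e4 : 1 * 1 ≤ (s + 1) ^ 4 * Mu A s := Nat.mul_le_mul e3 hμ
      have e5 : ρ * (s + 1) ^ 3 * Mu A s ≤ ρ * (s + 1) ^ 4 * Mu A s := by
        apply Nat.mul_le_mul_right
        apply Nat.mul_le_mul_left
        exact Nat.pow_le_pow_right (by omega) (by norm_num)
      calc (q + 1) * (20 + τ * (s + 1) ^ 4 * Mu A s + ρ * (s + 1) ^ 3 * Mu A s)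
          ≤ (q + 1) * (20 * ((s + 1) ^ 4 * Mu A s) + τ * (s + 1) ^ 4 * Mu A s +
              ρ * (s + 1) ^ 4 * Mu A s) := by
            apply Nat.mul_le_mul_left
            omega
        _ = Mu A s * (ω * (s + 1) ^ 4 * (q + 1)) := by rw [hω]; ring
    calc (q + 1) * (20 + τ * (s + 1) ^ 4 * Mu A s + ρ * (s + 1) ^ 3 * Mu A s) +
          (Bh * Mu A s - 1) * (q + 1) ^ 2
        ≤ Mu A s * (ω * (s + 1) ^ 4 * (q + 1)) + Mu A s * (Bh * (q + 1) ^ 2) :=
          Nat.add_le_add e2 e1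
      _ = Mu A s * (ω * (s + 1) ^ 4 * (q + 1) + Bh * (q + 1) ^ 2) := by ring)
  refine ⟨N, E, P, h2, h3, ?_⟩
  intro x hx1 hx2
  have hx3 := log_bounds hlm hlm2 (by omega) hx1 hx2
  set y : ℝ := l / (Real.log l) ^ 4 with hy
  have hy0 : 0 ≤ y := by positivity
  have hm0 : (0:ℝ) ≤ m := Nat.cast_nonneg _
  have hμ0 : (1:ℝ) ≤ Mu A s := by exact_mod_cast hμ
  -- the gain
  have h5 : 17 * y ≤ 1 / 3 * Mu A s * (q + 1) := by
    have e1 : (l:ℝ) ≤ 4 * C₁ * (s + 2) ^ 4 * (Mu A s * (q + 1)) := by exact_mod_cast hs2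
    have e2 : (κ * ((s:ℝ) + 2)) ^ 4 ≤ (2 * Real.log l) ^ 4 :=
      pow_le_pow_left₀ (by positivity) h1 4
    have e3 : κ * ((s:ℝ) + 2) ^ 4 ≤ 16 * (Real.log l) ^ 4 := by
      have e4 : κ * ((s:ℝ) + 2) ^ 4 ≤ κ ^ 4 * ((s:ℝ) + 2) ^ 4 := by
        apply mul_le_mul_of_nonneg_right _ (by positivity)
        calc κ = κ ^ 1 := (pow_one κ).symm
          _ ≤ κ ^ 4 := pow_le_pow_right₀ hκ1 (by norm_num)
      calc κ * ((s:ℝ) + 2) ^ 4 ≤ κ ^ 4 * ((s:ℝ) + 2) ^ 4 := e4
        _ = (κ * ((s:ℝ) + 2)) ^ 4 := by ring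
        _ ≤ (2 * Real.log l) ^ 4 := e2
        _ = 16 * (Real.log l) ^ 4 := by ring
    have e5 : 204 * (C₁ * ((s:ℝ) + 2) ^ 4) ≤ (Real.log l) ^ 4 := by
      rw [hκ] at e3
      linarith
    rw [hy, ← mul_div_assoc, div_le_iff₀ (by positivity)]
    have e6 : (0:ℝ) ≤ Mu A s * (q + 1) := by positivity
    have e7 := mul_le_mul_of_nonneg_right e5 e6
    linarith
  -- the ratio
  have h6 : Real.exp (17 * y) ≤ Real.exp (1 / 3 * (1 + 1 / ((s:ℝ) + 1)) * Mu A s) ^ (q + 1) := by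
    rw [← Real.exp_nat_mul]
    apply Real.exp_le_exp.mpr
    refine h5.trans ?_
    push_cast
    have e1 : 0 ≤ 1 / ((s:ℝ) + 1) := by positivity
    have e2 : 0 ≤ 1 / ((s:ℝ) + 1) * ((Mu A s : ℝ) * (q + 1)) := by positivity
    linarith
  have h7 : |C| + 1 ≤ 2500 / 10506 * Real.exp y := by
    have e1 : (0:ℝ) < 10506 / 2500 * (|C| + 1) := by positivity
    have e2 := Real.exp_le_exp.mpr hbig
    rw [Real.exp_log e1] at e2
    linarith
  calc C * m * Real.exp (Real.log x / (Real.log (Real.log x)) ^ 4)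
      ≤ (|C| + 1) * m * Real.exp (16 * y) := by
        apply mul_le_mul _ (Real.exp_le_exp.mpr hx3) (Real.exp_nonneg _) (by positivity)
        exact mul_le_mul_of_nonneg_right (by linarith [le_abs_self C]) hm0
    _ ≤ (2500 / 10506 * Real.exp y) * m * Real.exp (16 * y) := by
        apply mul_le_mul_of_nonneg_right _ (Real.exp_nonneg _)
        exact mul_le_mul_of_nonneg_right h7 hm0
    _ = 2500 / 10506 * (Real.exp y * Real.exp (16 * y)) * m := by ring
    _ = 2500 / 10506 * Real.exp (17 * y) * m := by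
        rw [← Real.exp_add]
        congr 3
        ring
    _ ≤ 2500 / 10506 * Real.exp (1 / 3 * (1 + 1 / ((s:ℝ) + 1)) * Mu A s) ^ (q + 1) * m := by
        apply mul_le_mul_of_nonneg_right _ hm0
        exact mul_le_mul_of_nonneg_left h6 (by norm_num)
    _ ≤ E := h4

/-- the final estimate in the form `x ^ (1 + 1 / (log log x) ^ 4)` -/
theorem finalP (C : ℝ) : ∀ᶠ m : ℕ in atTop, ∃ N E P, KLev.Has N E P ∧ N ≤ m ∧
    ∀ x : ℝ, (m:ℝ) ≤ x → x ≤ 8 * m →
      C * x ^ (1 + 1 / (Real.log (Real.log x)) ^ 4) ≤ E := by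
  filter_upwards [finalE (8 * max C 0), eventually_ge_atTop 1] with m hm hm1
  obtain ⟨N, E, P, h1, h2, h3⟩ := hm
  refine ⟨N, E, P, h1, h2, ?_⟩
  intro x hx1 hx2
  have hm0 : (0:ℝ) < m := by exact_mod_cast hm1
  have hx : 0 < x := by linarith
  have h4 := h3 x hx1 hx2
  have e : x ^ (1 + 1 / (Real.log (Real.log x)) ^ 4) =
      x * Real.exp (Real.log x / (Real.log (Real.log x)) ^ 4) := by
    rw [Real.rpow_add hx, Real.rpow_one, Real.rpow_def_of_pos hx]
    congr 2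
    ring
  rw [e]
  have h5 : 0 ≤ max C 0 := le_max_right _ _
  calc C * (x * Real.exp (Real.log x / (Real.log (Real.log x)) ^ 4))
      ≤ max C 0 * (x * Real.exp (Real.log x / (Real.log (Real.log x)) ^ 4)) :=
        mul_le_mul_of_nonneg_right (le_max_left _ _) (by positivity)
    _ ≤ max C 0 * ((8 * m) * Real.exp (Real.log x / (Real.log (Real.log x)) ^ 4)) := by
        apply mul_le_mul_of_nonneg_left _ h5
        exact mul_le_mul_of_nonneg_right hx2 (Real.exp_nonneg _)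
    _ = 8 * max C 0 * m * Real.exp (Real.log x / (Real.log (Real.log x)) ^ 4) := by ring
    _ ≤ E := h4

end Pool.Agent.N35.HL
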