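import Pool.Agent.N35.HL.Marg

/-!
# The composition is an outer block
-/

set_option linter.unusedSectionVars false
set_option linter.unusedVariables false
set_option maxHeartbeats 1000000

namespace Pool.Agent.N35.HL

open Finset

section

variable {A R H G R₂ H₂ : Type} [Fintype A] [Fintype H] [Fintype G] [Fintype H₂]
  {O : Out A R H} {I : Inn G R₂ H₂} {p : Prm} {K : Finset G}
  {k₁ K₁ k₂ Rd₀ : ℕ} {φ' q Dl U M L : ℝ}
  (hO : O.Good k₁ K₁ p.φ q Dl L Rd₀) (hI : I.Good k₂ p.Rz p.Δ U M) (h : p.OK φ' q Dl U M)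

include hO hI h

/-- slope changes are at most one -/
lemma rho_le (l : A) (g : H) (b : Bool) (α : G) :
    0 ≤ rhoS O I p l g b α ∧ rhoS O I p l g b α ≤ 1 := by
  obtain ⟨r1, r2, r3, r4⟩ := rho_bd hO h hI l g b α
  refine ⟨r4, r2.trans ?_⟩
  have hφ := h.hφ0
  have hφ1 := h.φle
  have hd : O.d l g ≤ 4 := by
    rcases hO.dd l g with h1 | h1
    · rw [h1]; norm_num
    · exact h1.2
  have : p.φ * O.d l g ≤ 1 / 16 * 4 := mul_le_mul hφ1 hd r3 (by norm_num)
  linarith

omit hO in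
lemma eps_le : p.ε * (p.Nx + 6) ≤ 1 / 400 := by
  have h1 := h.hε1
  have h2 : p.φ * q ≤ 1 / 16 * 1 := mul_le_mul h.φle h.hq1 h.hq.le (by norm_num)
  linarith

lemma cs_bd (l : Idx A G H p.Nx p.V) : |cs O I p l| ≤ 3 * L := by
  have hL := hO.hL
  obtain ⟨l, x | x | ⟨⟨g, b⟩, ⟨α, β⟩⟩⟩ := l
  · have := hO.bs l
    simp only [cs]; linarith
  · have := hO.bs l
    simp only [cs]; linarith
  · simp only [cs]
    obtain ⟨r1, r2⟩ := rho_le hO hI h l g b α
    have h1 : |sg b * rhoS O I p l g b α| ≤ 1 := by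
      rw [abs_mul, abs_of_nonneg r1]
      rcases sg_cases b with h2 | h2 <;> rw [h2] <;> simp [r2]
    calc |O.s l - sg b * rhoS O I p l g b α| ≤ |O.s l| + |sg b * rhoS O I p l g b α| := abs_sub _ _
      _ ≤ 3 * L := by linarith [hO.bs l]

lemma ct_bd (l : Idx A G H p.Nx p.V) : |ct O I p K l| ≤ 3 * L := by
  have hL := hO.hL
  have hε := h.hε0
  have heps := eps_le hI h
  have hNx := h.Nx1
  have key : ∀ w : ℝ, |w| ≤ p.Nx + 6 → |p.ε * w| ≤ 1 := by
    intro w hw
    rw [abs_mul, abs_of_pos hε]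
    have := mul_le_mul_of_nonneg_left hw hε.le
    linarith
  obtain ⟨l, ⟨i, α, β⟩ | ⟨w, z⟩ | ⟨⟨g, b⟩, ⟨α, β⟩⟩⟩ := l
  · simp only [ct]
    have hδ := h.δ0
    have hφ := h.hφ0
    have hφ1 := h.hφ1
    have hφle := h.φle
    have hδV := h.δV
    have hi : ((i:ℕ):ℝ) + 1 ≤ p.Nx := by exact_mod_cast i.2
    have hτ : |tau K α| ≤ 1 := by unfold tau; split_ifs <;> norm_num [abs_le]
    have hτ' := abs_le.mp hτ
    have hval : ((I.σ α * (i:ℕ) + (β:ℕ) : ℕ) : ℝ) ≤ p.Rz * p.Nx + p.V := by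
      have h1 : I.σ α * (i:ℕ) + (β:ℕ) ≤ p.Rz * p.Nx + p.V :=
        Nat.add_le_add (Nat.mul_le_mul (hI.hσ α) i.2.le) β.2.le
      exact_mod_cast h1
    have hval0 : (0:ℝ) ≤ ((I.σ α * (i:ℕ) + (β:ℕ) : ℕ) : ℝ) := by positivity
    have h1 : |p.δ * (((I.σ α * (i:ℕ) + (β:ℕ) : ℕ) : ℝ) + tau K α)| ≤ 1 := by
      rw [abs_mul, abs_of_pos hδ]
      have h2 : |(((I.σ α * (i:ℕ) + (β:ℕ) : ℕ) : ℝ) + tau K α)| ≤ p.Rz * p.Nx + p.V + 1 := by
        rw [abs_le]; constructor <;> linarith [hτ'.1, hτ'.2]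
      have := mul_le_mul_of_nonneg_left h2 hδ.le
      linarith
    have h2 : 0 ≤ p.φ * ((i:ℕ):ℝ) := by positivity
    have h3 : p.φ * ((i:ℕ):ℝ) ≤ p.φ * (p.Nx + 1) := mul_le_mul_of_nonneg_left (by linarith) hφ.le
    have h4 := abs_le.mp h1
    have h5 := key (-p.φ * (i:ℕ) - p.δ * (((I.σ α * (i:ℕ) + (β:ℕ) : ℕ) : ℝ) + tau K α)) (by
      rw [abs_le]; constructor <;> linarith [h4.1, h4.2])
    refine (abs_add_le _ _).trans ?_
    linarith [hO.bt l]
  · simp only [ct]
    have hi : ((w:ℕ):ℝ) + 1 ≤ p.Nx := by exact_mod_cast w.2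
    have hi0 : (0:ℝ) ≤ ((w:ℕ):ℝ) := by positivity
    have h5 := key (1 + ((w:ℕ):ℝ)) (by rw [abs_le]; constructor <;> linarith)
    refine (abs_add_le _ _).trans ?_
    linarith [hO.bt l]
  · simp only [ct]
    obtain ⟨r1, r2⟩ := rho_le hO hI h l g b α
    have h1 : |sg b * rhoS O I p l g b α * O.xs l g| ≤ L := by
      rw [abs_mul, abs_mul, abs_of_nonneg r1]
      have h3 : |sg b| = 1 := by rcases sg_cases b with h2 | h2 <;> rw [h2] <;> simp
      rw [h3, one_mul]
      have := mul_le_mul r2 (hO.bxs l g) (abs_nonneg _) zero_le_one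
      linarith
    have h5 := key (omS O I p l g b α β) ((om_bd hO h hI l g b α β).trans (by linarith))
    calc |O.t l + sg b * rhoS O I p l g b α * O.xs l g + p.ε * omS O I p l g b α β|
        ≤ |O.t l + sg b * rhoS O I p l g b α * O.xs l g| + |p.ε * omS O I p l g b α β| :=
          abs_add_le _ _
      _ ≤ (|O.t l| + |sg b * rhoS O I p l g b α * O.xs l g|) + |p.ε * omS O I p l g b α β| := by
          linarith [abs_add_le (O.t l) (sg b * rhoS O I p l g b α * O.xs l g)]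
      _ ≤ 3 * L := by linarith [hO.bt l]

/-- points near an outer event -/
lemma near_bd (e₁ : R) {u : ℝ} (hu : |u| ≤ p.Nx + 6) :
    |O.X e₁ + p.ε * u / O.D e₁| ≤ 3 * L := by
  have hL := hO.hL
  have hD := Dpos hO h e₁
  have hε := h.hε0
  have h1 : |p.ε * u / O.D e₁| ≤ 1 := by
    rw [abs_div, abs_mul, abs_of_pos hε, abs_of_pos hD, div_le_one hD]
    have h2 := hO.hD e₁
    have h3 := h.hqD
    have h4 := h.hε1
    have h5 := mul_le_mul_of_nonneg_left hu hε.le
    have h6 : p.φ * q ≤ 1 / 16 * q := mul_le_mul_of_nonneg_right h.φle h.hq.le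
    have h7 := h.hq
    linarith
  refine (abs_add_le _ _).trans ?_
  linarith [hO.bX e₁]

lemma cX_bd (e : Ev' R R₂ p.Nx p.V₁) : |cX O I p K e| ≤ 3 * L := by
  obtain ⟨P, W, p1, p2, p3, p4⟩ := coord K hO hI h e
  have c : Pos O I p K M e P W := ⟨p1, p2, p3, p4⟩
  obtain ⟨u1, -⟩ := (c.cl h hI).uv h
  rw [p1]
  exact near_bd hO hI h e.1 (by linarith)

lemma cxs_bd (l : Idx A G H p.Nx p.V) (x : Fin p.Nx × H₂) : |cxs O I p K l x| ≤ 3 * L := by
  have hL := hO.hL
  have hM : 0 < M := by linarith [h.hM]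
  have hκ := h.hκ0
  by_cases E : ∃ e : Ev' R R₂ p.Nx p.V₁, ca O I p e = l ∧ csl I p e = x
  · have e1 : cxs O I p K l x = cX O I p K E.choose := by unfold cxs; rw [dif_pos E]
    rw [e1]
    exact cX_bd hO hI h _
  · have e1 : cxs O I p K l x = cx0 O I p l x := by unfold cxs; rw [dif_neg E]
    rw [e1]
    obtain ⟨i, h₂⟩ := x
    obtain ⟨l, y | y | ⟨⟨g, b⟩, ⟨α, β⟩⟩⟩ := l
    · simp only [cx0]; rw [abs_zero]; linarith
    · simp only [cx0]; rw [abs_zero]; linarith
    · cases b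
      · rcases hev : O.evt l g with _ | e₁
        · simp only [cx0, hev]; rw [abs_zero]; linarith
        · simp only [cx0, hev]
          obtain ⟨x1, x2⟩ := xi0_bd h hI α β i h₂
          apply near_bd hO hI h e₁
          have hφ := h.hφ0
          have hNx := h.Nx1
          have h6 : p.φ * xi0 I p α (β:ℕ) (i:ℕ) h₂ ≤ p.φ * (p.Nx + 1) :=
            mul_le_mul_of_nonneg_left (by linarith) hφ.le
          have h7 : p.φ * (-(1 / 2)) ≤ p.φ * xi0 I p α (β:ℕ) (i:ℕ) h₂ :=
            mul_le_mul_of_nonneg_left x1 hφ.le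
          have h8 := h.hφ1
          have h9 := h.φle
          rw [abs_le]
          constructor <;> linarith
      · simp only [cx0]; rw [abs_zero]; linarith

omit h hI in
lemma cs_rat (h : p.OK φ' q Dl U M) {m : ℕ} (hdiv : p.Rd = Rd₀ * m) (l : Idx A G H p.Nx p.V) :
    ∃ z : ℤ, cs O I p l * p.Rd = z := by
  have key : ∀ l : A, ∃ z : ℤ, O.s l * p.Rd = z := by
    intro l
    obtain ⟨z, hz⟩ := hO.slopes l
    refine ⟨z * m, ?_⟩
    rw [hdiv]
    push_cast
    rw [← hz]; ring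
  obtain ⟨l, y | y | ⟨⟨g, b⟩, ⟨α, β⟩⟩⟩ := l
  · simp only [cs]; exact key l
  · simp only [cs]; exact key l
  · simp only [cs]
    obtain ⟨z, hz⟩ := key l
    obtain ⟨z', hz'⟩ := rnd_int p.Rd h.hRd (muS O I p l g b α)
    cases b
    · refine ⟨z - z', ?_⟩
      simp only [sg, Bool.false_eq_true, if_false]
      push_cast
      rw [← hz, ← hz']
      unfold rhoS
      ring
    · refine ⟨z + z', ?_⟩
      simp only [sg, if_true]
      push_cast
      rw [← hz, ← hz']
      unfold rhoS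
      ring

/-- scales of the composition -/
lemma cd_bd (l : Idx A G H p.Nx p.V) (x : Fin p.Nx × H₂) :
    cd O I p l x = 0 ∨ (Dl * (p.δ * p.Δ) / 2 ≤ cd O I p l x ∧ cd O I p l x ≤ 4) := by
  obtain ⟨i, h₂⟩ := x
  have hδΔ : 0 < p.δ * p.Δ := mul_pos h.δ0 (by linarith [h.Δ1])
  obtain ⟨l, y | y | ⟨⟨g, b⟩, ⟨α, β⟩⟩⟩ := l
  · exact Or.inl rfl
  · exact Or.inl rfl
  · cases b
    swap
    · exact Or.inl rfl
    rcases hev : O.evt l g with _ | e₁
    · left; simp only [cd, hev]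
    · by_cases ha : I.act α ∨ (i:ℕ) ≠ 0
      · right
        simp only [cd, hev]
        rw [if_pos ha]
        have hD := Dpos hO h e₁
        have h1 := hO.hD e₁
        have h2 := hO.rd2 e₁
        have h3 : O.d (O.a e₁) (O.slot e₁) ≤ 4 := by
          rcases hO.dd (O.a e₁) (O.slot e₁) with h4 | h4
          · rw [h4]; norm_num
          · exact h4.2
        have hDl : 0 < Dl := lt_of_lt_of_le h.hq h.hqD
        have h4 : Dl * (p.δ * p.Δ) ≤ O.D e₁ * (p.δ * p.Δ) :=
          mul_le_mul_of_nonneg_right h1 hδΔ.le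
        have h5 : p.δ * p.Δ ≤ 1 / 16 := by
          have a1 : p.δ * p.Δ ≤ p.δ * p.Rz := mul_le_mul_of_nonneg_left h.ΔR h.δ0.le
          have a2 : p.δ * p.Rz = p.φ * (p.lam * p.Rz) / 2 := by unfold Prm.δ; ring
          have a3 : p.φ * (p.lam * p.Rz) ≤ 1 / 16 * (1 / 16) :=
            mul_le_mul h.φle h.lR (by have := h.hl0; positivity) (by norm_num)
          linarith
        have h6 : O.D e₁ * (p.δ * p.Δ) ≤ 12 * (1 / 16) :=
          mul_le_mul (by linarith) h5 hδΔ.le (by norm_num)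
        have h7 : 0 < Dl * (p.δ * p.Δ) := mul_pos hDl hδΔ
        constructor <;> linarith
      · left
        simp only [cd, hev]
        rw [if_neg ha]

variable {e : Ev' R R₂ p.Nx p.V₁} {P W : ℝ} (c : Pos O I p K M e P W)

include c

/-- classification of the slots with positive scale, for lines not through the event -/
lemma slot_cls (l : Idx A G H p.Nx p.V) (ha : l ≠ ca O I p e) (hb : l ≠ cb O I p e)
    (x : Fin p.Nx × H₂) (hd : 0 < cd O I p l x) :
    Dl * (p.δ * p.Δ) ≤ cd O I p l x ∧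
    (16 * (φ' * (cd O I p l x * |cX O I p K e - cxs O I p K l x|)) ≤ |(comp O I p K).F l e| ∨
      (16 * |(comp O I p K).F l e| ≤ φ' * (cd O I p l x * |cX O I p K e - cxs O I p K l x|) ∧
        |cX O I p K e - cxs O I p K l x| ≤ p.Rd * |(comp O I p K).F l e|)) ∧
    (p.qs M * p.δ / 4 ≤ (comp O I p K).D e * |cX O I p K e - cxs O I p K l x| ∨
      cd O I p l x ≤ 2 * (comp O I p K).D e) := by
  have hδΔ : 0 < p.δ * p.Δ := mul_pos h.δ0 (by linarith [h.Δ1])
  obtain ⟨l, y | y | ⟨⟨g, b⟩, ⟨α, β⟩⟩⟩ := l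
  · exact absurd hd (lt_irrefl _)
  · exact absurd hd (lt_irrefl _)
  · cases b
    swap
    · exact absurd hd (lt_irrefl _)
    rcases hev : O.evt l g with _ | e₁
    · have h1 : cd O I p (l, Sum.inr (Sum.inr ((g, false), (α, β)))) x = 0 :=
        cd_none (K := K) (β := β) hev
      rw [h1] at hd; exact absurd hd (lt_irrefl _)
    · by_cases hx : I.act α ∨ (x.1:ℕ) ≠ 0
      swap
      · have h1 : cd O I p (l, Sum.inr (Sum.inr ((g, false), (α, β)))) x = 0 :=
          cd_some0 (K := K) (β := β) hev hx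
        rw [h1] at hd; exact absurd hd (lt_irrefl _)
      have hdd : cd O I p (l, Sum.inr (Sum.inr ((g, false), (α, β)))) x =
          O.D e₁ * (p.δ * p.Δ) := cd_some (K := K) (β := β) hev hx
      rw [hdd]
      refine ⟨mul_le_mul_of_nonneg_right (hO.hD e₁) hδΔ.le, ?_⟩
      by_cases hne : e₁ = e.1
      · subst hne
        obtain ⟨s1, s2⟩ := O.evt_spec hev
        subst s1 s2
        obtain ⟨d1, -⟩ := comp_D hO hI h (K := K) e
        have hD := Dpos hO h e.1
        have hDδ : 0 < O.D e.1 * (p.δ * p.Δ) := mul_pos hD hδΔ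
        refine ⟨?_, Or.inr (by linarith)⟩
        by_cases hn : I.σ α * (e.2.1:ℕ) + (β:ℕ) = row p e
        · have hα1 : α ≠ I.a e.2.2.2 := by
            rintro rfl
            exact ha (eq_pl hn)
          have hα2 : α ≠ I.b e.2.2.2 := by
            rintro rfl
            exact hb (eq_pl hn)
          obtain ⟨i, h₂⟩ := x
          by_cases hc : ¬ I.act α ∨ (i:ℕ) ≠ (e.2.1:ℕ)
          · obtain ⟨o1, o2, -⟩ := ownpool_st hO hI h c α β hn i h₂ hc hα1 hα2
            exact Or.inr ⟨o1, o2⟩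
          · push Not at hc
            exact Or.inl (ownpool_ns hO hI h c α β hn i h₂ hc.1 hc.2 hα1 hα2)
        · exact Or.inl (ownpool_ne hO hI h c α β hn x).1
      · obtain ⟨o1, o2⟩ := farpool hO hI h c hev hne α β x
        exact ⟨Or.inl o1, Or.inl o2⟩

end

section

variable {A R H G R₂ H₂ : Type} [Fintype A] [Fintype H] [Fintype G] [Fintype H₂]
  {O : Out A R H} {I : Inn G R₂ H₂} {p : Prm} {K : Finset G}
  {k₁ K₁ k₂ Rd₀ : ℕ} {φ' q Dl U M L : ℝ}

/-- the composition of an outer and an inner block is an outer block -/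
theorem comp_good (hO : O.Good k₁ K₁ p.φ q Dl L Rd₀) (hI : I.Good k₂ p.Rz p.Δ U M)
    (h : p.OK φ' q Dl U M) (hK : K.card = k₂) {m : ℕ} (hdiv : p.Rd = Rd₀ * m) :
    ∃ k K', (comp O I p K).Good k K' φ' (p.qs M * p.δ / 4) (Dl * (p.δ * p.Δ) / 2) (3 * L)
      p.Rd := by
  classical
  have hδ := h.δ0
  have hδΔ : 0 < p.δ * p.Δ := mul_pos h.δ0 (by linarith [h.Δ1])
  have hDl : 0 < Dl := lt_of_lt_of_le h.hq h.hqD
  have hq0 := h.qs0
  have hq2 := h.qs2
  have hpos : ∀ e : Ev' R R₂ p.Nx p.V₁, ∃ P W, Pos O I p K M e P W := by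
    intro e
    obtain ⟨P, W, p1, p2, p3, p4⟩ := coord K hO hI h e
    exact ⟨P, W, p1, p2, p3, p4⟩
  have hab : ∀ r, I.a r ≠ I.b r := by
    intro r h1
    have h2 := hI.D1 r
    rw [h1] at h2
    have := hI.hΔ
    omega
  refine ⟨2 * p.Nx * (Fintype.card G * p.V) * (k₁ + 1) + (Fintype.card G * p.V) * K₁,
    2 * (p.Nx * Fintype.card H₂) *
      (2 * p.Nx * (Fintype.card G * p.V) * (k₁ + 1) + (Fintype.card G * p.V) * K₁) +
    Fintype.card G * ((p.Nx - 1) * Fintype.card H₂) + 2 * Fintype.card H₂ * k₂ +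
      2 * Fintype.card H₂ - 2 * (p.Nx * Fintype.card H₂) * k₂ - 1, ?_⟩
  refine
    { hq := by positivity
      hqD := ?_
      hL := by linarith [hO.hL]
      hRd := h.hRd
      tie := fun e => cb_zero hO hI h e
      hD := fun e => ?_
      slopes := cs_rat hO h hdiv
      bs := cs_bd hO hI h
      bt := ct_bd hO hI h
      bX := cX_bd hO hI h
      bxs := cxs_bd hO hI h
      g1 := fun e l ha hb => ?_
      g2 := fun e l ha hb => ?_
      w := fun e f hef => sep_comp hO hI h hef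
      level := fun e => ?_
      real := fun e => comp_real hI hO.inj e
      rd1 := fun e => ?_
      rd2 := fun e => ?_
      inj := fun e f h1 h2 => comp_inj hI hO.inj e f h1 h2
      dd := cd_bd hO hI h
      own := fun e l x hl hne => ?_
      far := fun e l x ha hb hd => ?_
      dich := fun e l x ha hb => ?_
      th := fun e l x ha hb hd => ?_
      slots := fun e => ?_ }
  · have h1 : p.qs M ≤ q := by
      have : p.φ * q ≤ 1 / 16 * q := mul_le_mul_of_nonneg_right h.φle h.hq.le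
      have := h.hq
      linarith
    have h2 : p.qs M * p.δ ≤ q * p.δ := mul_le_mul_of_nonneg_right h1 hδ.le
    have h3 : q * p.δ ≤ Dl * (p.δ * p.Δ) := by
      apply mul_le_mul h.hqD _ hδ.le hDl.le
      have := mul_le_mul_of_nonneg_left h.Δ1 hδ.le
      linarith
    have h4 : 0 < p.qs M * p.δ := by positivity
    linarith
  · obtain ⟨d1, -⟩ := comp_D hO hI h (K := K) e
    have h1 : Dl * (p.δ * p.Δ) ≤ O.D e.1 * (p.δ * p.Δ) :=
      mul_le_mul_of_nonneg_right (hO.hD e.1) hδΔ.le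
    have h2 : 0 < Dl * (p.δ * p.Δ) := mul_pos hDl hδΔ
    linarith
  · obtain ⟨P, W, c⟩ := hpos e
    exact (marg hO hI h c l ha hb).1
  · obtain ⟨P, W, c⟩ := hpos e
    have h1 := (marg hO hI h c l ha hb).2
    obtain ⟨d1, -⟩ := comp_D hO hI h (K := K) e
    have hD := Dpos hO h e.1
    have h2 : p.δ * 1 ≤ p.δ * p.Δ := mul_le_mul_of_nonneg_left h.Δ1 hδ.le
    have h3 : p.δ / 4 * O.D e.1 ≤ (comp O I p K).D e := by
      refine le_trans ?_ d1
      apply mul_le_mul_of_nonneg_right _ hD.le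
      linarith
    have h4 : |(comp O I p K).F l e| * (p.δ / 4 * O.D e.1) ≤
        |(comp O I p K).F l e| * (comp O I p K).D e :=
      mul_le_mul_of_nonneg_left h3 (abs_nonneg _)
    have h5 := mul_le_mul_of_nonneg_left h1 (by positivity : 0 ≤ p.δ / 4)
    change p.qs M * p.δ / 4 * |cs O I p l - cs O I p (ca O I p e)| ≤ _
    linarith
  · obtain ⟨P, W, c⟩ := hpos e
    convert level_comp hO hI h c hK using 2
  · obtain ⟨d1, -⟩ := comp_D hO hI h (K := K) e
    have hD := Dpos hO h e.1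
    have h1 : (comp O I p K).d (ca O I p e) (csl I p e) = O.D e.1 * (p.δ * p.Δ) :=
      cd_some (K := K) (O.evt_self hO.inj e.1) (Or.inl (hI.acta _))
    change (comp O I p K).d (ca O I p e) (csl I p e) ≤ _
    rw [h1]
    have h2 : 0 < O.D e.1 * (p.δ * p.Δ) := mul_pos hD hδΔ
    linarith
  · obtain ⟨-, d2⟩ := comp_D hO hI h (K := K) e
    have hD := Dpos hO h e.1
    have h1 : (comp O I p K).d (ca O I p e) (csl I p e) = O.D e.1 * (p.δ * p.Δ) :=
      cd_some (K := K) (O.evt_self hO.inj e.1) (Or.inl (hI.acta _))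
    change _ ≤ 3 * (comp O I p K).d (ca O I p e) (csl I p e)
    rw [h1]
    have h2 : 0 < O.D e.1 * (p.δ * p.Δ) := mul_pos hD hδΔ
    linarith
  · obtain ⟨P, W, c⟩ := hpos e
    have hD := Dpos hO h e.1
    have hev := O.evt_self hO.inj e.1
    obtain ⟨i, h₂⟩ := x
    have key : ∀ α, (α = I.a e.2.2.2 ∨ α = I.b e.2.2.2) →
        ¬ (α = I.a e.2.2.2 ∧ (i, h₂) = csl I p e) →
        0 < (comp O I p K).d (pl O I p e α) (i, h₂) ∧
        p.qs M * p.δ / 4 ≤ (comp O I p K).d (pl O I p e α) (i, h₂) *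
          |(comp O I p K).X e - (comp O I p K).xs (pl O I p e α) (i, h₂)| ∧
        p.qs M * p.δ / 4 ≤ (comp O I p K).D e *
          |(comp O I p K).X e - (comp O I p K).xs (pl O I p e α) (i, h₂)| := by
      intro α h1 h2
      have hact : I.act α := by
        rcases h1 with h3 | h3
        · rw [h3]; exact hI.acta _
        · rw [h3]; exact hI.actb _
      have hd : (comp O I p K).d (pl O I p e α) (i, h₂) = O.D e.1 * (p.δ * p.Δ) :=
        cd_some (K := K) (x := (i, h₂)) hev (Or.inl hact)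
      obtain ⟨o1, o2⟩ := ownpool_own hO hI h c α ⟨row p e - I.σ α * (e.2.1:ℕ),
        lt_of_le_of_lt (Nat.sub_le _ _) (row_lt p e)⟩ (pl_row hI e α) i h₂ h1 h2
      rw [hd]
      exact ⟨mul_pos hD hδΔ, o1, o2⟩
    rcases hl with hl | hl
    · have hl' : l = pl O I p e (I.a e.2.2.2) := hl
      rw [hl']
      apply key _ (Or.inl rfl)
      rintro ⟨-, h1⟩
      exact hne ⟨hl, h1⟩
    · have hl' : l = pl O I p e (I.b e.2.2.2) := hl
      rw [hl']
      apply key _ (Or.inr rfl)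
      rintro ⟨h1, -⟩
      exact hab _ h1.symm
  · obtain ⟨P, W, c⟩ := hpos e
    exact (slot_cls hO hI h c l ha hb x hd).2.2
  · obtain ⟨P, W, c⟩ := hpos e
    rcases cd_bd hO hI h l x with h1 | h1
    · left
      have h2 : (comp O I p K).d l x = 0 := h1
      rw [h2, zero_mul, mul_zero, mul_zero]
      exact abs_nonneg _
    · have h2 : 0 < cd O I p l x := by
        have : 0 < Dl * (p.δ * p.Δ) := mul_pos hDl hδΔ
        linarith [h1.1]
      rcases (slot_cls hO hI h c l ha hb x h2).2.1 with h3 | h3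
      · exact Or.inl h3
      · exact Or.inr h3.1
  · obtain ⟨P, W, c⟩ := hpos e
    obtain ⟨s1, s2, -⟩ := slot_cls hO hI h c l ha hb x hd
    change |cX O I p K e - cxs O I p K l x| ≤ _
    rcases s2 with s2 | s2
    · have hbig := h.big
      have hφ' := h.hφ'
      set Z := |cX O I p K e - cxs O I p K l x| with hZ
      have hZ0 : 0 ≤ Z := abs_nonneg _
      have hRd : (0:ℝ) ≤ p.Rd := by positivity
      have h1 : Z * 1 ≤ Z * (16 * (φ' * (Dl * (p.δ * p.Δ))) * p.Rd) :=
        mul_le_mul_of_nonneg_left hbig hZ0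
      have h2 : Z * (16 * (φ' * (Dl * (p.δ * p.Δ))) * p.Rd) ≤
          Z * (16 * (φ' * (cd O I p l x)) * p.Rd) := by
        apply mul_le_mul_of_nonneg_left _ hZ0
        apply mul_le_mul_of_nonneg_right _ hRd
        have := mul_le_mul_of_nonneg_left s1 hφ'.le
        linarith
      have h3 : Z * (16 * (φ' * (cd O I p l x)) * p.Rd) =
        p.Rd * (16 * (φ' * (cd O I p l x * Z))) := by ring
      have h4 : (p.Rd:ℝ) * (16 * (φ' * (cd O I p l x * Z))) ≤ p.Rd * |(comp O I p K).F l e| :=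
        mul_le_mul_of_nonneg_left s2 hRd
      linarith
    · exact s2.2
  · obtain ⟨P, W, c⟩ := hpos e
    have h1 := slots_comp hO hI h c hK
    have h2 : (∑ l, ∑ x : Fin p.Nx × H₂, (if l = (comp O I p K).a e ∧
        x = (comp O I p K).slot e then 0 else (comp O I p K).pr φ' l x e)) =
      2 * (p.Nx * Fintype.card H₂) *
      (2 * p.Nx * (Fintype.card G * p.V) * (k₁ + 1) + (Fintype.card G * p.V) * K₁) +
      Fintype.card G * ((p.Nx - 1) * Fintype.card H₂) + 2 * Fintype.card H₂ * k₂ +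
      2 * Fintype.card H₂ - 2 * (p.Nx * Fintype.card H₂) * k₂ - 1 := by
      have h3 : ∀ S A B : ℕ, S + A + 1 = B → S = B - A - 1 := by intro S A B hS; omega
      apply h3
      convert h1 using 4
    rw [← h2]
    apply Finset.sum_congr rfl
    intro l _
    apply Finset.sum_congr rfl
    intro x _
    congr

end

end Pool.Agent.N35.HL
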