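import Pool.Agent.N35.HL.Good

/-!
# Existence of blocks with explicit parameters
-/

set_option linter.unusedSectionVars false
set_option linter.unusedVariables false
set_option maxHeartbeats 1000000

namespace Pool.Agent.N35.HL

open Finset

/-- outer block with `N` lines, `E` events, `P` slots per line, margins `1/Q`, `1/T`, size `L`,
slopes in multiples of `1/(T C)` -/
def HasO (Δ N E P Q T L C : ℕ) : Prop :=
  1 ≤ P ∧ 1 ≤ E ∧ ∃ (A R H : Type) (_ : Fintype A) (_ : Fintype R) (_ : Fintype H)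
    (O : Out A R H) (k K : ℕ),
    O.Good k K (1 / (51200 * Δ * P)) (1 / Q) (1 / T) L (T * C) ∧
      Fintype.card A = N ∧ Fintype.card R = E ∧ Fintype.card H = P

/-- inner block -/
def HasI (g E P Rz Δ U M : ℕ) : Prop :=
  1 ≤ P ∧ 1 ≤ E ∧ ∃ (G R H : Type) (_ : Fintype G) (_ : Fintype R) (_ : Fintype H)
    (I : Inn G R H) (k : ℕ), I.Good k Rz Δ U M ∧
      Fintype.card G = g ∧ Fintype.card R = E ∧ Fintype.card H = P

lemma Inn.Good.k_le {G R H : Type} [Fintype G] {I : Inn G R H} {k Rz Δ : ℕ} {U M : ℝ}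
    (hI : I.Good k Rz Δ U M) (r : R) : k ≤ Fintype.card G := by
  classical
  rw [← hI.level r]
  calc _ ≤ ∑ _α : G, 1 := by
        apply Finset.sum_le_sum
        intro α _
        split_ifs <;> simp
    _ = _ := by simp

/-- the parameters of a composition -/
noncomputable def prm (Δ P Q U Rz P₂ Rd : ℕ) : Prm where
  Nx := 50 * P
  V₁ := 2500 * Rz * P
  Rz := Rz
  Δ := Δ
  Rd := Rd
  φ := 1 / (51200 * Δ * P)
  lam := 1 / (500 * Rz * (50 * P))
  κ := 1 / (2 ^ 18 * U * Rz * (50 * (50 * P * P₂)))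
  ε := (1 / (51200 * Δ * P)) * (1 / Q) / (2 ^ 13 * (50 * P))

theorem HasO.comp {Δ N E P Q T L C g E₂ P₂ Rz U M : ℕ} (hO : HasO Δ N E P Q T L C)
    (hI : HasI g E₂ P₂ Rz Δ U M) (c : ℕ) (hc1 : 1 ≤ c) (hC1 : 1 ≤ C) (hQ1 : 1 ≤ Q) (hT1 : 1 ≤ T)
    (hc : 2 ^ 27 * (M * U * Rz ^ 3 * ((50 * P) * (50 * (50 * P * P₂)))) ≤ C * c) :
    HasO Δ (N * (g * Rz * 260100) * P ^ 2) (E * (125000 * E₂ * Rz * P ^ 2)) (50 * P * P₂)
      (Q * ((51200 * Δ * P) * (2 ^ 13 * (50 * P)) * (2 ^ 18 * U * Rz * (50 * (50 * P * P₂))) *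
        (16 * M * Rz) * (2 * (51200 * Δ * P) * (500 * Rz * (50 * P)))))
      (T * (2048000 * Rz * (50 * P) ^ 2)) (3 * L) (C * c) := by
  obtain ⟨hP, hE, A, R, H, _, _, _, O, k₁, K₁, hO, hA, hR, hH⟩ := hO
  obtain ⟨hP₂, hE₂, G, R₂, H₂, _, _, _, I, k₂, hI, hG, hR₂, hH₂⟩ := hI
  have hRne : Nonempty R₂ := Fintype.card_pos_iff.mp (by omega)
  obtain ⟨r⟩ := hRne
  obtain ⟨K, -, hK⟩ := Finset.exists_subset_card_eq
    (show k₂ ≤ (Finset.univ : Finset G).card from by rw [Finset.card_univ]; exact hI.k_le r)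
  set Rd : ℕ := T * (2048000 * Rz * (50 * P) ^ 2) * (C * c) with hRd
  set p := prm Δ P Q U Rz P₂ Rd with hp
  -- positivity of all parameters
  have hΔ := hI.hΔ
  have hΔR := hI.hΔR
  have hRz : 1 ≤ Rz := hΔ.trans hΔR
  have hU1 : (1:ℝ) ≤ U := hI.hU
  have hM1 : (1:ℝ) ≤ M := hI.hM
  have hPr : (1:ℝ) ≤ P := by exact_mod_cast hP
  have hP₂r : (1:ℝ) ≤ P₂ := by exact_mod_cast hP₂
  have hΔr : (1:ℝ) ≤ Δ := by exact_mod_cast hΔ
  have hRzr : (1:ℝ) ≤ Rz := by exact_mod_cast hRz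
  have hΔRr : (Δ:ℝ) ≤ Rz := by exact_mod_cast hΔR
  have hQr : (1:ℝ) ≤ Q := by exact_mod_cast hQ1
  have hTr : (1:ℝ) ≤ T := by exact_mod_cast hT1
  have hCr : (1:ℝ) ≤ C := by exact_mod_cast hC1
  have hcr : (1:ℝ) ≤ c := by exact_mod_cast hc1
  have hP0 : (0:ℝ) < P := by linarith
  have hP₂0 : (0:ℝ) < P₂ := by linarith
  have hΔ0 : (0:ℝ) < Δ := by linarith
  have hRz0 : (0:ℝ) < Rz := by linarith
  have hQ0 : (0:ℝ) < Q := by linarith
  have hT0 : (0:ℝ) < T := by linarith
  have hU0 : (0:ℝ) < U := by linarith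
  have hM0 : (0:ℝ) < M := by linarith
  have hC0 : (0:ℝ) < C := by linarith
  have hc0 : (0:ℝ) < c := by linarith
  have hRd1 : 1 ≤ Rd := by
    rw [hRd]
    apply Nat.one_le_iff_ne_zero.mpr
    have : 50 * P ≠ 0 := by omega
    have : T ≠ 0 := by omega
    have : Rz ≠ 0 := by omega
    have : C ≠ 0 := by omega
    have : c ≠ 0 := by omega
    positivity
  have hcr2 : (2:ℝ) ^ 27 * (M * U * Rz ^ 3 * ((50 * P) * (50 * (50 * P * P₂)))) ≤ C * c := by
    exact_mod_cast hc
  have eV : (p.V : ℝ) = Rz * (50 * P) + 2500 * Rz * P := by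
    have : p.V = Rz * (50 * P) + 2500 * Rz * P := rfl
    rw [this]; push_cast; ring
  have hφe : p.φ = 1 / (51200 * Δ * P) := rfl
  have hle : p.lam = 1 / (500 * Rz * (50 * P)) := rfl
  have hκe : p.κ = 1 / (2 ^ 18 * U * Rz * (50 * (50 * P * P₂))) := rfl
  have hεe : p.ε = (1 / (51200 * Δ * P)) * (1 / Q) / (2 ^ 13 * (50 * P)) := rfl
  have hNxe : (p.Nx : ℝ) = 50 * P := by
    have : p.Nx = 50 * P := rfl
    rw [this]; push_cast; ring
  have hRze : (p.Rz : ℝ) = Rz := rfl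
  have hΔe : (p.Δ : ℝ) = Δ := rfl
  have hRde : (p.Rd : ℝ) = Rd := rfl
  have hδe : p.δ = 1 / (51200 * Δ * P) * (1 / (500 * Rz * (50 * P))) / 2 := rfl
  have hOK : p.OK (1 / (51200 * Δ * ((50 * P * P₂ : ℕ) : ℝ))) (1 / Q) (1 / T) U M := by
    refine
      { hNx := by change 1 ≤ 50 * P; omega
        hΔ := hΔ
        hΔR := hΔR
        hRd := hRd1
        hq := by positivity
        hq1 := by rw [div_le_one hQ0]; exact hQr
        hqD := hO.hqD
        hφ0 := by rw [hφe]; positivity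
        hφ1 := ?_
        hl0 := by rw [hle]; positivity
        hl1 := ?_
        hU := hU1
        hM := hM1
        hκ0 := by rw [hκe]; positivity
        hκ1 := ?_
        hκ2 := ?_
        hφ' := by positivity
        hφ'1 := ?_
        hε0 := by rw [hεe]; positivity
        hε1 := ?_
        hrd := ?_ }
    · rw [hφe, hNxe, div_mul_eq_mul_div, div_le_div_iff₀ (by positivity) (by norm_num)]
      have : (1:ℝ) * P ≤ Δ * P := mul_le_mul_of_nonneg_right hΔr hP0.le
      nlinarith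
    · rw [hle, hNxe, hRze, eV, div_mul_eq_mul_div, div_le_div_iff₀ (by positivity) (by norm_num)]
      have : (1:ℝ) ≤ Rz * P := by nlinarith
      nlinarith
    · rw [hκe, hle, div_mul_eq_mul_div, div_div, div_le_div_iff₀ (by positivity) (by positivity)]
      have a1 : (U:ℝ) + 1 ≤ 2 * U := by linarith
      have a2 : (0:ℝ) < Rz * P := by positivity
      have a3 : (Rz * P : ℝ) * 1 ≤ Rz * P * P₂ := mul_le_mul_of_nonneg_left hP₂r a2.le
      have a4 : (1 * ((U:ℝ) + 1)) * (500 * Rz * (50 * P) * 64) ≤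
          (2 * U) * (500 * Rz * (50 * P) * 64) := by
        apply mul_le_mul_of_nonneg_right _ (by positivity)
        linarith
      refine a4.trans ?_
      have a5 : (U:ℝ) * (Rz * P * 1) ≤ U * (Rz * P * P₂) := mul_le_mul_of_nonneg_left a3 hU0.le
      have a6 : (0:ℝ) < U * (Rz * P * P₂) := by positivity
      nlinarith
    · rw [hκe, hΔe]
      have a1 : (U:ℝ) + 1 ≤ 2 * U := by linarith
      have e1 : (1 / (51200 * (Δ:ℝ) * ((50 * P * P₂ : ℕ) : ℝ))) * Δ = 1 / (51200 * (50 * P * P₂)) := by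
        push_cast
        field_simp
      rw [e1, div_mul_eq_mul_div, mul_div_assoc', div_le_div_iff₀ (by positivity) (by positivity)]
      have a2 : (0:ℝ) < P * P₂ := by positivity
      have a3 : (U * (P * P₂) : ℝ) * 1 ≤ U * (P * P₂) * Rz :=
        mul_le_mul_of_nonneg_left hRzr (by positivity)
      have a4 : (128 * (1 * ((U:ℝ) + 1))) * (51200 * (50 * P * P₂)) ≤
          (128 * (2 * U)) * (51200 * (50 * P * P₂)) := by
        apply mul_le_mul_of_nonneg_right _ (by positivity)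
        linarith
      refine a4.trans ?_
      nlinarith
    · rw [hΔe, hNxe]
      have e1 : (1 / (51200 * (Δ:ℝ) * ((50 * P * P₂ : ℕ) : ℝ))) * Δ = 1 / (51200 * (50 * P * P₂)) := by
        push_cast
        field_simp
      rw [e1, mul_div_assoc', div_mul_eq_mul_div, div_le_one (by positivity)]
      have a3 : (P : ℝ) * 1 ≤ P * P₂ := mul_le_mul_of_nonneg_left hP₂r hP0.le
      nlinarith
    · rw [hεe, hφe, hNxe]
      have e1 : 400 * ((1 / (51200 * (Δ:ℝ) * P)) * (1 / Q) / (2 ^ 13 * (50 * P)) * (50 * P + 6)) =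
        (1 / (51200 * Δ * P) * (1 / Q)) * (400 * (50 * P + 6) / (2 ^ 13 * (50 * P))) := by ring
      rw [e1]
      have h1 : 400 * (50 * (P:ℝ) + 6) / (2 ^ 13 * (50 * P)) ≤ 1 := by
        rw [div_le_one (by positivity)]; nlinarith
      have h2 : 0 ≤ (1 / (51200 * (Δ:ℝ) * P) * (1 / Q)) := by positivity
      nlinarith
    · rw [hRde, hRze, hNxe, hδe, hκe, hRd]
      push_cast
      have e1 : (T:ℝ) * (2048000 * Rz * (50 * P) ^ 2) * (C * c) * (1 / T) *
          (1 / (51200 * Δ * P) * (1 / (500 * Rz * (50 * P))) / 2 *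
          (1 / (2 ^ 18 * U * Rz * (50 * (50 * P * P₂))))) =
          (C * c) * (2048000 * 50 ^ 2) / (51200 * 500 * 50 * 2 * 2 ^ 18 * 2500 * (Δ * U * Rz * P * P₂)) := by
        field_simp
        norm_num
      rw [e1, le_div_iff₀ (by positivity)]
      have h2 : (50 * (P:ℝ) + 2) ≤ 52 * P := by linarith
      have h3 : 200 * ((M:ℝ) * Rz * (50 * P + 2)) * (51200 * 500 * 50 * 2 * 2 ^ 18 * 2500 * (Δ * U * Rz * P * P₂)) ≤
        200 * ((M:ℝ) * Rz * (52 * P)) * (51200 * 500 * 50 * 2 * 2 ^ 18 * 2500 * (Rz * U * Rz * P * P₂)) := by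
        apply mul_le_mul
        · apply mul_le_mul_of_nonneg_left _ (by norm_num)
          exact mul_le_mul_of_nonneg_left h2 (by positivity)
        · apply mul_le_mul_of_nonneg_left _ (by positivity)
          apply mul_le_mul_of_nonneg_right _ hP₂0.le
          apply mul_le_mul_of_nonneg_right _ hP0.le
          apply mul_le_mul_of_nonneg_right _ hRz0.le
          exact mul_le_mul_of_nonneg_right hΔRr hU0.le
        · positivity
        · positivity
      refine h3.trans ?_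
      have h4 : 0 < (M:ℝ) * U * Rz ^ 3 * (P * (P * P₂)) := by positivity
      have h5 := mul_le_mul_of_nonneg_right hcr2 (by norm_num : (0:ℝ) ≤ 2048000 * 50 ^ 2)
      refine le_trans ?_ h5
      have e2 : 200 * ((M:ℝ) * Rz * (52 * P)) * (51200 * 500 * 50 * 2 * 2 ^ 18 * 2500 * (Rz * U * Rz * P * P₂)) =
        (200 * 52 * 51200 * 500 * 50 * 2 * 2 ^ 18 * 2500) * (M * U * Rz ^ 3 * (P * (P * P₂))) := by ring
      have e3 : (2:ℝ) ^ 27 * (M * U * Rz ^ 3 * ((50 * P) * (50 * (50 * P * P₂)))) * (2048000 * 50 ^ 2) =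
        (2 ^ 27 * 50 * 50 * 50 * 2048000 * 50 ^ 2) * (M * U * Rz ^ 3 * (P * (P * P₂))) := by ring
      rw [e2, e3]
      apply mul_le_mul_of_nonneg_right _ h4.le
      norm_num
  obtain ⟨k, K', hgood⟩ := comp_good (K := K) (p := p) (m := (2048000 * Rz * (50 * P) ^ 2) * c)
    hO hI hOK hK (by
      change Rd = T * C * _
      rw [hRd]; ring)
  refine ⟨?_, ?_, Idx A G H p.Nx p.V, Ev' R R₂ p.Nx p.V₁, Fin p.Nx × H₂, inferInstance,
    inferInstance, inferInstance, HL.comp O I p K, k, K', ?_, ?_, ?_, ?_⟩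
  · exact Nat.one_le_iff_ne_zero.mpr (by
      have : P ≠ 0 := by omega
      have : P₂ ≠ 0 := by omega
      positivity)
  · exact Nat.one_le_iff_ne_zero.mpr (by
      have : P ≠ 0 := by omega
      have : E ≠ 0 := by omega
      have : E₂ ≠ 0 := by omega
      have : Rz ≠ 0 := by omega
      positivity)
  · convert hgood using 1
    · have e1 : p.qs M = p.ε * p.κ / (4 * M * Rz) := rfl
      rw [e1, hεe, hκe, hδe]
      push_cast
      field_simp
      try norm_num
    · rw [hδe, hΔe]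
      push_cast
      field_simp
      try norm_num
    · push_cast; ring
    · rfl
  · simp only [Fintype.card_prod, Fintype.card_sum, Fintype.card_fin, Fintype.card_bool, hA, hG, hH]
    have e1 : p.Nx = 50 * P := rfl
    have e2 : p.V = Rz * (50 * P) + 2500 * Rz * P := rfl
    rw [e1, e2]; ring
  · simp only [Fintype.card_prod, Fintype.card_fin, hR, hR₂]
    have e1 : p.Nx = 50 * P := rfl
    have e2 : p.V₁ = 2500 * Rz * P := rfl
    rw [e1, e2]; ring
  · simp only [Fintype.card_prod, Fintype.card_fin, hH₂]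
    have e1 : p.Nx = 50 * P := rfl
    rw [e1]

end Pool.Agent.N35.HL
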