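import Pool.Agent.N35.HL.Near

/-!
# Heights of the lines of a composition above its events
-/

set_option linter.unusedSectionVars false
set_option linter.unusedVariables false
set_option maxHeartbeats 1000000

namespace Pool.Agent.N35.HL

open Finset

section

variable {A R H G R₂ H₂ : Type}

/-- position of an event -/
structure Pos (O : Out A R H) (I : Inn G R₂ H₂) (p : Prm) (K : Finset G) (M : ℝ)
    (e : Ev' R R₂ p.Nx p.V₁) (P W : ℝ) : Prop where
  X : cX O I p K e = O.X e.1 + p.ε * (1 / 2 + (1 + p.φ) * (P + p.lam * W)) / O.D e.1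
  Y : (comp O I p K).Y e = O.Y e.1 + p.ε * (O.s (O.a e.1) * (1 / 2 + (1 + p.φ) * (P + p.lam * W)) /
      O.D e.1 + (-p.φ * P - p.δ * W))
  hP : |P - ((e.2.1:ℕ) + p.κ * I.x e.2.2.2)| ≤ p.κ / (M * p.Rz) / 100
  hW : |W - (row p e + p.κ * I.y e.2.2.2)| ≤ p.κ / M / 100

variable [Fintype A] [Fintype H] [Fintype G]
  {O : Out A R H} {I : Inn G R₂ H₂} {p : Prm} {K : Finset G}
  {k₁ K₁ k₂ Rd₀ : ℕ} {φ' q Dl U M L : ℝ}
  (hO : O.Good k₁ K₁ p.φ q Dl L Rd₀) (hI : I.Good k₂ p.Rz p.Δ U M) (h : p.OK φ' q Dl U M)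

include h

lemma Prm.OK.κM : p.κ / (M * p.Rz) ≤ p.κ ∧ p.κ / M ≤ p.κ := by
  have h1 := h.hκ0
  have h2 := h.hM
  have h3 := h.Rz1
  constructor
  · apply div_le_self h1.le; nlinarith
  · exact div_le_self h1.le h2

lemma Pos.cl {e : Ev' R R₂ p.Nx p.V₁} {P W : ℝ} (hI : I.Good k₂ p.Rz p.Δ U M)
    (c : Pos O I p K M e P W) : Cl p P W (e.2.1:ℕ) (row p e) := by
  obtain ⟨h1, h2⟩ := P0_bd h hI e
  obtain ⟨h3, h4⟩ := h.κM
  have h5 := h.κle
  have h6 := h.hl0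
  have hP := abs_le.mp c.hP
  have hW := abs_le.mp c.hW
  have h1' := abs_le.mp h1
  have h2' := abs_le.mp h2
  refine ⟨?_, ?_, e.2.1.2, ?_, row_lt p e⟩
  · rw [abs_le]; constructor <;> linarith [hP.1, hP.2, h1'.1, h1'.2]
  · rw [abs_le]; constructor <;> linarith [hW.1, hW.2, h2'.1, h2'.2]
  · unfold row; omega

omit h [Fintype A] [Fintype H] [Fintype G]

lemma F_T (e : Ev' R R₂ p.Nx p.V₁) {P W : ℝ} (c : Pos O I p K M e P W) (l : A) (i : Fin p.Nx)
    (α : G) (β : Fin p.V) :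
    (comp O I p K).F (l, Sum.inl (i, (α, β))) e = O.F l e.1 + p.ε * ((O.s l - O.s (O.a e.1)) *
      ((1 / 2 + (1 + p.φ) * (P + p.lam * W)) / O.D e.1) +
      ((-p.φ * (i:ℕ) - p.δ * (((I.σ α * (i:ℕ) + (β:ℕ) : ℕ) : ℝ) + tau K α)) -
        (-p.φ * P - p.δ * W))) := by
  have e1 : (comp O I p K).F (l, Sum.inl (i, (α, β))) e =
    cs O I p (l, Sum.inl (i, (α, β))) * cX O I p K e + ct O I p K (l, Sum.inl (i, (α, β))) -
      (comp O I p K).Y e := rfl
  rw [e1, c.X, c.Y]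
  simp only [cs, ct]
  unfold Out.F
  ring

lemma F_W (e : Ev' R R₂ p.Nx p.V₁) {P W : ℝ} (c : Pos O I p K M e P W) (l : A) (w : Fin p.Nx)
    (z : G × Fin p.V) :
    (comp O I p K).F (l, Sum.inr (Sum.inl (w, z))) e = O.F l e.1 + p.ε *
      ((O.s l - O.s (O.a e.1)) * ((1 / 2 + (1 + p.φ) * (P + p.lam * W)) / O.D e.1) +
      ((1 + (w:ℕ)) - (-p.φ * P - p.δ * W))) := by
  have e1 : (comp O I p K).F (l, Sum.inr (Sum.inl (w, z))) e =
    cs O I p (l, Sum.inr (Sum.inl (w, z))) * cX O I p K e +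
      ct O I p K (l, Sum.inr (Sum.inl (w, z))) - (comp O I p K).Y e := rfl
  rw [e1, c.X, c.Y]
  simp only [cs, ct]
  unfold Out.F
  ring

lemma F_S (e : Ev' R R₂ p.Nx p.V₁) {P W : ℝ} (c : Pos O I p K M e P W) (l : A) (g : H) (b : Bool)
    (α : G) (β : Fin p.V) :
    (comp O I p K).F (l, Sum.inr (Sum.inr ((g, b), (α, β)))) e =
      (O.F l e.1 - sg b * rhoS O I p l g b α * (O.X e.1 - O.xs l g)) + p.ε *
      ((O.s l - O.s (O.a e.1) - sg b * rhoS O I p l g b α) *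
        ((1 / 2 + (1 + p.φ) * (P + p.lam * W)) / O.D e.1) +
      (omS O I p l g b α β - (-p.φ * P - p.δ * W))) := by
  have e1 : (comp O I p K).F (l, Sum.inr (Sum.inr ((g, b), (α, β)))) e =
    cs O I p (l, Sum.inr (Sum.inr ((g, b), (α, β)))) * cX O I p K e +
      ct O I p K (l, Sum.inr (Sum.inr ((g, b), (α, β)))) - (comp O I p K).Y e := rfl
  rw [e1, c.X, c.Y]
  simp only [cs, ct]
  unfold Out.F
  ring

end

lemma sg_cases (b : Bool) : sg b = 1 ∨ sg b = -1 := by cases b <;> simp [sg]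

section

variable {A R H G R₂ H₂ : Type} [Fintype A] [Fintype H] [Fintype G]
  {O : Out A R H} {I : Inn G R₂ H₂} {p : Prm} {K : Finset G}
  {k₁ K₁ k₂ Rd₀ : ℕ} {φ' q Dl U M L : ℝ}
  (hO : O.Good k₁ K₁ p.φ q Dl L Rd₀) (hI : I.Good k₂ p.Rz p.Δ U M) (h : p.OK φ' q Dl U M)

include h

/-- rounding is negligible compared with `φ Dl` -/
lemma Prm.OK.rnd_small : 1 / (2 * (p.Rd:ℝ)) ≤ p.φ * Dl / 100 ∧
    1 / (2 * ((p.Rd:ℝ) * Dl)) ≤ p.φ / 100 := by
  have h1 := h.eta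
  have hDl : 0 < Dl := lt_of_lt_of_le h.hq h.hqD
  have hRd : (1:ℝ) ≤ p.Rd := by exact_mod_cast h.hRd
  have h2 := h.δ0
  have h3 := h.κle
  have h4 := h.lle
  have h5 := h.δφ
  have h6 := h.hφ0
  have hM := h.hM
  have hRz := h.Rz1
  have hNx := h.Nx1
  have hl := h.hl0
  have hκ := h.hκ0
  have h7 : (1:ℝ) ≤ M * p.Rz * (p.Nx + 2) := by
    have : 1 ≤ M * p.Rz := by nlinarith
    nlinarith
  set z := 1 / (2 * ((p.Rd:ℝ) * Dl)) with hz
  have hz0 : 0 ≤ z := by positivity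
  have h8 : z * 400 ≤ z * (400 * (M * p.Rz * (p.Nx + 2))) :=
    mul_le_mul_of_nonneg_left (by linarith) hz0
  have h9 : p.δ * p.κ ≤ p.δ * (1 / 1024) := mul_le_mul_of_nonneg_left (by linarith) h2.le
  have h10 : p.φ * p.lam ≤ p.φ * (1 / 16) := mul_le_mul_of_nonneg_left h4 h6.le
  have h11 : z ≤ p.φ / 100 := by linarith
  refine ⟨?_, h11⟩
  have e : 1 / (2 * (p.Rd:ℝ)) = z * Dl := by rw [hz]; field_simp
  rw [e]
  have := mul_le_mul_of_nonneg_right h11 hDl.le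
  linarith

include hO

/-- slope changes of the slot lines -/
lemma rho_bd (hI : I.Good k₂ p.Rz p.Δ U M) (l : A) (g : H) (b : Bool) (α : G) :
    39 / 100 * (p.φ * O.d l g) ≤ rhoS O I p l g b α ∧
      rhoS O I p l g b α ≤ 31 / 10 * (p.φ * O.d l g) ∧ 0 ≤ O.d l g ∧ 0 ≤ rhoS O I p l g b α := by
  have hφ := h.hφ0
  obtain ⟨r1, -⟩ := h.rnd_small
  have hDl : 0 < Dl := lt_of_lt_of_le h.hq h.hqD
  have hd0 : 0 ≤ O.d l g := by
    rcases hO.dd l g with h1 | h1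
    · rw [h1]
    · linarith [h1.1]
  have key : 39 / 100 * (p.φ * O.d l g) ≤ rhoS O I p l g b α ∧
      rhoS O I p l g b α ≤ 31 / 10 * (p.φ * O.d l g) := by
    have h1 := abs_le.mp (rnd_err p.Rd h.hRd (muS O I p l g b α))
    change -(1 / (2 * (p.Rd:ℝ))) ≤ rhoS O I p l g b α - _ ∧ rhoS O I p l g b α - _ ≤ _ at h1
    rcases hev : O.evt l g with _ | e
    · have hmu : muS O I p l g b α = p.φ * O.d l g := by unfold muS; rw [hev]
      rcases hO.dd l g with h2 | h2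
      · have : rhoS O I p l g b α = 0 := by
          unfold rhoS; rw [hmu, h2, mul_zero, rnd_zero]
        rw [this, h2]; simp
      · rw [hmu] at h1
        have h3 : p.φ * Dl ≤ p.φ * O.d l g := mul_le_mul_of_nonneg_left h2.1 hφ.le
        constructor <;> linarith [h1.1, h1.2]
    · obtain ⟨s1, s2⟩ := O.evt_spec hev
      have hD := Dpos hO h e
      have d1 := hO.rd1 e
      have d2 := hO.rd2 e
      rw [s1, s2] at d1 d2
      have hd : 0 < O.d l g := by linarith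
      have h2 : Dl ≤ O.d l g := by
        rcases hO.dd l g with h2 | h2
        · rw [h2] at hd; exact absurd hd (lt_irrefl _)
        · exact h2.1
      have h3 : p.φ * Dl ≤ p.φ * O.d l g := mul_le_mul_of_nonneg_left h2 hφ.le
      obtain ⟨q1, q2⟩ := h.psi_bd I α (hI.hσ α)
      have hmu : muS O I p l g b α = (if b then p.φ else psi I p α) * O.D e := by
        unfold muS; rw [hev]
      have hmu1 : 4 / 5 * p.φ * O.D e ≤ muS O I p l g b α := by
        rw [hmu]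
        apply mul_le_mul_of_nonneg_right _ hD.le
        split_ifs <;> linarith
      have hmu2 : muS O I p l g b α ≤ p.φ * O.D e := by
        rw [hmu]
        apply mul_le_mul_of_nonneg_right _ hD.le
        split_ifs <;> linarith
      have h4 : p.φ * O.d l g ≤ p.φ * (2 * O.D e) := mul_le_mul_of_nonneg_left d1 hφ.le
      have h5 : p.φ * O.D e ≤ p.φ * (3 * O.d l g) := mul_le_mul_of_nonneg_left d2 hφ.le
      constructor <;> linarith [h1.1, h1.2]
  exact ⟨key.1, key.2, hd0, le_trans (by positivity) key.1⟩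

omit h

/-- the dichotomy away from the slot of an event -/
lemma far_c (e : R) (l : A) (g : H) (hne : ¬ (l = O.a e ∧ g = O.slot e)) (hφ : 0 < p.φ)
    (hq : 0 < q) (hD : 0 < O.D e) :
    (16 * (p.φ * (O.d l g * |O.X e - O.xs l g|)) ≤ |O.F l e| ∨
      16 * |O.F l e| ≤ p.φ * (O.d l g * |O.X e - O.xs l g|)) ∧
    (0 < |O.F l e| ∨ 0 < p.φ * (O.d l g * |O.X e - O.xs l g|)) ∧
    ((q ≤ |O.F l e| ∧ q * |O.s l - O.s (O.a e)| ≤ |O.F l e| * O.D e ∧
        (O.d l g = 0 ∨ q ≤ O.D e * |O.X e - O.xs l g| ∨ O.d l g ≤ 2 * O.D e)) ∨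
      (|O.s l - O.s (O.a e)| ≤ O.D e ∧ q ≤ O.d l g * |O.X e - O.xs l g| ∧
        q ≤ O.D e * |O.X e - O.xs l g|)) := by
  by_cases hab : l = O.a e ∨ l = O.b e
  · have hF : O.F l e = 0 := by
      rcases hab with h1 | h1
      · rw [h1]; exact O.Fa e
      · rw [h1]; exact hO.tie e
    obtain ⟨h1, h2, h3⟩ := hO.own e l g hab hne
    have h4 : 0 < p.φ * (O.d l g * |O.X e - O.xs l g|) := mul_pos hφ (by linarith)
    refine ⟨Or.inr ?_, Or.inr h4, Or.inr ⟨?_, h2, h3⟩⟩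
    · rw [hF, abs_zero, mul_zero]; exact h4.le
    · rcases hab with h5 | h5
      · rw [h5, sub_self, abs_zero]; exact hD.le
      · rw [h5]
        have : O.s (O.b e) - O.s (O.a e) = -O.D e := by unfold Out.D; ring
        rw [this, abs_neg, abs_of_pos hD]
  · push Not at hab
    have h1 := hO.g1 e l hab.1 hab.2
    refine ⟨hO.dich e l g hab.1 hab.2, Or.inl (by linarith), Or.inl ⟨h1, hO.g2 e l hab.1 hab.2, ?_⟩⟩
    rcases hO.dd l g with h2 | h2
    · exact Or.inl h2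
    · have hDl : 0 < Dl := lt_of_lt_of_le hO.hq hO.hqD
      exact Or.inr (hO.far e l g hab.1 hab.2 (by linarith))

include h

/-- offsets of the slot lines -/
lemma om_bd (hI : I.Good k₂ p.Rz p.Δ U M) (l : A) (g : H) (b : Bool) (α : G) (β : Fin p.V) :
    |omS O I p l g b α β| ≤ p.Nx + 4 := by
  have hNx := h.Nx1
  unfold omS
  rcases O.evt l g with _ | e
  · simp; positivity
  · cases b
    · have hβ : ((β:ℕ):ℝ) + 1 ≤ p.V := by exact_mod_cast β.2
      have hβ0 : (0:ℝ) ≤ ((β:ℕ):ℝ) := by positivity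
      have hδ := h.δ0
      have hφ := h.hφ0
      have hφ1 := h.φle
      have hδV := h.δV
      have hl := h.hl0
      obtain ⟨q1, q2⟩ := h.psi_bd I α (hI.hσ α)
      have h1 : |p.κ * I.t α| ≤ 1 := by
        rw [abs_mul, abs_of_pos h.hκ0]
        have h2 := mul_le_mul_of_nonneg_left (hI.bt α) h.hκ0.le
        have h3 := h.hκ1
        have h4 := h.lle
        have h5 := h.hκ0
        linarith
      have h2 := abs_le.mp h1
      have hRN : (0:ℝ) ≤ (p.Rz:ℝ) * p.Nx := by positivity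
      have h3 : |p.δ * (((β:ℕ):ℝ) + p.κ * I.t α)| ≤ p.φ / 16 := by
        rw [abs_mul, abs_of_pos hδ]
        have : |((β:ℕ):ℝ) + p.κ * I.t α| ≤ p.Rz * p.Nx + p.V + 1 := by
          rw [abs_le]; constructor <;> linarith [h2.1, h2.2]
        have := mul_le_mul_of_nonneg_left this hδ.le
        linarith
      have h4 : |p.δ * (((β:ℕ):ℝ) + p.κ * I.t α) / (1 + p.lam * I.σ α)| ≤ p.φ / 16 := by
        rw [abs_div, abs_of_pos (by positivity : 0 < 1 + p.lam * (I.σ α:ℝ))]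
        refine (div_le_self (abs_nonneg _) ?_).trans h3
        have : 0 ≤ p.lam * (I.σ α:ℝ) := by positivity
        linarith
      have h5 := abs_le.mp h4
      simp only [Bool.false_eq_true, if_false]
      rw [abs_le]
      constructor <;> linarith [h5.1, h5.2]
    · simp only [if_true]
      rw [abs_of_nonneg (by positivity)]

omit hO

/-- general estimate for a line far from an event -/
lemma gen_far {F dd dx ρ σ s D u w F' : ℝ} (hD : 0 < D)
    (hu : |u| ≤ p.Nx + 6) (hw : |w| ≤ p.Nx + 6) (hdd : 0 ≤ dd)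
    (hρ0 : 0 ≤ ρ) (hρ1 : 39 / 100 * (p.φ * dd) ≤ ρ) (hρ2 : ρ ≤ 31 / 10 * (p.φ * dd))
    (hσ : σ = 1 ∨ σ = -1)
    (hd : 16 * (p.φ * (dd * |dx|)) ≤ |F| ∨ 16 * |F| ≤ p.φ * (dd * |dx|))
    (hpos : 0 < |F| ∨ 0 < p.φ * (dd * |dx|))
    (hc : (q ≤ |F| ∧ q * |s| ≤ |F| * D ∧ (dd = 0 ∨ q ≤ D * |dx| ∨ dd ≤ 2 * D)) ∨
      (|s| ≤ D ∧ q ≤ dd * |dx| ∧ q ≤ D * |dx|))
    (hF' : F' = (F - σ * ρ * dx) + p.ε * ((s - σ * ρ) * (u / D) + w)) :
    (F' < 0 ↔ F - σ * (p.φ * (dd * dx)) < 0) ∧ 21 / 32 * |F| ≤ |F'| ∧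
    7 / 32 * (p.φ * (dd * |dx|)) ≤ |F'| ∧ 7 / 32 * (p.φ * q) ≤ |F'| ∧
    ∀ ψ, 0 ≤ ψ → ψ ≤ 2 * p.φ → p.φ * q / 64 * |s - σ * ρ + ψ * D| ≤ |F'| * D := by
  have hφ := h.hφ0
  have hφ1 := h.φle
  obtain ⟨l1, l2, l3⟩ := lead hφ hdd hρ1 hρ2 hσ hd hpos
  obtain ⟨l4, l5⟩ := pert (N := p.Nx + 6) hφ hφ1 h.hq h.hε0 (by positivity) h.hε1 hD hu hw hdd
    hρ0 hρ2 hσ l1 l2 hc
  set B := F - σ * ρ * dx with hB
  set E := p.ε * ((s - σ * ρ) * (u / D) + w) with hE
  have hBpos : 0 < |B| := by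
    have := h.hq
    have : 0 < p.φ * q / 4 := by positivity
    linarith
  have h1 : 7 / 8 * |B| ≤ |F'| := by
    have h2 := abs_sub_abs_le_abs_sub B (-E)
    rw [abs_neg, sub_neg_eq_add] at h2
    rw [hF']; linarith
  refine ⟨?_, by linarith, by linarith, by linarith, ?_⟩
  · rw [← l3, hF']
    have h3 := abs_le.mp l4
    rcases le_or_gt 0 B with h4 | h4
    · rw [abs_of_nonneg h4] at h3 hBpos
      constructor <;> intro h5 <;> linarith [h3.1]
    · rw [abs_of_neg h4] at h3 hBpos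
      constructor <;> intro h5 <;> linarith [h3.2]
  · intro ψ hψ0 hψ
    have h2 := relslope hφ hφ1 h.hq hD hdd hρ0 hρ2 hσ l1 l2 hψ0 hψ hc
    have h3 := mul_le_mul_of_nonneg_right h1 hD.le
    have h4 : 0 ≤ |B| * D := by positivity
    have h5 : p.φ * q / 64 * |s - σ * ρ + ψ * D| = p.φ * q / 32 * |s - σ * ρ + ψ * D| / 2 := by
      ring
    rw [h5]
    linarith

end

end Pool.Agent.N35.HL
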