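import Pool.Agent.N35.HL.Base

/-!
# Iterated composition with a fixed inner block; levels
-/

set_option linter.unusedSectionVars false
set_option linter.unusedVariables false
set_option maxHeartbeats 1000000

namespace Pool.Agent.N35.HL

open Finset

/-- denominators of the slopes relative to the slope differences -/
def cc (X B : ℕ) : ℕ → ℕ
  | 0 => 1
  | l + 1 => 2 ^ 39 * X * B ^ (2 * l + 1)

/-- `l` compositions with the same inner block -/
theorem iterO {g E₂ P₂ Rz Δ U M : ℕ} {b : ℝ} (hI : HasI g E₂ P₂ Rz Δ U M) (hb : 0 ≤ b)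
    (hr : b * g * 5253 ≤ 2500 * E₂) (l : ℕ) :
    ∃ N E Q T, HasO Δ N E ((50 * P₂) ^ l) Q T (3 ^ l) (cc (M * U * Rz ^ 3) (50 * P₂) l) ∧
      2500 / 10506 * b ^ l * N * 5253 ≤ 2500 * E ∧ 1 ≤ Q ∧ 1 ≤ T ∧
      N ≤ 2 * (2 ^ 18 * (g * Rz)) ^ l * (50 * P₂) ^ (l ^ 2) ∧
      Q ≤ 4 * (2 ^ 94 * (Rz ^ 5 * (U * M))) ^ l * (50 * P₂) ^ (3 * l ^ 2) ∧
      T ≤ 2 * (2 ^ 33 * Rz) ^ l * (50 * P₂) ^ (l ^ 2) := by
  have hP₂ : 1 ≤ P₂ := hI.1
  have hRz := hI.Rz_pos
  have hΔ := hI.Δ_pos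
  have hΔR := hI.Δ_le
  have hU := hI.U_pos
  have hM := hI.M_pos
  set B := 50 * P₂ with hB
  have hB1 : 1 ≤ B := by omega
  set X := M * U * Rz ^ 3 with hX
  have hX1 : 1 ≤ X := Nat.mul_pos (Nat.mul_pos hM hU) (pow_pos hRz 3)
  have hcc1 : ∀ l, 1 ≤ cc X B l := by
    intro l
    cases l with
    | zero => exact le_rfl
    | succ l => exact Nat.mul_pos (Nat.mul_pos (by norm_num) hX1) (pow_pos hB1 _)
  induction l with
  | zero =>
    refine ⟨2, 1, 4, 2, ?_, ?_, by norm_num, by norm_num, by norm_num, by norm_num, by norm_num⟩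
    · have := HasO.start hΔ
      simpa [cc] using this
    · norm_num
  | succ l ih =>
    obtain ⟨N, E, Q, T, h1, h2, h3, h4, h5, h6, h7⟩ := ih
    have e1 : 50 * B ^ l * P₂ = B ^ (l + 1) := by rw [pow_succ, hB]; ring
    obtain ⟨c, hc1, hc⟩ : ∃ c, 1 ≤ c ∧ cc X B l * c = cc X B (l + 1) := by
      cases l with
      | zero => exact ⟨cc X B 1, hcc1 1, by simp [cc]⟩
      | succ l =>
        refine ⟨B ^ 2, Nat.one_le_pow _ _ hB1, ?_⟩
        simp only [cc]
        ring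
    have h8 := h1.comp hI c hc1 (hcc1 l) h3 h4 (by
      rw [hc, e1]
      have e2 : cc X B (l + 1) = 2 ^ 39 * X * B ^ (2 * l + 1) := rfl
      rw [e2]
      have e3 : 2 ^ 27 * (M * U * Rz ^ 3 * (50 * B ^ l * (50 * B ^ (l + 1)))) =
        (2 ^ 27 * 2500) * (X * B ^ (2 * l + 1)) := by rw [hX]; ring
      rw [e3, mul_assoc (2 ^ 39)]
      exact Nat.mul_le_mul_right _ (by norm_num))
    rw [e1, hc] at h8
    have e4 : 3 * 3 ^ l = 3 ^ (l + 1) := by ring
    rw [e4] at h8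
    have hBl : B ^ l = B ^ l := rfl
    refine ⟨_, _, _, _, h8, ?_, ?_, ?_, ?_, ?_, ?_⟩
    · -- ratio
      have hN0 : (0:ℝ) ≤ 2500 / 10506 * b ^ l * N * 5253 := by positivity
      have a1 : (2500 / 10506 * b ^ l * N * 5253) * (b * g * 5253) ≤ (2500 * E) * (2500 * E₂) :=
        mul_le_mul h2 hr (by positivity) (by positivity)
      have a2 : (0:ℝ) ≤ Rz * (B ^ l) ^ 2 * 50 := by positivity
      have a3 := mul_le_mul_of_nonneg_right a1 a2
      push_cast
      have a4 : 0 ≤ b ^ l * N * (b * g) * (Rz * (B ^ l) ^ 2) := by positivity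
      have e5 : 2500 / 10506 * b ^ (l + 1) * (N * (g * Rz * 260100) * (B ^ l) ^ 2) * 5253 =
        (2500 / 10506 * 260100 * 5253) * (b ^ l * N * (b * g) * (Rz * (B ^ l) ^ 2)) := by ring
      have e6 : (2500 / 10506 * b ^ l * N * 5253) * (b * g * 5253) * (Rz * (B ^ l) ^ 2 * 50) =
        (2500 / 10506 * 5253 * 5253 * 50) * (b ^ l * N * (b * g) * (Rz * (B ^ l) ^ 2)) := by ring
      have e7 : (2500 * (E:ℝ)) * (2500 * E₂) * (Rz * (B ^ l) ^ 2 * 50) =
        2500 * (E * (125000 * E₂ * Rz * (B ^ l) ^ 2)) := by ring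
      rw [e6, e7] at a3
      rw [e5]
      refine le_trans ?_ a3
      apply mul_le_mul_of_nonneg_right _ a4
      norm_num
    · refine Nat.mul_pos h3 ?_
      have hBl1 : 0 < B ^ l := pow_pos hB1 l
      have hBl2 : 0 < B ^ (l + 1) := pow_pos hB1 _
      have f1 : 0 < 51200 * Δ * B ^ l := Nat.mul_pos (Nat.mul_pos (by norm_num) hΔ) hBl1
      have f2 : 0 < 2 ^ 13 * (50 * B ^ l) := Nat.mul_pos (by norm_num) (Nat.mul_pos (by norm_num) hBl1)
      have f3 : 0 < 2 ^ 18 * U * Rz * (50 * B ^ (l + 1)) :=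
        Nat.mul_pos (Nat.mul_pos (Nat.mul_pos (by norm_num) hU) hRz) (Nat.mul_pos (by norm_num) hBl2)
      have f4 : 0 < 16 * M * Rz := Nat.mul_pos (Nat.mul_pos (by norm_num) hM) hRz
      have f5 : 0 < 2 * (51200 * Δ * B ^ l) * (500 * Rz * (50 * B ^ l)) :=
        Nat.mul_pos (Nat.mul_pos (by norm_num) f1) (Nat.mul_pos (Nat.mul_pos (by norm_num) hRz)
          (Nat.mul_pos (by norm_num) hBl1))
      exact Nat.mul_pos (Nat.mul_pos (Nat.mul_pos (Nat.mul_pos f1 f2) f3) f4) f5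
    · exact Nat.mul_pos h4 (Nat.mul_pos (Nat.mul_pos (by norm_num) hRz)
        (pow_pos (Nat.mul_pos (by norm_num) (pow_pos hB1 l)) 2))
    · calc N * (g * Rz * 260100) * (B ^ l) ^ 2
          ≤ (2 * (2 ^ 18 * (g * Rz)) ^ l * B ^ (l ^ 2)) * (g * Rz * 2 ^ 18) * (B ^ l) ^ 2 := by
            apply Nat.mul_le_mul_right
            exact Nat.mul_le_mul h5 (Nat.mul_le_mul_left _ (by norm_num))
        _ = 2 * (2 ^ 18 * (g * Rz)) ^ (l + 1) * B ^ (l ^ 2 + 2 * l) := by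
            rw [pow_add B, mul_comm 2 l, pow_mul B l 2]; ring
        _ ≤ 2 * (2 ^ 18 * (g * Rz)) ^ (l + 1) * B ^ ((l + 1) ^ 2) := by
            apply Nat.mul_le_mul_left
            exact Nat.pow_le_pow_right hB1 (by nlinarith)
    · calc Q * (51200 * Δ * B ^ l * (2 ^ 13 * (50 * B ^ l)) * (2 ^ 18 * U * Rz * (50 * B ^ (l + 1))) *
            (16 * M * Rz) * (2 * (51200 * Δ * B ^ l) * (500 * Rz * (50 * B ^ l))))
          ≤ Q * (51200 * Rz * B ^ l * (2 ^ 13 * (50 * B ^ l)) * (2 ^ 18 * U * Rz * (50 * B ^ (l + 1))) *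
            (16 * M * Rz) * (2 * (51200 * Rz * B ^ l) * (500 * Rz * (50 * B ^ l)))) := by
            apply Nat.mul_le_mul_left
            have k1 : 51200 * Δ * B ^ l ≤ 51200 * Rz * B ^ l :=
              Nat.mul_le_mul_right _ (Nat.mul_le_mul_left _ hΔR)
            apply Nat.mul_le_mul
            · apply Nat.mul_le_mul_right
              apply Nat.mul_le_mul_right
              exact Nat.mul_le_mul_right _ k1
            · apply Nat.mul_le_mul_right
              exact Nat.mul_le_mul_left _ k1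
        _ = Q * ((51200 * 2 ^ 13 * 50 * 2 ^ 18 * 50 * 16 * 2 * 51200 * 500 * 50) *
            (Rz ^ 5 * (U * M) * B ^ (5 * l + 1))) := by ring
        _ ≤ (4 * (2 ^ 94 * (Rz ^ 5 * (U * M))) ^ l * B ^ (3 * l ^ 2)) *
            (2 ^ 94 * (Rz ^ 5 * (U * M) * B ^ (5 * l + 1))) := by
            apply Nat.mul_le_mul h6
            exact Nat.mul_le_mul_right _ (by norm_num)
        _ = 4 * (2 ^ 94 * (Rz ^ 5 * (U * M))) ^ (l + 1) * B ^ (3 * l ^ 2 + (5 * l + 1)) := by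
            rw [pow_add B]; ring
        _ ≤ 4 * (2 ^ 94 * (Rz ^ 5 * (U * M))) ^ (l + 1) * B ^ (3 * (l + 1) ^ 2) := by
            apply Nat.mul_le_mul_left
            exact Nat.pow_le_pow_right hB1 (by nlinarith)
    · calc T * (2048000 * Rz * (50 * B ^ l) ^ 2)
          = T * ((2048000 * 50 ^ 2) * Rz * (B ^ l) ^ 2) := by ring
        _ ≤ (2 * (2 ^ 33 * Rz) ^ l * B ^ (l ^ 2)) * (2 ^ 33 * Rz * (B ^ l) ^ 2) := by
            apply Nat.mul_le_mul h7
            apply Nat.mul_le_mul_right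
            exact Nat.mul_le_mul_right _ (by norm_num)
        _ = 2 * (2 ^ 33 * Rz) ^ (l + 1) * B ^ (l ^ 2 + 2 * l) := by
            rw [pow_add B, mul_comm 2 l, pow_mul B l 2]; ring
        _ ≤ 2 * (2 ^ 33 * Rz) ^ (l + 1) * B ^ ((l + 1) ^ 2) := by
            apply Nat.mul_le_mul_left
            exact Nat.pow_le_pow_right hB1 (by nlinarith)

/-- an inner block with sizes given by exponents -/
def Lv (t r w b : ℕ) (β : ℝ) : Prop :=
  ∃ g E P Rz Δ U M : ℕ, HasI g E P Rz Δ U M ∧ g ≤ 2 ^ t ∧ Rz ≤ 2 ^ r ∧ U * M ≤ 2 ^ w ∧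
    50 * P ≤ 2 ^ b ∧ β * g * 5253 ≤ 2500 * E

/-- `i + 1` compositions, rescaling and choice of a class of events -/
theorem Lv.step {t r w b : ℕ} {β : ℝ} (h : Lv t r w b β) (hβ : 0 ≤ β) (i : ℕ) (hi : 1 ≤ i) :
    Lv (1 + i * (18 + t + r) + b * i ^ 2) (41 + w + 3 * r + i * (35 + r) + b * (i ^ 2 + 2 * i))
      (48 + w + 3 * r + i * (131 + 6 * r + w) + b * (4 * i ^ 2 + 2 * i)) (6 + i * b)
      (2500 / 10506 * β ^ i / ((41 + w + 3 * r + i * (35 + r) + b * (i ^ 2 + 2 * i) : ℕ) + 4)) := by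
  obtain ⟨g, E₂, P₂, Rz, Δ, U, M, hI, hg, hR, hUM, hP, hr⟩ := h
  obtain ⟨l, rfl⟩ : ∃ l, i = l + 1 := ⟨i - 1, by omega⟩
  obtain ⟨N, E, Q, T, h1, h2, h3, h4, h5, h6, h7⟩ := iterO hI hβ hr (l + 1)
  obtain ⟨Δ', E', h8, h9⟩ := h1.up h3 (Nat.one_le_pow _ _ (by norm_num))
  set B := 50 * P₂ with hB
  set C := cc (M * U * Rz ^ 3) B (l + 1) with hC
  have hC2 : C ≤ 2 ^ (39 + w + 3 * r + b * (2 * (l + 1))) := by
    rw [hC]
    simp only [cc]
    calc 2 ^ 39 * (M * U * Rz ^ 3) * B ^ (2 * l + 1)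
        ≤ 2 ^ 39 * (2 ^ w * (2 ^ r) ^ 3) * (2 ^ b) ^ (2 * l + 1) := by
          apply Nat.mul_le_mul
          · apply Nat.mul_le_mul_left
            apply Nat.mul_le_mul
            · rw [mul_comm]; exact hUM
            · exact Nat.pow_le_pow_left hR 3
          · exact Nat.pow_le_pow_left hP _
      _ = 2 ^ (39 + (w + r * 3) + b * (2 * l + 1)) := by
          rw [← pow_mul, ← pow_mul, ← pow_add, ← pow_add, ← pow_add]
      _ ≤ 2 ^ (39 + w + 3 * r + b * (2 * (l + 1))) := by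
          apply Nat.pow_le_pow_right (by norm_num)
          have : b * (2 * l + 1) ≤ b * (2 * (l + 1)) := Nat.mul_le_mul_left _ (by omega)
          omega
  set i := l + 1 with hi'
  have hT2 : T ≤ 2 ^ (1 + i * (33 + r) + b * i ^ 2) := by
    calc T ≤ 2 * (2 ^ 33 * Rz) ^ i * B ^ (i ^ 2) := h7
      _ ≤ 2 * (2 ^ 33 * 2 ^ r) ^ i * (2 ^ b) ^ (i ^ 2) := by
          apply Nat.mul_le_mul
          · apply Nat.mul_le_mul_left
            apply Nat.pow_le_pow_left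
            exact Nat.mul_le_mul_left _ hR
          · exact Nat.pow_le_pow_left hP _
      _ = 2 ^ (1 + (33 + r) * i + b * i ^ 2) := by
          rw [← pow_add, ← pow_mul, ← pow_mul, ← pow_succ', ← pow_add]
          congr 1; ring
      _ = _ := by congr 1; ring
  have hTC : T * C ≤ 2 ^ (40 + w + 3 * r + i * (33 + r) + b * (i ^ 2 + 2 * i)) := by
    calc T * C ≤ 2 ^ (1 + i * (33 + r) + b * i ^ 2) * 2 ^ (39 + w + 3 * r + b * (2 * i)) :=
          Nat.mul_le_mul hT2 hC2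
      _ = 2 ^ (40 + w + 3 * r + i * (33 + r) + b * (i ^ 2 + 2 * i)) := by
          rw [← pow_add]; congr 1; ring
  have hQ2 : Q ≤ 2 ^ (2 + i * (94 + 5 * r + w) + b * (3 * i ^ 2)) := by
    calc Q ≤ 4 * (2 ^ 94 * (Rz ^ 5 * (U * M))) ^ i * B ^ (3 * i ^ 2) := h6
      _ ≤ 2 ^ 2 * (2 ^ 94 * ((2 ^ r) ^ 5 * 2 ^ w)) ^ i * (2 ^ b) ^ (3 * i ^ 2) := by
          apply Nat.mul_le_mul
          · apply Nat.mul_le_mul (by norm_num)
            apply Nat.pow_le_pow_left
            apply Nat.mul_le_mul_left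
            exact Nat.mul_le_mul (Nat.pow_le_pow_left hR 5) hUM
          · exact Nat.pow_le_pow_left hP _
      _ = 2 ^ (2 + i * (94 + 5 * r + w) + b * (3 * i ^ 2)) := by
          rw [← pow_mul 2 r 5, ← pow_add, ← pow_add, ← pow_mul, ← pow_mul, ← pow_add, ← pow_add]
          congr 1; ring
  have h3i : 3 ^ i ≤ 2 ^ (2 * i) := by
    rw [pow_mul]; exact Nat.pow_le_pow_left (by norm_num) i
  set r' := 41 + w + 3 * r + i * (35 + r) + b * (i ^ 2 + 2 * i) with hr'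
  have hR' : 2 * 3 ^ i * (T * C) ≤ 2 ^ r' := by
    calc 2 * 3 ^ i * (T * C) ≤ 2 * 2 ^ (2 * i) * 2 ^ (40 + w + 3 * r + i * (33 + r) + b * (i ^ 2 + 2 * i)) :=
          Nat.mul_le_mul (Nat.mul_le_mul_left _ h3i) hTC
      _ = 2 ^ r' := by
          rw [← pow_succ', ← pow_add, hr']; congr 1; ring
  refine ⟨N, E', B ^ i, _, Δ', _, _, h8, ?_, hR', ?_, ?_, ?_⟩
  · calc N ≤ 2 * (2 ^ 18 * (g * Rz)) ^ i * B ^ (i ^ 2) := h5
      _ ≤ 2 * (2 ^ 18 * (2 ^ t * 2 ^ r)) ^ i * (2 ^ b) ^ (i ^ 2) := by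
          apply Nat.mul_le_mul
          · apply Nat.mul_le_mul_left
            apply Nat.pow_le_pow_left
            exact Nat.mul_le_mul_left _ (Nat.mul_le_mul hg hR)
          · exact Nat.pow_le_pow_left hP _
      _ = 2 ^ (1 + i * (18 + t + r) + b * i ^ 2) := by
          rw [← pow_add, ← pow_add, ← pow_mul, ← pow_mul, ← pow_succ', ← pow_add]
          congr 1; ring
  · calc 4 * (T * C) * (3 ^ i) ^ 2 * (12 * Q)
        ≤ 2 ^ 2 * 2 ^ (40 + w + 3 * r + i * (33 + r) + b * (i ^ 2 + 2 * i)) * (2 ^ (2 * i)) ^ 2 *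
          (2 ^ 4 * 2 ^ (2 + i * (94 + 5 * r + w) + b * (3 * i ^ 2))) := by
          apply Nat.mul_le_mul
          · apply Nat.mul_le_mul
            · exact Nat.mul_le_mul (by norm_num) hTC
            · exact Nat.pow_le_pow_left h3i 2
          · exact Nat.mul_le_mul (by norm_num) hQ2
      _ = 2 ^ (48 + w + 3 * r + i * (131 + 6 * r + w) + b * (4 * i ^ 2 + 2 * i)) := by
          rw [← pow_mul, ← pow_add, ← pow_add, ← pow_add, ← pow_add]
          congr 1; ring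
  · calc 50 * B ^ i ≤ 2 ^ 6 * (2 ^ b) ^ i :=
          Nat.mul_le_mul (by norm_num) (Nat.pow_le_pow_left hP i)
      _ = 2 ^ (6 + i * b) := by rw [← pow_mul, ← pow_add]; congr 1; ring
  · have h10 : Nat.log 2 (12 * (T * C)) + 1 ≤ r' + 4 := by
      have h11 : 12 * (T * C) ≤ 2 ^ (r' + 3) := by
        calc 12 * (T * C) ≤ 2 ^ 4 * 2 ^ (40 + w + 3 * r + i * (33 + r) + b * (i ^ 2 + 2 * i)) :=
              Nat.mul_le_mul (by norm_num) hTC
          _ = 2 ^ (44 + w + 3 * r + i * (33 + r) + b * (i ^ 2 + 2 * i)) := by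
              rw [← pow_add]; congr 1; ring
          _ ≤ 2 ^ (r' + 3) := by
              apply Nat.pow_le_pow_right (by norm_num)
              have : i * (35 + r) = i * (33 + r) + 2 * i := by ring
              omega
      have h12 := Nat.log_mono_right (b := 2) h11
      rw [Nat.log_pow (by norm_num)] at h12
      omega
    have h11 : E ≤ E' * (r' + 4) := h9.trans (Nat.mul_le_mul_left _ h10)
    have h12 : (E:ℝ) ≤ E' * (r' + 4) := by exact_mod_cast h11
    have hpos : (0:ℝ) < (r':ℝ) + 4 := by positivity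
    rw [div_mul_eq_mul_div, div_mul_eq_mul_div, div_le_iff₀ hpos]
    linarith

end Pool.Agent.N35.HL
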