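import Pool.Agent.N35.HL.Signs

/-!
# The level of the events of a composition
-/

set_option linter.unusedSectionVars false
set_option linter.unusedVariables false
set_option maxHeartbeats 1000000

namespace Pool.Agent.N35.HL

open Finset

/-- for a fixed slope the two pool counts add up to `V` up to the two boundary indicators -/
lemma row_count (v0 j V : ℕ) (hlo : v0 ≤ j) (hhi : j < v0 + V) (p q : Prop)
    [Decidable p] [Decidable q] :
    ∑ β : Fin V, (if (j < v0 + (β:ℕ) ∨ (v0 + (β:ℕ) = j ∧ p)) then 1 else 0) +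
    ∑ β : Fin V, (if (v0 + (β:ℕ) < j ∨ (v0 + (β:ℕ) = j ∧ q)) then 1 else 0) + 1 =
    V + (if p then 1 else 0) + (if q then 1 else 0) := by
  have hV : j - v0 < V := by omega
  set β₀ : Fin V := ⟨j - v0, hV⟩ with hβ₀
  have h1 : ∀ β : Fin V, (if (j < v0 + (β:ℕ) ∨ (v0 + (β:ℕ) = j ∧ p)) then 1 else 0) +
      (if (v0 + (β:ℕ) < j ∨ (v0 + (β:ℕ) = j ∧ q)) then 1 else 0) +
      (if β = β₀ then 1 else 0) =
      1 + ((if β = β₀ then (if p then 1 else 0) else 0) +
        (if β = β₀ then (if q then 1 else 0) else 0)) := by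
    intro β
    have hb : β = β₀ ↔ v0 + (β:ℕ) = j := by
      rw [hβ₀, Fin.ext_iff]; simp only []; omega
    by_cases h : β = β₀
    · have h' := hb.mp h
      rw [if_pos h, if_pos h, if_pos h]
      have e1 : ¬ (j < v0 + (β:ℕ)) := by omega
      have e2 : ¬ (v0 + (β:ℕ) < j) := by omega
      simp only [h', lt_irrefl, false_or, true_and]
      omega
    · have h' : ¬ (v0 + (β:ℕ) = j) := fun h2 => h (hb.mpr h2)
      rw [if_neg h, if_neg h, if_neg h]
      simp only [h', false_and, or_false]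
      rcases Nat.lt_or_ge j (v0 + (β:ℕ)) with h3 | h3
      · have : ¬ (v0 + (β:ℕ) < j) := by omega
        simp [h3, this]
      · have h4 : v0 + (β:ℕ) < j := by omega
        have : ¬ (j < v0 + (β:ℕ)) := by omega
        simp [h4, this]
  have h2 := Finset.sum_congr (rfl : (Finset.univ : Finset (Fin V)) = Finset.univ)
    (fun β _ => h1 β)
  simp only [Finset.sum_add_distrib, Finset.sum_ite_eq', Finset.mem_univ, if_true,
    Finset.sum_const, Finset.card_univ, Fintype.card_fin, smul_eq_mul, mul_one] at h2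
  omega

lemma sum_const_ite {ι : Type} [Fintype ι] (p : Prop) [Decidable p] :
    ∑ _i : ι, (if p then 1 else 0) = Fintype.card ι * (if p then 1 else 0) := by
  simp

section

variable {A R H G R₂ H₂ : Type} [Fintype A] [Fintype H] [Fintype G]
  {O : Out A R H} {I : Inn G R₂ H₂} {p : Prm} {K : Finset G}
  {k₁ K₁ k₂ Rd₀ : ℕ} {φ' q Dl U M L : ℝ}

open scoped Classical in
/-- the pool counts add up to the size of the pool -/
lemma pool_count (hI : I.Good k₂ p.Rz p.Δ U M) (hK : K.card = k₂) (e : Ev' R R₂ p.Nx p.V₁) :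
    ∑ z : G × Fin p.V, (if (row p e < I.σ z.1 * (e.2.1:ℕ) + (z.2:ℕ) ∨
        (I.σ z.1 * (e.2.1:ℕ) + (z.2:ℕ) = row p e ∧ ¬ z.1 ∈ K)) then 1 else 0) +
      ∑ z : G × Fin p.V, (if (I.σ z.1 * (e.2.1:ℕ) + (z.2:ℕ) < row p e ∨
        (I.σ z.1 * (e.2.1:ℕ) + (z.2:ℕ) = row p e ∧ I.F z.1 e.2.2.2 < 0)) then 1 else 0) =
      Fintype.card G * p.V := by
  simp only [Fintype.sum_prod_type]
  have hrow : ∀ α : G, ∑ β : Fin p.V, (if (row p e < I.σ α * (e.2.1:ℕ) + (β:ℕ) ∨
        (I.σ α * (e.2.1:ℕ) + (β:ℕ) = row p e ∧ ¬ α ∈ K)) then 1 else 0) +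
      ∑ β : Fin p.V, (if (I.σ α * (e.2.1:ℕ) + (β:ℕ) < row p e ∨
        (I.σ α * (e.2.1:ℕ) + (β:ℕ) = row p e ∧ I.F α e.2.2.2 < 0)) then 1 else 0) + 1 =
      p.V + (if ¬ α ∈ K then 1 else 0) + (if I.F α e.2.2.2 < 0 then 1 else 0) := by
    intro α
    apply row_count
    · exact sub_row hI e α
    · have := row_lt p e; omega
  have h2 := Finset.sum_congr (rfl : (Finset.univ : Finset G) = Finset.univ)
    (fun α _ => hrow α)
  simp only [Finset.sum_add_distrib] at h2
  rw [hI.level e.2.2.2] at h2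
  have h3 : ∑ α : G, (if ¬ α ∈ K then 1 else 0) + k₂ = Fintype.card G := by
    rw [← hK]
    have h4 : ∀ α : G, (if ¬ α ∈ K then 1 else 0) + (if α ∈ K then 1 else 0) = 1 := by
      intro α; by_cases h : α ∈ K <;> simp [h]
    have h5 : K.card = ∑ α : G, (if α ∈ K then 1 else 0) := by simp
    rw [h5, ← Finset.sum_add_distrib, Finset.sum_congr rfl (fun α _ => h4 α)]
    simp
  simp only [Finset.sum_const, Finset.card_univ, smul_eq_mul, mul_one] at h2
  omega

variable (hO : O.Good k₁ K₁ p.φ q Dl L Rd₀) (hI : I.Good k₂ p.Rz p.Δ U M) (h : p.OK φ' q Dl U M)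

include hO hI h

variable {e : Ev' R R₂ p.Nx p.V₁} {P W : ℝ} (c : Pos O I p K M e P W)

include c

/-- sign of a pool line -/
lemma pool_sign (α : G) (β : Fin p.V) :
    ((comp O I p K).F (O.a e.1, Sum.inr (Sum.inr ((O.slot e.1, false), (α, β)))) e < 0 ↔
      (I.σ α * (e.2.1:ℕ) + (β:ℕ) < row p e ∨
        (I.σ α * (e.2.1:ℕ) + (β:ℕ) = row p e ∧ I.F α e.2.2.2 < 0))) := by
  obtain ⟨er, her, hF⟩ := pool hO hI h c α β
  have hσ : (I.σ α:ℝ) ≤ p.Rz := by exact_mod_cast hI.hσ α
  obtain ⟨ls1, ls2⟩ := h.σ1 (σ := I.σ α) (by positivity) hσ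
  have hκU : p.κ * (U + 1) ≤ 1 / 1024 := by
    have := h.hκ1; have := h.lle; linarith
  obtain ⟨a1, a2, a3, a4⟩ := pool_real (n := I.σ α * ((e.2.1:ℕ):ℝ) + (β:ℕ) - row p e) h.δ0 h.hκ0
    ls1 ls2 h.hU h.hM hκU (hI.bF e.2.2.2 α) her rfl
  have hε := h.hε0
  have hδ := h.δ0
  rw [hF]
  set B := p.δ / (1 + p.lam * (I.σ α:ℝ)) * (I.σ α * ((e.2.1:ℕ):ℝ) + (β:ℕ) - row p e +
    p.κ * (I.F α e.2.2.2 + er)) with hB
  have key : (p.ε * B < 0 ↔ B < 0) := by
    constructor
    · intro h1
      by_contra h2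
      push Not at h2
      have := mul_nonneg hε.le h2
      linarith
    · intro h1; exact mul_neg_of_pos_of_neg hε h1
  rw [key]
  rcases lt_trichotomy (I.σ α * (e.2.1:ℕ) + (β:ℕ)) (row p e) with h1 | h1 | h1
  · have h2 : (I.σ α * ((e.2.1:ℕ):ℝ) + (β:ℕ)) + 1 ≤ row p e := by exact_mod_cast h1
    have h3 := a2 (by linarith)
    exact ⟨fun _ => Or.inl h1, fun _ => by linarith⟩
  · have h2 : (I.σ α * ((e.2.1:ℕ):ℝ) + (β:ℕ)) = row p e := by exact_mod_cast h1
    have h3 : I.σ α * ((e.2.1:ℕ):ℝ) + (β:ℕ) - row p e = 0 := by linarith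
    by_cases hab : α = I.a e.2.2.2 ∨ α = I.b e.2.2.2
    · -- the line passes through the event
      have hf : I.F α e.2.2.2 = 0 := by
        rcases hab with h4 | h4
        · rw [h4]; exact I.Fa _
        · rw [h4]; exact hI.tie _
      have hβ : β = ⟨row p e - I.σ α * (e.2.1:ℕ), lt_of_le_of_lt (Nat.sub_le _ _) (row_lt p e)⟩ := by
        rw [Fin.ext_iff]; simp only []; omega
      have h5 : (comp O I p K).F (O.a e.1, Sum.inr (Sum.inr ((O.slot e.1, false), (α, β)))) e = 0 := by
        rw [hβ]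
        rcases hab with h4 | h4
        · subst h4
          exact (comp O I p K).Fa e
        · subst h4
          exact cb_zero hO hI h e
      rw [h5] at hF
      have h6 : B = 0 := by
        rcases mul_eq_zero.mp hF.symm with h7 | h7
        · exact absurd h7 hε.ne'
        · exact h7
      rw [h6, hf]
      simp [h1]
    · push Not at hab
      have h4 := hI.mg e.2.2.2 α hab.1 hab.2
      obtain ⟨b1, b2⟩ := a4 h3 h4
      rw [b2]
      constructor
      · intro h5; exact Or.inr ⟨h1, h5⟩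
      · rintro (h5 | ⟨-, h5⟩)
        · omega
        · exact h5
  · have h2 : (row p e : ℝ) + 1 ≤ (I.σ α * ((e.2.1:ℕ):ℝ) + (β:ℕ)) := by exact_mod_cast h1
    have h3 := a1 (by linarith)
    constructor
    · intro h4; linarith
    · rintro (h4 | ⟨h4, -⟩) <;> omega

open scoped Classical in
theorem level_comp (hK : K.card = k₂) :
    ∑ l, (if (comp O I p K).F l e < 0 then 1 else 0) =
      2 * p.Nx * (Fintype.card G * p.V) * (k₁ + 1) + (Fintype.card G * p.V) * K₁ := by
  set Q := Fintype.card G * p.V with hQ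
  have hcardPool : Fintype.card (G × Fin p.V) = Q := by simp [hQ]
  have hab : O.a e.1 ≠ O.b e.1 := by
    intro h1
    have h2 := Dpos hO h e.1
    unfold Out.D at h2
    rw [h1] at h2; simp at h2
  have hFa := O.Fa e.1
  have hFb := hO.tie e.1
  have hpool := pool_count (K := K) hI hK e
  set Tp := ∑ z : G × Fin p.V, (if (row p e < I.σ z.1 * (e.2.1:ℕ) + (z.2:ℕ) ∨
        (I.σ z.1 * (e.2.1:ℕ) + (z.2:ℕ) = row p e ∧ ¬ z.1 ∈ K)) then 1 else 0) with hTp
  set Sp := ∑ z : G × Fin p.V, (if (I.σ z.1 * (e.2.1:ℕ) + (z.2:ℕ) < row p e ∨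
        (I.σ z.1 * (e.2.1:ℕ) + (z.2:ℕ) = row p e ∧ I.F z.1 e.2.2.2 < 0)) then 1 else 0) with hSp
  -- T lines
  have hT : ∀ l : A, ∑ x : Fin p.Nx × (G × Fin p.V),
      (if (comp O I p K).F (l, Sum.inl x) e < 0 then 1 else 0) =
      p.Nx * Q * (if O.F l e.1 < 0 then 1 else 0) +
      (if l = O.a e.1 then Q * (p.Nx - 1 - (e.2.1:ℕ)) + Tp else 0) +
      (if l = O.b e.1 then p.Nx * Q else 0) := by
    intro l
    by_cases hla : l = O.a e.1
    · subst hla
      rw [hFa, if_neg (lt_irrefl _), if_pos rfl, if_neg hab, mul_zero, zero_add, add_zero,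
        Fintype.sum_prod_type]
      have h1 : ∀ i' : Fin p.Nx, ∑ z : G × Fin p.V,
          (if (comp O I p K).F (O.a e.1, Sum.inl (i', z)) e < 0 then 1 else 0) =
          (if (e.2.1:ℕ) < (i':ℕ) then Q else 0) + (if i' = e.2.1 then Tp else 0) := by
        intro i'
        by_cases hi : i' = e.2.1
        · subst hi
          rw [if_neg (lt_irrefl _), if_pos rfl, zero_add, hTp]
          apply Finset.sum_congr rfl
          rintro ⟨α, β⟩ -
          have := (at_Ta hO hI h c e.2.1 α β).1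
          simp only [this]
          simp
        · have hi' : (i':ℕ) ≠ (e.2.1:ℕ) := fun h2 => hi (Fin.ext h2)
          rw [if_neg hi, add_zero]
          have h3 : ∀ z : G × Fin p.V, ((comp O I p K).F (O.a e.1, Sum.inl (i', z)) e < 0 ↔
              (e.2.1:ℕ) < (i':ℕ)) := by
            rintro ⟨α, β⟩
            rw [(at_Ta hO hI h c i' α β).1]
            simp [hi']
          simp only [h3]
          rw [sum_const_ite, hcardPool]
          split_ifs <;> simp
      rw [Finset.sum_congr rfl (fun i' _ => h1 i'), Finset.sum_add_distrib,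
        Finset.sum_ite_eq' Finset.univ e.2.1]
      simp only [Finset.mem_univ, if_true]
      congr 1
      rw [← Finset.sum_filter, Finset.sum_const, smul_eq_mul, mul_comm]
      congr 1
      have h5 : (Finset.univ.filter (fun i' : Fin p.Nx => (e.2.1:ℕ) < (i':ℕ))) =
          Finset.Ioi e.2.1 := by
        ext x
        simp only [Finset.mem_filter, Finset.mem_univ, true_and, Finset.mem_Ioi]
        exact Iff.rfl
      rw [h5, Fin.card_Ioi]
    · by_cases hlb : l = O.b e.1
      · subst hlb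
        rw [hFb, if_neg (lt_irrefl _), if_neg hla, if_pos rfl, mul_zero, zero_add, zero_add]
        have h3 : ∀ x : Fin p.Nx × (G × Fin p.V),
            (comp O I p K).F (O.b e.1, Sum.inl x) e < 0 := by
          rintro ⟨i', α, β⟩; exact (at_Tb hO hI h c i' α β).1
        simp only [h3, if_true, Finset.sum_const, Finset.card_univ, Fintype.card_prod,
          Fintype.card_fin, smul_eq_mul, mul_one]
        rw [hQ]
      · rw [if_neg hla, if_neg hlb, add_zero, add_zero]
        have h3 : ∀ x : Fin p.Nx × (G × Fin p.V),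
            ((comp O I p K).F (l, Sum.inl x) e < 0 ↔ O.F l e.1 < 0) := by
          rintro ⟨i', α, β⟩; exact (off_T hO hI h c hla hlb i' α β).1
        simp only [h3]
        rw [sum_const_ite]
        simp only [Fintype.card_prod, Fintype.card_fin]
        rw [hQ]
  -- W lines
  have hW : ∀ l : A, ∑ x : Fin p.Nx × (G × Fin p.V),
      (if (comp O I p K).F (l, Sum.inr (Sum.inl x)) e < 0 then 1 else 0) =
      p.Nx * Q * (if O.F l e.1 < 0 then 1 else 0) +
      (if l = O.b e.1 then Q * (e.2.1:ℕ) else 0) := by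
    intro l
    by_cases hla : l = O.a e.1
    · subst hla
      rw [hFa, if_neg (lt_irrefl _), if_neg hab, mul_zero, zero_add]
      apply Finset.sum_eq_zero
      rintro ⟨w, z⟩ _
      rw [if_neg (at_Wa hO hI h c w z).1]
    · by_cases hlb : l = O.b e.1
      · subst hlb
        rw [hFb, if_neg (lt_irrefl _), if_pos rfl, mul_zero, zero_add, Fintype.sum_prod_type]
        have h3 : ∀ (w : Fin p.Nx) (z : G × Fin p.V),
            ((comp O I p K).F (O.b e.1, Sum.inr (Sum.inl (w, z))) e < 0 ↔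
            (w:ℕ) < (e.2.1:ℕ)) := fun w z => (at_Wb hO hI h c w z).1
        simp only [h3]
        have h4 : ∀ w : Fin p.Nx, ∑ _z : G × Fin p.V,
            (if (w:ℕ) < (e.2.1:ℕ) then 1 else 0) =
            Q * (if (w:ℕ) < (e.2.1:ℕ) then 1 else 0) := by
          intro w; rw [sum_const_ite, hcardPool]
        rw [Finset.sum_congr rfl (fun w _ => h4 w), ← Finset.mul_sum]
        congr 1
        rw [← Finset.card_filter]
        have h5 : (Finset.univ.filter (fun w : Fin p.Nx => (w:ℕ) < (e.2.1:ℕ))) =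
            Finset.Iio e.2.1 := by
          ext x
          simp only [Finset.mem_filter, Finset.mem_univ, true_and, Finset.mem_Iio]
          exact Iff.rfl
        rw [h5, Fin.card_Iio]
      · rw [if_neg hlb, add_zero]
        have h3 : ∀ x : Fin p.Nx × (G × Fin p.V),
            ((comp O I p K).F (l, Sum.inr (Sum.inl x)) e < 0 ↔ O.F l e.1 < 0) := by
          rintro ⟨w, z⟩; exact (off_W hO hI h c hla hlb w z).1
        simp only [h3]
        rw [sum_const_ite]
        simp only [Fintype.card_prod, Fintype.card_fin]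
        rw [hQ]
  -- slot lines
  have hS : ∀ l : A, ∑ x : (H × Bool) × (G × Fin p.V),
      (if (comp O I p K).F (l, Sum.inr (Sum.inr x)) e < 0 then 1 else 0) =
      Q * (∑ g, (if l = O.a e.1 ∧ g = O.slot e.1 then 0 else O.pr p.φ l g e.1)) +
      (if l = O.a e.1 then Sp else 0) := by
    intro l
    rw [Fintype.sum_prod_type, Fintype.sum_prod_type]
    have h1 : ∀ g : H, ∑ b : Bool, ∑ z : G × Fin p.V,
        (if (comp O I p K).F (l, Sum.inr (Sum.inr ((g, b), z))) e < 0 then 1 else 0) =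
        Q * (if l = O.a e.1 ∧ g = O.slot e.1 then 0 else O.pr p.φ l g e.1) +
        (if l = O.a e.1 ∧ g = O.slot e.1 then Sp else 0) := by
      intro g
      by_cases hg : l = O.a e.1 ∧ g = O.slot e.1
      · obtain ⟨rfl, rfl⟩ := hg
        rw [if_pos ⟨rfl, rfl⟩, if_pos ⟨rfl, rfl⟩, mul_zero, zero_add, Fintype.sum_bool]
        have h3 : ∑ z : G × Fin p.V, (if (comp O I p K).F
            (O.a e.1, Sum.inr (Sum.inr ((O.slot e.1, true), z))) e < 0 then 1 else 0) = 0 := by
          apply Finset.sum_eq_zero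
          rintro ⟨α, β⟩ _
          rw [if_neg (at_Sm hO hI h c α β).1]
        rw [h3, zero_add, hSp]
        apply Finset.sum_congr rfl
        rintro ⟨α, β⟩ -
        simp only [pool_sign hO hI h c α β]
      · rw [if_neg hg, if_neg hg, add_zero, Fintype.sum_bool]
        have h3 : ∀ (b : Bool) (z : G × Fin p.V),
            ((comp O I p K).F (l, Sum.inr (Sum.inr ((g, b), z))) e < 0 ↔
              O.F l e.1 - sg b * (p.φ * (O.d l g * (O.X e.1 - O.xs l g))) < 0) := by
          rintro b ⟨α, β⟩; exact (off_S hO hI h c hg b α β).1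
        simp only [h3]
        rw [sum_const_ite, sum_const_ite, hcardPool]
        unfold Out.pr
        simp only [sg, if_true, Bool.false_eq_true, if_false, one_mul, neg_mul, sub_neg_eq_add]
        ring
    rw [Finset.sum_congr rfl (fun g _ => h1 g), Finset.sum_add_distrib, ← Finset.mul_sum]
    congr 1
    by_cases hla : l = O.a e.1
    · subst hla
      simp
    · simp [hla]
  rw [Fintype.sum_prod_type]
  have hl : ∀ l : A, ∑ x : (Fin p.Nx × (G × Fin p.V)) ⊕ ((Fin p.Nx × (G × Fin p.V)) ⊕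
      ((H × Bool) × (G × Fin p.V))), (if (comp O I p K).F (l, x) e < 0 then 1 else 0) =
      2 * p.Nx * Q * (if O.F l e.1 < 0 then 1 else 0) +
      (if l = O.a e.1 then Q * (p.Nx - 1 - (e.2.1:ℕ)) + Tp + Sp else 0) +
      (if l = O.b e.1 then p.Nx * Q + Q * (e.2.1:ℕ) else 0) +
      Q * (∑ g, (if l = O.a e.1 ∧ g = O.slot e.1 then 0 else O.pr p.φ l g e.1)) := by
    intro l
    rw [Fintype.sum_sum_type, Fintype.sum_sum_type, hT l, hW l, hS l]
    by_cases hla : l = O.a e.1
    · by_cases hlb : l = O.b e.1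
      · simp only [if_pos hla, if_pos hlb]; ring
      · simp only [if_pos hla, if_neg hlb]; ring
    · by_cases hlb : l = O.b e.1
      · simp only [if_neg hla, if_pos hlb]; ring
      · simp only [if_neg hla, if_neg hlb]; ring
  rw [Finset.sum_congr rfl (fun l _ => hl l), Finset.sum_add_distrib, Finset.sum_add_distrib,
    Finset.sum_add_distrib, ← Finset.mul_sum, ← Finset.mul_sum, Finset.sum_ite_eq',
    Finset.sum_ite_eq', hO.level e.1, hO.slots e.1]
  simp only [Finset.mem_univ, if_true]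
  obtain ⟨d, hd⟩ : ∃ d, p.Nx = (e.2.1:ℕ) + 1 + d := ⟨p.Nx - ((e.2.1:ℕ) + 1), by
    have := e.2.1.2; omega⟩
  have hd2 : p.Nx - 1 - (e.2.1:ℕ) = d := by omega
  rw [hd2]
  have h2 : 2 * p.Nx * Q = Q * d + (Tp + Sp) + (p.Nx * Q + Q * (e.2.1:ℕ)) := by
    rw [hpool]
    have h4 : p.Nx * Q = Q * d + Q + Q * (e.2.1:ℕ) := by
      calc p.Nx * Q = ((e.2.1:ℕ) + 1 + d) * Q := congrArg (· * Q) hd
        _ = _ := by ring
    have h5 : 2 * p.Nx * Q = 2 * (p.Nx * Q) := by ring
    have h6 : Fintype.card G * p.V = Q := rfl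
    rw [h5, h6]
    omega
  have h3 : 2 * p.Nx * Q * (k₁ + 1) = 2 * p.Nx * Q * k₁ + 2 * p.Nx * Q := by ring
  rw [h3]
  omega

end

end Pool.Agent.N35.HL
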