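import Pool.Agent.N35.HL.Count

/-!
# Margins of a composition
-/

set_option linter.unusedSectionVars false
set_option linter.unusedVariables false
set_option maxHeartbeats 1000000

namespace Pool.Agent.N35.HL

open Finset

section

variable {A R H G R₂ H₂ : Type} [Fintype A] [Fintype H] [Fintype G] [Fintype H₂]
  {O : Out A R H} {I : Inn G R₂ H₂} {p : Prm} {K : Finset G}
  {k₁ K₁ k₂ Rd₀ : ℕ} {φ' q Dl U M L : ℝ}
  (hO : O.Good k₁ K₁ p.φ q Dl L Rd₀) (hI : I.Good k₂ p.Rz p.Δ U M) (h : p.OK φ' q Dl U M)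

include hO hI h

variable {e : Ev' R R₂ p.Nx p.V₁} {P W : ℝ} (c : Pos O I p K M e P W)

include c

/-- heights of pool lines not through the event -/
lemma pool_big (α : G) (β : Fin p.V)
    (ha : ((O.a e.1, Sum.inr (Sum.inr ((O.slot e.1, false), (α, β)))) : Idx A G H p.Nx p.V) ≠
      ca O I p e)
    (hb : ((O.a e.1, Sum.inr (Sum.inr ((O.slot e.1, false), (α, β)))) : Idx A G H p.Nx p.V) ≠
      cb O I p e) :
    4 / 5 * (p.ε * (p.δ * (p.κ / M))) ≤
      |(comp O I p K).F (O.a e.1, Sum.inr (Sum.inr ((O.slot e.1, false), (α, β)))) e| := by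
  have hδ := h.δ0
  have hε := h.hε0
  have hκ := h.hκ0
  have hM1 := h.hM
  have hM : 0 < M := by linarith [h.hM]
  by_cases hn : I.σ α * (e.2.1:ℕ) + (β:ℕ) = row p e
  · have hα1 : α ≠ I.a e.2.2.2 := by
      rintro rfl
      exact ha (eq_pl hn)
    have hα2 : α ≠ I.b e.2.2.2 := by
      rintro rfl
      exact hb (eq_pl hn)
    obtain ⟨er, her, hF⟩ := pool hO hI h c α β
    have hσ : (I.σ α:ℝ) ≤ p.Rz := by exact_mod_cast hI.hσ α
    obtain ⟨ls1, ls2⟩ := h.σ1 (σ := I.σ α) (by positivity) hσ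
    have hκU : p.κ * (U + 1) ≤ 1 / 1024 := by
      have := h.hκ1; have := h.lle; linarith
    obtain ⟨a1, a2, a3, a4⟩ := pool_real (n := I.σ α * ((e.2.1:ℕ):ℝ) + (β:ℕ) - row p e) h.δ0
      h.hκ0 ls1 ls2 h.hU h.hM hκU (hI.bF e.2.2.2 α) her rfl
    have hr : (I.σ α : ℝ) * (e.2.1:ℕ) + (β:ℕ) = row p e := by exact_mod_cast hn
    have hn0 : I.σ α * ((e.2.1:ℕ):ℝ) + (β:ℕ) - row p e = 0 := by linarith
    have hmg := hI.mg e.2.2.2 α hα1 hα2
    obtain ⟨b2, -⟩ := a4 hn0 hmg
    rw [hF, abs_mul, abs_of_pos hε]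
    have h1 : p.κ / M ≤ p.κ * |I.F α e.2.2.2| := by
      rw [div_le_iff₀ hM]
      have := mul_le_mul_of_nonneg_left hmg hκ.le
      linarith
    have h2 : 4 / 5 * (p.δ * (p.κ / M)) ≤ 4 / 5 * (p.δ * (p.κ * |I.F α e.2.2.2|)) := by
      have := mul_le_mul_of_nonneg_left h1 hδ.le
      linarith
    have h3 := mul_le_mul_of_nonneg_left (h2.trans b2) hε.le
    linarith
  · have x0 : 0 < p.κ := hκ
    have h1 : p.κ / M ≤ 1 / 2048 := by
      have h1 : p.κ / M ≤ p.κ := div_le_self hκ.le hM1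
      have := h.κle; have := h.lle; linarith
    -- reuse the lower bound of `ownpool_ne` without slots
    obtain ⟨er, her, hF⟩ := pool hO hI h c α β
    have hσ : (I.σ α:ℝ) ≤ p.Rz := by exact_mod_cast hI.hσ α
    obtain ⟨ls1, ls2⟩ := h.σ1 (σ := I.σ α) (by positivity) hσ
    have hκU : p.κ * (U + 1) ≤ 1 / 1024 := by
      have := h.hκ1; have := h.lle; linarith
    obtain ⟨a1, a2, a3, a4⟩ := pool_real (n := I.σ α * ((e.2.1:ℕ):ℝ) + (β:ℕ) - row p e) h.δ0
      h.hκ0 ls1 ls2 h.hU h.hM hκU (hI.bF e.2.2.2 α) her rfl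
    rw [hF, abs_mul, abs_of_pos hε]
    have h2 : 4 / 5 * (p.δ * (p.κ / M)) ≤ p.δ / 2 := by
      have := mul_le_mul_of_nonneg_left h1 hδ.le
      linarith
    have h3 : p.δ / 2 ≤ |p.δ / (1 + p.lam * (I.σ α:ℝ)) * (I.σ α * ((e.2.1:ℕ):ℝ) + (β:ℕ) -
        row p e + p.κ * (I.F α e.2.2.2 + er))| := by
      rcases lt_or_gt_of_ne hn with h1 | h1
      · have h2 : (I.σ α * ((e.2.1:ℕ):ℝ) + (β:ℕ)) + 1 ≤ row p e := by exact_mod_cast h1
        have h3 := a2 (by linarith)
        rw [abs_of_neg (by linarith)]; linarith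
      · have h2 : (row p e : ℝ) + 1 ≤ (I.σ α * ((e.2.1:ℕ):ℝ) + (β:ℕ)) := by exact_mod_cast h1
        have h3 := a1 (by linarith)
        rw [abs_of_pos (by linarith)]; linarith
    have h4 := mul_le_mul_of_nonneg_left (h2.trans h3) hε.le
    linarith

/-- the margins of the composition -/
theorem marg (l : Idx A G H p.Nx p.V) (ha : l ≠ ca O I p e) (hb : l ≠ cb O I p e) :
    p.qs M * p.δ / 4 ≤ |(comp O I p K).F l e| ∧
    p.qs M * |cs O I p l - cs O I p (ca O I p e)| ≤ |(comp O I p K).F l e| * O.D e.1 := by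
  have hD := Dpos hO h e.1
  have hδ := h.δ0
  have hε := h.hε0
  have hφ := h.hφ0
  have hφ1 := h.φle
  have hκ := h.hκ0
  have hκle := h.κle
  have hlle := h.lle
  have hl := h.hl0
  have hδφ := h.δφ
  have hM1 := h.hM
  have hM : 0 < M := by linarith [h.hM]
  have hq1 := h.qs1
  have hq2 := h.qs2
  have hq0 := h.qs0
  have hφq : 0 < p.φ * q := mul_pos h.hφ0 h.hq
  have hδ1 : p.δ ≤ 1 / 512 := by
    have : p.φ * p.lam ≤ 1 / 16 * (1 / 16) := mul_le_mul hφ1 hlle hl.le (by norm_num)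
    linarith
  have hqε : p.qs M ≤ p.ε / 8192 := by
    have : p.ε * p.κ ≤ p.ε * (1 / 2048) := mul_le_mul_of_nonneg_left (by linarith) hε.le
    linarith
  obtain ⟨t1, t2⟩ := tp_bd hO hI h e.1 (I.a e.2.2.2)
  -- a generic conclusion for far lines
  have far : ∀ F' s : ℝ, 7 / 32 * (p.φ * q) ≤ |F'| → p.φ * q / 64 * |s| ≤ |F'| * O.D e.1 →
      p.qs M * p.δ / 4 ≤ |F'| ∧ p.qs M * |s| ≤ |F'| * O.D e.1 := by
    intro F' s h1 h2
    constructor
    · have : p.qs M * p.δ ≤ p.φ * q / 64 * 1 :=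
        mul_le_mul hq2 (by linarith) hδ.le (by positivity)
      linarith
    · exact le_trans (mul_le_mul_of_nonneg_right hq2 (abs_nonneg _)) h2
  -- a generic conclusion for near lines
  have near : ∀ F' s : ℝ, p.ε / 8 ≤ |F'| → |s| ≤ O.D e.1 →
      p.qs M * p.δ / 4 ≤ |F'| ∧ p.qs M * |s| ≤ |F'| * O.D e.1 := by
    intro F' s h1 h2
    constructor
    · have : p.qs M * p.δ ≤ p.ε / 8192 * 1 :=
        mul_le_mul hqε (by linarith) hδ.le (by positivity)
      linarith
    · exact mul_le_mul (by linarith) h2 (abs_nonneg _) (abs_nonneg _)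
  have htD : tp O I p e.1 (I.a e.2.2.2) * O.D e.1 ≤ 2 * p.φ * O.D e.1 :=
    mul_le_mul_of_nonneg_right t2 hD.le
  have htD0 : 0 ≤ tp O I p e.1 (I.a e.2.2.2) * O.D e.1 := mul_nonneg t1 hD.le
  have hφD : 4 * p.φ * O.D e.1 ≤ O.D e.1 := by nlinarith
  obtain ⟨l, ⟨i, α, β⟩ | ⟨w, z⟩ | ⟨⟨g, b⟩, ⟨α, β⟩⟩⟩ := l
  · by_cases hla : l = O.a e.1
    · subst hla
      obtain ⟨-, o2⟩ := at_Ta hO hI h c i α β
      constructor
      · have : p.qs M * p.δ ≤ p.ε * p.δ := mul_le_mul_of_nonneg_right (by linarith) hδ.le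
        linarith
      · rw [cs_ca hO h]
        simp only [cs]
        have e1 : O.s (O.a e.1) - (O.s (O.a e.1) - tp O I p e.1 (I.a e.2.2.2) * O.D e.1) =
          tp O I p e.1 (I.a e.2.2.2) * O.D e.1 := by ring
        rw [e1, abs_of_nonneg htD0]
        have h1 : p.qs M * (tp O I p e.1 (I.a e.2.2.2) * O.D e.1) ≤
            (p.ε * p.κ / 4) * (2 * p.φ * O.D e.1) :=
          mul_le_mul hq1 htD htD0 (by positivity)
        have h2 : p.ε * (p.δ / 4) * O.D e.1 ≤
          |(comp O I p K).F (O.a e.1, Sum.inl (i, (α, β))) e| * O.D e.1 :=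
          mul_le_mul_of_nonneg_right o2 hD.le
        refine h1.trans (le_trans ?_ h2)
        have h3 : p.φ * p.κ ≤ p.φ * (p.lam / 128) := mul_le_mul_of_nonneg_left hκle hφ.le
        have h4 : p.φ * p.κ ≤ p.δ / 64 := by linarith
        have h5 : p.ε * O.D e.1 * (p.φ * p.κ) ≤ p.ε * O.D e.1 * (p.δ / 64) :=
          mul_le_mul_of_nonneg_left h4 (by positivity)
        have h6 : 0 < p.ε * O.D e.1 * p.δ := by positivity
        linarith
    · by_cases hlb : l = O.b e.1
      · subst hlb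
        obtain ⟨-, o2⟩ := at_Tb hO hI h c i α β
        apply near _ _ o2
        rw [cs_ca hO h]
        simp only [cs]
        have e1 : O.s (O.b e.1) - (O.s (O.a e.1) - tp O I p e.1 (I.a e.2.2.2) * O.D e.1) =
          tp O I p e.1 (I.a e.2.2.2) * O.D e.1 - O.D e.1 := by unfold Out.D; ring
        rw [e1, abs_le]
        constructor <;> linarith
      · obtain ⟨-, o2, o3⟩ := off_T hO hI h c hla hlb i α β
        exact far _ _ o2 o3
  · by_cases hla : l = O.a e.1
    · subst hla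
      obtain ⟨-, o2⟩ := at_Wa hO hI h c w z
      apply near _ _ o2
      rw [cs_ca hO h]
      simp only [cs]
      have e1 : O.s (O.a e.1) - (O.s (O.a e.1) - tp O I p e.1 (I.a e.2.2.2) * O.D e.1) =
          tp O I p e.1 (I.a e.2.2.2) * O.D e.1 := by ring
      rw [e1, abs_of_nonneg htD0]
      linarith
    · by_cases hlb : l = O.b e.1
      · subst hlb
        obtain ⟨-, o2⟩ := at_Wb hO hI h c w z
        apply near _ _ o2
        rw [cs_ca hO h]
        simp only [cs]
        have e1 : O.s (O.b e.1) - (O.s (O.a e.1) - tp O I p e.1 (I.a e.2.2.2) * O.D e.1) =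
          tp O I p e.1 (I.a e.2.2.2) * O.D e.1 - O.D e.1 := by unfold Out.D; ring
        rw [e1, abs_le]
        constructor <;> linarith
      · obtain ⟨-, o2, o3⟩ := off_W hO hI h c hla hlb w z
        exact far _ _ o2 o3
  · by_cases hne : l = O.a e.1 ∧ g = O.slot e.1
    · obtain ⟨rfl, rfl⟩ := hne
      cases b
      · have o1 := pool_big hO hI h c α β ha hb
        have hRz := h.Rz1
        have hqs : p.qs M ≤ p.ε * (p.κ / M) / 4 / p.Rz := by
          unfold Prm.qs
          apply le_of_eq; field_simp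
        have hqs' : p.qs M ≤ p.ε * (p.κ / M) / 4 := by
          refine hqs.trans (div_le_self ?_ hRz)
          positivity
        constructor
        · have : p.qs M * p.δ ≤ p.ε * (p.κ / M) / 4 * p.δ := mul_le_mul_of_nonneg_right hqs' hδ.le
          have : 0 < p.ε * (p.κ / M) * p.δ := by positivity
          linarith
        · rw [cs_ca hO h]
          simp only [cs]
          rw [rho_own hO h]
          simp only [sg, Bool.false_eq_true, if_false]
          have e1 : O.s (O.a e.1) - 1 * (tp O I p e.1 α * O.D e.1) - (O.s (O.a e.1) -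
            tp O I p e.1 (I.a e.2.2.2) * O.D e.1) =
            (tp O I p e.1 (I.a e.2.2.2) - tp O I p e.1 α) * O.D e.1 := by ring
          rw [e1, abs_mul, abs_of_pos hD, ← mul_assoc]
          apply mul_le_mul_of_nonneg_right _ hD.le
          refine le_trans ?_ o1
          have h1 := tp_err (I := I) hO h e.1 (I.a e.2.2.2)
          have h2 := tp_err (I := I) hO h e.1 α
          have h3 := h.psi_diff_le I α (I.a e.2.2.2) (hI.hσ _) (hI.hσ _)
          have h4 : |(I.σ α : ℝ) - I.σ (I.a e.2.2.2)| ≤ p.Rz := by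
            have a1 : (I.σ α:ℝ) ≤ p.Rz := by exact_mod_cast hI.hσ α
            have a2 : (I.σ (I.a e.2.2.2):ℝ) ≤ p.Rz := by exact_mod_cast hI.hσ _
            have a3 : (0:ℝ) ≤ I.σ α := by positivity
            have a4 : (0:ℝ) ≤ I.σ (I.a e.2.2.2) := by positivity
            rw [abs_le]; constructor <;> linarith
          have h5 : 1 / (2 * ((p.Rd:ℝ) * Dl)) * 1200 ≤ p.δ := by
            have h7 := h.eta
            set z := 1 / (2 * ((p.Rd:ℝ) * Dl)) with hz
            have hz0 : 0 ≤ z := (abs_nonneg _).trans h1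
            have h8 : (1:ℝ) ≤ M * p.Rz := by nlinarith [h.hM, h.Rz1]
            have h9 : (3:ℝ) ≤ M * p.Rz * (p.Nx + 2) := by nlinarith [h.Nx1]
            have h10 : z * 1200 ≤ z * (400 * (M * p.Rz * (p.Nx + 2))) :=
              mul_le_mul_of_nonneg_left (by linarith) hz0
            have h11 : p.δ * p.κ ≤ p.δ * 1 := by
              apply mul_le_mul_of_nonneg_left _ hδ.le
              linarith
            linarith
          have h6 : |tp O I p e.1 (I.a e.2.2.2) - tp O I p e.1 α| ≤ 2 * (p.δ * p.Rz) := by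
            have a1 := abs_le.mp h1
            have a2 := abs_le.mp h2
            have a3 := abs_le.mp (h3.trans (mul_le_mul_of_nonneg_left h4 hδ.le))
            have a4 : p.δ * 1 ≤ p.δ * p.Rz := mul_le_mul_of_nonneg_left hRz hδ.le
            rw [abs_le]; constructor <;> linarith [a1.1, a1.2, a2.1, a2.2, a3.1, a3.2]
          have h7 : p.qs M * |tp O I p e.1 (I.a e.2.2.2) - tp O I p e.1 α| ≤
              (p.ε * (p.κ / M) / 4 / p.Rz) * (2 * (p.δ * p.Rz)) :=
            mul_le_mul hqs h6 (abs_nonneg _) (by positivity)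
          have h8 : (p.ε * (p.κ / M) / 4 / p.Rz) * (2 * (p.δ * p.Rz)) =
            p.ε * (p.κ / M) * p.δ / 2 := by field_simp; ring
          have h9 : 0 < p.ε * (p.κ / M) * p.δ := by positivity
          linarith
      · obtain ⟨-, o2, o3⟩ := at_Sm hO hI h c α β
        exact near _ _ o2 (o3.trans hφD)
    · obtain ⟨-, -, -, o4, o5⟩ := off_S hO hI h c hne b α β
      exact far _ _ o4 o5

end

section

variable {A R H G R₂ H₂ : Type} [Fintype A] [Fintype H] [Fintype G] [Fintype H₂]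
  {O : Out A R H} {I : Inn G R₂ H₂} {p : Prm} {K : Finset G}
  {k₁ K₁ k₂ Rd₀ : ℕ} {φ' q Dl U M L : ℝ}
  (hO : O.Good k₁ K₁ p.φ q Dl L Rd₀) (hI : I.Good k₂ p.Rz p.Δ U M) (h : p.OK φ' q Dl U M)

include hO hI h

/-- events over the same outer event have different times -/
lemma time_sep {e f : Ev' R R₂ p.Nx p.V₁} {P W P' W' : ℝ} (c : Pos O I p K M e P W)
    (c' : Pos O I p K M f P' W') (hef : e ≠ f) (h1 : e.1 = f.1) :
    p.κ / M / 2 ≤ |(P + p.lam * W) - (P' + p.lam * W')| := by
  have hκ := h.hκ0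
  have hκle := h.κle
  have hl := h.hl0
  have hlle := h.lle
  have hRz := h.Rz1
  have hM1 := h.hM
  have hM : 0 < M := by linarith [h.hM]
  have cl := c.cl h hI
  have cl' := c'.cl h hI
  obtain ⟨a1, a2, a3, a4, b1, b2, b3, b4⟩ := cl.bds h
  obtain ⟨c1, c2, c3, c4, c5, c6, c7⟩ := cl.prods h
  obtain ⟨a1', a2', a3', a4', b1', b2', b3', b4'⟩ := cl'.bds h
  obtain ⟨c1', c2', c3', c4', c5', c6', c7'⟩ := cl'.prods h
  have d5 := abs_le.mp c5
  have d5' := abs_le.mp c5'
  have hκM : p.κ / M ≤ p.κ := div_le_self hκ.le hM1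
  have hκM0 : 0 < p.κ / M := by positivity
  have e1 : (P + p.lam * W) - (P' + p.lam * W') = (((e.2.1:ℕ):ℝ) - (f.2.1:ℕ)) +
      (P - (e.2.1:ℕ)) - (P' - (f.2.1:ℕ)) + p.lam * (W - row p e) - p.lam * (W' - row p f) +
      (p.lam * row p e - p.lam * row p f) := by ring
  by_cases hi : (e.2.1:ℕ) = (f.2.1:ℕ)
  · by_cases hj : row p e = row p f
    · have hr : e.2.2.2 ≠ f.2.2.2 := by
        intro h2
        apply hef
        obtain ⟨e₁, i, j, r⟩ := e
        obtain ⟨f₁, i', j', r'⟩ := f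
        simp only [] at h1 h2 hi hj
        subst h1 h2
        have h3 : i = i' := Fin.ext hi
        have h4 : j = j' := by
          unfold row at hj
          simp only [] at hj
          exact Fin.ext (by omega)
        rw [h3, h4]
      have hsep := hI.sep _ _ hr
      set r := e.2.2.2 with hr1
      set r' := f.2.2.2 with hr2
      have hpos : 0 < |I.x r - I.x r'| := by
        by_contra h6
        push Not at h6
        have : M * |I.x r - I.x r'| ≤ 0 := mul_nonpos_of_nonneg_of_nonpos hM.le h6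
        linarith
      have hx : 1 / M ≤ |(I.x r - I.x r') + p.lam * (I.y r - I.y r')| := by
        have h2 : 1 / M ≤ |I.x r - I.x r'| := by rw [div_le_iff₀ hM]; linarith
        refine h2.trans ?_
        rcases lt_trichotomy (I.x r) (I.x r') with h3 | h3 | h3
        · have h4 := hI.mono r r' h3
          have h5 : p.lam * (I.y r - I.y r') ≤ 0 :=
            mul_nonpos_of_nonneg_of_nonpos hl.le (by linarith)
          rw [abs_of_neg (by linarith), abs_of_neg (by linarith)]
          linarith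
        · rw [h3, sub_self, abs_zero] at hpos; exact absurd hpos (lt_irrefl _)
        · have h4 := hI.mono r' r h3
          have h5 : 0 ≤ p.lam * (I.y r - I.y r') := mul_nonneg hl.le (by linarith)
          rw [abs_of_pos (by linarith), abs_of_pos (by linarith)]
          linarith
      have e2 : (P + p.lam * W) - (P' + p.lam * W') =
          p.κ * ((I.x r - I.x r') + p.lam * (I.y r - I.y r')) +
          ((P - ((e.2.1:ℕ) + p.κ * I.x r)) - (P' - ((f.2.1:ℕ) + p.κ * I.x r')) +
          p.lam * (W - (row p e + p.κ * I.y r)) - p.lam * (W' - (row p f + p.κ * I.y r'))) := by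
        rw [hi, hj]; ring
      have h4 : p.κ / (M * p.Rz) ≤ p.κ / M := by
        rw [div_mul_eq_div_div]; exact div_le_self (by positivity) hRz
      have f1 := abs_le.mp c.hP
      have f2 := abs_le.mp c'.hP
      have f3 : |p.lam * (W - (row p e + p.κ * I.y r))| ≤ 1 / 16 * (p.κ / M / 100) := by
        rw [abs_mul, abs_of_pos hl]
        exact mul_le_mul hlle c.hW (abs_nonneg _) (by norm_num)
      have f4 : |p.lam * (W' - (row p f + p.κ * I.y r'))| ≤ 1 / 16 * (p.κ / M / 100) := by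
        rw [abs_mul, abs_of_pos hl]
        exact mul_le_mul hlle c'.hW (abs_nonneg _) (by norm_num)
      have g3 := abs_le.mp f3
      have g4 := abs_le.mp f4
      set E := ((P - ((e.2.1:ℕ) + p.κ * I.x r)) - (P' - ((f.2.1:ℕ) + p.κ * I.x r')) +
          p.lam * (W - (row p e + p.κ * I.y r)) - p.lam * (W' - (row p f + p.κ * I.y r'))) with hE
      have hEb : |E| ≤ p.κ / M / 4 := by
        rw [abs_le, hE]
        constructor <;> linarith [f1.1, f1.2, f2.1, f2.2, g3.1, g3.2, g4.1, g4.2]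
      have hmain : p.κ / M ≤ |p.κ * ((I.x r - I.x r') + p.lam * (I.y r - I.y r'))| := by
        rw [abs_mul, abs_of_pos hκ]
        have := mul_le_mul_of_nonneg_left hx hκ.le
        calc p.κ / M = p.κ * (1 / M) := by ring
          _ ≤ _ := this
      rw [e2]
      have h5 := abs_sub_abs_le_abs_sub (p.κ * ((I.x r - I.x r') + p.lam * (I.y r - I.y r'))) (-E)
      rw [abs_neg, sub_neg_eq_add] at h5
      linarith
    · -- different rows
      have hi' : ((e.2.1:ℕ):ℝ) - (f.2.1:ℕ) = 0 := by rw [hi]; ring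
      rw [e1, hi', zero_add]
      have hs : p.lam * (p.lam / 32) ≤ p.lam * (1 / 512) :=
        mul_le_mul_of_nonneg_left (by linarith) hl.le
      have k1 : |p.lam * (W - row p e)| ≤ p.lam * (p.lam / 32) := by
        rw [abs_mul, abs_of_pos hl]; exact mul_le_mul_of_nonneg_left cl.W1 hl.le
      have k2 : |p.lam * (W' - row p f)| ≤ p.lam * (p.lam / 32) := by
        rw [abs_mul, abs_of_pos hl]; exact mul_le_mul_of_nonneg_left cl'.W1 hl.le
      have k1' := abs_le.mp k1
      have k2' := abs_le.mp k2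
      rcases lt_or_gt_of_ne hj with h2 | h2
      · have h3 : (row p e : ℝ) + 1 ≤ row p f := by exact_mod_cast h2
        have h4 : p.lam * (row p e + 1) ≤ p.lam * row p f := mul_le_mul_of_nonneg_left h3 hl.le
        rw [abs_of_neg (by linarith [k1'.2, k2'.1])]
        linarith [k1'.2, k2'.1]
      · have h3 : (row p f : ℝ) + 1 ≤ row p e := by exact_mod_cast h2
        have h4 : p.lam * (row p f + 1) ≤ p.lam * row p e := mul_le_mul_of_nonneg_left h3 hl.le
        rw [abs_of_pos (by linarith [k1'.1, k2'.2])]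
        linarith [k1'.1, k2'.2]
  · rw [e1]
    rcases lt_or_gt_of_ne hi with h2 | h2
    · have h3 : ((e.2.1:ℕ):ℝ) + 1 ≤ (f.2.1:ℕ) := by exact_mod_cast h2
      rw [abs_of_neg (by linarith [d5.2, d5'.1])]
      linarith [d5.2, d5'.1]
    · have h3 : ((f.2.1:ℕ):ℝ) + 1 ≤ (e.2.1:ℕ) := by exact_mod_cast h2
      rw [abs_of_pos (by linarith [d5.1, d5'.2])]
      linarith [d5.1, d5'.2]

/-- separation of the events of the composition -/
theorem sep_comp {e f : Ev' R R₂ p.Nx p.V₁} (hef : e ≠ f) :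
    p.qs M * p.δ / 4 ≤ (comp O I p K).D e * |(comp O I p K).X e - (comp O I p K).X f| := by
  have hD := Dpos hO h e.1
  have hδ := h.δ0
  have hΔ := h.Δ1
  have hε := h.hε0
  have hκ := h.hκ0
  have hφ := h.hφ0
  have hφ1 := h.φle
  have hM : 0 < M := by linarith [h.hM]
  obtain ⟨P, W, p1, p2, p3, p4⟩ := coord K hO hI h e
  have c : Pos O I p K M e P W := ⟨p1, p2, p3, p4⟩
  obtain ⟨P', W', p1', p2', p3', p4'⟩ := coord K hO hI h f
  have c' : Pos O I p K M f P' W' := ⟨p1', p2', p3', p4'⟩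
  obtain ⟨d1, -⟩ := comp_D hO hI h (K := K) e
  have h2 : p.δ * 1 ≤ p.δ * p.Δ := mul_le_mul_of_nonneg_left hΔ hδ.le
  change _ ≤ (comp O I p K).D e * |cX O I p K e - cX O I p K f|
  by_cases h1 : e.1 = f.1
  · have t := time_sep hO hI h c c' hef h1
    have e1 : cX O I p K e - cX O I p K f =
        p.ε * ((1 + p.φ) * ((P + p.lam * W) - (P' + p.lam * W'))) / O.D e.1 := by
      rw [p1, p1', ← h1]; ring
    rw [e1, abs_div, abs_mul, abs_of_pos hε, abs_of_pos hD, abs_mul,
      abs_of_pos (by positivity : 0 < 1 + p.φ)]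
    set T := |(P + p.lam * W) - (P' + p.lam * W')| with hT
    have h3 : p.ε * (1 * (p.κ / M / 2)) ≤ p.ε * ((1 + p.φ) * T) := by
      apply mul_le_mul_of_nonneg_left _ hε.le
      exact mul_le_mul (by linarith) t (by positivity) (by positivity)
    have h4 : 7 / 10 * (p.δ * p.Δ) * O.D e.1 * (p.ε * ((1 + p.φ) * T) / O.D e.1) ≤
        (comp O I p K).D e * (p.ε * ((1 + p.φ) * T) / O.D e.1) := by
      apply mul_le_mul_of_nonneg_right d1
      have : 0 ≤ T := abs_nonneg _
      positivity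
    refine le_trans ?_ h4
    have h5 : 7 / 10 * (p.δ * p.Δ) * O.D e.1 * (p.ε * ((1 + p.φ) * T) / O.D e.1) =
      7 / 10 * (p.δ * p.Δ) * (p.ε * ((1 + p.φ) * T)) := by field_simp
    rw [h5]
    have h6 : 7 / 10 * p.δ * (p.ε * (1 * (p.κ / M / 2))) ≤
        7 / 10 * (p.δ * p.Δ) * (p.ε * ((1 + p.φ) * T)) :=
      mul_le_mul (by linarith) h3 (by positivity) (by positivity)
    refine le_trans ?_ h6
    have hqs : p.qs M ≤ p.ε * (p.κ / M) / 4 := by
      have hRz := h.Rz1
      unfold Prm.qs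
      have e1 : p.ε * p.κ / (4 * M * p.Rz) = p.ε * (p.κ / M) / 4 / p.Rz := by field_simp
      rw [e1]
      exact div_le_self (by positivity) hRz
    have h7 : p.qs M * p.δ ≤ (p.ε * (p.κ / M) / 4) * p.δ := mul_le_mul_of_nonneg_right hqs hδ.le
    have h8 : 0 < p.ε * (p.κ / M) * p.δ := by positivity
    linarith
  · have hne : f.1 ≠ e.1 := fun h3 => h1 h3.symm
    obtain ⟨u1, -⟩ := (c'.cl h hI).uv h
    have hu' : |(1 / 2 + (1 + p.φ) * (P' + p.lam * W'))| ≤ p.Nx + 2 := by linarith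
    obtain ⟨-, f2⟩ := far_dist hO hI h c hne hu'
    rw [← p1'] at f2
    have w1 := hO.w e.1 f.1 h1
    set dx := |O.X e.1 - O.X f.1| with hdx
    have hdx0 : 0 ≤ dx := abs_nonneg _
    have h3 : 7 / 10 * (p.δ * p.Δ) * O.D e.1 * (99 / 100 * dx) ≤
        (comp O I p K).D e * |cX O I p K e - cX O I p K f| :=
      mul_le_mul d1 f2 (by positivity) (le_trans (by positivity) d1)
    refine le_trans ?_ h3
    have h4 : 7 / 10 * (p.δ * p.Δ) * O.D e.1 * (99 / 100 * dx) =
      693 / 1000 * (p.δ * p.Δ) * (O.D e.1 * dx) := by ring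
    rw [h4]
    have hq := h.hq
    have h5 : 693 / 1000 * p.δ * q ≤ 693 / 1000 * (p.δ * p.Δ) * (O.D e.1 * dx) :=
      mul_le_mul (by linarith) w1 hq.le (by positivity)
    refine le_trans ?_ h5
    have h6 := h.qs2
    have h7 : p.φ * q ≤ 1 / 16 * q := mul_le_mul_of_nonneg_right hφ1 hq.le
    have h8 : p.qs M * p.δ ≤ q * p.δ := mul_le_mul_of_nonneg_right (by linarith) hδ.le
    have h9 : 0 < q * p.δ := by positivity
    linarith

end

end Pool.Agent.N35.HL
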