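import Pool.Agent.N35.HL.Real

/-!
# Real estimates for the lines near the events
-/

set_option linter.unusedSectionVars false
set_option linter.unusedVariables false
set_option maxHeartbeats 1000000

namespace Pool.Agent.N35.HL

/-- closeness of the coordinates to the lattice point `(i, j)` -/
structure Cl (p : Prm) (P W : ℝ) (i j : ℕ) : Prop where
  P1 : |P - i| ≤ p.lam / 32
  W1 : |W - j| ≤ p.lam / 32
  hi : i < p.Nx
  hj : p.Rz * p.Nx ≤ j
  hj2 : j < p.V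

section

variable {p : Prm} {φ' q Dl U M : ℝ} (h : p.OK φ' q Dl U M)

include h

lemma Prm.OK.δV : p.δ * (p.Rz * p.Nx + p.V + 1) ≤ p.φ / 16 := by
  have h1 := h.hl1
  have h2 := mul_le_mul_of_nonneg_left h1 h.hφ0.le
  unfold Prm.δ
  linarith

variable {P W : ℝ} {i j : ℕ} (c : Cl p P W i j)

include c

lemma Cl.bds : (0:ℝ) ≤ i ∧ (i:ℝ) + 1 ≤ p.Nx ∧ (0:ℝ) ≤ j ∧ (j:ℝ) + 1 ≤ p.V ∧
    -(p.lam / 32) ≤ P - i ∧ P - i ≤ p.lam / 32 ∧ -(p.lam / 32) ≤ W - j ∧ W - j ≤ p.lam / 32 := by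
  have h1 := abs_le.mp c.P1
  have h2 := abs_le.mp c.W1
  refine ⟨by positivity, by exact_mod_cast c.hi, by positivity, by exact_mod_cast c.hj2,
    h1.1, h1.2, h2.1, h2.2⟩

/-- bounds on the products -/
lemma Cl.prods : 0 ≤ p.lam * j ∧ p.lam * j ≤ 1 / 8 ∧ 0 ≤ p.δ * j ∧ p.δ * j ≤ p.φ / 16 ∧
    |p.lam * (W - j)| ≤ p.lam / 32 ∧ |p.δ * (W - j)| ≤ p.δ / 32 ∧
    |p.φ * (P - i)| ≤ p.δ / 16 := by
  obtain ⟨a1, a2, a3, a4, -, -, -, -⟩ := c.bds h
  have hl := h.hl0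
  have hδ := h.δ0
  have hl1 := h.hl1
  have hδV := h.δV
  have hφ := h.hφ0
  have hlle := h.lle
  have hRN : (0:ℝ) ≤ (p.Rz:ℝ) * p.Nx := by positivity
  refine ⟨by positivity, ?_, by positivity, ?_, ?_, ?_, ?_⟩
  · have : p.lam * j ≤ p.lam * (p.Rz * p.Nx + p.V + 1) :=
      mul_le_mul_of_nonneg_left (by linarith) hl.le
    linarith
  · have : p.δ * j ≤ p.δ * (p.Rz * p.Nx + p.V + 1) :=
      mul_le_mul_of_nonneg_left (by linarith) hδ.le
    linarith
  · rw [abs_mul, abs_of_pos hl]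
    have : p.lam * |W - j| ≤ p.lam * (p.lam / 32) := mul_le_mul_of_nonneg_left c.W1 hl.le
    nlinarith
  · rw [abs_mul, abs_of_pos hδ]
    have : p.δ * |W - j| ≤ p.δ * (p.lam / 32) := mul_le_mul_of_nonneg_left c.W1 hδ.le
    nlinarith
  · rw [abs_mul, abs_of_pos hφ]
    have h1 : p.φ * |P - i| ≤ p.φ * (p.lam / 32) := mul_le_mul_of_nonneg_left c.P1 hφ.le
    have h2 := h.δφ
    linarith

/-- T-line of the leaving bundle -/
lemma Cl.Ta {i' val : ℕ} {τ : ℝ} (K : Prop) [Decidable K] (hτ : τ = if K then -1/2 else 1/2)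
    (hval : val ≤ p.Rz * p.Nx + p.V) :
    p.δ / 4 ≤ |(-p.φ * i' - p.δ * (val + τ)) - (-p.φ * P - p.δ * W)| ∧
    ((-p.φ * i' - p.δ * (val + τ)) - (-p.φ * P - p.δ * W) < 0 ↔
      (i < i' ∨ (i' = i ∧ (j < val ∨ (val = j ∧ ¬ K))))) := by
  obtain ⟨a1, a2, a3, a4, b1, b2, b3, b4⟩ := c.bds h
  obtain ⟨c1, c2, c3, c4, c5, c6, c7⟩ := c.prods h
  have hl := h.hl0
  have hδ := h.δ0
  have hδV := h.δV
  have hφ := h.hφ0
  have hδφ := h.δφ
  have hlle := h.lle
  have d6 := abs_le.mp c6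
  have d7 := abs_le.mp c7
  have hδ1 : p.δ ≤ p.φ / 32 := by
    have : p.φ * p.lam ≤ p.φ * (1 / 16) := mul_le_mul_of_nonneg_left hlle hφ.le
    linarith
  have hvr : (val:ℝ) ≤ p.Rz * p.Nx + p.V := by exact_mod_cast hval
  have hv0 : (0:ℝ) ≤ val := by positivity
  have e1 : p.δ * val ≤ p.φ / 16 - p.δ := by
    have := mul_le_mul_of_nonneg_left hvr hδ.le
    linarith
  have e2 : 0 ≤ p.δ * val := by positivity
  have hτ2 : τ ≤ 1/2 := by rw [hτ]; split_ifs <;> norm_num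
  have hτ1 : -1/2 ≤ τ := by rw [hτ]; split_ifs <;> norm_num
  have e3 : p.δ * τ ≤ p.δ / 2 := by nlinarith
  have e4 : -(p.δ / 2) ≤ p.δ * τ := by nlinarith
  set B := (-p.φ * i' - p.δ * (val + τ)) - (-p.φ * P - p.δ * W) with hB
  have hBe : B = p.φ * ((i:ℝ) - i') + p.φ * (P - i) + p.δ * (W - j) + p.δ * j - p.δ * val -
      p.δ * τ := by rw [hB]; ring
  rcases lt_trichotomy i i' with h1 | h1 | h1
  · have hi : (i:ℝ) + 1 ≤ i' := by exact_mod_cast h1
    have h2 : p.φ * ((i:ℝ) - i') ≤ p.φ * (-1) := mul_le_mul_of_nonneg_left (by linarith) hφ.le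
    have h3 : B ≤ -(p.δ / 4) := by rw [hBe]; linarith [d6.2, d7.2]
    refine ⟨by rw [abs_of_neg (by linarith)]; linarith, ?_⟩
    exact ⟨fun _ => Or.inl h1, fun _ => by linarith⟩
  · subst h1
    have e0 : p.φ * ((i:ℝ) - i) = 0 := by ring
    rcases lt_trichotomy j val with h1 | h1 | h1
    · have hv : (j:ℝ) + 1 ≤ val := by exact_mod_cast h1
      have hv2 : p.δ * (j + 1) ≤ p.δ * val := mul_le_mul_of_nonneg_left hv hδ.le
      have h3 : B ≤ -(p.δ / 4) := by rw [hBe, e0]; linarith [d6.2, d7.2]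
      refine ⟨by rw [abs_of_neg (by linarith)]; linarith, ?_⟩
      exact ⟨fun _ => Or.inr ⟨rfl, Or.inl h1⟩, fun _ => by linarith⟩
    · have hjv : (j:ℝ) = val := by exact_mod_cast h1
      by_cases hK : K
      · have hτ' : τ = -1/2 := by rw [hτ, if_pos hK]
        have h3 : p.δ / 4 ≤ B := by rw [hBe, e0, hτ', ← hjv]; linarith [d6.1, d7.1]
        refine ⟨by rw [abs_of_pos (by linarith)]; exact h3, ?_⟩
        constructor
        · intro h4; linarith
        · rintro (h4 | ⟨-, h4 | ⟨-, h4⟩⟩)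
          · omega
          · omega
          · exact absurd hK h4
      · have hτ' : τ = 1/2 := by rw [hτ, if_neg hK]
        have h3 : B ≤ -(p.δ / 4) := by rw [hBe, e0, hτ', ← hjv]; linarith [d6.2, d7.2]
        refine ⟨by rw [abs_of_neg (by linarith)]; linarith, ?_⟩
        exact ⟨fun _ => Or.inr ⟨rfl, Or.inr ⟨h1.symm, hK⟩⟩, fun _ => by linarith⟩
    · have hv : (val:ℝ) + 1 ≤ j := by exact_mod_cast h1
      have hv2 : p.δ * (val + 1) ≤ p.δ * j := mul_le_mul_of_nonneg_left hv hδ.le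
      have h3 : p.δ / 4 ≤ B := by rw [hBe, e0]; linarith [d6.1, d7.1]
      refine ⟨by rw [abs_of_pos (by linarith)]; exact h3, ?_⟩
      constructor
      · intro h4; linarith
      · rintro (h4 | ⟨-, h4 | ⟨h4, -⟩⟩) <;> omega
  · have hi : (i':ℝ) + 1 ≤ i := by exact_mod_cast h1
    have h2 : p.φ * 1 ≤ p.φ * ((i:ℝ) - i') := mul_le_mul_of_nonneg_left (by linarith) hφ.le
    have h3 : p.δ / 4 ≤ B := by rw [hBe]; linarith [d6.1, d7.1]
    refine ⟨by rw [abs_of_pos (by linarith)]; exact h3, ?_⟩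
    constructor
    · intro h4; linarith
    · rintro (h4 | ⟨h4, -⟩) <;> omega

/-- bounds on the offsets -/
lemma Cl.uv : |1 / 2 + (1 + p.φ) * (P + p.lam * W)| ≤ p.Nx + 1 ∧
    |-p.φ * P - p.δ * W| ≤ 1 / 4 := by
  obtain ⟨a1, a2, a3, a4, b1, b2, b3, b4⟩ := c.bds h
  obtain ⟨c1, c2, c3, c4, c5, c6, c7⟩ := c.prods h
  have hl := h.hl0
  have hδ := h.δ0
  have hφ := h.hφ0
  have hφ1 := h.hφ1
  have hφle := h.φle
  have hlle := h.lle
  have hδφ := h.δφ
  have hδ1 : p.δ ≤ p.φ / 32 := by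
    have : p.φ * p.lam ≤ p.φ * (1 / 16) := mul_le_mul_of_nonneg_left hlle hφ.le
    linarith
  have d5 := abs_le.mp c5
  have d6 := abs_le.mp c6
  have d7 := abs_le.mp c7
  have hφi : p.φ * i ≤ 1 / 8 := by
    have : p.φ * i ≤ p.φ * (p.Nx + 1) := mul_le_mul_of_nonneg_left (by linarith) hφ.le
    linarith
  have hφi0 : 0 ≤ p.φ * i := by positivity
  have e1 : P + p.lam * W = i + (P - i) + p.lam * (W - j) + p.lam * j := by ring
  have hz1 : P + p.lam * W ≤ i + 1 / 4 := by rw [e1]; linarith [d5.2]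
  have hz0 : -(1 / 8) ≤ P + p.lam * W := by rw [e1]; linarith [d5.1]
  have hz0' : -(1 / 8) ≤ P + p.lam * W - i := by rw [e1]; linarith [d5.1]
  constructor
  · have e2 : p.φ * (P + p.lam * W) = p.φ * i + p.φ * (P + p.lam * W - i) := by ring
    have e3 : |p.φ * (P + p.lam * W - i)| ≤ 1 / 64 := by
      rw [abs_mul, abs_of_pos hφ]
      have : |P + p.lam * W - i| ≤ 1 / 4 := by rw [abs_le]; constructor <;> linarith
      nlinarith [abs_nonneg (P + p.lam * W - i)]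
    have e4 := abs_le.mp e3
    rw [abs_le]
    constructor
    · nlinarith
    · nlinarith
  · have e2 : -p.φ * P - p.δ * W = -(p.φ * i) - p.φ * (P - i) - p.δ * (W - j) - p.δ * j := by ring
    rw [e2, abs_le]
    constructor
    · linarith [d6.2, d7.2]
    · linarith [d6.1, d7.1]

/-- T-line of the entering bundle -/
lemma Cl.Tb {i' val : ℕ} {τ : ℝ} (hτ : -1/2 ≤ τ) :
    -(1 / 2 + (1 + p.φ) * (P + p.lam * W)) + (-p.φ * i' - p.δ * (val + τ)) -
      (-p.φ * P - p.δ * W) ≤ -(1 / 8) := by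
  obtain ⟨a1, a2, a3, a4, b1, b2, b3, b4⟩ := c.bds h
  obtain ⟨c1, c2, c3, c4, c5, c6, c7⟩ := c.prods h
  have hl := h.hl0
  have hδ := h.δ0
  have hφ := h.hφ0
  have hφle := h.φle
  have hlle := h.lle
  have hδφ := h.δφ
  have hδ1 : p.δ ≤ p.φ / 32 := by
    have : p.φ * p.lam ≤ p.φ * (1 / 16) := mul_le_mul_of_nonneg_left hlle hφ.le
    linarith
  have d5 := abs_le.mp c5
  have d6 := abs_le.mp c6
  have e1 : -(1 / 2 + (1 + p.φ) * (P + p.lam * W)) + (-p.φ * i' - p.δ * (val + τ)) -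
      (-p.φ * P - p.δ * W) = -(1 / 2) - i - (P - i) - p.lam * (W - j) - p.lam * j -
      p.φ * p.lam * W - p.φ * i' - p.δ * val - p.δ * τ + p.δ * (W - j) + p.δ * j := by ring
  rw [e1, hδφ]
  have e2 : 0 ≤ p.φ * (i':ℝ) := by positivity
  have e3 : 0 ≤ p.δ * (val:ℝ) := by positivity
  have e4 : -(p.δ / 2) ≤ p.δ * τ := by nlinarith
  have e5 : 2 * p.δ * W = 2 * (p.δ * (W - j)) + 2 * (p.δ * j) := by ring
  rw [e5]
  linarith [d5.1, d6.1]

/-- W-line of the leaving bundle -/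
lemma Cl.Wa {w : ℝ} (hw : 0 ≤ w) : 1 / 2 ≤ (1 + w) - (-p.φ * P - p.δ * W) := by
  obtain ⟨-, h2⟩ := c.uv h
  have := (abs_le.mp h2).2
  linarith

/-- W-line of the entering bundle -/
lemma Cl.Wb (w : ℕ) :
    1 / 4 ≤ |-(1 / 2 + (1 + p.φ) * (P + p.lam * W)) + (1 + w) - (-p.φ * P - p.δ * W)| ∧
    (-(1 / 2 + (1 + p.φ) * (P + p.lam * W)) + (1 + w) - (-p.φ * P - p.δ * W) < 0 ↔ w < i) := by
  obtain ⟨a1, a2, a3, a4, b1, b2, b3, b4⟩ := c.bds h
  obtain ⟨c1, c2, c3, c4, c5, c6, c7⟩ := c.prods h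
  have hl := h.hl0
  have hδ := h.δ0
  have hφ := h.hφ0
  have hφle := h.φle
  have hlle := h.lle
  have hδφ := h.δφ
  have hδ1 : p.δ ≤ p.φ / 32 := by
    have : p.φ * p.lam ≤ p.φ * (1 / 16) := mul_le_mul_of_nonneg_left hlle hφ.le
    linarith
  have d5 := abs_le.mp c5
  have d6 := abs_le.mp c6
  set B := -(1 / 2 + (1 + p.φ) * (P + p.lam * W)) + (1 + w) - (-p.φ * P - p.δ * W) with hB
  have e1 : B = 1 / 2 + w - i - (P - i) - p.lam * (W - j) - p.lam * j -
      p.φ * p.lam * W + p.δ * (W - j) + p.δ * j := by rw [hB]; ring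
  rw [hδφ] at e1
  have e5 : 2 * p.δ * W = 2 * (p.δ * (W - j)) + 2 * (p.δ * j) := by ring
  rw [e5] at e1
  by_cases h1 : w < i
  · have h1' : (w:ℝ) + 1 ≤ i := by exact_mod_cast h1
    have h3 : B ≤ -(1 / 4) := by rw [e1]; linarith [d5.1, d6.1]
    exact ⟨by rw [abs_of_neg (by linarith)]; linarith, ⟨fun _ => h1, fun _ => by linarith⟩⟩
  · have h1' : (i:ℝ) ≤ w := by exact_mod_cast not_lt.mp h1
    have h3 : 1 / 4 ≤ B := by rw [e1]; linarith [d5.2, d6.2]
    exact ⟨by rw [abs_of_pos (by linarith)]; exact h3, ⟨fun _ => by linarith, fun h4 => absurd h4 h1⟩⟩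

/-- upper slot line of the event -/
lemma Cl.Sm {ρ : ℝ} (hρ : |ρ| ≤ 2 * p.φ) :
    1 ≤ ρ * (1 / 2 + (1 + p.φ) * (P + p.lam * W)) + (p.Nx + 4) - (-p.φ * P - p.δ * W) := by
  obtain ⟨h1, h2⟩ := c.uv h
  have h3 := (abs_le.mp h2).2
  have hφ := h.hφ0
  have hφ1 := h.hφ1
  have hNx := h.Nx1
  have h4 : |ρ * (1 / 2 + (1 + p.φ) * (P + p.lam * W))| ≤ 1 / 4 := by
    rw [abs_mul]
    have := mul_le_mul hρ h1 (abs_nonneg _) (by positivity)
    linarith
  have h5 := (abs_le.mp h4).1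
  linarith

end

/-- pool line of the event: `n` is the row difference, `f` the inner height -/
lemma pool_real {δ κ ls f n er B U M : ℝ} (hδ : 0 < δ) (hκ : 0 < κ)
    (hl1 : 1 ≤ ls) (hl2 : ls ≤ 17 / 16) (hU : 1 ≤ U) (hM : 1 ≤ M)
    (hκU : κ * (U + 1) ≤ 1 / 1024) (hf : |f| ≤ U) (her : |er| ≤ 1 / (40 * M))
    (hB : B = δ / ls * (n + κ * (f + er))) :
    (1 ≤ n → δ / 2 ≤ B) ∧ (n ≤ -1 → B ≤ -(δ / 2)) ∧
    (n = 0 → |B| ≤ 2 * (δ * (κ * (U + 1)))) ∧
    (n = 0 → 1 ≤ M * |f| → 4 / 5 * (δ * (κ * |f|)) ≤ |B| ∧ (B < 0 ↔ f < 0)) := by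
  have hM0 : 0 < M := by linarith
  have h40 : 1 / (40 * M) ≤ 1 / 40 := by
    apply one_div_le_one_div_of_le (by norm_num); linarith
  have h1 : |f + er| ≤ U + 1 := by
    calc |f + er| ≤ |f| + |er| := abs_add_le _ _
      _ ≤ _ := by linarith
  have h2 : |κ * (f + er)| ≤ 1 / 1024 := by
    rw [abs_mul, abs_of_pos hκ]
    have := mul_le_mul_of_nonneg_left h1 hκ.le
    linarith
  have h3 := abs_le.mp h2
  have hls : 0 < ls := by linarith
  have hd1 : 16 / 17 * δ ≤ δ / ls := by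
    rw [le_div_iff₀ hls]; nlinarith
  have hd2 : δ / ls ≤ δ := div_le_self hδ.le hl1
  have hd0 : 0 < δ / ls := by positivity
  refine ⟨?_, ?_, ?_, ?_⟩
  · intro hn
    rw [hB]
    have : δ / ls * (1 - 1 / 1024) ≤ δ / ls * (n + κ * (f + er)) :=
      mul_le_mul_of_nonneg_left (by linarith [h3.1]) hd0.le
    linarith
  · intro hn
    rw [hB]
    have : δ / ls * (n + κ * (f + er)) ≤ δ / ls * (-1 + 1 / 1024) :=
      mul_le_mul_of_nonneg_left (by linarith [h3.2]) hd0.le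
    linarith
  · intro hn
    rw [hB, hn, zero_add, abs_mul, abs_of_pos hd0, abs_mul, abs_of_pos hκ]
    have h4 : κ * |f + er| ≤ κ * (U + 1) := mul_le_mul_of_nonneg_left h1 hκ.le
    calc δ / ls * (κ * |f + er|) ≤ δ * (κ * (U + 1)) :=
          mul_le_mul hd2 h4 (by positivity) hδ.le
      _ ≤ 2 * (δ * (κ * (U + 1))) := by
          have : 0 ≤ δ * (κ * (U + 1)) := by positivity
          linarith
  · intro hn hf1
    have h5 : 1 / (40 * M) ≤ |f| / 40 := by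
      rw [div_le_div_iff₀ (by positivity) (by norm_num)]
      nlinarith
    have hf0 : 0 < |f| := by
      by_contra h6
      push Not at h6
      have : M * |f| ≤ 0 := mul_nonpos_of_nonneg_of_nonpos hM0.le h6
      linarith
    have h6 : 39 / 40 * |f| ≤ |f + er| := by
      have := abs_sub_abs_le_abs_sub f (-er)
      rw [abs_neg, sub_neg_eq_add] at this
      linarith
    have h7 : (f + er < 0 ↔ f < 0) := by
      have h8 := abs_le.mp (her.trans h5)
      rcases le_or_gt 0 f with h9 | h9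
      · rw [abs_of_nonneg h9] at h8 hf0
        constructor <;> intro h10 <;> linarith [h8.1]
      · rw [abs_of_neg h9] at h8 hf0
        constructor <;> intro h10 <;> linarith [h8.2]
    rw [hB, hn, zero_add]
    constructor
    · rw [abs_mul, abs_of_pos hd0, abs_mul, abs_of_pos hκ]
      have h8 : κ * (39 / 40 * |f|) ≤ κ * |f + er| := mul_le_mul_of_nonneg_left h6 hκ.le
      calc 4 / 5 * (δ * (κ * |f|)) ≤ (16 / 17 * δ) * (κ * (39 / 40 * |f|)) := by
            have : 0 ≤ δ * (κ * |f|) := by positivity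
            nlinarith
        _ ≤ δ / ls * (κ * |f + er|) := mul_le_mul hd1 h8 (by positivity) hd0.le
    · rw [← h7]
      constructor
      · intro h8
        by_contra h9
        push Not at h9
        have : 0 ≤ δ / ls * (κ * (f + er)) := by positivity
        linarith
      · intro h8
        exact mul_neg_of_pos_of_neg hd0 (mul_neg_of_pos_of_neg hκ h8)

end Pool.Agent.N35.HL
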