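import Pool.Agent.N35.HL.Comp

/-!
# Conditions on the parameters of a composition and basic estimates
-/

set_option linter.unusedSectionVars false

namespace Pool.Agent.N35.HL

open Finset

/-- conditions on the parameters -/
structure Prm.OK (p : Prm) (φ' q Dl U M : ℝ) : Prop where
  hNx : 1 ≤ p.Nx
  hΔ : 1 ≤ p.Δ
  hΔR : p.Δ ≤ p.Rz
  hRd : 1 ≤ p.Rd
  hq : 0 < q
  hq1 : q ≤ 1
  hqD : q ≤ Dl
  hφ0 : 0 < p.φ
  hφ1 : p.φ * (p.Nx + 1) ≤ 1 / 8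
  hl0 : 0 < p.lam
  hl1 : p.lam * (p.Rz * p.Nx + p.V + 1) ≤ 1 / 8
  hU : 1 ≤ U
  hM : 1 ≤ M
  hκ0 : 0 < p.κ
  hκ1 : p.κ * (U + 1) ≤ p.lam / 64
  hκ2 : 128 * (p.κ * (U + 1)) ≤ φ' * p.Δ
  hφ' : 0 < φ'
  hφ'1 : 1024 * (φ' * p.Δ) * (p.Nx + 1) ≤ 1
  hε0 : 0 < p.ε
  hε1 : 400 * (p.ε * (p.Nx + 6)) ≤ p.φ * q
  hrd : 200 * (M * p.Rz * (p.Nx + 2)) ≤ p.Rd * Dl * (p.δ * p.κ)

section

variable {p : Prm} {φ' q Dl U M : ℝ} (h : p.OK φ' q Dl U M)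

include h

lemma Prm.OK.Nx1 : (1:ℝ) ≤ p.Nx := by exact_mod_cast h.hNx

lemma Prm.OK.Rz1 : (1:ℝ) ≤ p.Rz := by exact_mod_cast h.hΔ.trans h.hΔR

lemma Prm.OK.Δ1 : (1:ℝ) ≤ p.Δ := by exact_mod_cast h.hΔ

lemma Prm.OK.ΔR : (p.Δ:ℝ) ≤ p.Rz := by exact_mod_cast h.hΔR

lemma Prm.OK.φle : p.φ ≤ 1 / 16 := by
  have h1 := h.Nx1
  have h2 := h.hφ1
  have h3 := h.hφ0
  nlinarith

lemma Prm.OK.Vcast : (p.V : ℝ) = p.Rz * p.Nx + p.V₁ := by
  unfold Prm.V; push_cast; ring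

lemma Prm.OK.lRN : p.lam * (p.Rz * p.Nx) ≤ 1 / 16 := by
  have h1 := h.hl1
  rw [h.Vcast] at h1
  have h3 := h.hl0
  have h4 : (0:ℝ) ≤ p.V₁ := by positivity
  have h5 : 0 ≤ p.lam * p.V₁ := by positivity
  nlinarith

lemma Prm.OK.lR : p.lam * p.Rz ≤ 1 / 16 := by
  have h1 := h.lRN
  have h2 := h.Nx1
  have h3 := h.hl0
  have h4 := h.Rz1
  have h5 : 0 ≤ p.lam * p.Rz := by positivity
  nlinarith

lemma Prm.OK.lle : p.lam ≤ 1 / 16 := by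
  have h1 := h.lR
  have h3 := h.hl0
  have h4 := h.Rz1
  nlinarith

lemma Prm.OK.δ0 : 0 < p.δ := by
  unfold Prm.δ
  have h1 := h.hφ0
  have h2 := h.hl0
  positivity

lemma Prm.OK.δφ : p.φ * p.lam = 2 * p.δ := by unfold Prm.δ; ring

lemma Prm.OK.κle : p.κ ≤ p.lam / 128 := by
  have h1 := h.hκ1
  have h2 := h.hU
  have h3 := h.hκ0
  nlinarith

/-- all slopes of the inner block -/
lemma Prm.OK.δσ {σ : ℝ} (h0 : 0 ≤ σ) (hσ : σ ≤ p.Rz) :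
    0 ≤ p.δ * σ / (1 + p.lam * σ) ∧ p.δ * σ / (1 + p.lam * σ) ≤ p.φ / 32 := by
  have h1 := h.δ0
  have h2 := h.hl0
  have h3 := h.lR
  have h4 := h.δφ
  have h5 := h.hφ0
  have h6 : 0 ≤ p.lam * σ := by positivity
  refine ⟨by positivity, ?_⟩
  rw [div_le_iff₀ (by positivity)]
  have h7 : p.lam * σ ≤ p.lam * p.Rz := mul_le_mul_of_nonneg_left hσ h2.le
  have h8 : p.δ * σ = p.φ * (p.lam * σ) / 2 := by unfold Prm.δ; ring
  have h9 : p.φ * (p.lam * σ) ≤ p.φ * (1 / 16) := by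
    apply mul_le_mul_of_nonneg_left _ h5.le; linarith
  have h10 : 0 ≤ p.φ / 32 * (p.lam * σ) := by positivity
  nlinarith

lemma Prm.OK.σ1 {σ : ℝ} (h0 : 0 ≤ σ) (hσ : σ ≤ p.Rz) :
    1 ≤ 1 + p.lam * σ ∧ 1 + p.lam * σ ≤ 17 / 16 := by
  have h2 := h.hl0
  have h3 := h.lR
  have h6 : 0 ≤ p.lam * σ := by positivity
  have h7 : p.lam * σ ≤ p.lam * p.Rz := mul_le_mul_of_nonneg_left hσ h2.le
  constructor <;> linarith

lemma Prm.OK.psi_bd {G R H : Type} (I : Inn G R H) (α : G) (hσ : I.σ α ≤ p.Rz) :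
    4 / 5 * p.φ ≤ psi I p α ∧ psi I p α ≤ p.φ := by
  have hσ' : (I.σ α : ℝ) ≤ p.Rz := by exact_mod_cast hσ
  obtain ⟨h1, h2⟩ := h.δσ (σ := I.σ α) (by positivity) hσ'
  have h3 := h.hφ0
  have h4 := h.φle
  unfold psi
  constructor
  · rw [le_div_iff₀ (by positivity)]
    nlinarith
  · rw [div_le_iff₀ (by positivity)]
    nlinarith

/-- difference of relative slopes -/
lemma Prm.OK.psi_diff {G R H : Type} (I : Inn G R H) (α β : G) :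
    psi I p β - psi I p α =
      p.δ / (1 + p.φ) * ((I.σ α - I.σ β) / ((1 + p.lam * I.σ α) * (1 + p.lam * I.σ β))) := by
  have h2 := h.hl0
  have h5 := h.hφ0
  have h6 : (0:ℝ) < 1 + p.lam * I.σ α := by positivity
  have h7 : (0:ℝ) < 1 + p.lam * I.σ β := by positivity
  have h8 : (0:ℝ) < 1 + p.φ := by positivity
  unfold psi
  field_simp
  ring

lemma Prm.OK.psi_diff_le {G R H : Type} (I : Inn G R H) (α β : G) (hα : I.σ α ≤ p.Rz)
    (hβ : I.σ β ≤ p.Rz) : |psi I p β - psi I p α| ≤ p.δ * |(I.σ α : ℝ) - I.σ β| := by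
  rw [h.psi_diff I α β]
  have h2 := h.hl0
  have h5 := h.hφ0
  have h6 : (1:ℝ) ≤ 1 + p.lam * I.σ α := by
    have : (0:ℝ) ≤ p.lam * I.σ α := by positivity
    linarith
  have h7 : (1:ℝ) ≤ 1 + p.lam * I.σ β := by
    have : (0:ℝ) ≤ p.lam * I.σ β := by positivity
    linarith
  have h8 := h.δ0
  rw [abs_mul, abs_of_pos (div_pos h8 (by positivity) : 0 < p.δ / (1 + p.φ)), abs_div,
    abs_of_pos (by positivity : 0 < (1 + p.lam * I.σ α) * (1 + p.lam * I.σ β))]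
  apply mul_le_mul _ _ (by positivity) h8.le
  · exact div_le_self h8.le (by linarith)
  · exact div_le_self (abs_nonneg _) (by nlinarith)

/-- lower bound for the difference of relative slopes -/
lemma Prm.OK.psi_diff_ge {G R H : Type} (I : Inn G R H) (α β : G) (hα : I.σ α ≤ p.Rz)
    (hβ : I.σ β ≤ p.Rz) (hd : I.σ β ≤ I.σ α) :
    4 / 5 * (p.δ * ((I.σ α : ℝ) - I.σ β)) ≤ psi I p β - psi I p α := by
  rw [h.psi_diff I α β]
  have hα' : (I.σ α : ℝ) ≤ p.Rz := by exact_mod_cast hα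
  have hβ' : (I.σ β : ℝ) ≤ p.Rz := by exact_mod_cast hβ
  have hd' : (I.σ β : ℝ) ≤ I.σ α := by exact_mod_cast hd
  obtain ⟨a1, a2⟩ := h.σ1 (σ := I.σ α) (by positivity) hα'
  obtain ⟨b1, b2⟩ := h.σ1 (σ := I.σ β) (by positivity) hβ'
  have h5 := h.hφ0
  have h6 := h.φle
  have h8 := h.δ0
  have e : p.δ / (1 + p.φ) * ((I.σ α - I.σ β) / ((1 + p.lam * I.σ α) * (1 + p.lam * I.σ β))) =
    (p.δ * ((I.σ α : ℝ) - I.σ β)) / ((1 + p.φ) * ((1 + p.lam * I.σ α) * (1 + p.lam * I.σ β))) := by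
    have : (1 + p.φ) ≠ 0 := by positivity
    have : (1 + p.lam * I.σ α) ≠ 0 := by linarith
    have : (1 + p.lam * I.σ β) ≠ 0 := by linarith
    field_simp
  rw [e, le_div_iff₀ (by positivity)]
  have h9 : 0 ≤ p.δ * ((I.σ α : ℝ) - I.σ β) := mul_nonneg h8.le (by linarith)
  have h10 : (1 + p.φ) * ((1 + p.lam * I.σ α) * (1 + p.lam * I.σ β)) ≤ 5 / 4 := by
    have : (1 + p.lam * I.σ α) * (1 + p.lam * I.σ β) ≤ 17 / 16 * (17 / 16) :=
      mul_le_mul a2 b2 (by linarith) (by norm_num)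
    calc (1 + p.φ) * ((1 + p.lam * I.σ α) * (1 + p.lam * I.σ β))
        ≤ (17 / 16) * (17 / 16 * (17 / 16)) :=
          mul_le_mul (by linarith) this (by positivity) (by norm_num)
      _ ≤ 5 / 4 := by norm_num
  nlinarith

lemma Prm.OK.RdDl : 0 < (p.Rd : ℝ) * Dl := by
  have h1 : (1:ℝ) ≤ p.Rd := by exact_mod_cast h.hRd
  have h2 := h.hq
  have h3 := h.hqD
  nlinarith

/-- the rounding error is small -/
lemma Prm.OK.eta : 1 / (2 * ((p.Rd:ℝ) * Dl)) * (400 * (M * p.Rz * (p.Nx + 2))) ≤ p.δ * p.κ := by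
  have h1 := h.hrd
  have h2 := h.RdDl
  rw [div_mul_eq_mul_div, one_mul, div_le_iff₀ (by positivity)]
  nlinarith

end

lemma rnd_err (n : ℕ) (hn : 1 ≤ n) (x : ℝ) : |rnd n x - x| ≤ 1 / (2 * n) := by
  have hn' : (0:ℝ) < n := by exact_mod_cast hn
  unfold rnd
  have h1 := abs_sub_round (x * n)
  have e : (round (x * n) : ℝ) / n - x = -((x * n - round (x * n)) / n) := by
    field_simp; ring
  rw [e, abs_neg, abs_div, abs_of_pos hn', div_le_div_iff₀ hn' (by positivity)]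
  nlinarith

lemma rnd_zero (n : ℕ) : rnd n 0 = 0 := by unfold rnd; simp

lemma rnd_int (n : ℕ) (hn : 1 ≤ n) (x : ℝ) : ∃ z : ℤ, rnd n x * n = z := by
  have hn' : (0:ℝ) < n := by exact_mod_cast hn
  exact ⟨round (x * n), by unfold rnd; field_simp⟩

end Pool.Agent.N35.HL
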