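import Pool.Agent.N35.HL.Coord

/-!
# Real estimates for the lines away from the pools of an event
-/

set_option linter.unusedSectionVars false
set_option linter.unusedVariables false
set_option maxHeartbeats 1000000

namespace Pool.Agent.N35.HL

/-- leading term: sign and size -/
lemma lead {F dd dx ρ φ σ : ℝ} (hφ : 0 < φ) (hdd : 0 ≤ dd)
    (hρ1 : 39 / 100 * (φ * dd) ≤ ρ) (hρ2 : ρ ≤ 31 / 10 * (φ * dd))
    (hσ : σ = 1 ∨ σ = -1)
    (hd : 16 * (φ * (dd * |dx|)) ≤ |F| ∨ 16 * |F| ≤ φ * (dd * |dx|))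
    (hpos : 0 < |F| ∨ 0 < φ * (dd * |dx|)) :
    3 / 4 * |F| ≤ |F - σ * ρ * dx| ∧ φ * (dd * |dx|) / 4 ≤ |F - σ * ρ * dx| ∧
      (F - σ * ρ * dx < 0 ↔ F - σ * (φ * (dd * dx)) < 0) := by
  have h1 : |σ * ρ * dx| = ρ * |dx| := by
    have hρ : 0 ≤ ρ := le_trans (by positivity) hρ1
    rw [abs_mul, abs_mul, abs_of_nonneg hρ]
    rcases hσ with h | h <;> rw [h] <;> simp
  have h2 : |σ * (φ * (dd * dx))| = φ * (dd * |dx|) := by
    rw [abs_mul, abs_mul, abs_mul, abs_of_pos hφ, abs_of_nonneg hdd]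
    rcases hσ with h | h <;> rw [h] <;> simp
  have h3 : 39 / 100 * (φ * (dd * |dx|)) ≤ ρ * |dx| := by
    have := mul_le_mul_of_nonneg_right hρ1 (abs_nonneg dx)
    linarith
  have h4 : ρ * |dx| ≤ 31 / 10 * (φ * (dd * |dx|)) := by
    have := mul_le_mul_of_nonneg_right hρ2 (abs_nonneg dx)
    linarith
  set Z := φ * (dd * |dx|) with hZ
  have hZ0 : 0 ≤ Z := by positivity
  set A := σ * ρ * dx with hA
  set A' := σ * (φ * (dd * dx)) with hA'
  rcases hd with hd | hd
  · have h5 : |F| - |A| ≤ |F - A| := abs_sub_abs_le_abs_sub F A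
    have hF : 0 < |F| := by
      rcases hpos with h | h
      · exact h
      · linarith
    refine ⟨by rw [h1] at h5; linarith, by rw [h1] at h5; linarith, ?_⟩
    have h6 := abs_le.mp (le_of_eq h1)
    have h7 := abs_le.mp (le_of_eq h2)
    rcases le_or_gt 0 F with h8 | h8
    · rw [abs_of_nonneg h8] at hd hF
      constructor <;> intro h9 <;> linarith [h6.2, h7.2]
    · rw [abs_of_neg h8] at hd hF
      constructor <;> intro h9 <;> linarith [h6.1, h7.1]
  · have h5 : |A| - |F| ≤ |F - A| := by rw [abs_sub_comm]; exact abs_sub_abs_le_abs_sub A F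
    have hZ1 : 0 < Z := by
      rcases hpos with h | h
      · linarith
      · exact h
    refine ⟨by rw [h1] at h5; linarith, by rw [h1] at h5; linarith, ?_⟩
    have h6 := abs_le.mp (le_refl |F|)
    have h10 : A = σ * dx * ρ := by rw [hA]; ring
    have h11 : A' = σ * dx * (φ * dd) := by rw [hA']; ring
    have h12 : |σ * dx| = |dx| := by
      rw [abs_mul]; rcases hσ with h | h <;> rw [h] <;> simp
    have hdd' : 0 < φ * dd := by
      rcases hdd.lt_or_eq with h | h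
      · positivity
      · rw [← h] at hZ; simp at hZ; linarith
    have hρ0 : 0 < ρ := lt_of_lt_of_le (by positivity) hρ1
    rcases le_or_gt 0 (σ * dx) with h8 | h8
    · have e1 : A = ρ * |dx| := by rw [h10, ← h12, abs_of_nonneg h8]; ring
      have e2 : A' = Z := by rw [h11, hZ, ← h12, abs_of_nonneg h8]; ring
      constructor <;> intro h9 <;> linarith [h6.2]
    · have e1 : A = -(ρ * |dx|) := by rw [h10, ← h12, abs_of_neg h8]; ring
      have e2 : A' = -Z := by rw [h11, hZ, ← h12, abs_of_neg h8]; ring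
      constructor <;> intro h9 <;> linarith [h6.1]

/-- the perturbation is small compared with the leading term -/
lemma pert {F dd dx ρ φ σ q ε N s D u w : ℝ} (hφ : 0 < φ) (hφ1 : φ ≤ 1 / 16) (hq : 0 < q)
    (hε : 0 < ε) (hN : 0 ≤ N) (hεN : 400 * (ε * N) ≤ φ * q) (hD : 0 < D)
    (hu : |u| ≤ N) (hw : |w| ≤ N) (hdd : 0 ≤ dd)
    (hρ0 : 0 ≤ ρ) (hρ2 : ρ ≤ 31 / 10 * (φ * dd))
    (hσ : σ = 1 ∨ σ = -1) {B : ℝ} (hB1 : 3 / 4 * |F| ≤ |B|) (hB2 : φ * (dd * |dx|) / 4 ≤ |B|)
    (hc : (q ≤ |F| ∧ q * |s| ≤ |F| * D ∧ (dd = 0 ∨ q ≤ D * |dx| ∨ dd ≤ 2 * D)) ∨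
      (|s| ≤ D ∧ q ≤ dd * |dx| ∧ q ≤ D * |dx|)) :
    |ε * ((s - σ * ρ) * (u / D) + w)| ≤ |B| / 8 ∧ φ * q / 4 ≤ |B| := by
  have hBq : φ * q / 4 ≤ |B| := by
    rcases hc with ⟨h1, -, -⟩ | ⟨-, h1, -⟩
    · have : φ * q ≤ 1 / 16 * q := mul_le_mul_of_nonneg_right hφ1 hq.le
      linarith
    · have : φ * q ≤ φ * (dd * |dx|) := mul_le_mul_of_nonneg_left h1 hφ.le
      linarith
  refine ⟨?_, hBq⟩
  have hB0 := abs_nonneg B
  have hεu : ε * |u| ≤ φ * q / 400 := by
    have := mul_le_mul_of_nonneg_left hu hε.le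
    linarith
  have hεw : ε * |w| ≤ φ * q / 400 := by
    have := mul_le_mul_of_nonneg_left hw hε.le
    linarith
  -- first term
  have t1 : ε * (|s| * (|u| / D)) ≤ |B| / 90 := by
    have e : ε * (|s| * (|u| / D)) = (ε * |u|) * (|s| / D) := by ring
    rw [e]
    rcases hc with ⟨h1, h2, -⟩ | ⟨h2, h1, -⟩
    · have h3 : |s| / D ≤ |F| / q := by
        rw [div_le_div_iff₀ hD hq]; linarith
      calc (ε * |u|) * (|s| / D) ≤ (φ * q / 400) * (|F| / q) :=
            mul_le_mul hεu h3 (by positivity) (by positivity)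
        _ = φ * |F| / 400 := by field_simp
        _ ≤ |B| / 90 := by
            have : φ * |F| ≤ 1 / 16 * |F| := mul_le_mul_of_nonneg_right hφ1 (abs_nonneg _)
            linarith [abs_nonneg F]
    · have h3 : |s| / D ≤ 1 := by rw [div_le_one hD]; exact h2
      calc (ε * |u|) * (|s| / D) ≤ (φ * q / 400) * 1 :=
            mul_le_mul hεu h3 (by positivity) (by positivity)
        _ ≤ |B| / 90 := by linarith
  have t2 : ε * (ρ * (|u| / D)) ≤ |B| / 30 := by
    have e : ε * (ρ * (|u| / D)) = (ε * |u|) * (ρ / D) := by ring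
    rw [e]
    have key : q ≤ D * |dx| → (ε * |u|) * (ρ / D) ≤ |B| / 30 := by
      intro h1
      have h3 : ρ / D ≤ (31 / 10 * (φ * dd)) * (|dx| / q) := by
        have h4 : 1 / D ≤ |dx| / q := by rw [div_le_div_iff₀ hD hq]; linarith
        calc ρ / D = ρ * (1 / D) := by ring
          _ ≤ (31 / 10 * (φ * dd)) * (|dx| / q) :=
            mul_le_mul hρ2 h4 (by positivity) (by positivity)
      calc (ε * |u|) * (ρ / D) ≤ (φ * q / 400) * ((31 / 10 * (φ * dd)) * (|dx| / q)) :=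
            mul_le_mul hεu h3 (by positivity) (by positivity)
        _ = φ * (31 / 10) * (φ * (dd * |dx|)) / 400 := by field_simp
        _ ≤ |B| / 30 := by
            have h5 : 0 ≤ φ * (dd * |dx|) := by positivity
            have : φ * (φ * (dd * |dx|)) ≤ 1 / 16 * (φ * (dd * |dx|)) :=
              mul_le_mul_of_nonneg_right hφ1 h5
            linarith
    rcases hc with ⟨h1, h2, h3⟩ | ⟨-, -, h3⟩
    · rcases h3 with h3 | h3 | h3
      · have : ρ = 0 := by rw [h3] at hρ2; simp at hρ2; linarith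
        rw [this, zero_div, mul_zero]; positivity
      · exact key h3
      · have h4 : ρ / D ≤ 62 / 10 * φ := by
          rw [div_le_iff₀ hD]
          have : φ * dd ≤ φ * (2 * D) := mul_le_mul_of_nonneg_left h3 hφ.le
          linarith
        calc (ε * |u|) * (ρ / D) ≤ (φ * q / 400) * (62 / 10 * φ) :=
              mul_le_mul hεu h4 (by positivity) (by positivity)
          _ = φ * (φ * q) * (62 / 4000) := by ring
          _ ≤ |B| / 30 := by
              have h5 : 0 ≤ φ * q := by positivity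
              have : φ * (φ * q) ≤ 1 / 16 * (φ * q) := mul_le_mul_of_nonneg_right hφ1 h5
              linarith
    · exact key h3
  have t3 : ε * |w| ≤ |B| / 90 := by linarith
  rw [abs_mul, abs_of_pos hε]
  have h6 : |(s - σ * ρ) * (u / D) + w| ≤ |s| * (|u| / D) + ρ * (|u| / D) + |w| := by
    have h7 : |(s - σ * ρ) * (u / D)| ≤ (|s| + ρ) * (|u| / D) := by
      rw [abs_mul, abs_div, abs_of_pos hD]
      apply mul_le_mul_of_nonneg_right _ (by positivity)
      have h8 : |σ * ρ| = ρ := by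
        rw [abs_mul, abs_of_nonneg hρ0]; rcases hσ with h | h <;> rw [h] <;> simp
      calc |s - σ * ρ| ≤ |s| + |σ * ρ| := abs_sub _ _
        _ = _ := by rw [h8]
    calc _ ≤ |(s - σ * ρ) * (u / D)| + |w| := abs_add_le _ _
      _ ≤ _ := by linarith
  have h9 := mul_le_mul_of_nonneg_left h6 hε.le
  have h10 : ε * (|s| * (|u| / D) + ρ * (|u| / D) + |w|) =
    ε * (|s| * (|u| / D)) + ε * (ρ * (|u| / D)) + ε * |w| := by ring
  rw [h10] at h9
  linarith [abs_nonneg B]

/-- relative slopes of far lines -/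
lemma relslope {F dd dx ρ φ σ q s D ψ : ℝ} (hφ : 0 < φ) (hφ1 : φ ≤ 1 / 16) (hq : 0 < q)
    (hD : 0 < D) (hdd : 0 ≤ dd) (hρ0 : 0 ≤ ρ) (hρ2 : ρ ≤ 31 / 10 * (φ * dd))
    (hσ : σ = 1 ∨ σ = -1) {B : ℝ} (hB1 : 3 / 4 * |F| ≤ |B|) (hB2 : φ * (dd * |dx|) / 4 ≤ |B|)
    (hψ0 : 0 ≤ ψ) (hψ : ψ ≤ 2 * φ)
    (hc : (q ≤ |F| ∧ q * |s| ≤ |F| * D ∧ (dd = 0 ∨ q ≤ D * |dx| ∨ dd ≤ 2 * D)) ∨
      (|s| ≤ D ∧ q ≤ dd * |dx| ∧ q ≤ D * |dx|)) :
    φ * q / 32 * |s - σ * ρ + ψ * D| ≤ |B| * D := by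
  have hBq : φ * q / 4 ≤ |B| := by
    rcases hc with ⟨h1, -, -⟩ | ⟨-, h1, -⟩
    · have : φ * q ≤ 1 / 16 * q := mul_le_mul_of_nonneg_right hφ1 hq.le
      linarith
    · have : φ * q ≤ φ * (dd * |dx|) := mul_le_mul_of_nonneg_left h1 hφ.le
      linarith
  have t1 : φ * q / 32 * |s| ≤ |B| * D / 8 := by
    rcases hc with ⟨h1, h2, -⟩ | ⟨h2, h1, -⟩
    · have h3 : φ * (q * |s|) ≤ 1 / 16 * (|F| * D) :=
        mul_le_mul hφ1 h2 (by positivity) (by norm_num)
      have h4 : 3 / 4 * |F| * D ≤ |B| * D := mul_le_mul_of_nonneg_right hB1 hD.le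
      have h5 : 0 ≤ |F| * D := by positivity
      nlinarith
    · have h3 : φ * q / 4 * D ≤ |B| * D := mul_le_mul_of_nonneg_right hBq hD.le
      have h4 : φ * q / 32 * |s| ≤ φ * q / 32 * D := mul_le_mul_of_nonneg_left h2 (by positivity)
      have h5 : φ * q / 32 * D = φ * q / 4 * D / 8 := by ring
      linarith
  have t2 : φ * q / 32 * ρ ≤ |B| * D / 2 := by
    have key : q ≤ D * |dx| → φ * q / 32 * ρ ≤ |B| * D / 2 := by
      intro h1
      have h2 : q * ρ ≤ D * |dx| * (31 / 10 * (φ * dd)) :=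
        mul_le_mul h1 hρ2 hρ0 (by positivity)
      have h3 : φ * (dd * |dx|) / 4 * D ≤ |B| * D := mul_le_mul_of_nonneg_right hB2 hD.le
      have h4 : D * |dx| * (31 / 10 * (φ * dd)) = 124 / 10 * (φ * (dd * |dx|) / 4 * D) := by ring
      have h5 : q * ρ ≤ 124 / 10 * (|B| * D) := by linarith
      have h6 : φ * (q * ρ) ≤ 1 / 16 * (124 / 10 * (|B| * D)) :=
        mul_le_mul hφ1 h5 (by positivity) (by norm_num)
      have h7 : 0 ≤ |B| * D := by positivity
      nlinarith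
    rcases hc with ⟨h1, h2, h3⟩ | ⟨-, -, h3⟩
    · rcases h3 with h3 | h3 | h3
      · have : ρ = 0 := by rw [h3] at hρ2; simp at hρ2; linarith
        rw [this, mul_zero]; positivity
      · exact key h3
      · have h4 : ρ ≤ 62 / 10 * (φ * D) := by
          have : φ * dd ≤ φ * (2 * D) := mul_le_mul_of_nonneg_left h3 hφ.le
          linarith
        have h5 : φ * q / 32 * ρ ≤ |B| / 8 * (62 / 10 * (φ * D)) :=
          mul_le_mul (by linarith) h4 hρ0 (by positivity)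
        have h6 : φ * (|B| * D) ≤ 1 / 16 * (|B| * D) :=
          mul_le_mul_of_nonneg_right hφ1 (by positivity)
        have h7 : 0 ≤ |B| * D := by positivity
        nlinarith
    · exact key h3
  have t3 : φ * q / 32 * (ψ * D) ≤ |B| * D / 64 := by
    have h1 : ψ ≤ 1 / 8 := by linarith
    have h2 : φ * q / 32 * ψ ≤ |B| / 8 * (1 / 8) :=
      mul_le_mul (by linarith) h1 hψ0 (by positivity)
    have := mul_le_mul_of_nonneg_right h2 hD.le
    nlinarith
  have h6 : |s - σ * ρ + ψ * D| ≤ |s| + ρ + ψ * D := by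
    have h8 : |σ * ρ| = ρ := by
      rw [abs_mul, abs_of_nonneg hρ0]; rcases hσ with h | h <;> rw [h] <;> simp
    calc |s - σ * ρ + ψ * D| ≤ |s - σ * ρ| + |ψ * D| := abs_add_le _ _
      _ ≤ |s| + |σ * ρ| + |ψ * D| := by linarith [abs_sub s (σ * ρ)]
      _ = _ := by rw [h8, abs_of_nonneg (by positivity : 0 ≤ ψ * D)]
  have h9 := mul_le_mul_of_nonneg_left h6 (by positivity : 0 ≤ φ * q / 32)
  have h10 : φ * q / 32 * (|s| + ρ + ψ * D) =
    φ * q / 32 * |s| + φ * q / 32 * ρ + φ * q / 32 * (ψ * D) := by ring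
  rw [h10] at h9
  have h7 : 0 ≤ |B| * D := by positivity
  linarith

end Pool.Agent.N35.HL
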