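import Pool.Agent.N35.HL.Iter

/-!
# The sequence of levels
-/

set_option linter.unusedSectionVars false
set_option linter.unusedVariables false
set_option maxHeartbeats 1000000

namespace Pool.Agent.N35.HL

open Finset

lemma Lv.mono {t t' r r' w w' b b' : ℕ} {β β' : ℝ} (h : Lv t r w b β) (ht : t ≤ t')
    (hr : r ≤ r') (hw : w ≤ w') (hb : b ≤ b') (hβ : β' ≤ β) : Lv t' r' w' b' β' := by
  obtain ⟨g, E, P, Rz, Δ, U, M, hI, h1, h2, h3, h4, h5⟩ := h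
  refine ⟨g, E, P, Rz, Δ, U, M, hI, h1.trans (Nat.pow_le_pow_right (by norm_num) ht),
    h2.trans (Nat.pow_le_pow_right (by norm_num) hr),
    h3.trans (Nat.pow_le_pow_right (by norm_num) hw),
    h4.trans (Nat.pow_le_pow_right (by norm_num) hb), ?_⟩
  refine le_trans ?_ h5
  apply mul_le_mul_of_nonneg_right _ (by norm_num)
  exact mul_le_mul_of_nonneg_right hβ (by positivity)

/-- total multiplicity -/
def Mu (A : ℕ) : ℕ → ℕ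
  | 0 => 1
  | s + 1 => A * (s + 1) ^ 2 * Mu A s

lemma Mu_pos {A : ℕ} (hA : 1 ≤ A) (s : ℕ) : 1 ≤ Mu A s := by
  induction s with
  | zero => exact le_rfl
  | succ s ih => exact Nat.mul_pos (Nat.mul_pos hA (by positivity)) ih

lemma Mu_ge {A : ℕ} (hA : 2 ≤ A) (s : ℕ) : s + 2 ≤ 2 * Mu A s := by
  induction s with
  | zero => simp [Mu]
  | succ s ih =>
    have h1 : 2 * 1 * Mu A s ≤ A * (s + 1) ^ 2 * Mu A s := by
      apply Nat.mul_le_mul_right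
      exact Nat.mul_le_mul hA (Nat.one_le_pow _ _ (by omega))
    have h2 := Mu_pos (A := A) (by omega) s
    simp only [Mu]
    omega

/-- growth of the resolution -/
lemma rec_r {A ρ Bh n m b : ℕ} (hA : 41 ≤ A) (hρ : 36 + 3 * (Bh * A) ≤ ρ) (hn : 1 ≤ n) (hm : 1 ≤ m)
    (hb : b ≤ Bh * m) :
    41 + 4 * ρ * n ^ 4 * m + 3 * (ρ * n ^ 3 * m) + (A * n ^ 2) * (35 + ρ * n ^ 3 * m) +
      b * ((A * n ^ 2) ^ 2 + 2 * (A * n ^ 2)) ≤ ρ * (n + 1) ^ 3 * (A * n ^ 2 * m) := by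
  set a := A * n ^ 2 * m with ha
  have hn2 : 1 ≤ n ^ 2 := Nat.one_le_pow _ _ hn
  have a1 : 41 ≤ a := by
    calc 41 = 41 * 1 * 1 := by norm_num
      _ ≤ A * n ^ 2 * m := Nat.mul_le_mul (Nat.mul_le_mul hA hn2) hm
  have a2 : 4 * ρ * n ^ 4 * m ≤ ρ * n ^ 2 * a := by
    calc 4 * ρ * n ^ 4 * m = ρ * n ^ 2 * (4 * n ^ 2 * m) := by ring
      _ ≤ ρ * n ^ 2 * (A * n ^ 2 * m) := by
        apply Nat.mul_le_mul_left
        apply Nat.mul_le_mul_right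
        exact Nat.mul_le_mul_right _ (by omega)
  have a3 : 3 * (ρ * n ^ 3 * m) ≤ ρ * n * a := by
    calc 3 * (ρ * n ^ 3 * m) = ρ * n * (3 * n ^ 2 * m) := by ring
      _ ≤ ρ * n * (A * n ^ 2 * m) := by
        apply Nat.mul_le_mul_left
        apply Nat.mul_le_mul_right
        exact Nat.mul_le_mul_right _ (by omega)
  have a4 : (A * n ^ 2) * (35 + ρ * n ^ 3 * m) ≤ 35 * a + ρ * n ^ 3 * a := by
    calc (A * n ^ 2) * (35 + ρ * n ^ 3 * m) = 35 * (A * n ^ 2 * 1) + ρ * n ^ 3 * a := by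
          rw [ha]; ring
      _ ≤ 35 * a + ρ * n ^ 3 * a := by
          apply Nat.add_le_add_right
          apply Nat.mul_le_mul_left
          exact Nat.mul_le_mul_left _ hm
  have a5 : b * ((A * n ^ 2) ^ 2 + 2 * (A * n ^ 2)) ≤ 3 * (Bh * A) * n ^ 2 * a := by
    have h1 : 1 ≤ A * n ^ 2 := Nat.mul_pos (by omega) hn2
    calc b * ((A * n ^ 2) ^ 2 + 2 * (A * n ^ 2))
        ≤ (Bh * m) * ((A * n ^ 2) ^ 2 + 2 * (A * n ^ 2)) := Nat.mul_le_mul_right _ hb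
      _ ≤ (Bh * m) * (3 * (A * n ^ 2) ^ 2) := by
          apply Nat.mul_le_mul_left
          nlinarith
      _ = 3 * (Bh * A) * n ^ 2 * a := by rw [ha]; ring
  have a6 : 3 * (Bh * A) * n ^ 2 * a + 36 * n ^ 2 * a ≤ ρ * n ^ 2 * a := by
    calc _ = (36 + 3 * (Bh * A)) * n ^ 2 * a := by ring
      _ ≤ ρ * n ^ 2 * a := Nat.mul_le_mul_right _ (Nat.mul_le_mul_right _ hρ)
  have a7 : 36 * 1 * a ≤ 36 * n ^ 2 * a := Nat.mul_le_mul_right _ (Nat.mul_le_mul_left _ hn2)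
  have e1 : ρ * (n + 1) ^ 3 * a = ρ * n ^ 3 * a + 3 * (ρ * n ^ 2 * a) + 3 * (ρ * n * a) + ρ * a := by
    ring
  rw [e1]
  omega

/-- growth of the margins -/
lemma rec_w {A ρ Bh n m b : ℕ} (hA : 41 ≤ A) (hρ : 36 + 3 * (Bh * A) ≤ ρ) (hn : 1 ≤ n) (hm : 1 ≤ m)
    (hb : b ≤ Bh * m) :
    48 + 4 * ρ * n ^ 4 * m + 3 * (ρ * n ^ 3 * m) +
      (A * n ^ 2) * (131 + 6 * (ρ * n ^ 3 * m) + 4 * ρ * n ^ 4 * m) +
      b * (4 * (A * n ^ 2) ^ 2 + 2 * (A * n ^ 2)) ≤ 4 * ρ * (n + 1) ^ 4 * (A * n ^ 2 * m) := by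
  set a := A * n ^ 2 * m with ha
  have hn2 : 1 ≤ n ^ 2 := Nat.one_le_pow _ _ hn
  have hn3 : 1 ≤ n ^ 3 := Nat.one_le_pow _ _ hn
  have a1 : 48 ≤ 2 * a := by
    have : 41 ≤ a := by
      calc 41 = 41 * 1 * 1 := by norm_num
        _ ≤ A * n ^ 2 * m := Nat.mul_le_mul (Nat.mul_le_mul hA hn2) hm
    omega
  have a2 : 4 * ρ * n ^ 4 * m ≤ ρ * n ^ 2 * a := by
    calc 4 * ρ * n ^ 4 * m = ρ * n ^ 2 * (4 * n ^ 2 * m) := by ring
      _ ≤ ρ * n ^ 2 * (A * n ^ 2 * m) := by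
        apply Nat.mul_le_mul_left
        apply Nat.mul_le_mul_right
        exact Nat.mul_le_mul_right _ (by omega)
  have a3 : 3 * (ρ * n ^ 3 * m) ≤ ρ * n * a := by
    calc 3 * (ρ * n ^ 3 * m) = ρ * n * (3 * n ^ 2 * m) := by ring
      _ ≤ ρ * n * (A * n ^ 2 * m) := by
        apply Nat.mul_le_mul_left
        apply Nat.mul_le_mul_right
        exact Nat.mul_le_mul_right _ (by omega)
  have a4 : (A * n ^ 2) * (131 + 6 * (ρ * n ^ 3 * m) + 4 * ρ * n ^ 4 * m) ≤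
      131 * a + 6 * (ρ * n ^ 3 * a) + 4 * (ρ * n ^ 4 * a) := by
    calc (A * n ^ 2) * (131 + 6 * (ρ * n ^ 3 * m) + 4 * ρ * n ^ 4 * m)
        = 131 * (A * n ^ 2 * 1) + (6 * (ρ * n ^ 3 * a) + 4 * (ρ * n ^ 4 * a)) := by
          rw [ha]; ring
      _ ≤ 131 * a + (6 * (ρ * n ^ 3 * a) + 4 * (ρ * n ^ 4 * a)) := by
          apply Nat.add_le_add_right
          apply Nat.mul_le_mul_left
          exact Nat.mul_le_mul_left _ hm
      _ = _ := by ring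
  have a5 : b * (4 * (A * n ^ 2) ^ 2 + 2 * (A * n ^ 2)) ≤ 6 * (Bh * A) * n ^ 2 * a := by
    have h1 : 1 ≤ A * n ^ 2 := Nat.mul_pos (by omega) hn2
    calc b * (4 * (A * n ^ 2) ^ 2 + 2 * (A * n ^ 2))
        ≤ (Bh * m) * (4 * (A * n ^ 2) ^ 2 + 2 * (A * n ^ 2)) := Nat.mul_le_mul_right _ hb
      _ ≤ (Bh * m) * (6 * (A * n ^ 2) ^ 2) := by
          apply Nat.mul_le_mul_left
          nlinarith
      _ = 6 * (Bh * A) * n ^ 2 * a := by rw [ha]; ring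
  have a6 : 3 * (Bh * A) * n ^ 2 * a + 36 * n ^ 2 * a ≤ ρ * n ^ 2 * a := by
    calc _ = (36 + 3 * (Bh * A)) * n ^ 2 * a := by ring
      _ ≤ ρ * n ^ 2 * a := Nat.mul_le_mul_right _ (Nat.mul_le_mul_right _ hρ)
  have a7 : 36 * 1 * a ≤ 36 * n ^ 2 * a := Nat.mul_le_mul_right _ (Nat.mul_le_mul_left _ hn2)
  have a8 : ρ * n ^ 2 * a ≤ ρ * n ^ 3 * a := by
    apply Nat.mul_le_mul_right
    apply Nat.mul_le_mul_left
    exact Nat.pow_le_pow_right hn (by norm_num)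
  have e1 : 4 * ρ * (n + 1) ^ 4 * a = 4 * (ρ * n ^ 4 * a) + 16 * (ρ * n ^ 3 * a) +
      24 * (ρ * n ^ 2 * a) + 16 * (ρ * n * a) + 4 * (ρ * a) := by ring
  have e2 : 6 * (Bh * A) * n ^ 2 * a = 2 * (3 * (Bh * A) * n ^ 2 * a) := by ring
  rw [e1]
  omega

/-- growth of the number of lines -/
lemma rec_t {A ρ τ Bh n m b : ℕ} (hA : 41 ≤ A) (hρ : 36 + 3 * (Bh * A) ≤ ρ) (hτ : 19 + ρ ≤ τ)
    (hn : 1 ≤ n) (hm : 1 ≤ m) (hb : b ≤ Bh * m) :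
    1 + (A * n ^ 2) * (18 + τ * n ^ 4 * m + ρ * n ^ 3 * m) + b * (A * n ^ 2) ^ 2 ≤
      τ * (n + 1) ^ 4 * (A * n ^ 2 * m) := by
  set a := A * n ^ 2 * m with ha
  have hn2 : 1 ≤ n ^ 2 := Nat.one_le_pow _ _ hn
  have hn3 : 1 ≤ n ^ 3 := Nat.one_le_pow _ _ hn
  have a1 : 1 ≤ a := by
    calc 1 = 1 * 1 * 1 := by norm_num
      _ ≤ A * n ^ 2 * m := Nat.mul_le_mul (Nat.mul_le_mul (by omega) hn2) hm
  have a4 : (A * n ^ 2) * (18 + τ * n ^ 4 * m + ρ * n ^ 3 * m) ≤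
      18 * a + (τ * n ^ 4 * a + ρ * n ^ 3 * a) := by
    calc (A * n ^ 2) * (18 + τ * n ^ 4 * m + ρ * n ^ 3 * m)
        = 18 * (A * n ^ 2 * 1) + (τ * n ^ 4 * a + ρ * n ^ 3 * a) := by
          rw [ha]; ring
      _ ≤ _ := by
          apply Nat.add_le_add_right
          apply Nat.mul_le_mul_left
          exact Nat.mul_le_mul_left _ hm
  have a5 : b * (A * n ^ 2) ^ 2 ≤ Bh * A * n ^ 2 * a := by
    calc b * (A * n ^ 2) ^ 2 ≤ (Bh * m) * (A * n ^ 2) ^ 2 := Nat.mul_le_mul_right _ hb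
      _ = Bh * A * n ^ 2 * a := by rw [ha]; ring
  have a6 : Bh * A * n ^ 2 * a ≤ ρ * n ^ 3 * a := by
    apply Nat.mul_le_mul_right
    exact Nat.mul_le_mul (by omega) (Nat.pow_le_pow_right hn (by norm_num))
  have a7 : (19 + ρ) * n ^ 3 * a ≤ τ * n ^ 3 * a := Nat.mul_le_mul_right _ (Nat.mul_le_mul_right _ hτ)
  have a8 : 19 * 1 * a ≤ 19 * n ^ 3 * a := Nat.mul_le_mul_right _ (Nat.mul_le_mul_left _ hn3)
  have e2 : (19 + ρ) * n ^ 3 * a = 19 * n ^ 3 * a + ρ * n ^ 3 * a := by ring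
  have e1 : τ * (n + 1) ^ 4 * a = τ * n ^ 4 * a + 4 * (τ * n ^ 3 * a) +
      6 * (τ * n ^ 2 * a) + 4 * (τ * n * a) + τ * a := by ring
  rw [e1]
  omega

/-- the ratios survive the choice of the class of events -/
lemma rec_beta {A n m : ℕ} {ρ X : ℝ} (hA : 1 ≤ A) (hn : 1 ≤ n) (hm : 1 ≤ m) (hnm : n + 1 ≤ 2 * m)
    (hρ0 : 0 ≤ ρ) (hρ : ρ + 4 ≤ A * X) (hX : 0 ≤ X) (hAX : 138 * X * 42 ^ 7 ≤ A ^ 5) :
    Real.exp (1 / 3 * (1 + 1 / (n + 1)) * (A * n ^ 2 * m)) * (4.3 * (ρ * (n + 1) ^ 3 *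
      (A * n ^ 2 * m) + 4)) ≤ Real.exp (1 / 3 * (1 + 1 / n) * (A * n ^ 2 * m)) := by
  have hn0 : (1:ℝ) ≤ n := by exact_mod_cast hn
  have hm0 : (1:ℝ) ≤ m := by exact_mod_cast hm
  have hA0 : (1:ℝ) ≤ A := by exact_mod_cast hA
  have hnm0 : (n:ℝ) + 1 ≤ 2 * m := by exact_mod_cast hnm
  have e1 : (1:ℝ) / 3 * (1 + 1 / n) * (A * n ^ 2 * m) =
      1 / 3 * (1 + 1 / (n + 1)) * (A * n ^ 2 * m) + A * m / 3 * (n / (n + 1)) := by
    field_simp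
    ring
  rw [e1, Real.exp_add]
  apply mul_le_mul_of_nonneg_left _ (Real.exp_nonneg _)
  set y : ℝ := A * m / 42 with hy
  have hy0 : 0 ≤ y := by positivity
  have h1 : 7 * y ≤ A * m / 3 * (n / (n + 1)) := by
    have h2 : (1:ℝ) / 2 ≤ n / (n + 1) := by
      rw [div_le_div_iff₀ (by norm_num) (by positivity)]; linarith
    calc 7 * y = A * m / 3 * (1 / 2) := by rw [hy]; ring
      _ ≤ A * m / 3 * (n / (n + 1)) := mul_le_mul_of_nonneg_left h2 (by positivity)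
  have h3 : y ^ 7 ≤ Real.exp (A * m / 3 * (n / (n + 1))) := by
    calc y ^ 7 ≤ (Real.exp y) ^ 7 :=
          pow_le_pow_left₀ hy0 (by linarith [Real.add_one_le_exp y]) 7
      _ = Real.exp (7 * y) := by rw [← Real.exp_nat_mul]; norm_num
      _ ≤ _ := Real.exp_le_exp.mpr h1
  refine le_trans ?_ h3
  -- polynomial estimate
  have hp1 : (1:ℝ) ≤ (n + 1) ^ 3 * (A * n ^ 2 * m) := by
    have a1 : (1:ℝ) ≤ (n + 1) ^ 3 := one_le_pow₀ (by linarith)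
    have a2 : (1:ℝ) ≤ n ^ 2 := one_le_pow₀ hn0
    have a3 : (1:ℝ) ≤ A * n ^ 2 * m := by
      have : (1:ℝ) ≤ A * n ^ 2 := by nlinarith
      nlinarith
    nlinarith
  have h4 : ρ * (n + 1) ^ 3 * (A * n ^ 2 * m) + 4 ≤ (ρ + 4) * ((n + 1) ^ 3 * (A * n ^ 2 * m)) := by
    nlinarith
  have h5 : ((n:ℝ) + 1) ^ 3 * (A * n ^ 2 * m) ≤ 32 * (A * m ^ 6) := by
    have a1 : ((n:ℝ) + 1) ^ 3 ≤ (2 * m) ^ 3 := pow_le_pow_left₀ (by positivity) hnm0 3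
    have a2 : (n:ℝ) ^ 2 ≤ (2 * m) ^ 2 := pow_le_pow_left₀ (by positivity) (by linarith) 2
    calc ((n:ℝ) + 1) ^ 3 * ((A:ℝ) * (n:ℝ) ^ 2 * (m:ℝ)) ≤
        (2 * (m:ℝ)) ^ 3 * ((A:ℝ) * (2 * (m:ℝ)) ^ 2 * (m:ℝ)) := by
          apply mul_le_mul a1 _ (by positivity) (by positivity)
          apply mul_le_mul_of_nonneg_right _ (by positivity)
          exact mul_le_mul_of_nonneg_left a2 (by positivity)
      _ = 32 * ((A:ℝ) * (m:ℝ) ^ 6) := by ring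
  have h6 : 4.3 * (ρ * (n + 1) ^ 3 * (A * n ^ 2 * m) + 4) ≤
      138 * ((A:ℝ) * X) * ((A:ℝ) * (m:ℝ) ^ 6) := by
    have a1 : (ρ + 4) * (((n:ℝ) + 1) ^ 3 * ((A:ℝ) * (n:ℝ) ^ 2 * (m:ℝ))) ≤
        ((A:ℝ) * X) * (32 * ((A:ℝ) * (m:ℝ) ^ 6)) :=
      mul_le_mul hρ h5 (by positivity) (by positivity)
    have a2 : 0 ≤ (A * X) * (A * (m:ℝ) ^ 6) := by positivity
    linarith
  refine h6.trans ?_
  have e2 : y ^ 7 = A ^ 5 * (A ^ 2 * m ^ 7) / 42 ^ 7 := by rw [hy]; ring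
  rw [e2, le_div_iff₀ (by positivity)]
  have h7 : (0:ℝ) ≤ A ^ 2 * m ^ 6 := by positivity
  have h8 := mul_le_mul_of_nonneg_right hAX h7
  have h9 : (A:ℝ) ^ 5 * (A ^ 2 * m ^ 6) * 1 ≤ A ^ 5 * (A ^ 2 * m ^ 6) * m :=
    mul_le_mul_of_nonneg_left hm0 (by positivity)
  calc 138 * ((A:ℝ) * X) * ((A:ℝ) * (m:ℝ) ^ 6) * 42 ^ 7 =
      138 * X * 42 ^ 7 * ((A:ℝ) ^ 2 * (m:ℝ) ^ 6) := by ring
    _ ≤ (A:ℝ) ^ 5 * ((A:ℝ) ^ 2 * (m:ℝ) ^ 6) := h8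
    _ ≤ (A:ℝ) ^ 5 * ((A:ℝ) ^ 2 * (m:ℝ) ^ 6) * m := by linarith
    _ = (A:ℝ) ^ 5 * ((A:ℝ) ^ 2 * (m:ℝ) ^ 7) := by ring

/-- the blocks of all levels -/
theorem levels : ∃ A ρ τ Bh : ℕ, 41 ≤ A ∧ 1 ≤ Bh ∧ ∀ s, Lv (τ * (s + 1) ^ 4 * Mu A s)
    (ρ * (s + 1) ^ 3 * Mu A s) (4 * ρ * (s + 1) ^ 4 * Mu A s) (Bh * Mu A s - 1)
    (Real.exp (1 / 3 * (1 + 1 / ((s:ℝ) + 1)) * Mu A s)) := by
  obtain ⟨g, E, P, Rz, Δ, U, M, hI, hr⟩ := base_block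
  set Bh := 50 * P + 1 with hBh
  set ρ₀ := Rz + U * M with hρ₀
  obtain ⟨A, hA41, hA⟩ : ∃ A : ℕ, 41 ≤ A ∧
      138 * ((36 + 3 * Bh + ρ₀ + 4 : ℕ) : ℝ) * 42 ^ 7 ≤ (A:ℝ) ^ 5 := by
    refine ⟨138 * (36 + 3 * Bh + ρ₀ + 4) * 42 ^ 7, ?_, ?_⟩
    · calc 41 ≤ 138 * 1 * 42 ^ 7 := by norm_num
        _ ≤ 138 * (36 + 3 * Bh + ρ₀ + 4) * 42 ^ 7 :=
          Nat.mul_le_mul_right _ (Nat.mul_le_mul_left _ (by omega))
    · push_cast
      set z : ℝ := 138 * (36 + 3 * (Bh:ℝ) + ρ₀ + 4) * 42 ^ 7 with hz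
      have h1 : (1:ℝ) ≤ z := by
        have h2 : (0:ℝ) ≤ 3 * (Bh:ℝ) + ρ₀ := by positivity
        rw [hz]
        calc (1:ℝ) ≤ 138 * 1 * 42 ^ 7 := by norm_num
          _ ≤ 138 * (36 + 3 * (Bh:ℝ) + ρ₀ + 4) * 42 ^ 7 := by
              apply mul_le_mul_of_nonneg_right _ (by positivity)
              apply mul_le_mul_of_nonneg_left _ (by norm_num)
              linarith
      calc z = z ^ 1 := (pow_one z).symm
        _ ≤ z ^ 5 := pow_le_pow_right₀ h1 (by norm_num)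
        _ = _ := by rw [hz]; norm_num
  set ρ := 36 + 3 * (Bh * A) + ρ₀ with hρ
  set τ := 19 + ρ + g with hτ
  refine ⟨A, ρ, τ, Bh, hA41, by omega, ?_⟩
  intro s
  induction s with
  | zero =>
    have h0 : Lv g Rz (U * M) (50 * P) 2 :=
      ⟨g, E, P, Rz, Δ, U, M, hI, Nat.lt_two_pow_self.le, Nat.lt_two_pow_self.le,
        Nat.lt_two_pow_self.le, Nat.lt_two_pow_self.le, hr⟩
    refine h0.mono ?_ ?_ ?_ ?_ ?_
    · simp only [Mu]; omega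
    · simp only [Mu]; omega
    · simp only [Mu]; omega
    · simp only [Mu]; omega
    · simp only [Mu]
      have h1 : Real.exp (1 / 3 * (1 + 1 / (((0:ℕ):ℝ) + 1)) * ((1:ℕ):ℝ)) = Real.exp (2 / 3) := by
        congr 1; norm_num
      rw [h1]
      have h2 : Real.exp (2 / 3) ^ 3 ≤ 2 ^ 3 := by
        rw [← Real.exp_nat_mul]
        have h3 : ((3:ℕ):ℝ) * (2 / 3) = 1 + 1 := by norm_num
        rw [h3, Real.exp_add]
        have h4 := Real.exp_one_lt_d9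
        have h5 := Real.exp_pos 1
        nlinarith
      exact le_of_pow_le_pow_left₀ (by norm_num) (by norm_num) h2
  | succ s ih =>
    have hm := Mu_pos (A := A) (by omega) s
    have hi : 1 ≤ A * (s + 1) ^ 2 := Nat.mul_pos (by omega) (by positivity)
    have h1 := ih.step (Real.exp_nonneg _) (A * (s + 1) ^ 2) hi
    have hb : Bh * Mu A s - 1 ≤ Bh * Mu A s := Nat.sub_le _ _
    have hMu : Mu A (s + 1) = A * (s + 1) ^ 2 * Mu A s := rfl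
    have hn : 1 ≤ s + 1 := by omega
    have hrr := rec_r (A := A) (ρ := ρ) (Bh := Bh) (n := s + 1) (m := Mu A s) hA41 (by omega) hn hm hb
    refine h1.mono ?_ ?_ ?_ ?_ ?_
    · rw [hMu]
      exact rec_t (A := A) (ρ := ρ) (τ := τ) (Bh := Bh) hA41 (by omega) (by omega) hn hm hb
    · rw [hMu]; exact hrr
    · rw [hMu]
      exact rec_w (A := A) (ρ := ρ) (Bh := Bh) hA41 (by omega) hn hm hb
    · rw [hMu]
      have h2 : 1 ≤ Bh * Mu A s := Nat.mul_pos (by omega) hm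
      have h3 : A * (s + 1) ^ 2 * (Bh * Mu A s - 1) + A * (s + 1) ^ 2 =
          Bh * (A * (s + 1) ^ 2 * Mu A s) := by
        obtain ⟨x, hx⟩ : ∃ x, Bh * Mu A s = x + 1 := ⟨Bh * Mu A s - 1, by omega⟩
        have h4 : Bh * (A * (s + 1) ^ 2 * Mu A s) = A * (s + 1) ^ 2 * (Bh * Mu A s) := by ring
        rw [h4, hx, Nat.add_sub_cancel]; ring
      have h4 : 41 ≤ A * (s + 1) ^ 2 := by
        calc 41 = 41 * 1 := by norm_num
          _ ≤ A * (s + 1) ^ 2 := Nat.mul_le_mul hA41 (Nat.one_le_pow _ _ (by omega))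
      omega
    · set r' := 41 + 4 * ρ * (s + 1) ^ 4 * Mu A s + 3 * (ρ * (s + 1) ^ 3 * Mu A s) +
        A * (s + 1) ^ 2 * (35 + ρ * (s + 1) ^ 3 * Mu A s) +
        (Bh * Mu A s - 1) * ((A * (s + 1) ^ 2) ^ 2 + 2 * (A * (s + 1) ^ 2)) with hr'
      have h2 : (r':ℝ) ≤ ρ * ((s:ℝ) + 1 + 1) ^ 3 * (A * ((s:ℝ) + 1) ^ 2 * Mu A s) := by
        have h3 : (r':ℝ) ≤ ((ρ * (s + 1 + 1) ^ 3 * (A * (s + 1) ^ 2 * Mu A s) : ℕ) : ℝ) := by
          exact_mod_cast hrr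
        push_cast at h3
        exact h3
      have h4 := rec_beta (A := A) (n := s + 1) (m := Mu A s) (ρ := (ρ:ℝ))
        (X := ((36 + 3 * Bh + ρ₀ + 4 : ℕ) : ℝ)) (by omega) hn hm
        (by have := Mu_ge (A := A) (by omega) s; omega) (by positivity)
        (by
          have h5 : ρ + 4 ≤ A * (36 + 3 * Bh + ρ₀ + 4) := by
            rw [hρ]
            have h6 : 1 * (36 + ρ₀ + 4) ≤ A * (36 + ρ₀ + 4) := Nat.mul_le_mul_right _ (by omega)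
            have h7 : A * (36 + 3 * Bh + ρ₀ + 4) = A * (36 + ρ₀ + 4) + 3 * (Bh * A) := by ring
            omega
          exact_mod_cast h5) (by positivity) hA
      push_cast at h4
      have h5 : ((Mu A (s + 1) : ℕ) : ℝ) = A * ((s:ℝ) + 1) ^ 2 * Mu A s := by
        rw [hMu]; push_cast; ring
      rw [h5]
      push_cast
      rw [← Real.exp_nat_mul]
      rw [le_div_iff₀ (by positivity)]
      have h6 : ((A * (s + 1) ^ 2 : ℕ) : ℝ) * (1 / 3 * (1 + 1 / ((s:ℝ) + 1)) * (Mu A s)) =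
        1 / 3 * (1 + 1 / ((s:ℝ) + 1)) * (A * ((s:ℝ) + 1) ^ 2 * Mu A s) := by push_cast; ring
      rw [h6]
      set Ex := Real.exp (1 / 3 * (1 + 1 / ((s:ℝ) + 1 + 1)) * (A * ((s:ℝ) + 1) ^ 2 * Mu A s)) with hEx
      have hEx0 : 0 ≤ Ex := Real.exp_nonneg _
      have h7 : Ex * ((r':ℝ) + 4) ≤ Ex * (ρ * ((s:ℝ) + 1 + 1) ^ 3 * (A * ((s:ℝ) + 1) ^ 2 * Mu A s) + 4) :=
        mul_le_mul_of_nonneg_left (by linarith) hEx0
      have h8 : 0 ≤ Ex * (ρ * ((s:ℝ) + 1 + 1) ^ 3 * (A * ((s:ℝ) + 1) ^ 2 * Mu A s) + 4) := by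
        positivity
      have h9 : Ex * (4.3 * (ρ * ((s:ℝ) + 1 + 1) ^ 3 * (A * ((s:ℝ) + 1) ^ 2 * Mu A s) + 4)) =
        4.3 * (Ex * (ρ * ((s:ℝ) + 1 + 1) ^ 3 * (A * ((s:ℝ) + 1) ^ 2 * Mu A s) + 4)) := by ring
      rw [h9] at h4
      have h10 := mul_le_mul_of_nonneg_left h4 (by norm_num : (0:ℝ) ≤ 2500 / 10506)
      refine h7.trans (le_trans ?_ h10)
      linarith

end Pool.Agent.N35.HL
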