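import Pool.Agent.N35.HL.Height

/-!
# Signs and sizes of the heights for all classes of lines
-/

set_option linter.unusedSectionVars false
set_option linter.unusedVariables false
set_option maxHeartbeats 1000000

namespace Pool.Agent.N35.HL

open Finset

section

variable {A R H G R₂ H₂ : Type} [Fintype A] [Fintype H] [Fintype G]
  {O : Out A R H} {I : Inn G R₂ H₂} {p : Prm} {K : Finset G}
  {k₁ K₁ k₂ Rd₀ : ℕ} {φ' q Dl U M L : ℝ}
  (hO : O.Good k₁ K₁ p.φ q Dl L Rd₀) (hI : I.Good k₂ p.Rz p.Δ U M) (h : p.OK φ' q Dl U M)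

/-- the small relative margin of the composition -/
noncomputable def Prm.qs (p : Prm) (M : ℝ) : ℝ := p.ε * p.κ / (4 * M * p.Rz)

include h

lemma Prm.OK.qs0 : 0 < p.qs M := by
  have := h.hε0
  have := h.hκ0
  have := h.hM
  have := h.Rz1
  unfold Prm.qs
  positivity

lemma Prm.OK.qs1 : p.qs M ≤ p.ε * p.κ / 4 := by
  have h1 := h.hε0
  have h2 := h.hκ0
  have h3 := h.hM
  have h4 := h.Rz1
  unfold Prm.qs
  have h5 : 1 ≤ M * p.Rz := by nlinarith
  have h6 : p.ε * p.κ / (4 * M * p.Rz) = p.ε * p.κ / 4 / (M * p.Rz) := by field_simp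
  rw [h6]
  exact div_le_self (by positivity) h5

/-- the small margin is far below the outer margin -/
lemma Prm.OK.qs2 : p.qs M ≤ p.φ * q / 64 := by
  have h1 := h.qs1
  have h2 := h.κle
  have h3 := h.lle
  have h4 := h.hε0
  have h5 := h.hε1
  have h6 := h.Nx1
  have h7 : p.ε * p.κ ≤ p.ε * 1 := mul_le_mul_of_nonneg_left (by linarith) h4.le
  have h8 : p.ε * 7 ≤ p.ε * (p.Nx + 6) := mul_le_mul_of_nonneg_left (by linarith) h4.le
  have h9 : 0 < p.φ * q := mul_pos h.hφ0 h.hq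
  linarith

include hO hI

/-- relative slope of the first line of an event -/
lemma tp_bd (e : R) (α : G) : 0 ≤ tp O I p e α ∧ tp O I p e α ≤ 2 * p.φ := by
  obtain ⟨q1, q2⟩ := h.psi_bd I α (hI.hσ α)
  obtain ⟨-, r2⟩ := h.rnd_small
  have h1 := abs_le.mp (tp_err (I := I) hO h e α)
  have h2 := h.hφ0
  constructor <;> linarith [h1.1, h1.2]

omit hI in
lemma cs_ca (e : Ev' R R₂ p.Nx p.V₁) :
    cs O I p (ca O I p e) = O.s (O.a e.1) - tp O I p e.1 (I.a e.2.2.2) * O.D e.1 := by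
  simp only [ca, pl, cs]
  rw [rho_own hO h]
  simp [sg]

omit hI in
lemma cs_cb (e : Ev' R R₂ p.Nx p.V₁) :
    cs O I p (cb O I p e) = O.s (O.a e.1) - tp O I p e.1 (I.b e.2.2.2) * O.D e.1 := by
  simp only [cb, pl, cs]
  rw [rho_own hO h]
  simp [sg]

variable {e : Ev' R R₂ p.Nx p.V₁} {P W : ℝ} (c : Pos O I p K M e P W)

include c

/-! ### Bundles not through the event -/

lemma off_T {l : A} (hla : l ≠ O.a e.1) (hlb : l ≠ O.b e.1) (i : Fin p.Nx) (α : G)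
    (β : Fin p.V) :
    ((comp O I p K).F (l, Sum.inl (i, (α, β))) e < 0 ↔ O.F l e.1 < 0) ∧
    7 / 32 * (p.φ * q) ≤ |(comp O I p K).F (l, Sum.inl (i, (α, β))) e| ∧
    p.φ * q / 64 * |cs O I p (l, Sum.inl (i, (α, β))) - cs O I p (ca O I p e)| ≤
      |(comp O I p K).F (l, Sum.inl (i, (α, β))) e| * O.D e.1 := by
  have hD := Dpos hO h e.1
  have cl := c.cl h hI
  obtain ⟨u1, u2⟩ := cl.uv h
  have hNx := h.Nx1
  have hφ := h.hφ0
  have hδ := h.δ0
  have hφ1 := h.hφ1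
  have hφle := h.φle
  have hδV := h.δV
  have hi : ((i:ℕ):ℝ) + 1 ≤ p.Nx := by exact_mod_cast i.2
  have hτ : |tau K α| ≤ 1 := by unfold tau; split_ifs <;> norm_num [abs_le]
  have hτ' := abs_le.mp hτ
  have hval : ((I.σ α * (i:ℕ) + (β:ℕ) : ℕ) : ℝ) ≤ p.Rz * p.Nx + p.V := by
    have h1 : I.σ α * (i:ℕ) + (β:ℕ) ≤ p.Rz * p.Nx + p.V :=
      Nat.add_le_add (Nat.mul_le_mul (hI.hσ α) i.2.le) β.2.le
    exact_mod_cast h1
  have hval0 : (0:ℝ) ≤ ((I.σ α * (i:ℕ) + (β:ℕ) : ℕ) : ℝ) := by positivity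
  have hw : |(-p.φ * (i:ℕ) - p.δ * (((I.σ α * (i:ℕ) + (β:ℕ) : ℕ) : ℝ) + tau K α)) -
        (-p.φ * P - p.δ * W)| ≤ p.Nx + 6 := by
    have h1 : |p.δ * (((I.σ α * (i:ℕ) + (β:ℕ) : ℕ) : ℝ) + tau K α)| ≤ 1 := by
      rw [abs_mul, abs_of_pos hδ]
      have h2 : |(((I.σ α * (i:ℕ) + (β:ℕ) : ℕ) : ℝ) + tau K α)| ≤ p.Rz * p.Nx + p.V + 1 := by
        rw [abs_le]; constructor <;> linarith [hτ'.1, hτ'.2]
      have := mul_le_mul_of_nonneg_left h2 hδ.le
      linarith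
    have h2 : 0 ≤ p.φ * ((i:ℕ):ℝ) := by positivity
    have h3 : p.φ * ((i:ℕ):ℝ) ≤ p.φ * (p.Nx + 1) := mul_le_mul_of_nonneg_left (by linarith) hφ.le
    have h4 := abs_le.mp h1
    have h5 := abs_le.mp u2
    rw [abs_le]; constructor <;> linarith [h4.1, h4.2, h5.1, h5.2]
  have hF1 := hO.g1 e.1 l hla hlb
  have hF2 := hO.g2 e.1 l hla hlb
  have hq := h.hq
  obtain ⟨g1, g2, g3, g4, g5⟩ := gen_far (F := O.F l e.1) (dd := 0) (dx := 0) (ρ := 0) (σ := 1)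
    (s := O.s l - O.s (O.a e.1)) (F' := (comp O I p K).F (l, Sum.inl (i, (α, β))) e) h hD
    (u1.trans (by linarith)) hw le_rfl le_rfl (by simp) (by simp) (Or.inl rfl)
    (Or.inl (by simp)) (Or.inl (by linarith)) (Or.inl ⟨hF1, hF2, Or.inl rfl⟩)
    (by rw [F_T e c]; ring)
  refine ⟨by simpa using g1, g4, ?_⟩
  obtain ⟨t1, t2⟩ := tp_bd hO hI h e.1 (I.a e.2.2.2)
  have := g5 _ t1 t2
  rw [cs_ca hO h]
  simp only [cs]
  refine le_trans (le_of_eq ?_) this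
  congr 2; ring

lemma off_W {l : A} (hla : l ≠ O.a e.1) (hlb : l ≠ O.b e.1) (w : Fin p.Nx) (z : G × Fin p.V) :
    ((comp O I p K).F (l, Sum.inr (Sum.inl (w, z))) e < 0 ↔ O.F l e.1 < 0) ∧
    7 / 32 * (p.φ * q) ≤ |(comp O I p K).F (l, Sum.inr (Sum.inl (w, z))) e| ∧
    p.φ * q / 64 * |cs O I p (l, Sum.inr (Sum.inl (w, z))) - cs O I p (ca O I p e)| ≤
      |(comp O I p K).F (l, Sum.inr (Sum.inl (w, z))) e| * O.D e.1 := by
  have hD := Dpos hO h e.1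
  have cl := c.cl h hI
  obtain ⟨u1, u2⟩ := cl.uv h
  have hNx := h.Nx1
  have hi : ((w:ℕ):ℝ) + 1 ≤ p.Nx := by exact_mod_cast w.2
  have hi0 : (0:ℝ) ≤ ((w:ℕ):ℝ) := by positivity
  have hw : |(1 + ((w:ℕ):ℝ)) - (-p.φ * P - p.δ * W)| ≤ p.Nx + 6 := by
    have h5 := abs_le.mp u2
    rw [abs_le]; constructor <;> linarith [h5.1, h5.2]
  have hF1 := hO.g1 e.1 l hla hlb
  have hF2 := hO.g2 e.1 l hla hlb
  have hq := h.hq
  obtain ⟨g1, g2, g3, g4, g5⟩ := gen_far (F := O.F l e.1) (dd := 0) (dx := 0) (ρ := 0) (σ := 1)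
    (s := O.s l - O.s (O.a e.1)) (F' := (comp O I p K).F (l, Sum.inr (Sum.inl (w, z))) e) h hD
    (u1.trans (by linarith)) hw le_rfl le_rfl (by simp) (by simp) (Or.inl rfl)
    (Or.inl (by simp)) (Or.inl (by linarith)) (Or.inl ⟨hF1, hF2, Or.inl rfl⟩)
    (by rw [F_W e c]; ring)
  refine ⟨by simpa using g1, g4, ?_⟩
  obtain ⟨t1, t2⟩ := tp_bd hO hI h e.1 (I.a e.2.2.2)
  have := g5 _ t1 t2
  rw [cs_ca hO h]
  simp only [cs]
  refine le_trans (le_of_eq ?_) this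
  congr 2; ring

/-! ### Slot lines of other slots -/

lemma off_S {l : A} {g : H} (hne : ¬ (l = O.a e.1 ∧ g = O.slot e.1)) (b : Bool) (α : G)
    (β : Fin p.V) :
    ((comp O I p K).F (l, Sum.inr (Sum.inr ((g, b), (α, β)))) e < 0 ↔
      O.F l e.1 - sg b * (p.φ * (O.d l g * (O.X e.1 - O.xs l g))) < 0) ∧
    21 / 32 * |O.F l e.1| ≤ |(comp O I p K).F (l, Sum.inr (Sum.inr ((g, b), (α, β)))) e| ∧
    7 / 32 * (p.φ * (O.d l g * |O.X e.1 - O.xs l g|)) ≤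
      |(comp O I p K).F (l, Sum.inr (Sum.inr ((g, b), (α, β)))) e| ∧
    7 / 32 * (p.φ * q) ≤ |(comp O I p K).F (l, Sum.inr (Sum.inr ((g, b), (α, β)))) e| ∧
    p.φ * q / 64 * |cs O I p (l, Sum.inr (Sum.inr ((g, b), (α, β)))) - cs O I p (ca O I p e)| ≤
      |(comp O I p K).F (l, Sum.inr (Sum.inr ((g, b), (α, β)))) e| * O.D e.1 := by
  have hD := Dpos hO h e.1
  have cl := c.cl h hI
  obtain ⟨u1, u2⟩ := cl.uv h
  have hNx := h.Nx1
  have hw : |omS O I p l g b α β - (-p.φ * P - p.δ * W)| ≤ p.Nx + 6 := by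
    have h5 := abs_le.mp u2
    have h6 := abs_le.mp (om_bd hO h hI l g b α β)
    rw [abs_le]; constructor <;> linarith [h5.1, h5.2, h6.1, h6.2]
  obtain ⟨r1, r2, r3, r4⟩ := rho_bd hO h hI l g b α
  obtain ⟨d1, d2, d3⟩ := far_c hO e.1 l g hne h.hφ0 h.hq hD
  obtain ⟨g1, g2, g3, g4, g5⟩ := gen_far (F := O.F l e.1) (s := O.s l - O.s (O.a e.1)) h hD
    (u1.trans (by linarith)) hw r3 r4 r1 r2 (sg_cases b) d1 d2 d3 (F_S e c l g b α β)
  refine ⟨g1, g2, g3, g4, ?_⟩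
  obtain ⟨t1, t2⟩ := tp_bd hO hI h e.1 (I.a e.2.2.2)
  have := g5 _ t1 t2
  rw [cs_ca hO h]
  simp only [cs]
  refine le_trans (le_of_eq ?_) this
  congr 2; ring

/-! ### Lines of the two bundles through the event -/

lemma at_Ta (i : Fin p.Nx) (α : G) (β : Fin p.V) :
    ((comp O I p K).F (O.a e.1, Sum.inl (i, (α, β))) e < 0 ↔
      ((e.2.1:ℕ) < (i:ℕ) ∨ ((i:ℕ) = (e.2.1:ℕ) ∧ (row p e < I.σ α * (i:ℕ) + (β:ℕ) ∨
        (I.σ α * (i:ℕ) + (β:ℕ) = row p e ∧ ¬ α ∈ K))))) ∧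
    p.ε * (p.δ / 4) ≤ |(comp O I p K).F (O.a e.1, Sum.inl (i, (α, β))) e| := by
  classical
  have hD := Dpos hO h e.1
  have cl := c.cl h hI
  have hε := h.hε0
  have hval : I.σ α * (i:ℕ) + (β:ℕ) ≤ p.Rz * p.Nx + p.V :=
    Nat.add_le_add (Nat.mul_le_mul (hI.hσ α) i.2.le) β.2.le
  obtain ⟨t1, t2⟩ := cl.Ta h (i' := (i:ℕ)) (val := I.σ α * (i:ℕ) + (β:ℕ)) (τ := tau K α)
    (α ∈ K) (by unfold tau; split_ifs <;> rfl) hval
  have e1 : (comp O I p K).F (O.a e.1, Sum.inl (i, (α, β))) e = p.ε *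
      ((-p.φ * (i:ℕ) - p.δ * (((I.σ α * (i:ℕ) + (β:ℕ) : ℕ) : ℝ) + tau K α)) -
        (-p.φ * P - p.δ * W)) := by
    rw [F_T e c, O.Fa]; ring
  rw [e1]
  constructor
  · rw [← t2]
    constructor
    · intro h1
      by_contra h2
      push Not at h2
      have := mul_nonneg hε.le h2
      linarith
    · intro h1; exact mul_neg_of_pos_of_neg hε h1
  · rw [abs_mul, abs_of_pos hε]
    exact mul_le_mul_of_nonneg_left t1 hε.le

lemma at_Tb (i : Fin p.Nx) (α : G) (β : Fin p.V) :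
    (comp O I p K).F (O.b e.1, Sum.inl (i, (α, β))) e < 0 ∧
    p.ε / 8 ≤ |(comp O I p K).F (O.b e.1, Sum.inl (i, (α, β))) e| := by
  have hD := Dpos hO h e.1
  have cl := c.cl h hI
  have hε := h.hε0
  have t1 := cl.Tb h (i' := (i:ℕ)) (val := I.σ α * (i:ℕ) + (β:ℕ)) (τ := tau K α)
    (by unfold tau; split_ifs <;> norm_num)
  have e1 : (comp O I p K).F (O.b e.1, Sum.inl (i, (α, β))) e = p.ε *
      (-(1 / 2 + (1 + p.φ) * (P + p.lam * W)) +
        (-p.φ * (i:ℕ) - p.δ * (((I.σ α * (i:ℕ) + (β:ℕ) : ℕ) : ℝ) + tau K α)) -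
        (-p.φ * P - p.δ * W)) := by
    rw [F_T e c, hO.tie]
    have : O.s (O.b e.1) - O.s (O.a e.1) = -O.D e.1 := by unfold Out.D; ring
    rw [this]
    have := hD.ne'
    field_simp
    ring
  rw [e1]
  have h2 := mul_le_mul_of_nonneg_left t1 hε.le
  constructor
  · linarith
  · rw [abs_of_neg (by linarith)]; linarith

lemma at_Wa (w : Fin p.Nx) (z : G × Fin p.V) :
    ¬ (comp O I p K).F (O.a e.1, Sum.inr (Sum.inl (w, z))) e < 0 ∧
    p.ε / 8 ≤ |(comp O I p K).F (O.a e.1, Sum.inr (Sum.inl (w, z))) e| := by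
  have hD := Dpos hO h e.1
  have cl := c.cl h hI
  have hε := h.hε0
  have t1 := cl.Wa h (w := ((w:ℕ):ℝ)) (by positivity)
  have e1 : (comp O I p K).F (O.a e.1, Sum.inr (Sum.inl (w, z))) e = p.ε *
      ((1 + ((w:ℕ):ℝ)) - (-p.φ * P - p.δ * W)) := by
    rw [F_W e c, O.Fa]; ring
  rw [e1]
  have h2 := mul_le_mul_of_nonneg_left t1 hε.le
  constructor
  · linarith
  · rw [abs_of_pos (by linarith)]; linarith

lemma at_Wb (w : Fin p.Nx) (z : G × Fin p.V) :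
    ((comp O I p K).F (O.b e.1, Sum.inr (Sum.inl (w, z))) e < 0 ↔ (w:ℕ) < (e.2.1:ℕ)) ∧
    p.ε / 8 ≤ |(comp O I p K).F (O.b e.1, Sum.inr (Sum.inl (w, z))) e| := by
  have hD := Dpos hO h e.1
  have cl := c.cl h hI
  have hε := h.hε0
  obtain ⟨t1, t2⟩ := cl.Wb h (w:ℕ)
  have e1 : (comp O I p K).F (O.b e.1, Sum.inr (Sum.inl (w, z))) e = p.ε *
      (-(1 / 2 + (1 + p.φ) * (P + p.lam * W)) + (1 + ((w:ℕ):ℝ)) - (-p.φ * P - p.δ * W)) := by
    rw [F_W e c, hO.tie]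
    have : O.s (O.b e.1) - O.s (O.a e.1) = -O.D e.1 := by unfold Out.D; ring
    rw [this]
    have := hD.ne'
    field_simp
    ring
  rw [e1]
  constructor
  · rw [← t2]
    constructor
    · intro h1
      by_contra h2
      push Not at h2
      have := mul_nonneg hε.le h2
      linarith
    · intro h1; exact mul_neg_of_pos_of_neg hε h1
  · rw [abs_mul, abs_of_pos hε]
    have := mul_le_mul_of_nonneg_left t1 hε.le
    linarith

/-- the upper slot line of the slot of the event -/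
lemma at_Sm (α : G) (β : Fin p.V) :
    ¬ (comp O I p K).F (O.a e.1, Sum.inr (Sum.inr ((O.slot e.1, true), (α, β)))) e < 0 ∧
    p.ε / 8 ≤ |(comp O I p K).F (O.a e.1, Sum.inr (Sum.inr ((O.slot e.1, true), (α, β)))) e| ∧
    |cs O I p (O.a e.1, Sum.inr (Sum.inr ((O.slot e.1, true), (α, β)))) -
      cs O I p (ca O I p e)| ≤ 4 * p.φ * O.D e.1 := by
  have hD := Dpos hO h e.1
  have cl := c.cl h hI
  have hε := h.hε0
  set ρ := rhoS O I p (O.a e.1) (O.slot e.1) true α with hρ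
  have hmu : muS O I p (O.a e.1) (O.slot e.1) true α = p.φ * O.D e.1 := by
    unfold muS; rw [O.evt_self hO.inj]; simp
  have hom : omS O I p (O.a e.1) (O.slot e.1) true α β = p.Nx + 4 := by
    unfold omS; rw [O.evt_self hO.inj]; simp
  have h1 : |ρ - p.φ * O.D e.1| ≤ p.φ * O.D e.1 / 100 := by
    have h2 := rnd_err p.Rd h.hRd (muS O I p (O.a e.1) (O.slot e.1) true α)
    rw [hmu] at h2
    change |rnd p.Rd (muS O I p (O.a e.1) (O.slot e.1) true α) - _| ≤ _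
    rw [hmu]
    obtain ⟨r1, -⟩ := h.rnd_small
    have h3 := hO.hD e.1
    have h4 : p.φ * Dl ≤ p.φ * O.D e.1 := mul_le_mul_of_nonneg_left h3 h.hφ0.le
    linarith
  have h1' := abs_le.mp h1
  have hφD : 0 < p.φ * O.D e.1 := mul_pos h.hφ0 hD
  have h2 : |ρ / O.D e.1| ≤ 2 * p.φ := by
    rw [abs_div, abs_of_pos hD, div_le_iff₀ hD, abs_le]
    constructor <;> linarith [h1'.1, h1'.2]
  have t1 := cl.Sm h h2
  have e1 : (comp O I p K).F (O.a e.1, Sum.inr (Sum.inr ((O.slot e.1, true), (α, β)))) e = p.ε *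
      (ρ / O.D e.1 * (1 / 2 + (1 + p.φ) * (P + p.lam * W)) + (p.Nx + 4) -
        (-p.φ * P - p.δ * W)) := by
    rw [F_S e c, O.Fa, hom, hO.real e.1]
    simp only [sg, if_true]
    rw [← hρ]
    ring
  rw [e1]
  have h3 := mul_le_mul_of_nonneg_left t1 hε.le
  refine ⟨by linarith, by rw [abs_of_pos (by linarith)]; linarith, ?_⟩
  rw [cs_ca hO h]
  simp only [cs, sg, if_true]
  rw [← hρ]
  obtain ⟨t3, t4⟩ := tp_bd hO hI h e.1 (I.a e.2.2.2)
  have t5 : tp O I p e.1 (I.a e.2.2.2) * O.D e.1 ≤ 2 * p.φ * O.D e.1 :=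
    mul_le_mul_of_nonneg_right t4 hD.le
  have t6 : 0 ≤ tp O I p e.1 (I.a e.2.2.2) * O.D e.1 := mul_nonneg t3 hD.le
  rw [abs_le]
  constructor <;> linarith [h1'.1, h1'.2]

/-- pool lines -/
lemma pool (α : G) (β : Fin p.V) : ∃ er : ℝ, |er| ≤ 1 / (40 * M) ∧
    (comp O I p K).F (O.a e.1, Sum.inr (Sum.inr ((O.slot e.1, false), (α, β)))) e =
      p.ε * (p.δ / (1 + p.lam * I.σ α) *
        ((I.σ α * (e.2.1:ℕ) + (β:ℕ) - row p e) + p.κ * (I.F α e.2.2.2 + er))) := by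
  have hD := Dpos hO h e.1
  have cl := c.cl h hI
  obtain ⟨u1, u2⟩ := cl.uv h
  have hε := h.hε0
  have hκ := h.hκ0
  have hδ := h.δ0
  have hl := h.hl0
  have hM : 0 < M := by linarith [h.hM]
  have hRz : 0 < (p.Rz:ℝ) := by linarith [h.Rz1]
  set u := 1 / 2 + (1 + p.φ) * (P + p.lam * W) with hu
  set ls := 1 + p.lam * (I.σ α:ℝ) with hls
  have hσ : (I.σ α:ℝ) ≤ p.Rz := by exact_mod_cast hI.hσ α
  obtain ⟨ls1, ls2⟩ := h.σ1 (σ := I.σ α) (by positivity) hσ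
  set P0 := ((e.2.1:ℕ):ℝ) + p.κ * I.x e.2.2.2 with hP0
  set W0 := (row p e:ℝ) + p.κ * I.y e.2.2.2 with hW0
  set η := tp O I p e.1 α - psi I p α with hη
  refine ⟨(I.σ α * (P - P0) - (W - W0)) / p.κ - ls * (η * u) / (p.δ * p.κ), ?_, ?_⟩
  · have h1 : |(I.σ α * (P - P0) - (W - W0)) / p.κ| ≤ 1 / (50 * M) := by
      rw [abs_div, abs_of_pos hκ, div_le_iff₀ hκ]
      have h2 : |(I.σ α:ℝ) * (P - P0)| ≤ p.Rz * (p.κ / (M * p.Rz) / 100) := by
        rw [abs_mul, abs_of_nonneg (by positivity : (0:ℝ) ≤ I.σ α)]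
        exact mul_le_mul hσ c.hP (abs_nonneg _) hRz.le
      have h3 : (p.Rz:ℝ) * (p.κ / (M * p.Rz) / 100) = p.κ / M / 100 := by field_simp
      rw [h3] at h2
      have h4 := c.hW
      calc |(I.σ α:ℝ) * (P - P0) - (W - W0)| ≤ |(I.σ α:ℝ) * (P - P0)| + |W - W0| := abs_sub _ _
        _ ≤ p.κ / M / 100 + p.κ / M / 100 := add_le_add h2 h4
        _ = 1 / (50 * M) * p.κ := by field_simp; norm_num
    have h5 : |ls * (η * u) / (p.δ * p.κ)| ≤ 1 / (200 * M) := by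
      rw [abs_div, abs_of_pos (by positivity : 0 < p.δ * p.κ), div_le_iff₀ (by positivity),
        abs_mul, abs_of_pos (by linarith : 0 < ls), abs_mul]
      have h6 := tp_err (I := I) hO h e.1 α
      have h7 := h.eta
      set z := 1 / (2 * ((p.Rd:ℝ) * Dl)) with hz
      have hz0 : 0 ≤ z := (abs_nonneg _).trans h6
      have h8 : |η| * |u| ≤ z * (p.Nx + 2) :=
        mul_le_mul h6 (by linarith) (abs_nonneg _) hz0
      have h9 : ls * (|η| * |u|) ≤ 17 / 16 * (z * (p.Nx + 2)) :=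
        mul_le_mul ls2 h8 (by positivity) (by norm_num)
      have h10 : z * (p.Nx + 2) * 400 * M ≤ p.δ * p.κ := by
        refine le_trans ?_ h7
        have h11 : 0 ≤ z * (p.Nx + 2) * 400 * M := by positivity
        have h12 := h.Rz1
        calc z * (p.Nx + 2) * 400 * M = z * (p.Nx + 2) * 400 * M * 1 := by ring
          _ ≤ z * (p.Nx + 2) * 400 * M * p.Rz := mul_le_mul_of_nonneg_left h12 h11
          _ = _ := by ring
      calc ls * (|η| * |u|) ≤ 17 / 16 * (z * (p.Nx + 2)) := h9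
        _ = 17 / 16 * (z * (p.Nx + 2) * 400 * M) / (400 * M) := by field_simp
        _ ≤ 2 * (p.δ * p.κ) / (400 * M) := by
            apply div_le_div_of_nonneg_right _ (by positivity)
            have : 0 < p.δ * p.κ := by positivity
            linarith
        _ = 1 / (200 * M) * (p.δ * p.κ) := by field_simp; norm_num
    calc _ ≤ |(I.σ α * (P - P0) - (W - W0)) / p.κ| + |ls * (η * u) / (p.δ * p.κ)| := abs_sub _ _
      _ ≤ 1 / (50 * M) + 1 / (200 * M) := add_le_add h1 h5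
      _ = 1 / (40 * M) := by field_simp; norm_num
  · rw [F_S e c, O.Fa, om_own hO h, rho_own hO h, hO.real e.1, ← hls]
    have h1 := idA (I := I) h α (β:ℕ) P W
    rw [← hls, ← hu] at h1
    have h2 : tp O I p e.1 α = psi I p α + η := by rw [hη]; ring
    simp only [sg, Bool.false_eq_true, if_false]
    rw [h2]
    have hD' := hD.ne'
    have h3 : (O.s (O.a e.1) - O.s (O.a e.1) - 1 * ((psi I p α + η) * O.D e.1)) * (u / O.D e.1) =
      -(psi I p α + η) * u := by field_simp; ring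
    rw [h3]
    have h4 : I.F α e.2.2.2 = I.σ α * I.x e.2.2.2 + I.t α - I.y e.2.2.2 := rfl
    have h5 : p.ε * (p.δ / ls * ((I.σ α * ((e.2.1:ℕ):ℝ) + (β:ℕ) - row p e) + p.κ * (I.F α e.2.2.2 +
        ((I.σ α * (P - P0) - (W - W0)) / p.κ - ls * (η * u) / (p.δ * p.κ))))) =
      p.ε * (p.δ / ls * (I.σ α * P + (β:ℕ) + p.κ * I.t α - W) - η * u) := by
      rw [h4, hP0, hW0]
      have : ls ≠ 0 := by linarith
      field_simp
      ring
    rw [h5, ← h1]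
    ring

omit c

/-- the two lines of an event meet there -/
lemma cb_zero (e : Ev' R R₂ p.Nx p.V₁) : (comp O I p K).F (cb O I p e) e = 0 := by
  have hD := Dpos hO h e.1
  have h1 : cs O I p (ca O I p e) - cs O I p (cb O I p e) ≠ 0 := by
    rw [cs_ca hO h, cs_cb hO h]
    have h2 := h.psi_diff_ge I (I.a e.2.2.2) (I.b e.2.2.2) (hI.hσ _) (hI.hσ _)
      (by have := hI.D1 e.2.2.2; omega)
    have hsσ : (I.σ (I.b e.2.2.2) : ℝ) + p.Δ ≤ I.σ (I.a e.2.2.2) := by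
      exact_mod_cast hI.D1 e.2.2.2
    have hδ := h.δ0
    have hΔ := h.Δ1
    have h3 : p.δ * 1 ≤ p.δ * ((I.σ (I.a e.2.2.2) : ℝ) - I.σ (I.b e.2.2.2)) :=
      mul_le_mul_of_nonneg_left (by linarith) hδ.le
    have h4 := abs_le.mp (tp_err (I := I) hO h e.1 (I.a e.2.2.2))
    have h5 := abs_le.mp (tp_err (I := I) hO h e.1 (I.b e.2.2.2))
    have h6 : 1 / (2 * ((p.Rd:ℝ) * Dl)) * 1200 ≤ p.δ := by
      have h7 := h.eta
      set z := 1 / (2 * ((p.Rd:ℝ) * Dl)) with hz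
      have hz0 : 0 ≤ z := (abs_nonneg _).trans (tp_err (I := I) hO h e.1 (I.b e.2.2.2))
      have h8 : (1:ℝ) ≤ M * p.Rz := by nlinarith [h.hM, h.Rz1]
      have h9 : (3:ℝ) ≤ M * p.Rz * (p.Nx + 2) := by nlinarith [h.Nx1]
      have h10 : z * 1200 ≤ z * (400 * (M * p.Rz * (p.Nx + 2))) :=
        mul_le_mul_of_nonneg_left (by linarith) hz0
      have h11 : p.δ * p.κ ≤ p.δ * 1 := by
        apply mul_le_mul_of_nonneg_left _ hδ.le
        have := h.κle; have := h.lle; linarith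
      linarith
    have h7 : 0 < tp O I p e.1 (I.b e.2.2.2) - tp O I p e.1 (I.a e.2.2.2) := by
      linarith [h4.2, h5.1]
    have h8 := mul_pos h7 hD
    intro h9
    linarith
  have e1 : (comp O I p K).F (cb O I p e) e = cs O I p (cb O I p e) * cX O I p K e +
      ct O I p K (cb O I p e) - (cs O I p (ca O I p e) * cX O I p K e +
      ct O I p K (ca O I p e)) := rfl
  rw [e1]
  have h2 : cX O I p K e * (cs O I p (ca O I p e) - cs O I p (cb O I p e)) =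
    ct O I p K (cb O I p e) - ct O I p K (ca O I p e) := div_mul_cancel₀ _ h1
  linarith

end

end Pool.Agent.N35.HL
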