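import Pool.Agent.N35.HL.Level

/-!
# Slot positions of a composition
-/

set_option linter.unusedSectionVars false
set_option linter.unusedVariables false
set_option maxHeartbeats 1000000

namespace Pool.Agent.N35.HL

open Finset

section

variable {A R H G R₂ H₂ : Type} [Fintype A] [Fintype H] [Fintype G]
  {O : Out A R H} {I : Inn G R₂ H₂} {p : Prm} {K : Finset G}
  {k₁ K₁ k₂ Rd₀ : ℕ} {φ' q Dl U M L : ℝ}
  (hO : O.Good k₁ K₁ p.φ q Dl L Rd₀) (hI : I.Good k₂ p.Rz p.Δ U M) (h : p.OK φ' q Dl U M)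

lemma ca_fst (e : Ev' R R₂ p.Nx p.V₁) : ca O I p e = (O.a e.1, Sum.inr (Sum.inr
    ((O.slot e.1, false), (I.a e.2.2.2, ⟨row p e - I.σ (I.a e.2.2.2) * (e.2.1:ℕ),
      lt_of_le_of_lt (Nat.sub_le _ _) (row_lt p e)⟩)))) := rfl

lemma cb_fst (e : Ev' R R₂ p.Nx p.V₁) : cb O I p e = (O.a e.1, Sum.inr (Sum.inr
    ((O.slot e.1, false), (I.b e.2.2.2, ⟨row p e - I.σ (I.b e.2.2.2) * (e.2.1:ℕ),
      lt_of_le_of_lt (Nat.sub_le _ _) (row_lt p e)⟩)))) := rfl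

include hI in
/-- the events are determined by their line and slot -/
lemma comp_inj (inj : ∀ e f, O.a e = O.a f → O.slot e = O.slot f → e = f)
    (e f : Ev' R R₂ p.Nx p.V₁) (h1 : ca O I p e = ca O I p f) (h2 : csl I p e = csl I p f) :
    e = f := by
  obtain ⟨e₁, i, j, r⟩ := e
  obtain ⟨f₁, i', j', r'⟩ := f
  rw [ca_fst, ca_fst] at h1
  simp only [csl, Prod.mk.injEq] at h2
  simp only [Prod.mk.injEq, Sum.inr.injEq, Fin.mk.injEq] at h1
  obtain ⟨a1, ⟨a2, -⟩, a3, a4⟩ := h1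
  obtain ⟨b1, b2⟩ := h2
  have h3 := inj e₁ f₁ a1 a2
  subst h3 b1
  have h4 := hI.inj r r' a3 b2
  subst h4
  have h5 : row p ((e₁, i, j, r) : Ev' R R₂ p.Nx p.V₁) = row p ((e₁, i, j', r) : Ev' R R₂ p.Nx p.V₁) := by
    have h6 : I.σ (I.a r) * (i:ℕ) ≤ row p ((e₁, i, j, r) : Ev' R R₂ p.Nx p.V₁) :=
      sub_row hI ((e₁, i, j, r) : Ev' R R₂ p.Nx p.V₁) (I.a r)
    have h7 : I.σ (I.a r) * (i:ℕ) ≤ row p ((e₁, i, j', r) : Ev' R R₂ p.Nx p.V₁) :=
      sub_row hI ((e₁, i, j', r) : Ev' R R₂ p.Nx p.V₁) (I.a r)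
    omega
  have h8 : j = j' := by
    unfold row at h5
    simp only [] at h5
    exact Fin.ext (by omega)
  rw [h8]

include hI in
lemma comp_real (inj : ∀ e f, O.a e = O.a f → O.slot e = O.slot f → e = f)
    (e : Ev' R R₂ p.Nx p.V₁) : cxs O I p K (ca O I p e) (csl I p e) = cX O I p K e := by
  unfold cxs
  have E : ∃ e' : Ev' R R₂ p.Nx p.V₁, ca O I p e' = ca O I p e ∧ csl I p e' = csl I p e :=
    ⟨e, rfl, rfl⟩
  rw [dif_pos E]
  exact congrArg _ (comp_inj hI inj _ _ E.choose_spec.1 E.choose_spec.2)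

/-- time coordinate of the ideal position of an event -/
lemma xi0_ev (hI : I.Good k₂ p.Rz p.Δ U M) (e : Ev' R R₂ p.Nx p.V₁) :
    xi0 I p (I.a e.2.2.2) (row p e - I.σ (I.a e.2.2.2) * (e.2.1:ℕ)) (e.2.1:ℕ)
      (I.slot e.2.2.2) =
    ((e.2.1:ℕ) + p.κ * I.x e.2.2.2) + p.lam * (row p e + p.κ * I.y e.2.2.2) := by
  have h1 : I.σ (I.a e.2.2.2) * (e.2.1:ℕ) ≤ row p e := sub_row hI _ _
  unfold xi0
  rw [if_pos (hI.acta _), hI.real, Nat.cast_sub h1]
  unfold Inn.y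
  push_cast
  ring

include hO hI h

/-- slot positions are close to their ideal values -/
lemma cxs_pos {l : A} {g : H} {e₁ : R} (hev : O.evt l g = some e₁) (α : G) (β : Fin p.V)
    (i : Fin p.Nx) (h₂ : H₂) :
    ∃ er : ℝ, |er| ≤ p.κ / (40 * M) ∧
      cxs O I p K (l, Sum.inr (Sum.inr ((g, false), (α, β)))) (i, h₂) =
        O.X e₁ + p.ε * ((1 / 2 + (1 + p.φ) * xi0 I p α (β:ℕ) (i:ℕ) h₂) + er) / O.D e₁ := by
  have hκ := h.hκ0
  have hM : 0 < M := by linarith [h.hM]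
  by_cases E : ∃ e : Ev' R R₂ p.Nx p.V₁,
      ca O I p e = (l, Sum.inr (Sum.inr ((g, false), (α, β)))) ∧ csl I p e = (i, h₂)
  · have e1 : cxs O I p K (l, Sum.inr (Sum.inr ((g, false), (α, β)))) (i, h₂) =
        cX O I p K E.choose := by unfold cxs; rw [dif_pos E]
    obtain ⟨h1, h2⟩ := E.choose_spec
    set e := E.choose with he
    rw [ca_fst] at h1
    simp only [Prod.mk.injEq, Sum.inr.injEq] at h1
    obtain ⟨a1, ⟨a2, -⟩, a3, a4⟩ := h1
    simp only [csl, Prod.mk.injEq] at h2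
    obtain ⟨b1, b2⟩ := h2
    have h3 : e.1 = e₁ := by
      have := O.evt_self hO.inj e.1
      rw [a1, a2, hev] at this
      exact (Option.some.inj this).symm
    obtain ⟨P, W, c1, c2, c3, c4⟩ := coord K hO hI h e
    have hx := xi0_ev hI e
    have e2 : xi0 I p α (β:ℕ) (i:ℕ) h₂ =
        ((e.2.1:ℕ) + p.κ * I.x e.2.2.2) + p.lam * (row p e + p.κ * I.y e.2.2.2) := by
      rw [← hx, ← a3, ← a4, ← b1, ← b2]
    refine ⟨(1 + p.φ) * ((P - ((e.2.1:ℕ) + p.κ * I.x e.2.2.2)) +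
      p.lam * (W - (row p e + p.κ * I.y e.2.2.2))), ?_, ?_⟩
    · have hφ := h.hφ0
      have hφ1 := h.φle
      have hl := h.hl0
      have hl1 := h.lle
      have hRz := h.Rz1
      rw [abs_mul, abs_of_pos (by positivity : 0 < 1 + p.φ)]
      have h4 : p.κ / (M * p.Rz) ≤ p.κ / M := by
        rw [div_mul_eq_div_div]; exact div_le_self (by positivity) hRz
      have h5 : |p.lam * (W - (row p e + p.κ * I.y e.2.2.2))| ≤ 1 / 16 * (p.κ / M / 100) := by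
        rw [abs_mul, abs_of_pos hl]
        exact mul_le_mul hl1 c4 (abs_nonneg _) (by norm_num)
      have h6 : |(P - ((e.2.1:ℕ) + p.κ * I.x e.2.2.2)) +
          p.lam * (W - (row p e + p.κ * I.y e.2.2.2))| ≤ 17 / 16 * (p.κ / M / 100) := by
        refine (abs_add_le _ _).trans ?_
        linarith
      have h7 : 0 < p.κ / M := by positivity
      calc (1 + p.φ) * |_| ≤ (17 / 16) * (17 / 16 * (p.κ / M / 100)) :=
            mul_le_mul (by linarith) h6 (abs_nonneg _) (by norm_num)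
        _ ≤ p.κ / M / 40 := by linarith
        _ = p.κ / (40 * M) := by field_simp
    · rw [e1, c1, e2, h3]
      ring
  · refine ⟨0, by rw [abs_zero]; positivity, ?_⟩
    have e1 : cxs O I p K (l, Sum.inr (Sum.inr ((g, false), (α, β)))) (i, h₂) =
        cx0 O I p (l, Sum.inr (Sum.inr ((g, false), (α, β)))) (i, h₂) := by
      unfold cxs; rw [dif_neg E]
    rw [e1]
    simp only [cx0, hev]
    ring

/-- slope difference of an event of the composition -/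
lemma comp_D (e : Ev' R R₂ p.Nx p.V₁) :
    7 / 10 * (p.δ * p.Δ) * O.D e.1 ≤ (comp O I p K).D e ∧
    (comp O I p K).D e ≤ 21 / 10 * (p.δ * p.Δ) * O.D e.1 := by
  have hD := Dpos hO h e.1
  have e1 : (comp O I p K).D e = cs O I p (ca O I p e) - cs O I p (cb O I p e) := rfl
  have e2 : (comp O I p K).D e =
      (tp O I p e.1 (I.b e.2.2.2) - tp O I p e.1 (I.a e.2.2.2)) * O.D e.1 := by
    rw [e1, cs_ca hO h, cs_cb hO h]; ring
  have h2 := h.psi_diff_ge I (I.a e.2.2.2) (I.b e.2.2.2) (hI.hσ _) (hI.hσ _)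
    (by have := hI.D1 e.2.2.2; omega)
  have h2' := h.psi_diff_le I (I.a e.2.2.2) (I.b e.2.2.2) (hI.hσ _) (hI.hσ _)
  have s1 : (I.σ (I.b e.2.2.2) : ℝ) + p.Δ ≤ I.σ (I.a e.2.2.2) := by
    exact_mod_cast hI.D1 e.2.2.2
  have s2 : (I.σ (I.a e.2.2.2) : ℝ) ≤ I.σ (I.b e.2.2.2) + 2 * p.Δ := by
    exact_mod_cast hI.D2 e.2.2.2
  have hδ := h.δ0
  have hΔ := h.Δ1
  have h3 : p.δ * p.Δ ≤ p.δ * ((I.σ (I.a e.2.2.2) : ℝ) - I.σ (I.b e.2.2.2)) :=
    mul_le_mul_of_nonneg_left (by linarith) hδ.le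
  have h3' : p.δ * |(I.σ (I.a e.2.2.2) : ℝ) - I.σ (I.b e.2.2.2)| ≤ p.δ * (2 * p.Δ) := by
    apply mul_le_mul_of_nonneg_left _ hδ.le
    rw [abs_of_nonneg (by linarith)]; linarith
  have h4 := abs_le.mp (tp_err (I := I) hO h e.1 (I.a e.2.2.2))
  have h5 := abs_le.mp (tp_err (I := I) hO h e.1 (I.b e.2.2.2))
  have h6 : 1 / (2 * ((p.Rd:ℝ) * Dl)) * 1200 ≤ p.δ := by
    have h7 := h.eta
    set z := 1 / (2 * ((p.Rd:ℝ) * Dl)) with hz
    have hz0 : 0 ≤ z := (abs_nonneg _).trans (tp_err (I := I) hO h e.1 (I.b e.2.2.2))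
    have h8 : (1:ℝ) ≤ M * p.Rz := by nlinarith [h.hM, h.Rz1]
    have h9 : (3:ℝ) ≤ M * p.Rz * (p.Nx + 2) := by nlinarith [h.Nx1]
    have h10 : z * 1200 ≤ z * (400 * (M * p.Rz * (p.Nx + 2))) :=
      mul_le_mul_of_nonneg_left (by linarith) hz0
    have h11 : p.δ * p.κ ≤ p.δ * 1 := by
      apply mul_le_mul_of_nonneg_left _ hδ.le
      have := h.κle; have := h.lle; linarith
    linarith
  have h7 : p.δ * 1 ≤ p.δ * p.Δ := mul_le_mul_of_nonneg_left hΔ hδ.le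
  have h8 := (abs_le.mp h2').2
  rw [e2]
  constructor
  · apply mul_le_mul_of_nonneg_right _ hD.le
    linarith [h4.2, h5.1]
  · apply mul_le_mul_of_nonneg_right _ hD.le
    linarith [h4.1, h5.2]

variable {e : Ev' R R₂ p.Nx p.V₁} {P W : ℝ} (c : Pos O I p K M e P W)

omit hO hI

/-- product `φ' Δ` is tiny -/
lemma Prm.OK.φΔ : φ' * p.Δ ≤ 1 / 2048 := by
  have h1 := h.hφ'1
  have h2 := h.Nx1
  have h3 : 0 < φ' * p.Δ := mul_pos h.hφ' (by linarith [h.Δ1])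
  nlinarith

/-- the new scales dominate the rounding -/
lemma Prm.OK.big : 1 ≤ 16 * (φ' * (Dl * (p.δ * p.Δ))) * p.Rd := by
  have h1 := h.hrd
  have h2 := h.hκ2
  have hM := h.hM
  have hRz := h.Rz1
  have hNx := h.Nx1
  have hU := h.hU
  have hκ := h.hκ0
  have hδ := h.δ0
  have hRD := h.RdDl
  have h3 : (3:ℝ) ≤ M * p.Rz * (p.Nx + 2) := by
    have : 1 ≤ M * p.Rz := by nlinarith
    nlinarith
  have h4 : p.κ ≤ φ' * p.Δ := by
    have h5 : p.κ * 2 ≤ p.κ * (U + 1) := mul_le_mul_of_nonneg_left (by linarith) hκ.le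
    linarith
  have h5 : p.Rd * Dl * (p.δ * p.κ) ≤ p.Rd * Dl * (p.δ * (φ' * p.Δ)) := by
    apply mul_le_mul_of_nonneg_left _ hRD.le
    exact mul_le_mul_of_nonneg_left h4 hδ.le
  have h6 : 16 * (φ' * (Dl * (p.δ * p.Δ))) * p.Rd = 16 * (p.Rd * Dl * (p.δ * (φ' * p.Δ))) := by
    ring
  rw [h6]
  linarith

end

end Pool.Agent.N35.HL
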