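import Pool.Agent.N35.HL.Good

/-!
# The starting block
-/

set_option linter.unusedSectionVars false
set_option linter.unusedVariables false
set_option maxHeartbeats 1000000

namespace Pool.Agent.N35.HL

open Finset

/-- two crossing lines -/
noncomputable def start : Out Bool Unit Unit where
  s := fun c => if c then 1 / 2 else 0
  t := fun _ => 0
  X := fun _ => 0
  a := fun _ => true
  b := fun _ => false
  slot := fun _ => ()
  xs := fun c _ => if c then 0 else 1
  d := fun _ _ => 1 / 2

lemma start_good {φ : ℝ} (hφ : 0 < φ) : start.Good 0 1 φ (1 / 4) (1 / 2) 1 2 := by
  have hF : ∀ c e, start.F c e = 0 := by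
    intro c e
    simp [start, Out.F, Out.Y]
  have hD : ∀ e, start.D e = 1 / 2 := by
    intro e
    simp [start, Out.D]
  refine
    { hq := by norm_num
      hqD := by norm_num
      hL := le_rfl
      hRd := by norm_num
      tie := fun e => hF _ e
      hD := fun e => by rw [hD e]
      slopes := fun c => ?_
      bs := fun c => ?_
      bt := fun c => by simp [start]
      bX := fun e => by simp [start]
      bxs := fun c h => ?_
      g1 := fun e c h1 h2 => ?_
      g2 := fun e c h1 h2 => ?_
      w := fun e f h => absurd rfl h
      level := fun e => ?_
      real := fun e => by simp [start]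
      rd1 := fun e => by rw [hD e]; simp [start]; norm_num
      rd2 := fun e => by rw [hD e]; simp [start]
      inj := fun e f _ _ => rfl
      dd := fun c h => Or.inr (by simp [start]; norm_num)
      own := fun e c h h1 h2 => ?_
      far := fun e c h h1 h2 => ?_
      dich := fun e c h h1 h2 => ?_
      th := fun e c h h1 h2 => ?_
      slots := fun e => ?_ }
  · cases c
    · exact ⟨0, by simp [start]⟩
    · exact ⟨1, by simp [start]⟩
  · cases c <;> simp [start]; norm_num [abs_of_pos]
  · cases c <;> simp [start]
  · cases c
    · exact absurd rfl h2
    · exact absurd rfl h1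
  · cases c
    · exact absurd rfl h2
    · exact absurd rfl h1
  · simp [hF]
  · cases c
    · rw [hD e]
      simp [start]
      norm_num
    · exact absurd ⟨rfl, rfl⟩ h2
  · cases c
    · exact absurd rfl h2
    · exact absurd rfl h1
  · cases c
    · exact absurd rfl h2
    · exact absurd rfl h1
  · cases c
    · exact absurd rfl h2
    · exact absurd rfl h1
  · have h1 : start.pr φ false () e = 1 := by
      unfold Out.pr
      rw [hF]
      have e1 : start.d false () * (start.X e - start.xs false ()) = -(1 / 2) := by
        simp [start]
      rw [e1, if_neg (by linarith), if_pos (by linarith)]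
    simp [start] at h1 ⊢
    exact h1

end Pool.Agent.N35.HL
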