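import Pool.Agent.N35.HL.Has
import Pool.Agent.N35.HL.Start

/-!
# From outer to inner blocks
-/

set_option linter.unusedSectionVars false
set_option linter.unusedVariables false
set_option maxHeartbeats 1000000

namespace Pool.Agent.N35.HL

open Finset

theorem HasO.start {Δ : ℕ} (hΔ : 1 ≤ Δ) : HasO Δ 2 1 1 4 2 1 1 := by
  refine ⟨le_rfl, le_rfl, Bool, Unit, Unit, inferInstance, inferInstance, inferInstance,
    HL.start, 0, 1, ?_, by simp, by simp, by simp⟩
  have hΔr : (0:ℝ) < Δ := by exact_mod_cast hΔ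
  have h1 := start_good (φ := 1 / (51200 * Δ * ((1:ℕ):ℝ))) (by push_cast; positivity)
  convert h1 using 1 <;> norm_num

section

variable {A R H : Type} [Fintype A] [Fintype H] {O : Out A R H} {k K Rd : ℕ}
  {φ q Dl : ℝ} {L : ℕ}

/-- slope differences as multiples of `1/Rd` -/
lemma Out.Good.nD (hO : O.Good k K φ q Dl L Rd) (e : R) :
    ∃ n : ℕ, (n:ℝ) = O.D e * Rd ∧ 1 ≤ n ∧ n ≤ 12 * Rd := by
  obtain ⟨z, hz⟩ := hO.slopes (O.a e)
  obtain ⟨z', hz'⟩ := hO.slopes (O.b e)
  have hRd : (1:ℝ) ≤ Rd := by exact_mod_cast hO.hRd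
  have hD : 0 < O.D e := by
    have := hO.hD e
    have := hO.hq
    have := hO.hqD
    linarith
  have h1 : O.D e * Rd = ((z - z' : ℤ) : ℝ) := by
    unfold Out.D
    push_cast
    rw [← hz, ← hz']; ring
  have h2 : (0:ℝ) < ((z - z' : ℤ) : ℝ) := by rw [← h1]; positivity
  have h3 : 0 < z - z' := by exact_mod_cast h2
  have h4 : (((z - z').toNat : ℕ) : ℤ) = z - z' := Int.toNat_of_nonneg h3.le
  have h5 : (((z - z').toNat : ℕ) : ℝ) = O.D e * Rd := by
    rw [h1, ← h4]; push_cast; rfl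
  refine ⟨(z - z').toNat, h5, by omega, ?_⟩
  have h6 : O.D e ≤ 12 := by
    have h7 := hO.rd2 e
    have h8 : O.d (O.a e) (O.slot e) ≤ 4 := by
      rcases hO.dd (O.a e) (O.slot e) with h9 | h9
      · rw [h9]; norm_num
      · exact h9.2
    linarith
  have h7 : (((z - z').toNat : ℕ) : ℝ) ≤ ((12 * Rd : ℕ) : ℝ) := by
    rw [h5]; push_cast
    exact mul_le_mul_of_nonneg_right h6 (by linarith)
  exact_mod_cast h7

/-- the scaled block restricted to a class of events -/
noncomputable def Out.inn (O : Out A R H) (Rd L : ℕ) (σ : A → ℕ) (S : R → Prop) :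
    Inn A {e : R // S e} H where
  σ := σ
  t := fun c => Rd * O.t c
  x := fun e => O.X e.1
  a := fun e => O.a e.1
  b := fun e => O.b e.1
  slot := fun e => O.slot e.1
  act := fun c => ∀ h, 0 < O.d c h
  xs := O.xs

theorem Out.Good.inn (hO : O.Good k K φ q Dl L Rd) {Q : ℕ} (hq : q = 1 / Q) (hQ : 1 ≤ Q)
    (hL : 1 ≤ L) (σ : A → ℕ)
    (hσ : ∀ c, (σ c : ℝ) = O.s c * Rd + L * Rd) (Δ : ℕ) (hΔ : 1 ≤ Δ) (S : R → Prop)
    (hne : ∃ e, S e)
    (hS : ∀ e, S e → (Δ:ℝ) ≤ O.D e * Rd ∧ O.D e * Rd ≤ 2 * Δ) :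
    (O.inn Rd L σ S).Good k (2 * L * Rd) Δ ((4 * Rd * L ^ 2 : ℕ) : ℝ) ((12 * Q : ℕ) : ℝ) := by
  classical
  have hRd : (1:ℝ) ≤ Rd := by exact_mod_cast hO.hRd
  have hLr : (1:ℝ) ≤ L := by exact_mod_cast hL
  have hQr : (1:ℝ) ≤ Q := by exact_mod_cast hQ
  have hRd0 : (0:ℝ) < Rd := by linarith
  have hL0 : (0:ℝ) < L := by linarith
  have hQ0 : (0:ℝ) < Q := by linarith
  have hqQ : q * Q = 1 := by rw [hq]; field_simp
  have hF : ∀ c (e : {e : R // S e}), (O.inn Rd L σ S).F c e = Rd * O.F c e.1 := by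
    intro c e
    unfold Inn.F Inn.y Out.F Out.Y
    simp only [Out.inn]
    rw [hσ, hσ]; ring
  have hFs : ∀ c (e : {e : R // S e}), ((O.inn Rd L σ S).F c e < 0 ↔ O.F c e.1 < 0) := by
    intro c e
    rw [hF]
    constructor
    · intro h1
      by_contra h2
      push Not at h2
      have := mul_nonneg hRd0.le h2
      linarith
    · intro h1; exact mul_neg_of_pos_of_neg hRd0 h1
  have hD12 : ∀ e, O.D e ≤ 12 := by
    intro e
    have h7 := hO.rd2 e
    have h8 : O.d (O.a e) (O.slot e) ≤ 4 := by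
      rcases hO.dd (O.a e) (O.slot e) with h9 | h9
      · rw [h9]; norm_num
      · exact h9.2
    linarith
  have hDpos : ∀ e, 0 < O.D e := by
    intro e
    have := hO.hD e
    have := hO.hq
    have := hO.hqD
    linarith
  have hσR : ∀ c, σ c ≤ 2 * L * Rd := by
    intro c
    have h1 : (σ c : ℝ) ≤ ((2 * L * Rd : ℕ) : ℝ) := by
      rw [hσ]
      push_cast
      have h2 := (abs_le.mp (hO.bs c)).2
      have := mul_le_mul_of_nonneg_right h2 hRd0.le
      linarith
    exact_mod_cast h1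
  have hsub : ∀ e, (σ (O.a e) : ℝ) - σ (O.b e) = O.D e * Rd := by
    intro e; rw [hσ, hσ]; unfold Out.D; ring
  have hLL : (L:ℝ) ≤ L ^ 2 := by nlinarith
  have hRL : (Rd:ℝ) * L ≤ Rd * L ^ 2 := mul_le_mul_of_nonneg_left hLL hRd0.le
  have hRL1 : (L:ℝ) ≤ Rd * L ^ 2 := by nlinarith
  have hRL2 : (1:ℝ) ≤ Rd * L ^ 2 := by nlinarith
  have sX : ∀ c (x : ℝ), |x| ≤ L → |(σ c : ℝ) * x + Rd * O.t c| ≤ 3 * (Rd * L ^ 2) := by
    intro c x hx
    have h1 : (σ c : ℝ) ≤ 2 * L * Rd := by exact_mod_cast hσR c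
    have h2 : |(σ c : ℝ) * x| ≤ (2 * L * Rd) * L := by
      rw [abs_mul, abs_of_nonneg (by positivity : (0:ℝ) ≤ σ c)]
      exact mul_le_mul h1 hx (abs_nonneg _) (by positivity)
    have h3 : |(Rd:ℝ) * O.t c| ≤ Rd * L := by
      rw [abs_mul, abs_of_pos hRd0]
      exact mul_le_mul_of_nonneg_left (hO.bt c) hRd0.le
    calc _ ≤ |(σ c : ℝ) * x| + |(Rd:ℝ) * O.t c| := abs_add_le _ _
      _ ≤ 3 * (Rd * L ^ 2) := by
          have e1 : (2 * (L:ℝ) * Rd) * L = 2 * (Rd * L ^ 2) := by ring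
          rw [e1] at h2
          linarith
  have hdist : ∀ (e : R) (z : ℝ), q ≤ O.D e * |z| → 1 ≤ ((12 * Q : ℕ) : ℝ) * |z| := by
    intro e z h1
    have h2 : O.D e * |z| ≤ 12 * |z| := mul_le_mul_of_nonneg_right (hD12 e) (abs_nonneg _)
    have h3 : q * Q ≤ 12 * |z| * Q := mul_le_mul_of_nonneg_right (h1.trans h2) hQ0.le
    rw [hqQ] at h3
    push_cast
    linarith
  obtain ⟨e₀, he₀⟩ := hne
  refine
    { hΔ := hΔ
      hΔR := ?_
      hU := ?_
      hM := ?_
      hσ := hσR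
      tie := fun e => by
        rw [hF]
        have := hO.tie e.1
        change (Rd:ℝ) * O.F (O.b e.1) e.1 = 0
        rw [this, mul_zero]
      D1 := fun e => ?_
      D2 := fun e => ?_
      mg := fun e c h1 h2 => ?_
      sep := fun e f h1 => ?_
      sepo := fun e c g h1 h2 => ?_
      bx := fun e => ?_
      bY := fun e => ?_
      bt := fun c => ?_
      bF := fun e c => ?_
      bxs := fun c g => ?_
      bys := fun c g => ?_
      real := fun e => hO.real e.1
      acta := fun e g => ?_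
      actb := fun e g => ?_
      th := fun e c g h1 h2 h3 => ?_
      level := fun e => ?_
      inj := fun e f h1 h2 => Subtype.ext (hO.inj e.1 f.1 h1 h2) }
  · have h1 : (Δ:ℝ) ≤ σ (O.a e₀) := by
      have h2 := (hS e₀ he₀).1
      have h3 := hsub e₀
      have h4 : (0:ℝ) ≤ σ (O.b e₀) := by positivity
      linarith
    have h5 : Δ ≤ σ (O.a e₀) := by exact_mod_cast h1
    exact h5.trans (hσR _)
  · push_cast; nlinarith
  · push_cast; nlinarith
  · have h1 := (hS e.1 e.2).1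
    have h2 := hsub e.1
    have h3 : (σ (O.b e.1) : ℝ) + Δ ≤ σ (O.a e.1) := by linarith
    exact_mod_cast h3
  · have h1 := (hS e.1 e.2).2
    have h2 := hsub e.1
    have h3 : (σ (O.a e.1) : ℝ) ≤ σ (O.b e.1) + 2 * Δ := by linarith
    exact_mod_cast h3
  · rw [hF, abs_mul, abs_of_pos hRd0]
    have h3 := hO.g1 e.1 c h1 h2
    have h4 : 1 * |O.F c e.1| ≤ Rd * |O.F c e.1| := mul_le_mul_of_nonneg_right hRd (abs_nonneg _)
    have h5 : q * Q ≤ (Rd * |O.F c e.1|) * Q := mul_le_mul_of_nonneg_right (by linarith) hQ0.le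
    rw [hqQ] at h5
    push_cast
    linarith
  · exact hdist e.1 _ (hO.w e.1 f.1 (fun h2 => h1 (Subtype.ext h2)))
  · exact hdist e.1 _ (hO.own e.1 c g h1 h2).2.2
  · have := hO.bX e.1
    change |O.X e.1| ≤ _
    push_cast; linarith
  · have := sX (O.a e.1) (O.X e.1) (hO.bX e.1)
    change |(σ (O.a e.1) : ℝ) * O.X e.1 + Rd * O.t (O.a e.1)| ≤ _
    push_cast; linarith
  · change |(Rd:ℝ) * O.t c| ≤ _
    rw [abs_mul, abs_of_pos hRd0]
    have := mul_le_mul_of_nonneg_left (hO.bt c) hRd0.le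
    push_cast; linarith
  · rw [hF, abs_mul, abs_of_pos hRd0]
    have key : ∀ c, |O.s c * O.X e.1 + O.t c| ≤ 2 * (L:ℝ) ^ 2 := by
      intro c
      have h1 : |O.s c * O.X e.1| ≤ L * L := by
        rw [abs_mul]; exact mul_le_mul (hO.bs c) (hO.bX e.1) (abs_nonneg _) hL0.le
      calc _ ≤ |O.s c * O.X e.1| + |O.t c| := abs_add_le _ _
        _ ≤ L * L + L := add_le_add h1 (hO.bt c)
        _ ≤ 2 * (L:ℝ) ^ 2 := by nlinarith
    have h1 : |O.F c e.1| ≤ 4 * (L:ℝ) ^ 2 := by
      unfold Out.F Out.Y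
      calc _ ≤ |O.s c * O.X e.1 + O.t c| + |O.s (O.a e.1) * O.X e.1 + O.t (O.a e.1)| := abs_sub _ _
        _ ≤ 2 * (L:ℝ) ^ 2 + 2 * (L:ℝ) ^ 2 := add_le_add (key _) (key _)
        _ = _ := by ring
    have h2 := mul_le_mul_of_nonneg_left h1 hRd0.le
    push_cast; linarith
  · have := hO.bxs c g
    change |O.xs c g| ≤ _
    push_cast; linarith
  · have := sX c (O.xs c g) (hO.bxs c g)
    change |(σ c : ℝ) * O.xs c g + Rd * O.t c| ≤ _
    push_cast; linarith
  · by_cases hg : g = O.slot e.1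
    · have h1 := hO.rd2 e.1
      have h2 := hDpos e.1
      change 0 < O.d (O.a e.1) g
      rw [hg]; linarith
    · exact (hO.own e.1 (O.a e.1) g (Or.inl rfl) (fun h1 => hg h1.2)).1
  · apply (hO.own e.1 (O.b e.1) g (Or.inr rfl) _).1
    rintro ⟨h1, -⟩
    have h2 := hDpos e.1
    unfold Out.D at h2
    rw [h1] at h2
    simp at h2
  · rw [hF, abs_mul, abs_of_pos hRd0]
    exact hO.th e.1 c g h1 h2 (h3 g)
  · have h1 := hO.level e.1
    rw [← h1]
    apply Finset.sum_congr rfl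
    intro c _
    exact if_congr (hFs c e) rfl rfl

end

/-- rescaling and choosing a class of events -/
theorem HasO.up {Δ N E P Q T L C : ℕ} (h : HasO Δ N E P Q T L C) (hQ : 1 ≤ Q) (hL : 1 ≤ L) :
    ∃ Δ' E', HasI N E' P (2 * L * (T * C)) Δ' (4 * (T * C) * L ^ 2) (12 * Q) ∧
      E ≤ E' * (Nat.log 2 (12 * (T * C)) + 1) := by
  classical
  obtain ⟨hP, hE, A, R, H, _, _, _, O, k, K, hO, hA, hR, hH⟩ := h
  set Rd := T * C with hRd
  choose n hn1 hn2 hn3 using hO.nD
  -- natural slopes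
  have hs : ∀ c, ∃ m : ℕ, (m : ℝ) = O.s c * Rd + L * Rd := by
    intro c
    obtain ⟨z, hz⟩ := hO.slopes c
    have h1 : O.s c * Rd + L * Rd = ((z + L * Rd : ℤ) : ℝ) := by push_cast; rw [← hz]
    have h2 : (0:ℝ) ≤ ((z + L * Rd : ℤ) : ℝ) := by
      rw [← h1]
      have := (abs_le.mp (hO.bs c)).1
      have hR0 : (0:ℝ) ≤ (Rd:ℝ) := by positivity
      have := mul_le_mul_of_nonneg_right this hR0
      linarith
    have h3 : 0 ≤ z + L * Rd := by exact_mod_cast h2
    refine ⟨(z + L * Rd).toNat, ?_⟩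
    rw [h1]
    have h4 : (((z + L * Rd).toNat : ℕ) : ℤ) = z + L * Rd := Int.toNat_of_nonneg h3
    rw [← h4]; push_cast; rfl
  choose σ hσ using hs
  set J := Nat.log 2 (12 * Rd) + 1 with hJ
  -- the classes
  have hmaps : ∀ e ∈ (Finset.univ : Finset R), Nat.log 2 (n e) ∈ Finset.range J := by
    intro e _
    rw [Finset.mem_range, hJ]
    have := Nat.log_mono_right (b := 2) (hn3 e)
    omega
  have hJ0 : 0 < J := by omega
  have hcard : E = ∑ j ∈ Finset.range J,
      (Finset.univ.filter (fun e : R => Nat.log 2 (n e) = j)).card := by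
    rw [← hR, ← Finset.card_univ]
    exact Finset.card_eq_sum_card_fiberwise hmaps
  obtain ⟨j, hj, hj2⟩ : ∃ j ∈ Finset.range J,
      E ≤ (Finset.univ.filter (fun e : R => Nat.log 2 (n e) = j)).card * J := by
    by_contra hcon
    push Not at hcon
    have h1 : ∑ j ∈ Finset.range J,
        (Finset.univ.filter (fun e : R => Nat.log 2 (n e) = j)).card * J <
        ∑ _j ∈ Finset.range J, E :=
      Finset.sum_lt_sum_of_nonempty (Finset.nonempty_range_iff.mpr hJ0.ne') hcon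
    rw [← Finset.sum_mul, ← hcard] at h1
    simp only [Finset.sum_const, Finset.card_range, smul_eq_mul] at h1
    rw [mul_comm] at h1
    exact lt_irrefl _ h1
  set S : R → Prop := fun e => Nat.log 2 (n e) = j with hS
  have hScard : Fintype.card {e : R // S e} =
      (Finset.univ.filter (fun e : R => Nat.log 2 (n e) = j)).card := Fintype.card_subtype S
  have hpos : 1 ≤ (Finset.univ.filter (fun e : R => Nat.log 2 (n e) = j)).card := by
    by_contra h1
    have h2 : (Finset.univ.filter (fun e : R => Nat.log 2 (n e) = j)).card = 0 := by omega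
    rw [h2, zero_mul] at hj2
    omega
  have hne : ∃ e, S e := by
    obtain ⟨e, he⟩ := Finset.card_pos.mp hpos
    exact ⟨e, (Finset.mem_filter.mp he).2⟩
  have hgood := hO.inn (Q := Q) rfl hQ hL σ hσ (2 ^ j) Nat.one_le_two_pow S hne (by
    intro e he
    rw [← hn1 e]
    have he' : Nat.log 2 (n e) = j := he
    have h1 : 2 ^ j ≤ n e := by
      rw [← he']; exact Nat.pow_log_le_self 2 (by have := hn2 e; omega)
    have h2 : n e ≤ 2 * 2 ^ j := by
      have := Nat.lt_pow_succ_log_self (b := 2) (by norm_num) (n e)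
      rw [he', pow_succ] at this
      omega
    constructor
    · exact_mod_cast h1
    · exact_mod_cast h2)
  refine ⟨2 ^ j, Fintype.card {e : R // S e}, ⟨hP, by rw [hScard]; exact hpos, A, {e : R // S e}, H,
    inferInstance, inferInstance, inferInstance, O.inn Rd L σ S, k, hgood, hA, rfl, hH⟩, ?_⟩
  rw [hScard]
  exact hj2

end Pool.Agent.N35.HL
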